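import Pool.Agent.Lib.MP_3dbf58_gt.AbelA

/-! Abel calculus of order `N / 2`, free of the geometric definitions. -/

open Set Filter Topology MeasureTheory

noncomputable section

namespace BonG

open Bon3.Ab (ioo tri)

/-- the beta constant -/
def cM (M : ℕ) : ℝ := ∫ s in (0 : ℝ)..1, √(s * (1 - s)) ^ M

/-- Abel integral of order `M / 2 + 1` from the base point `b` -/
def JM (M : ℕ) (φ : ℝ → ℂ) (b x : ℝ) : ℂ := ∫ a in b..x, √(x - a) ^ M • φ a

theorem cM_pos (M : ℕ) : 0 < cM M :=
  intervalIntegral.intervalIntegral_pos_of_pos_on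
    ((by fun_prop : Continuous fun s : ℝ => √(s * (1 - s)) ^ M).intervalIntegrable _ _)
    (fun s hs => pow_pos (Real.sqrt_pos.2 (mul_pos hs.1 (sub_pos.2 hs.2))) _) zero_lt_one

theorem cM_le (M : ℕ) : cM M ≤ 1 := by
  have := intervalIntegral.integral_mono_on (μ := volume) (f := fun s : ℝ => √(s * (1 - s)) ^ M)
    (g := fun _ => (1 : ℝ)) zero_le_one
    ((by fun_prop : Continuous fun s : ℝ => √(s * (1 - s)) ^ M).intervalIntegrable _ _)
    (continuous_const.intervalIntegrable _ _) fun s hs =>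
      pow_le_one₀ (Real.sqrt_nonneg _) (Real.sqrt_le_one.2 (by nlinarith [hs.1, hs.2]))
  simpa [cM] using this

theorem JM_cont (M : ℕ) {φ : ℝ → ℂ} (c : Continuous φ) (b : ℝ) : Continuous (JM M φ b) :=
  intervalIntegral.continuous_parametric_intervalIntegral_of_continuous
    (f := fun x a => √(x - a) ^ M • φ a) (by
      unfold Function.uncurry
      fun_prop) continuous_id

/-- the weighted substitution -/
theorem JM_sub (M : ℕ) (ψ : ℝ → ℂ) {b x : ℝ} (h : b ≤ x) :
    JM M (fun a => √(a - b) ^ M • ψ a) b x =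
      (x - b) ^ (M + 1) • ∫ s in (0 : ℝ)..1, √(s * (1 - s)) ^ M • ψ (b + s * (x - b)) := by
  have e := intervalIntegral.smul_integral_comp_add_mul
    (fun a => √(x - a) ^ M • √(a - b) ^ M • ψ a) (a := 0) (b := 1) (x - b) b
  rw [mul_zero, add_zero, mul_one, add_sub_cancel] at e
  rw [JM, ← e, pow_succ', mul_smul, ← intervalIntegral.integral_smul ((x - b) ^ M)]
  refine congrArg _ (intervalIntegral.integral_congr fun s hs => ?_)
  rw [uIcc_of_le zero_le_one] at hs
  have k : 0 ≤ x - b := sub_nonneg.2 h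
  have e1 : √(x - (b + (x - b) * s)) * √(b + (x - b) * s - b) = (x - b) * √(s * (1 - s)) := by
    rw [show x - (b + (x - b) * s) = (x - b) * (1 - s) by ring,
      show b + (x - b) * s - b = (x - b) * s by ring, Real.sqrt_mul k, Real.sqrt_mul k,
      Real.sqrt_mul hs.1]
    have := Real.mul_self_sqrt k
    linear_combination (√(1 - s) * √s) * this
  simp only [smul_smul]
  rw [← mul_pow, ← mul_pow, e1, mul_comm (x - b) s]

theorem JM_beta (M : ℕ) (u : ℂ) {b x : ℝ} (h : b ≤ x) :
    JM M (fun a => √(a - b) ^ M • u) b x = (cM M * (x - b) ^ (M + 1)) • u := by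
  rw [JM_sub M (fun _ => u) h, intervalIntegral.integral_smul_const, smul_smul, mul_comm, cM]

/-- the semigroup law -/
theorem JM_JM (M : ℕ) {φ : ℝ → ℂ} (c : Continuous φ) {b x : ℝ} (h : b ≤ x) :
    JM M (JM M φ b) b x = cM M • ∫ v in b..x, (x - v) ^ (M + 1) • φ v := by
  have cG : Continuous fun r : ℝ × ℝ => √(x - r.1) ^ M • √(r.1 - r.2) ^ M • φ r.2 := by fun_prop
  have cB : Continuous fun p : ℝ => ∫ q in b..p, ‖√(x - p) ^ M • √(p - q) ^ M • φ q‖ :=
    intervalIntegral.continuous_parametric_intervalIntegral_of_continuous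
      (f := fun p q => ‖√(x - p) ^ M • √(p - q) ^ M • φ q‖) cG.norm continuous_id
  have t := tri (l := b) (u := x) cG.measurable
    (B := fun p : ℝ => ∫ q in b..p, ‖√(x - p) ^ M • √(p - q) ^ M • φ q‖)
    (fun p _ => ((cG.comp (Continuous.prodMk_right p)).integrableOn_Icc).mono_set
      Ioo_subset_Icc_self)
    (fun p hp => (ioo hp.1.le).ge) (cB.integrableOn_Icc.mono_set Ioo_subset_Icc_self)
  rw [JM, ioo h, ← intervalIntegral.integral_smul, ioo h]
  refine (setIntegral_congr_fun measurableSet_Ioo fun p hp => ?_).trans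
    (t.trans (setIntegral_congr_fun measurableSet_Ioo fun q hq => ?_))
  · simp only [JM]
    rw [← intervalIntegral.integral_smul, ioo hp.1.le]
  · have := JM_beta M (φ q) hq.2.le
    rw [JM, ioo hq.2.le, mul_smul] at this
    exact this

theorem zero_of_prim {φ : ℝ → ℂ} (c : Continuous φ) {b x : ℝ} (h : b < x)
    (z : ∀ y ∈ Icc b x, ∫ v in b..y, φ v = 0) : ∀ y ∈ Icc b x, φ y = 0 := by
  have o : EqOn φ (fun _ => 0) (Ioo b x) := fun y hy => by
    have d := (c.deriv_integral φ b y).symm
    rw [d, Filter.EventuallyEq.deriv_eq (f := fun _ => (0 : ℂ))]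
    · simp
    · filter_upwards [Ioo_mem_nhds hy.1 hy.2] with t ht using z t (Ioo_subset_Icc_self ht)
  have := o.closure c continuous_const
  rw [closure_Ioo h.ne] at this
  exact this

/-- integration by parts against a power -/
theorem parts (n : ℕ) {f g : ℝ → ℂ} {b y : ℝ} (h : b ≤ y) (c : ContinuousOn g (Icc b y))
    (d : ∀ a ∈ Icc b y, HasDerivAt f (g a) a) :
    ∫ a in b..y, (y - a) ^ (n + 1) • g a =
      ((n : ℝ) + 1) • (∫ a in b..y, (y - a) ^ n • f a) - (y - b) ^ (n + 1) • f b := by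
  have cf : ContinuousOn f (Icc b y) := fun a ha => (d a ha).continuousAt.continuousWithinAt
  have i1 : IntervalIntegrable (fun a => (y - a) ^ (n + 1) • g a) volume b y :=
    ContinuousOn.intervalIntegrable_of_Icc h
      (ContinuousOn.smul (f := fun a => (y - a) ^ (n + 1)) (by fun_prop) c)
  have i2 : IntervalIntegrable (fun a => ((n : ℝ) + 1) • (y - a) ^ n • f a) volume b y :=
    ContinuousOn.intervalIntegrable_of_Icc h
      (ContinuousOn.const_smul (ContinuousOn.smul (f := fun a => (y - a) ^ n) (by fun_prop) cf)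
        ((n : ℝ) + 1))
  have e := intervalIntegral.integral_eq_sub_of_hasDerivAt
    (f := fun a => (y - a) ^ (n + 1) • f a)
    (f' := fun a => (y - a) ^ (n + 1) • g a - ((n : ℝ) + 1) • (y - a) ^ n • f a)
    (fun a ha => by
      rw [uIcc_of_le h] at ha
      refine ((((hasDerivAt_id' a).const_sub y).fun_pow (n + 1)).fun_smul (d a ha)).congr_deriv ?_
      rw [smul_smul, sub_eq_add_neg ((y - a) ^ (n + 1) • g a), ← neg_smul]
      congr 2
      push_cast
      simp) (i1.sub i2)
  rw [intervalIntegral.integral_sub i1 i2, intervalIntegral.integral_smul] at e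
  simp only [sub_self, ne_eq, Nat.add_eq_zero_iff, one_ne_zero, and_false, not_false_eq_true,
    zero_pow, zero_smul] at e
  linear_combination e

theorem pow_inj (n : ℕ) {b x : ℝ} (h : b < x) : ∀ {φ : ℝ → ℂ}, Continuous φ →
    (∀ y ∈ Icc b x, ∫ v in b..y, (y - v) ^ n • φ v = 0) → ∀ y ∈ Icc b x, φ y = 0 := by
  induction n with
  | zero => exact fun c z => zero_of_prim c h (by simpa using z)
  | succ n ih =>
    intro φ c z
    have dP : ∀ a, HasDerivAt (fun t => ∫ v in b..t, φ v) (φ a) a := fun a =>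
      (c.integral_hasStrictDerivAt b a).hasDerivAt
    refine zero_of_prim c h (ih (continuous_iff_continuousAt.2 fun a => (dP a).continuousAt)
      fun y hy => ?_)
    have := parts n hy.1 c.continuousOn fun a _ => dP a
    rw [z y hy, intervalIntegral.integral_same, smul_zero, sub_zero] at this
    exact (smul_eq_zero.1 this.symm).resolve_left (by positivity)

/-- the Abel integral is injective -/
theorem JM_inj (M : ℕ) {φ : ℝ → ℂ} (c : Continuous φ) {b x : ℝ} (h : b < x)
    (z : ∀ y ∈ Icc b x, JM M φ b y = 0) : ∀ y ∈ Icc b x, φ y = 0 := by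
  refine pow_inj (M + 1) h c fun y hy => ?_
  have e := JM_JM M c hy.1
  rw [JM, intervalIntegral.integral_congr (g := fun _ => 0) fun a ha => by
    rw [uIcc_of_le hy.1] at ha
    simp only [z a ⟨ha.1, ha.2.trans hy.2⟩, smul_zero], intervalIntegral.integral_zero] at e
  exact (smul_eq_zero.1 e.symm).resolve_left (cM_pos M).ne'

/-- Taylor's formula with integral remainder at a zero of order `n` -/
theorem taylor0 {k : ℕ → ℝ → ℂ} {b y : ℝ} (h : b ≤ y)
    (d : ∀ j, ∀ a ∈ Icc b y, HasDerivAt (k j) (k (j + 1) a) a) (n : ℕ) (z : ∀ j < n, k j b = 0) :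
    (n.factorial : ℝ) • k 0 y = (y - b) ^ n • k n b + ∫ a in b..y, (y - a) ^ n • k (n + 1) a := by
  have c : ∀ j, ContinuousOn (k j) (Icc b y) := fun j a ha =>
    (d j a ha).continuousAt.continuousWithinAt
  induction n with
  | zero =>
    have := intervalIntegral.integral_eq_sub_of_hasDerivAt (f := k 0) (f' := k 1)
      (fun a ha => d 0 a (by rwa [uIcc_of_le h] at ha))
      (ContinuousOn.intervalIntegrable_of_Icc h (c 1))
    simp [this]
  | succ n ih =>
    have e := ih fun j hj => z j (by omega)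
    rw [z n (by omega), smul_zero, zero_add] at e
    rw [parts n h (c (n + 2)) (d (n + 1)), ← e, smul_smul, Nat.factorial_succ]
    push_cast
    ring

/-- derivatives of a function with a zero of order `n` -/
theorem ord_deriv {O : Set ℂ} (op : IsOpen O) {Q : ℂ → ℂ} (dQ : DifferentiableOn ℂ Q O) (b : ℂ)
    (n j : ℕ) (hj : j ≤ n) : ∃ R : ℂ → ℂ, DifferentiableOn ℂ R O ∧
      R b = n.descFactorial j * Q b ∧
      EqOn (iteratedDeriv j fun a => (a - b) ^ n * Q a) (fun a => (a - b) ^ (n - j) * R a) O := by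
  induction j with
  | zero => exact ⟨Q, dQ, by simp, fun a _ => by simp⟩
  | succ j ih =>
    obtain ⟨R, dR, e, hR⟩ := ih (by omega)
    obtain ⟨m, hm⟩ : ∃ m, n - j = m + 1 := ⟨n - j - 1, by omega⟩
    refine ⟨fun a => ((m : ℂ) + 1) * R a + (a - b) * deriv R a,
      (dR.const_mul _).add (DifferentiableOn.mul (by fun_prop) (dR.deriv op)), ?_, fun a ha => ?_⟩
    · simp only [e, Nat.descFactorial_succ, hm]
      push_cast
      ring
    · rw [iteratedDeriv_succ, Filter.EventuallyEq.deriv_eq
        (f := fun a => (a - b) ^ (m + 1) * R a) (by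
          filter_upwards [op.mem_nhds ha] with t ht using hm ▸ hR ht),
        ((((hasDerivAt_id' a).sub_const b).fun_pow (m + 1)).fun_mul
          (dR.differentiableAt (op.mem_nhds ha)).hasDerivAt).deriv,
        show n - (j + 1) = m by omega]
      simp only [Nat.add_sub_cancel]
      push_cast
      ring

theorem iter_diff {O : Set ℂ} (op : IsOpen O) {K : ℂ → ℂ} (dK : DifferentiableOn ℂ K O) (j : ℕ) :
    DifferentiableOn ℂ (iteratedDeriv j K) O := by
  induction j with
  | zero => simpa using dK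
  | succ j ih => rw [iteratedDeriv_succ]; exact ih.deriv op

/-- one variable Abel inversion -/
theorem abelM (M : ℕ) {O : Set ℂ} (op : IsOpen O) {Ψ Q : ℂ → ℂ} {b x : ℝ} (h : b < x)
    (hO : ∀ a ∈ Icc b x, (a : ℂ) ∈ O) (cΨ : ContinuousOn (fun a : ℝ => Ψ a) (Icc b x))
    (dQ : DifferentiableOn ℂ Q O)
    (hQ : ∀ a ∈ Icc b x, Q a =
      ∫ s in (0 : ℝ)..1, √(s * (1 - s)) ^ M • Ψ ((b + s * (a - b) : ℝ) : ℂ)) :
    (((M + 1).factorial : ℝ) * cM M * √(x - b) ^ M) • Ψ b +
      ∫ a in b..x, √(x - a) ^ M • iteratedDeriv (M + 2) (fun a => (a - b) ^ (M + 1) * Q a) a =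
    (((M + 1).factorial : ℝ) * cM M * √(x - b) ^ M) • Ψ x := by
  set K : ℂ → ℂ := fun a => (a - b) ^ (M + 1) * Q a with hK
  have dK : DifferentiableOn ℂ K O := DifferentiableOn.mul (by fun_prop) dQ
  have dk : ∀ j, ∀ a ∈ Icc b x, HasDerivAt (fun t : ℝ => iteratedDeriv j K t)
      (iteratedDeriv (j + 1) K a) a := fun j a ha => by
    rw [iteratedDeriv_succ]
    exact ((iter_diff op dK j).differentiableAt (op.mem_nhds (hO a ha))).hasDerivAt.comp_ofReal
  set cl : ℝ → ℝ := fun a => max b (min a x)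
  have cc : Continuous cl := by fun_prop
  have cm : ∀ a, cl a ∈ Icc b x := fun a => ⟨le_max_left _ _, max_le h.le (min_le_right _ _)⟩
  have ce : ∀ a ∈ Icc b x, cl a = a := fun a ha => by
    simp only [cl, min_eq_left ha.2, max_eq_right ha.1]
  have c1 : Continuous fun a => Ψ (cl a) := cΨ.comp_continuous cc cm
  have c2 : Continuous fun a => iteratedDeriv (M + 2) K (cl a) :=
    ContinuousOn.comp_continuous (g := fun t : ℝ => iteratedDeriv (M + 2) K t)
      (fun a ha => (dk _ a ha).continuousAt.continuousWithinAt) cc cm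
  have c3 := JM_cont M c2 b
  have c4 : Continuous fun a => √(a - b) ^ M • Ψ (cl a) :=
    Continuous.smul (f := fun a => √(a - b) ^ M) (by fun_prop) c1
  set C : ℝ := ((M + 1).factorial : ℝ) * cM M with hC
  have bb : b ∈ Icc b x := left_mem_Icc.2 h.le
  have Qb : Q b = cM M • Ψ b := by
    rw [hQ b bb]
    simp only [sub_self, mul_zero, add_zero]
    rw [intervalIntegral.integral_smul_const, cM]
  have z := JM_inj M (φ := fun y => C • √(y - b) ^ M • Ψ b +
      JM M (fun a => iteratedDeriv (M + 2) K (cl a)) b y - C • √(y - b) ^ M • Ψ (cl y))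
    ((Continuous.add (by fun_prop) c3).sub (c4.const_smul C)) h (fun y hy => by
      have sb : Icc b y ⊆ Icc b x := Icc_subset_Icc_right hy.2
      have e1 := JM_beta M (Ψ b) hy.1
      have e2 := JM_JM M c2 hy.1
      have e3 := JM_sub M (fun a => Ψ (cl a)) hy.1
      have e4 := taylor0 (k := fun j (t : ℝ) => iteratedDeriv j K t) hy.1
        (fun j a ha => dk j a (sb ha)) (M + 1) fun j hj => by
          obtain ⟨R, -, -, hR⟩ := ord_deriv op dQ b (M + 1) j hj.le
          rw [hR (hO b bb)]
          simp [show M + 1 - j ≠ 0 by omega]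
      obtain ⟨R, -, eR, hR⟩ := ord_deriv op dQ b (M + 1) (M + 1) le_rfl
      rw [hR (hO b bb)] at e4
      simp only [Nat.sub_self, pow_zero, one_mul, eR, Nat.descFactorial_self, Qb,
        iteratedDeriv_zero] at e4
      rw [intervalIntegral.integral_congr (g := fun v : ℝ =>
        (y - v) ^ (M + 1) • iteratedDeriv (M + 1 + 1) K v) (fun a ha => by
          rw [uIcc_of_le hy.1] at ha
          simp only [ce a (sb ha)])] at e2
      rw [intervalIntegral.integral_congr (g := fun s : ℝ =>
        √(s * (1 - s)) ^ M • Ψ ((b + s * (y - b) : ℝ) : ℂ)) (fun s hs => by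
          rw [uIcc_of_le zero_le_one] at hs
          have k := sub_nonneg.2 hy.1
          simp only [ce (b + s * (y - b)) ⟨by nlinarith [hs.1], by nlinarith [hs.2, hy.2]⟩]),
        ← hQ y hy] at e3
      have i1 : IntervalIntegrable (fun a => √(y - a) ^ M • C • √(a - b) ^ M • Ψ b) volume b y :=
        Continuous.intervalIntegrable (by fun_prop) _ _
      have i2 : IntervalIntegrable (fun a => √(y - a) ^ M •
          JM M (fun a => iteratedDeriv (M + 2) K (cl a)) b a) volume b y :=
        Continuous.intervalIntegrable (by fun_prop) _ _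
      have i3 : IntervalIntegrable (fun a => √(y - a) ^ M • C • √(a - b) ^ M • Ψ (cl a))
          volume b y := Continuous.intervalIntegrable
            (Continuous.smul (f := fun a => √(y - a) ^ M) (by fun_prop) (c4.const_smul C)) _ _
      rw [JM] at e1 e2 e3 ⊢
      simp only [smul_add, smul_sub]
      rw [intervalIntegral.integral_sub (i1.add i2) i3, intervalIntegral.integral_add i1 i2, e2]
      simp only [smul_comm _ C, intervalIntegral.integral_smul]
      rw [e1, e3]
      simp only [hK, hC, Complex.real_smul] at e4 ⊢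
      push_cast at e4 ⊢
      linear_combination (-(cM M : ℂ)) * e4) x (right_mem_Icc.2 h.le)
  rw [ce x (right_mem_Icc.2 h.le), JM, intervalIntegral.integral_congr (g := fun a : ℝ =>
    √(x - a) ^ M • iteratedDeriv (M + 2) K a) (fun a ha => by
      rw [uIcc_of_le h.le] at ha
      simp only [ce a ha]), smul_smul, smul_smul] at z
  exact sub_eq_zero.1 z

/-! ### The same with `N = M + 2` and integrals over open intervals -/

/-- the beta constant of dimension `N` -/
def cN (N : ℕ) : ℝ := ∫ s in Ioo (0 : ℝ) 1, √(s * (1 - s)) ^ (N - 2)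

theorem cN_eq (N : ℕ) : cN N = cM (N - 2) := (ioo zero_le_one).symm

theorem cN_pos (N : ℕ) : 0 < cN N := cN_eq N ▸ cM_pos _

theorem cN_le (N : ℕ) : cN N ≤ 1 := cN_eq N ▸ cM_le _

theorem abel1 {N : ℕ} (hN : 2 ≤ N) {O : Set ℂ} (op : IsOpen O) {Ψ Q : ℂ → ℂ} {b x : ℝ}
    (h : b < x) (hO : ∀ a ∈ Icc b x, (a : ℂ) ∈ O)
    (cΨ : ContinuousOn (fun a : ℝ => Ψ a) (Icc b x)) (dQ : DifferentiableOn ℂ Q O)
    (hQ : ∀ a ∈ Icc b x, Q a = ∫ s in Ioo (0 : ℝ) 1,
      ((√(s * (1 - s)) ^ (N - 2) : ℝ) : ℂ) * Ψ (b + s * (a - b))) :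
    ((N - 1).factorial : ℂ) * cN N * ((√(x - b) ^ (N - 2) : ℝ) : ℂ) * Ψ b +
      ∫ a in Ioo b x, ((√(x - a) ^ (N - 2) : ℝ) : ℂ) *
        iteratedDeriv N (fun a => (a - b) ^ (N - 1) * Q a) a =
    ((N - 1).factorial : ℂ) * cN N * ((√(x - b) ^ (N - 2) : ℝ) : ℂ) * Ψ x := by
  obtain ⟨M, rfl⟩ : ∃ M, N = M + 2 := ⟨N - 2, by omega⟩
  have := abelM M op h hO cΨ dQ fun a ha => by
    rw [hQ a ha, ioo zero_le_one]
    simp only [Complex.real_smul, Nat.add_sub_cancel]
    push_cast
    rfl
  rw [ioo h.le] at this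
  simpa only [Complex.real_smul, cN_eq, Nat.add_sub_cancel, Complex.ofReal_mul,
    Complex.ofReal_natCast, show M + 2 - 1 = M + 1 from rfl] using this

/-- Fubini step: a pointwise inversion gives the inversion of the integral operator -/
theorem abel2 {f d ψ : ℝ → ℂ} {κ : ℝ → ℝ → ℂ} {w : ℝ → ℝ} {x K : ℝ} {C : ℂ} (cw : Continuous w)
    (cκ : ContinuousOn (fun p : ℝ × ℝ => f p.2 * κ p.1 p.2) {p | 0 < p.2 ∧ p.2 < p.1 ∧ p.1 < x})
    (bκ : ∀ a b, 0 < b → b < a → a < x → ‖f b * κ a b‖ ≤ K)
    (id : IntegrableOn (fun b => f b * d b) (Ioo 0 x))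
    (pt : ∀ b ∈ Ioo 0 x, C * w b * d b + ∫ a in Ioo b x, w a * κ a b = C * w b * ψ b) :
    ∫ a in Ioo 0 x, w a * (C * (f a * d a) + a * ∫ v in Ioo (0 : ℝ) 1, f (v * a) * κ a (v * a)) =
      C * ∫ b in Ioo 0 x, f b * w b * ψ b := by
  classical
  set T : Set (ℝ × ℝ) := {p | 0 < p.2 ∧ p.2 < p.1 ∧ p.1 < x}
  have mT : MeasurableSet T := (IsOpen.measurableSet ((isOpen_lt continuous_const continuous_snd).inter
    ((isOpen_lt continuous_snd continuous_fst).inter (isOpen_lt continuous_fst continuous_const))))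
  obtain ⟨W, hW⟩ := isCompact_Icc.exists_bound_of_continuousOn (cw.continuousOn (s := Icc 0 x))
  set G : ℝ × ℝ → ℂ := T.piecewise (fun p => f p.2 * κ p.1 p.2) fun _ => 0
  have mG : Measurable G := cκ.measurable_piecewise continuousOn_const mT
  have eG : ∀ a b, 0 < b → b < a → a < x → G (a, b) = f b * κ a b := fun a b h1 h2 h3 =>
    piecewise_eq_of_mem _ _ _ (show (a, b) ∈ T from ⟨h1, h2, h3⟩)
  have mw : Measurable fun a => (w a : ℂ) := by fun_prop
  have bd : ∀ p ∈ Ioo 0 x, ∀ q ∈ Ioo 0 p, ‖(w p : ℂ) * G (p, q)‖ ≤ |W * K| := fun p hp q hq => by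
    rw [eG p q hq.1 hq.2 hp.2, norm_mul, Complex.norm_real]
    exact (mul_le_mul (hW p (Ioo_subset_Icc_self hp)) (bκ p q hq.1 hq.2 hp.2) (norm_nonneg _)
      ((norm_nonneg _).trans (hW p (Ioo_subset_Icc_self hp)))).trans (le_abs_self _)
  have mH : Measurable fun r : ℝ × ℝ => (w r.1 : ℂ) * G r := (mw.comp measurable_fst).mul mG
  have i1 : ∀ p ∈ Ioo 0 x, IntegrableOn (fun q => (w p : ℂ) * G (p, q)) (Ioo 0 p) := fun p hp =>
    Measure.integrableOn_of_bounded (M := |W * K|) measure_Ioo_lt_top.ne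
      (mH.comp measurable_prodMk_left).aestronglyMeasurable
      ((ae_restrict_mem measurableSet_Ioo).mono (bd p hp))
  have i2 : ∀ p ∈ Ioo 0 x, ∫ q in Ioo 0 p, ‖(w p : ℂ) * G (p, q)‖ ≤ |W * K| * x := fun p hp => by
    refine (le_abs_self _).trans ((norm_setIntegral_le_of_norm_le_const (C := |W * K|)
      (f := fun q => ‖(w p : ℂ) * G (p, q)‖) measure_Ioo_lt_top fun q hq => by rw [norm_norm]; exact bd p hp q hq).trans ?_)
    rw [Real.volume_real_Ioo, sub_zero, max_eq_left hp.1.le]
    exact mul_le_mul_of_nonneg_left hp.2.le (abs_nonneg _)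
  have t := tri (G := fun r => (w r.1 : ℂ) * G r) (l := 0) (u := x) (B := fun _ => |W * K| * x) mH
    i1 i2 (integrableOn_const measure_Ioo_lt_top.ne)
  have iw : IntegrableOn (fun a => (w a : ℂ) * (C * (f a * d a))) (Ioo 0 x) :=
    Integrable.bdd_mul (c := W) (id.const_mul C) mw.aestronglyMeasurable
      ((ae_restrict_mem measurableSet_Ioo).mono fun a ha => by
        rw [Complex.norm_real]; exact hW a (Ioo_subset_Icc_self ha))
  have i3 : IntegrableOn (fun p => ∫ q in Ioo 0 p, (w p : ℂ) * G (p, q)) (Ioo 0 x) := by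
    have : StronglyMeasurable fun p : ℝ => ∫ q, indicator {r : ℝ × ℝ | 0 < r.2 ∧ r.2 < r.1}
        (fun r => (w r.1 : ℂ) * G r) (p, q) :=
      (mH.indicator ((measurableSet_lt measurable_const measurable_snd).inter
        (measurableSet_lt measurable_snd measurable_fst))).stronglyMeasurable.integral_prod_right'
    refine Measure.integrableOn_of_bounded (M := |W * K| * x) measure_Ioo_lt_top.ne
      (this.aestronglyMeasurable.congr (Eventually.of_forall fun p => ?_))
      ((ae_restrict_mem measurableSet_Ioo).mono fun p hp =>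
        (norm_integral_le_integral_norm _).trans (i2 p hp))
    exact (integral_indicator (s := Ioo 0 p) (f := fun q => (w p : ℂ) * G (p, q))
      measurableSet_Ioo)
  have i4 : IntegrableOn (fun q => ∫ p in Ioo q x, (w p : ℂ) * G (p, q)) (Ioo 0 x) := by
    have : StronglyMeasurable fun q : ℝ => ∫ p, indicator {r : ℝ × ℝ | r.2 < r.1 ∧ r.1 < x}
        (fun r => (w r.1 : ℂ) * G r) (p, q) :=
      (mH.indicator ((measurableSet_lt measurable_snd measurable_fst).inter
        (measurableSet_lt measurable_fst measurable_const))).stronglyMeasurable.integral_prod_left'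
    refine Measure.integrableOn_of_bounded (M := |W * K| * x) measure_Ioo_lt_top.ne
      (this.aestronglyMeasurable.congr (Eventually.of_forall fun q => ?_))
      ((ae_restrict_mem measurableSet_Ioo).mono fun q hq => ?_)
    · exact (integral_indicator (s := Ioo q x) (f := fun p => (w p : ℂ) * G (p, q))
        measurableSet_Ioo)
    · refine (norm_setIntegral_le_of_norm_le_const (C := |W * K|) measure_Ioo_lt_top
        fun p hp => bd p ⟨hq.1.trans hp.1, hp.2⟩ q ⟨hq.1, hp.1⟩).trans ?_
      rw [Real.volume_real_Ioo, max_eq_left (sub_nonneg.2 hq.2.le)]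
      exact mul_le_mul_of_nonneg_left (by linarith [hq.1]) (abs_nonneg _)
  rw [setIntegral_congr_fun (g := fun a => (w a : ℂ) * (C * (f a * d a)) +
      ∫ q in Ioo 0 a, (w a : ℂ) * G (a, q)) measurableSet_Ioo fun a ha => by
    have := Bon3.Ab.sub (fun q => f q * κ a q) ha.1.le
    simp only [sub_zero, zero_add, mul_comm a, Complex.real_smul] at this
    simp only [mul_add, integral_const_mul]
    rw [setIntegral_congr_fun (g := fun q => f q * κ a q) measurableSet_Ioo
      fun q hq => eG a q hq.1 hq.2 ha.2, this], integral_add iw i3, t, ← integral_add iw i4,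
    ← integral_const_mul]
  refine setIntegral_congr_fun measurableSet_Ioo fun b hb => ?_
  rw [setIntegral_congr_fun (g := fun a => f b * ((w a : ℂ) * κ a b)) measurableSet_Ioo
    fun a ha => by
      simp only [eG a b hb.1 ha.1 ha.2]
      ring, integral_const_mul]
  linear_combination f b * pt b hb

end BonG
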