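import Pool.Agent.Lib.MP_3dbf58_gt.N.Lc
import Pool.Agent.Lib.MP_3dbf58_gt.N.AbelA

open Set Filter Topology MeasureTheory Metric

noncomputable section

namespace BonN

open Bon3

variable [Cs]

/-- the inversion at a fixed lower point -/
theorem abel_pt {θ : ℝ} {z e : ℂ → ℂ} (t0 : 0 < θ) (t1 : θ ≤ th0) (h : ZE θ z e) {x b : ℝ}
    (b0 : 0 < b) (bx : b < x) (x1 : x ≤ 1) :
    1 * ((√(x - b) ^ (ii + 1) : ℝ) : ℂ) * csq (nd z e b) ^ (ii + 1) +
      ∫ a in Ioo b x, ((√(x - a) ^ (ii + 1) : ℝ) : ℂ) * KK z e a b =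
    1 * ((√(x - b) ^ (ii + 1) : ℝ) : ℂ) * csq (nnI z e x b) ^ (ii + 1) := by
  have hb : (b : ℂ) ∈ Sec θ := Sec_real t0 b0 (bx.le.trans x1)
  have hO : ∀ a ∈ Icc b x, (a : ℂ) ∈ Sec θ := fun a ha =>
    Sec_real t0 (b0.trans_le ha.1) (ha.2.trans x1)
  have n0 : (be2 : ℂ) ≠ 0 := Complex.ofReal_ne_zero.2 be2_pos.ne'
  have f0 : ((ii + 2).factorial : ℂ) ≠ 0 := Nat.cast_ne_zero.2 (Nat.factorial_ne_zero _)
  have := BonG.abel1 (N := ii + 3) (by omega) (isOpen_Sec θ)
    (Ψ := fun a => csq (nnI z e a b) ^ (ii + 1)) (Q := fun a => be2 * Psi z e a b) bx hO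
    ((((h.two 1).nd t0.le t1 (kerh_0 one_pos hb)).continuousOn).comp (f := fun a : ℝ => (a : ℂ))
      (by fun_prop) fun a ha => kerh_0 one_pos (hO a ha))
    ((h.psi_diff t0.le t1 hb).const_mul _) fun a _ => mul_div_cancel₀ _ n0
  have e1 : ∀ a : ℝ, iteratedDeriv (ii + 3) (fun a => (a - b) ^ (ii + 3 - 1) * (be2 * Psi z e a b))
      (a : ℂ) = ((ii + 2).factorial * be2 : ℂ) * KK z e a b := fun a => by
    rw [show (fun a : ℂ => (a - b) ^ (ii + 3 - 1) * (be2 * Psi z e a b)) =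
      fun a => be2 * Th z e b a from funext fun a => mul_left_comm _ _ _,
      iteratedDeriv_const_mul_field, KK]
    field_simp
  simp only [e1, mul_left_comm _ ((ii + 2).factorial * be2 : ℂ), integral_const_mul,
    nnI_self] at this
  refine mul_left_cancel₀ (mul_ne_zero f0 n0) ?_
  rw [mul_add, one_mul, ← mul_assoc, ← mul_assoc]
  exact this

/-- Abel inversion on the real segment -/
theorem abel {θ θ' M A : ℝ} {z e w : ℂ → ℂ} (t0 : 0 < θ') (t2 : θ' ≤ θ) (t1 : θ ≤ th0)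
    (h : LD θ A z e w) (k : KN θ' M 0 z e) (rz : Rl z θ) (re : Rl e θ) (rw : Rl w θ)
    {x : ℝ} (hx : x ∈ Ioc (0 : ℝ) 1) :
    (gcap z e w x).re = Jr (fun v => (Lcap z e w v).re) x := by
  have s0 := t0.trans_le t2
  have hS : ∀ {a : ℝ}, 0 < a → a < x → (a : ℂ) ∈ Sec θ := fun a0 a1 =>
    Sec_real s0 a0 (a1.le.trans hx.2)
  have hx' : (x : ℂ) ∈ Sec θ := Sec_real s0 hx.1 hx.2
  have A0 : 0 ≤ 2 * A := nonneg_of_mul_nonneg_left ((norm_nonneg _).trans (ff_le s0.le t1 h hx'))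
    (pow_pos (norm_pos_iff.2 (Sec_ne hx')) 4)
  have fb : ∀ {b : ℝ}, 0 < b → b < x → ‖ff z w b‖ ≤ 2 * A * b := fun {b} b0 b1 => by
    refine (ff_le s0.le t1 h (hS b0 b1)).trans (mul_le_mul_of_nonneg_left ?_ A0)
    rw [Complex.norm_real, Real.norm_of_nonneg b0.le]
    exact pow_le_of_le_one b0.le (b1.le.trans hx.2) (by norm_num)
  have cf : ContinuousOn (ff z w) (Sec θ) :=
    (((h.dz.pow 2).sub ((DifferentiableOn.mul (by fun_prop) h.dz).mul
      (h.dz.deriv (isOpen_Sec θ)))).mul h.dw).continuousOn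
  have cd : ContinuousOn (fun b => csq (nd z e b)) (Sec θ) := fun b hb => by
    have c : ContinuousOn (nd z e) (Sec θ) := ((h.dz.pow 2).sub ((DifferentiableOn.mul
      (by fun_prop) (h.de.deriv (isOpen_Sec θ))).mul (h.dz.const_mul 2))).continuousOn
    exact ContinuousAt.comp_continuousWithinAt (csq_hasDerivAt (csq_pow_le
      (nnI_self z e b ▸ h.ze.nn s0.le t1 hb hb)).1).continuousAt (c b hb)
  have m := BonG.abel2 (f := fun b : ℝ => ff z w b) (d := fun b : ℝ => csq (nd z e b) ^ (ii + 1))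
    (ψ := fun b : ℝ => csq (nnI z e x b) ^ (ii + 1)) (κ := fun a b : ℝ => KK z e a b)
    (w := fun a => √(x - a) ^ (ii + 1)) (x := x) (K := 2 * A * M) (C := 1) (by fun_prop)
    ((cf.comp (f := fun p : ℝ × ℝ => (p.2 : ℂ)) (by fun_prop)
      fun p hp => hS hp.1 (hp.2.1.trans hp.2.2)).mul ((h.ze.kk_cont s0.le t1).comp
        (f := fun p : ℝ × ℝ => ((p.1 : ℂ), (p.2 : ℂ))) (by fun_prop)
        fun p hp => ⟨hS (hp.1.trans hp.2.1) hp.2.2, hS hp.1 (hp.2.1.trans hp.2.2)⟩))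
    (fun a b b0 ba ax => by
      have a0 := b0.trans ba
      have := k a (Sec_real t0 a0 (ax.le.trans hx.2)) (b / a) ⟨div_pos b0 a0, (div_lt_one a0).2 ba⟩
      rw [Complex.ofReal_zero, zero_mul, sub_zero, ← Complex.ofReal_mul, div_mul_cancel₀ _ a0.ne',
        norm_mul, Complex.norm_real, Real.norm_of_nonneg a0.le] at this
      rw [norm_mul]
      refine (mul_le_mul_of_nonneg_right ((fb b0 (ba.trans ax)).trans
        (mul_le_mul_of_nonneg_left ba.le A0)) (norm_nonneg _)).trans ?_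
      rw [mul_assoc]
      exact mul_le_mul_of_nonneg_left this A0)
    ((integrableOn_const (C := 2 * A * (3 / 2)) measure_Ioo_lt_top.ne).mono'
      (ContinuousOn.aestronglyMeasurable ((cf.mul (cd.pow _)).comp (f := fun b : ℝ => (b : ℂ))
        (by fun_prop) fun b hb => hS hb.1 hb.2) measurableSet_Ioo)
      ((ae_restrict_mem measurableSet_Ioo).mono fun b hb => lin_mul ((fb hb.1 hb.2).trans
        (mul_le_of_le_one_right A0 (hb.2.le.trans hx.2)))
        (csq_pow_le (nnI_self z e b ▸ h.ze.nn s0.le t1 (hS hb.1 hb.2) (hS hb.1 hb.2))).2))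
    fun b hb => abel_pt s0 t1 h.ze hb.1 hb.2 hx.2
  have e1 := Ab.sub (fun b : ℝ => ff z w b * csq (NN z e x b) ^ (ii + 1)) hx.1.le
  simp only [sub_zero, zero_add, mul_comm x, Complex.real_smul, Complex.ofReal_mul] at e1
  have e2 : gcap z e w x = ∫ a in Ioo 0 x,
      (((Lcap z e w a).re * √(x - a) ^ (ii + 1) : ℝ) : ℂ) := by
    rw [gcap, ← e1]
    refine ((setIntegral_congr_fun measurableSet_Ioo fun b hb => ?_).trans
      ((one_mul _).symm.trans m.symm)).trans (setIntegral_congr_fun measurableSet_Ioo fun a ha => ?_)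
    · obtain ⟨j, p, -⟩ := h.ze.nn_real s0.le t1 rz re hx' (hS hb.1 hb.2)
      have q : nnI z e x b = ((nnI z e x b).re : ℝ) := Complex.ext rfl j
      have r := sub_pos.2 hb.2
      rw [NN_eq z h.de hx' (hS hb.1 hb.2), q, ← Complex.ofReal_sub, ← Complex.ofReal_mul,
        csq_real (mul_pos r p).le, csq_real p.le, Real.sqrt_mul r.le]
      push_cast
      ring
    · have q : Lcap z e w a = ((Lcap z e w a).re : ℝ) :=
        Complex.ext rfl (Lcap_real s0 t1 h rz re rw a (hS ha.1 ha.2))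
      simp only [Complex.ofReal_mul]
      rw [← q, Lcap, one_mul, mul_comm]
  rw [e2, integral_complex_ofReal, Complex.ofReal_re, Jr, Ab.ioo hx.1.le]

end BonN
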