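import Pool.Agent.Lib.MP_3dbf58_gt.ArA

/-! Section integrals of bodies of revolution in higher dimension, in raw form. -/

open Set Filter Topology MeasureTheory Metric Bon3

noncomputable section

namespace BonG

theorem arr_le_one {g : ℝ → ℝ} (h : GOK g) {σ : ℝ} (s0 : 0 ≤ σ) (y x : ℝ) :
    Real.sqrt (g x - σ * (x + y) ^ 2) ≤ 1 := by
  refine Real.sqrt_le_one.2 ?_
  have := h.le x
  have : 0 ≤ σ * (x + y) ^ 2 := by positivity
  linarith

theorem arr_pow_lip {a b : ℝ} (a0 : 0 ≤ a) (a1 : a ≤ 1) (b0 : 0 ≤ b) (b1 : b ≤ 1) (n : ℕ) :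
    |a ^ n - b ^ n| ≤ n * |a - b| := by
  refine (abs_pow_sub_pow_le a b n).trans ?_
  have h1 : max |a| |b| ^ (n - 1) ≤ 1 := by
    refine pow_le_one₀ (le_max_of_le_left (abs_nonneg _)) (max_le ?_ ?_)
    · rwa [abs_of_nonneg a0]
    · rwa [abs_of_nonneg b0]
  calc |a - b| * n * max |a| |b| ^ (n - 1) ≤ |a - b| * n * 1 := by gcongr
    _ = n * |a - b| := by ring

theorem arr_cont {g : ℝ → ℝ} (h : GOK g) (σ y : ℝ) (n : ℕ) :
    Continuous fun x => Real.sqrt (g x - σ * (x + y) ^ 2) ^ n :=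
  (ara_N_cont h σ y).sqrt.pow n

theorem arr_Cr_int {g : ℝ → ℝ} (h : GOK g) (σ y : ℝ) (n : ℕ) (a b : ℝ) :
    IntervalIntegrable (fun x => (x + y) * Real.sqrt (g x - σ * (x + y) ^ 2) ^ n) volume a b :=
  ((continuous_id.add continuous_const).mul (arr_cont h σ y n)).intervalIntegrable _ _

/-- derivative of the section integral along a curve of profiles and planes -/
theorem arr_deriv {j : ℕ} (j0 : j ≠ 0) {g : ℝ → ℝ → ℝ} {y gd : ℝ → ℝ} {σ t y' L : ℝ} (s0 : 0 ≤ σ)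
    (hg : ∀ᶠ τ in 𝓝 t, GOK (g τ)) (hp : σ * y t ^ 2 < 1)
    (lip : ∀ᶠ τ in 𝓝 t, ∀ x ∈ Icc (-2 : ℝ) 2, |g τ x - g t x| ≤ L * |τ - t|)
    (hy : HasDerivAt y y' t)
    (hd : ∀ᵐ x, x ∈ Icc (-2 : ℝ) 2 → 0 < g t x - σ * (x + y t) ^ 2 →
      HasDerivAt (fun τ => g τ x) (gd x) t) :
    IntervalIntegrable (fun x => gd x * Real.sqrt (g t x - σ * (x + y t) ^ 2) ^ j) volume (-2) 2 ∧
    HasDerivAt (fun τ => 2 / ((j : ℝ) + 2) *
        ∫ x in (-2 : ℝ)..2, Real.sqrt (g τ x - σ * (x + y τ) ^ 2) ^ (j + 2))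
      ((∫ x in (-2 : ℝ)..2, gd x * Real.sqrt (g t x - σ * (x + y t) ^ 2) ^ j) -
        2 * σ * y' * ∫ x in (-2 : ℝ)..2, (x + y t) * Real.sqrt (g t x - σ * (x + y t) ^ 2) ^ j) t := by
  have ht : GOK (g t) := hg.self_of_nhds
  have h22 : (-2 : ℝ) ≤ 2 := by norm_num
  have j2 : (j : ℝ) + 2 ≠ 0 := by positivity
  obtain ⟨K, hK0, hK⟩ := hy.isBigO_sub.exists_pos
  have hK1 := hK.bound
  have hK2 : ∀ᶠ τ in 𝓝 t, |y τ - y t| ≤ 1 := by
    have := hy.continuousAt.tendsto.eventually (Metric.closedBall_mem_nhds (y t) one_pos)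
    filter_upwards [this] with τ hτ
    simpa [Real.dist_eq] using hτ
  set M : ℝ := L + σ * K * (5 + 2 * |y t|) with hM
  have lipN : ∀ᶠ τ in 𝓝 t, ∀ x ∈ Icc (-2 : ℝ) 2,
      |(g τ x - σ * (x + y τ) ^ 2) - (g t x - σ * (x + y t) ^ 2)| ≤ M * |τ - t| := by
    filter_upwards [lip, hK1, hK2] with τ h1 h2 h3 x hx
    have h4 := h1 x hx
    simp only [Real.norm_eq_abs] at h2
    have e : (g τ x - σ * (x + y τ) ^ 2) - (g t x - σ * (x + y t) ^ 2) =
        (g τ x - g t x) + -(σ * ((y τ - y t) * (2 * x + 2 * y t + (y τ - y t)))) := by ring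
    have h5 : |2 * x + 2 * y t + (y τ - y t)| ≤ 5 + 2 * |y t| := by
      have a1 := abs_add_le (2 * x + 2 * y t) (y τ - y t)
      have a2 := abs_add_le (2 * x) (2 * y t)
      have a3 : |x| ≤ 2 := abs_le.2 hx
      rw [abs_mul, abs_mul, abs_two] at a2
      linarith
    have h6 : |σ * ((y τ - y t) * (2 * x + 2 * y t + (y τ - y t)))| ≤
        σ * (K * |τ - t| * (5 + 2 * |y t|)) := by
      rw [abs_mul, abs_mul, abs_of_nonneg s0]
      gcongr
    rw [e]
    refine (abs_add_le _ _).trans ?_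
    rw [abs_neg, hM]
    nlinarith
  have hs := hg.and lipN
  have cI := (intervalIntegrable_iff_integrableOn_Ioc_of_le h22).1
    (arr_Cr_int ht σ (y t) j (-2) 2)
  have bI := (intervalIntegrable_iff_integrableOn_Ioc_of_le h22).1
    (((int_isq ht s0 hp).const_mul M).const_mul ((j + 2 : ℕ) : ℝ))
  have main := ara_deriv_int (μ := volume.restrict (Ioc (-2 : ℝ) 2))
    (F := fun τ x => Real.sqrt (g τ x - σ * (x + y τ) ^ 2) ^ (j + 2))
    (F' := fun x => ((j : ℝ) + 2) / 2 * ((gd x - σ * (2 * (x + y t) * y')) *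
      Real.sqrt (g t x - σ * (x + y t) ^ 2) ^ j))
    (bound := fun x => ((j + 2 : ℕ) : ℝ) *
      (M * (1 / Real.sqrt |g t x - σ * (x + y t) ^ 2|))) hs
    (fun τ hτ => (arr_cont hτ.1 σ (y τ) _).aestronglyMeasurable)
    ((intervalIntegrable_iff_integrableOn_Ioc_of_le h22).1
      ((arr_cont ht σ (y t) _).intervalIntegrable _ _)) ?_ bI ?_
  · obtain ⟨m1, m2⟩ := main
    have e : (fun x => gd x * Real.sqrt (g t x - σ * (x + y t) ^ 2) ^ j) = fun x =>
        2 / ((j : ℝ) + 2) * (((j : ℝ) + 2) / 2 * ((gd x - σ * (2 * (x + y t) * y')) *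
          Real.sqrt (g t x - σ * (x + y t) ^ 2) ^ j)) +
          2 * σ * y' * ((x + y t) * Real.sqrt (g t x - σ * (x + y t) ^ 2) ^ j) := by
      funext x
      field_simp
      ring
    refine ⟨?_, ?_⟩
    · rw [e]
      exact (intervalIntegrable_iff_integrableOn_Ioc_of_le h22).2
        ((m1.const_mul _).add (cI.const_mul _))
    · have m3 := m2.const_mul (2 / ((j : ℝ) + 2))
      simp only [intervalIntegral.integral_of_le h22]
      refine m3.congr_deriv ?_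
      rw [e, integral_add (m1.const_mul _) (cI.const_mul _), integral_const_mul,
        integral_const_mul, integral_const_mul, integral_const_mul]
      ring
  · filter_upwards [ae_restrict_mem measurableSet_Ioc, ae_restrict_of_ae (ara_ne ht s0 hp)]
      with x hx h0 τ hτ
    refine (arr_pow_lip (Real.sqrt_nonneg _) (arr_le_one hτ.1 s0 _ _) (Real.sqrt_nonneg _)
      (arr_le_one ht s0 _ _) _).trans ?_
    have h1 := ara_sqrt_lip (g τ x - σ * (x + y τ) ^ 2) _ h0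
    have := hτ.2 x (Ioc_subset_Icc_self hx)
    calc _ ≤ ((j + 2 : ℕ) : ℝ) *
          (M * |τ - t| * (1 / Real.sqrt |g t x - σ * (x + y t) ^ 2|)) := by
          gcongr
          exact h1.trans (by gcongr)
      _ = _ := by ring
  · filter_upwards [ae_restrict_mem measurableSet_Ioc, ae_restrict_of_ae (ara_ne ht s0 hp),
      ae_restrict_of_ae hd] with x hx h0 h1
    rcases lt_or_gt_of_ne h0 with hn | hn
    · rw [Real.sqrt_eq_zero_of_nonpos hn.le, zero_pow j0, mul_zero, mul_zero]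
      have hc : Tendsto (fun τ => M * |τ - t|) (𝓝 t) (𝓝 0) := by
        have : Continuous (fun τ : ℝ => M * |τ - t|) := by fun_prop
        simpa using this.tendsto t
      refine (hasDerivAt_const t (0 : ℝ)).congr_of_eventuallyEq ?_
      filter_upwards [lipN, hc.eventually (gt_mem_nhds (neg_pos.2 hn))] with τ a1 a2
      have a3 := (abs_le.1 (a1 x (Ioc_subset_Icc_self hx))).2
      rw [Real.sqrt_eq_zero_of_nonpos (by linarith), zero_pow (Nat.succ_ne_zero _)]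
    · have d1 := h1 (Ioc_subset_Icc_self hx) hn
      have d2 : HasDerivAt (fun τ => σ * (x + y τ) ^ 2) (σ * (2 * (x + y t) * y')) t := by
        have := ((hy.const_add x).fun_pow 2).const_mul σ
        simpa using this
      refine (((d1.fun_sub d2).sqrt h0).fun_pow (j + 2)).congr_deriv ?_
      have hs0 : Real.sqrt (g t x - σ * (x + y t) ^ 2) ≠ 0 := (Real.sqrt_pos.2 hn).ne'
      have e : j + 2 - 1 = j + 1 := rfl
      rw [e, pow_succ]
      push_cast
      field_simp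

theorem arr_lint {n : ℕ} (n0 : n ≠ 0) {g : ℝ → ℝ} (h : GOK g) {σ : ℝ} (s0 : 0 ≤ σ) (y : ℝ) :
    ∫⁻ x, ENNReal.ofReal (Real.sqrt (g x - σ * (x + y) ^ 2) ^ n) =
      ENNReal.ofReal (∫ x in (-2 : ℝ)..2, Real.sqrt (g x - σ * (x + y) ^ 2) ^ n) := by
  have hz : ∀ x, x ∉ Ioc (-2 : ℝ) 2 → Real.sqrt (g x - σ * (x + y) ^ 2) ^ n = 0 := by
    intro x hx
    rw [Real.sqrt_eq_zero_of_nonpos (ara_N_neg h s0 y x ?_).le, zero_pow n0]
    by_contra h1
    have := abs_lt.1 (not_le.1 h1)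
    exact hx ⟨by linarith, by linarith⟩
  have hi : Integrable (fun x => Real.sqrt (g x - σ * (x + y) ^ 2) ^ n) :=
    ((intervalIntegrable_iff_integrableOn_Ioc_of_le (by norm_num : (-2 : ℝ) ≤ 2)).1
      ((arr_cont h σ y n).intervalIntegrable _ _)).integrable_of_forall_notMem_eq_zero hz
  rw [intervalIntegral.integral_eq_integral_of_support_subset
    (fun x hx => by by_contra h1; exact hx (hz x h1)),
    ofReal_integral_eq_lintegral_ofReal hi (ae_of_all _ fun x => by positivity)]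

theorem arr_nonneg (n : ℕ) (g : ℝ → ℝ) (σ y : ℝ) :
    0 ≤ ∫ x in (-2 : ℝ)..2, Real.sqrt (g x - σ * (x + y) ^ 2) ^ n :=
  intervalIntegral.integral_nonneg (by norm_num) fun _ _ => by positivity

theorem arr_logcc {n : ℕ} (n0 : n ≠ 0) {g : ℝ → ℝ} (h : GOK g) {σ : ℝ} (s0 : 0 ≤ σ) (y w θ : ℝ)
    (h0 : 0 < θ) (h1 : θ < 1) :
    (∫ x in (-2 : ℝ)..2, Real.sqrt (g x - σ * (x + y) ^ 2) ^ n) ^ (1 - θ) *
      (∫ x in (-2 : ℝ)..2, Real.sqrt (g x - σ * (x + w) ^ 2) ^ n) ^ θ ≤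
      ∫ x in (-2 : ℝ)..2, Real.sqrt (g x - σ * (x + ((1 - θ) * y + θ * w)) ^ 2) ^ n := by
  have h2 : 0 < 1 - θ := by linarith
  have mm : ∀ y : ℝ,
      Measurable fun x => ENNReal.ofReal (Real.sqrt (g x - σ * (x + y) ^ 2) ^ n) :=
    fun y => (arr_cont h σ y n).measurable.ennreal_ofReal
  have key := Pool.Agent.Lib.MP_fedf83_gt.B.pl_real θ h0 h1 _ _ _ (mm y) (mm w)
    (mm ((1 - θ) * y + θ * w)) (fun x z => by
      simp only [smul_eq_mul]
      rcases le_total (g x - σ * (x + y) ^ 2) 0 with a1 | a1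
      · rw [Real.sqrt_eq_zero_of_nonpos a1, zero_pow n0, ENNReal.ofReal_zero,
          ENNReal.zero_rpow_of_pos h2, zero_mul]
        exact zero_le
      rcases le_total (g z - σ * (z + w) ^ 2) 0 with a2 | a2
      · rw [Real.sqrt_eq_zero_of_nonpos a2, zero_pow n0, ENNReal.ofReal_zero,
          ENNReal.zero_rpow_of_pos h0, mul_zero]
        exact zero_le
      rw [ENNReal.ofReal_rpow_of_nonneg (by positivity) h2.le,
        ENNReal.ofReal_rpow_of_nonneg (by positivity) h0.le,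
        ← ENNReal.ofReal_mul (by positivity)]
      refine ENNReal.ofReal_le_ofReal ?_
      rw [← Real.rpow_pow_comm (Real.sqrt_nonneg _), ← Real.rpow_pow_comm (Real.sqrt_nonneg _),
        ← mul_pow]
      refine pow_le_pow_left₀ (by positivity) ?_ n
      refine (Real.geom_mean_le_arith_mean2_weighted h2.le h0.le (Real.sqrt_nonneg _)
        (Real.sqrt_nonneg _) (by ring)).trans ?_
      have a3 := Real.strictConcaveOn_sqrt.concaveOn.2 (mem_Ici.2 a1) (mem_Ici.2 a2) h2.le h0.le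
        (by ring)
      simp only [smul_eq_mul] at a3
      exact a3.trans (Real.sqrt_le_sqrt (ara_joint h s0 x z y w θ h0.le h1.le)))
  rw [arr_lint n0 h s0, arr_lint n0 h s0, arr_lint n0 h s0,
    ENNReal.ofReal_rpow_of_nonneg (arr_nonneg _ _ _ _) h2.le,
    ENNReal.ofReal_rpow_of_nonneg (arr_nonneg _ _ _ _) h0.le,
    ← ENNReal.ofReal_mul (Real.rpow_nonneg (arr_nonneg _ _ _ _) _)] at key
  exact (ENNReal.ofReal_le_ofReal_iff (arr_nonneg _ _ _ _)).1 key

theorem arr_pos (n : ℕ) {g : ℝ → ℝ} (h : GOK g) {σ y : ℝ} (hp : σ * y ^ 2 < 1) :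
    0 < ∫ x in (-2 : ℝ)..2, Real.sqrt (g x - σ * (x + y) ^ 2) ^ n := by
  refine intervalIntegral.integral_pos (by norm_num) (arr_cont h σ y n).continuousOn
    (fun x _ => by positivity) ⟨0, by constructor <;> norm_num, ?_⟩
  refine pow_pos (Real.sqrt_pos.2 ?_) n
  rw [h.g0, zero_add]
  linarith

/-- a critical plane is a maximal plane -/
theorem arr_crit {j : ℕ} (j0 : j ≠ 0) {g : ℝ → ℝ} (h : GOK g) {σ y : ℝ} (s0 : 0 ≤ σ)
    (hp : σ * y ^ 2 < 1)
    (hc : ∫ x in (-2 : ℝ)..2, (x + y) * Real.sqrt (g x - σ * (x + y) ^ 2) ^ j = 0) (y' : ℝ) :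
    ∫ x in (-2 : ℝ)..2, Real.sqrt (g x - σ * (x + y') ^ 2) ^ (j + 2) ≤
      ∫ x in (-2 : ℝ)..2, Real.sqrt (g x - σ * (x + y) ^ 2) ^ (j + 2) := by
  by_contra AB
  rw [not_le] at AB
  have hy : HasDerivAt (fun θ : ℝ => (1 - θ) * y + θ * y') (y' - y) 0 := by
    have := (((hasDerivAt_id (0 : ℝ)).const_sub 1).mul_const y).add
      ((hasDerivAt_id (0 : ℝ)).mul_const y')
    exact this.congr_deriv (by ring)
  have hD := (arr_deriv j0 (g := fun _ => g) (y := fun θ : ℝ => (1 - θ) * y + θ * y')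
    (gd := fun _ => 0) (σ := σ) (t := 0) (L := 0) s0 (Eventually.of_forall fun _ => h)
    (by simpa using hp) (Eventually.of_forall fun _ x _ => by simp) hy
    (ae_of_all _ fun x _ _ => hasDerivAt_const _ _)).2
  simp only [intervalIntegral.integral_zero, sub_zero, one_mul, zero_mul, add_zero, hc,
    mul_zero] at hD
  set c : ℝ := 2 / ((j : ℝ) + 2) with hcc
  have c0 : 0 < c := by positivity
  set A : ℝ := ∫ x in (-2 : ℝ)..2, Real.sqrt (g x - σ * (x + y) ^ 2) ^ (j + 2) with hA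
  set B : ℝ := ∫ x in (-2 : ℝ)..2, Real.sqrt (g x - σ * (x + y') ^ 2) ^ (j + 2) with hB
  have A0 : 0 < A := arr_pos _ h hp
  have hr : 0 < Real.log (B / A) := Real.log_pos ((one_lt_div A0).2 AB)
  have low : ∀ θ : ℝ, 0 < θ → θ < 1 → A + θ * (A * Real.log (B / A)) ≤
      ∫ x in (-2 : ℝ)..2, Real.sqrt (g x - σ * (x + ((1 - θ) * y + θ * y')) ^ 2) ^ (j + 2) := by
    intro θ h0 h1
    have k := arr_logcc (Nat.succ_ne_zero (j + 1)) h s0 y y' θ h0 h1
    rw [← hA, ← hB] at k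
    have e : A ^ (1 - θ) * B ^ θ = A * (B / A) ^ θ := by
      rw [Real.div_rpow (A0.le.trans AB.le) A0.le, Real.rpow_sub A0, Real.rpow_one]
      ring
    have e2 : 1 + θ * Real.log (B / A) ≤ (B / A) ^ θ := by
      rw [Real.rpow_def_of_pos (div_pos (A0.trans AB) A0)]
      have := Real.add_one_le_exp (Real.log (B / A) * θ)
      linarith
    have e3 := mul_le_mul_of_nonneg_left e2 A0.le
    rw [e] at k
    linarith
  have hs := (hasDerivAt_iff_tendsto_slope_zero.1 hD).mono_left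
    (nhdsWithin_mono _ (fun x (hx : x ∈ Ioi (0 : ℝ)) => (ne_of_gt hx : x ≠ 0)))
  have hpos : 0 < c * (A * Real.log (B / A)) := by positivity
  have : c * (A * Real.log (B / A)) ≤ 0 := by
    refine ge_of_tendsto hs ?_
    filter_upwards [Ioo_mem_nhdsGT (zero_lt_one : (0 : ℝ) < 1)] with θ hθ
    have := mul_le_mul_of_nonneg_left (low θ hθ.1 hθ.2) c0.le
    simp only [zero_add, sub_zero, one_mul, zero_mul, add_zero, smul_eq_mul]
    rw [← hA, ← div_eq_inv_mul, le_div_iff₀ hθ.1]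
    linarith
  linarith

theorem arr_close (n : ℕ) {g g' : ℝ → ℝ} (h : GOK g) (h' : GOK g') {δ : ℝ}
    (hc : ∀ x, |x| ≤ 2 → |g x - g' x| ≤ δ) {σ : ℝ} (s0 : 0 ≤ σ) (y : ℝ) :
    |(∫ x in (-2 : ℝ)..2, Real.sqrt (g x - σ * (x + y) ^ 2) ^ n) -
      ∫ x in (-2 : ℝ)..2, Real.sqrt (g' x - σ * (x + y) ^ 2) ^ n| ≤ n * (4 * Real.sqrt δ) := by
  rw [← intervalIntegral.integral_sub ((arr_cont h σ y n).intervalIntegrable _ _)
    ((arr_cont h' σ y n).intervalIntegrable _ _)]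
  have := intervalIntegral.norm_integral_le_of_norm_le_const (a := -2) (b := 2)
    (C := n * Real.sqrt δ)
    (f := fun x => Real.sqrt (g x - σ * (x + y) ^ 2) ^ n - Real.sqrt (g' x - σ * (x + y) ^ 2) ^ n)
    (fun x hx => by
      rw [uIoc_of_le (by norm_num)] at hx
      refine (arr_pow_lip (Real.sqrt_nonneg _) (arr_le_one h s0 _ _) (Real.sqrt_nonneg _)
        (arr_le_one h' s0 _ _) n).trans ?_
      refine mul_le_mul_of_nonneg_left ((ara_sqrt_hol _ _).trans (Real.sqrt_le_sqrt ?_))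
        (Nat.cast_nonneg n)
      have := hc x (abs_le.2 ⟨hx.1.le, hx.2⟩)
      simpa using this)
  rw [Real.norm_eq_abs] at this
  norm_num at this
  linarith

/-- planes whose chord stays in the common band -/
theorem arr_band {g g' : ℝ → ℝ} (h : GOK g) (h' : GOK g') {a b σ y : ℝ} (s0 : 0 ≤ σ)
    (hp : σ * y ^ 2 < 1) (ha : a < 0) (hb : 0 < b) (eq : ∀ x ∈ Icc a b, g x = g' x)
    (na : g a - σ * (a + y) ^ 2 ≤ 0) (nb : g b - σ * (b + y) ^ 2 ≤ 0) (x : ℝ) :
    Real.sqrt (g x - σ * (x + y) ^ 2) = Real.sqrt (g' x - σ * (x + y) ^ 2) := by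
  have hab : a ≤ b := by linarith
  by_cases hx : x ∈ Icc a b
  · rw [eq x hx]
  · rw [ara_out h s0 hp ha hb na nb x hx, ara_out h' s0 hp ha hb
      (by rwa [← eq a (left_mem_Icc.2 hab)]) (by rwa [← eq b (right_mem_Icc.2 hab)]) x hx]

end BonG
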