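import Pool.Agent.Lib.MP_3dbf58_gt.Defs

/-! Definitions for bodies of revolution in `ℝ^(N+2)`. -/

open Set Filter Topology MeasureTheory Metric

noncomputable section

namespace BonG

open Bon3 (PSet)

abbrev EN (N : ℕ) := EuclideanSpace ℝ (Fin (N + 2))
abbrev EW (N : ℕ) := EuclideanSpace ℝ (Fin N)

/-- body of revolution with squared radius `g` -/
def Body (N : ℕ) (g : ℝ → ℝ) : Set (EN N) := {z | ‖z‖ ^ 2 - z 0 ^ 2 ≤ g (z 0)}
/-- the section integral -/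
def ArI (N : ℕ) (g : ℝ → ℝ) (σ y : ℝ) : ℝ :=
  ∫ x in (-2 : ℝ)..2, Real.sqrt (g x - σ * (x + y) ^ 2) ^ N
/-- volume of the shadow -/
def PV (N : ℕ) (g : ℝ → ℝ) (S C : ℝ) : ENNReal :=
  volume {p : ℝ × EW N | (p.1, ‖p.2‖) ∈ PSet g S C}
/-- volume of the unit ball -/
def om (N : ℕ) : ℝ := (volume (closedBall (0 : EW N) 1)).toReal
def BrEq (N : ℕ) (g g' : ℝ → ℝ) : Prop :=
  ∀ S C : ℝ, 0 ≤ S → 0 ≤ C → S ^ 2 + C ^ 2 = 1 → PV N g S C = PV N g' S C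
def proj {N : ℕ} (K : Set (EN N)) (u : EN N) : ENNReal :=
  volume ((fun z => (ℝ ∙ u)ᗮ.orthogonalProjectionOnto z) '' K)
def sect {N : ℕ} (K : Set (EN N)) (u : EN N) (t : ℝ) : ENNReal :=
  volume {v : (ℝ ∙ u)ᗮ | (v : EN N) + t • u ∈ K}

end BonG
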