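import Pool.Agent.Lib.MP_3dbf58_gt.Geo
import Pool.Agent.Lib.MP_3dbf58_gt.N.GDefs

/-! Bodies of revolution in `ℝ^(N+2)`: frames, sections and shadows. -/

open Set Filter Topology MeasureTheory Metric

noncomputable section

namespace BonG

open Bon3 (GOK PSet geo_cont geo_lt)

variable {N : ℕ}

theorem om_pos (N : ℕ) : 0 < om N :=
  ENNReal.toReal_pos (measure_closedBall_pos _ _ one_pos).ne' measure_closedBall_lt_top.ne

theorem geo_tail (z : EN N) : ‖z‖ ^ 2 - z 0 ^ 2 = ∑ i : Fin (N + 1), z i.succ ^ 2 := by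
  rw [EuclideanSpace.real_norm_sq_eq, Fin.sum_univ_succ]
  ring

theorem geo_tail0 (z : EN N) : 0 ≤ ‖z‖ ^ 2 - z 0 ^ 2 := by
  rw [geo_tail]
  positivity

theorem geo_u0 {u : EN N} (hu : ‖u‖ = 1) : 0 ≤ 1 - u 0 ^ 2 := by
  have := geo_tail0 u
  rwa [hu, one_pow] at this

theorem Body_compact {g : ℝ → ℝ} (h : GOK g) : IsCompact (Body N g) := by
  have hc := geo_cont h
  refine Metric.isCompact_of_isClosed_isBounded ?_ ?_
  · exact isClosed_le (by fun_prop) (hc.comp (by fun_prop))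
  · refine (Metric.isBounded_closedBall (x := (0 : EN N)) (r := 2)).subset ?_
    intro z hz
    have hz' : ‖z‖ ^ 2 - z 0 ^ 2 ≤ g (z 0) := hz
    have h0 : 0 ≤ g (z 0) := le_trans (geo_tail0 z) hz'
    have h1 := abs_lt.mp (geo_lt h h0)
    have h2 := h.le (z 0)
    rw [mem_closedBall_zero_iff]
    refine abs_le_of_sq_le_sq' ?_ (by norm_num) |>.2
    nlinarith [h1.1, h1.2]

theorem Body_convex {g : ℝ → ℝ} (h : GOK g) : Convex ℝ (Body N g) := by
  intro z hz w hw a b ha hb hab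
  have hz' : ‖z‖ ^ 2 - z 0 ^ 2 ≤ g (z 0) := hz
  have hw' : ‖w‖ ^ 2 - w 0 ^ 2 ≤ g (w 0) := hw
  have hc := h.cc.2 (mem_univ (z 0)) (mem_univ (w 0)) ha hb hab
  show ‖a • z + b • w‖ ^ 2 - (a • z + b • w) 0 ^ 2 ≤ g ((a • z + b • w) 0)
  rw [geo_tail] at hz' hw' ⊢
  simp only [PiLp.add_apply, PiLp.smul_apply, smul_eq_mul] at hc ⊢
  obtain rfl : b = 1 - a := by linarith
  have h3 := mul_le_mul_of_nonneg_left hz' ha
  have h4 := mul_le_mul_of_nonneg_left hw' hb
  refine le_trans ?_ ((add_le_add h3 h4).trans hc)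
  rw [Finset.mul_sum, Finset.mul_sum, ← Finset.sum_add_distrib]
  refine Finset.sum_le_sum fun i _ => ?_
  nlinarith [mul_nonneg (mul_nonneg ha hb) (sq_nonneg (z i.succ - w i.succ))]

theorem Body_interior {g : ℝ → ℝ} (h : GOK g) : (interior (Body N g)).Nonempty := by
  have hc := geo_cont h
  refine ⟨0, ?_⟩
  rw [mem_interior]
  refine ⟨{z : EN N | ‖z‖ ^ 2 - z 0 ^ 2 < g (z 0)}, fun z hz =>
    (le_of_lt hz : ‖z‖ ^ 2 - z 0 ^ 2 ≤ g (z 0)), ?_, ?_⟩
  · exact isOpen_lt (by fun_prop) (hc.comp (by fun_prop))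
  · simp [h.g0]

/-- a unit vector of `u^⊥` that carries the first coordinate -/
theorem geo_unit {u : EN N} (hu : ‖u‖ = 1) : ∃ f : (ℝ ∙ u)ᗮ, ‖f‖ = 1 ∧
    ∀ v : (ℝ ∙ u)ᗮ, (v : EN N) 0 = Real.sqrt (1 - u 0 ^ 2) * inner ℝ f v := by
  have h0 := geo_u0 hu
  have hu0 : u ≠ 0 := by
    intro h
    rw [h, norm_zero] at hu
    exact zero_ne_one hu
  let e : EN N := EuclideanSpace.single 0 1 - u 0 • u
  have he : ∀ z : EN N, inner ℝ e z = z 0 - u 0 * inner ℝ u z := by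
    intro z
    simp only [e, inner_sub_left, real_inner_smul_left, EuclideanSpace.inner_single_left]
    simp
  have huu : inner ℝ u u = 1 := by rw [real_inner_self_eq_norm_sq, hu, one_pow]
  have m : e ∈ (ℝ ∙ u)ᗮ := by
    rw [Submodule.mem_orthogonal_singleton_iff_inner_left, he, huu]
    ring
  have hv : ∀ v : (ℝ ∙ u)ᗮ, (v : EN N) 0 = inner ℝ e (v : EN N) := by
    intro v
    rw [he, Submodule.mem_orthogonal_singleton_iff_inner_right.mp v.2]
    ring
  have hn : ‖e‖ = Real.sqrt (1 - u 0 ^ 2) := by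
    rw [← Real.sqrt_sq (norm_nonneg e), ← real_inner_self_eq_norm_sq, ← hv ⟨e, m⟩]
    congr 1
    simp [e, sq]
  by_cases hz : e = 0
  · have : Fact (Module.finrank ℝ (EN N) = (N + 1) + 1) := ⟨by simp⟩
    have : Nontrivial (ℝ ∙ u)ᗮ := by
      rw [← Module.finrank_pos_iff (R := ℝ),
        Submodule.finrank_orthogonal_span_singleton (n := N + 1) hu0]
      omega
    obtain ⟨f, hf⟩ := exists_norm_eq (ℝ ∙ u)ᗮ zero_le_one
    refine ⟨f, hf, fun v => ?_⟩
    rw [hv, ← hn, hz]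
    simp
  · have hp : 0 < ‖e‖ := norm_pos_iff.mpr hz
    refine ⟨‖e‖⁻¹ • ⟨e, m⟩, ?_, fun v => ?_⟩
    · rw [norm_smul, norm_inv, norm_norm]
      exact inv_mul_cancel₀ hp.ne'
    · rw [hv, ← hn, real_inner_smul_left, Submodule.coe_inner, mul_inv_cancel_left₀ hp.ne']

/-- coordinates in the hyperplane orthogonal to `u` -/
theorem geo_frame {u : EN N} (hu : ‖u‖ = 1) :
    ∃ Φ : (ℝ ∙ u)ᗮ ≃ᵐ ℝ × EW N, MeasurePreserving Φ volume volume ∧
      ∀ v : (ℝ ∙ u)ᗮ, (v : EN N) 0 = Real.sqrt (1 - u 0 ^ 2) * (Φ v).1 ∧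
        ‖(v : EN N)‖ ^ 2 = (Φ v).1 ^ 2 + ‖(Φ v).2‖ ^ 2 := by
  obtain ⟨f, hf, hv⟩ := geo_unit hu
  have hu0 : u ≠ 0 := by
    intro h
    rw [h, norm_zero] at hu
    exact zero_ne_one hu
  have : Fact (Module.finrank ℝ (EN N) = (N + 1) + 1) := ⟨by simp⟩
  have hc : Module.finrank ℝ (ℝ ∙ u)ᗮ = Fintype.card (Fin (N + 1)) := by
    rw [Submodule.finrank_orthogonal_span_singleton (n := N + 1) hu0]
    simp
  have ho : Orthonormal ℝ (({0} : Set (Fin (N + 1))).domRestrict fun _ => f) := by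
    refine ⟨fun _ => hf, fun i j hij => absurd (Subsingleton.elim i j) hij⟩
  obtain ⟨B, hB⟩ := ho.exists_orthonormalBasis_extension_of_card_eq hc
  have hB0 : B 0 = f := hB 0 rfl
  refine ⟨((B.measurableEquiv.trans (MeasurableEquiv.toLp 2 (Fin (N + 1) → ℝ)).symm).trans
    (MeasurableEquiv.piFinSuccAbove (fun _ => ℝ) 0)).trans
    ((MeasurableEquiv.refl ℝ).prodCongr (MeasurableEquiv.toLp 2 (Fin N → ℝ))), ?_, fun v => ?_⟩
  · refine MeasurePreserving.comp (g := Prod.map id (MeasurableEquiv.toLp 2 (Fin N → ℝ)))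
      ((MeasurePreserving.id volume).prod (PiLp.volume_preserving_toLp (Fin N))) ?_
    exact (volume_preserving_piFinSuccAbove (fun _ : Fin (N + 1) => ℝ) 0).comp
      ((EuclideanSpace.volume_preserving_symm_measurableEquiv_toLp (Fin (N + 1))).comp
        B.measurePreserving_measurableEquiv)
  · constructor
    · show _ = _ * B.repr v 0
      rw [B.repr_apply_apply, hB0, hv]
    · show _ = B.repr v 0 ^ 2 + ‖(WithLp.toLp 2 fun i : Fin N => B.repr v (Fin.succAbove 0 i) :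
        EW N)‖ ^ 2
      rw [← Submodule.coe_norm, ← B.repr.norm_map, EuclideanSpace.real_norm_sq_eq,
        EuclideanSpace.real_norm_sq_eq, Fin.sum_univ_succ]
      simp

/-- the squared distance to the axis in these coordinates -/
theorem geo_rad {u : EN N} (hu : ‖u‖ = 1) (v : (ℝ ∙ u)ᗮ) {p r : ℝ}
    (h1 : (v : EN N) 0 = Real.sqrt (1 - u 0 ^ 2) * p) (h2 : ‖(v : EN N)‖ ^ 2 = p ^ 2 + r ^ 2)
    (t : ℝ) : ((v : EN N) + t • u) 0 = Real.sqrt (1 - u 0 ^ 2) * p + t * u 0 ∧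
      ‖(v : EN N) + t • u‖ ^ 2 - ((v : EN N) + t • u) 0 ^ 2 =
        (t * Real.sqrt (1 - u 0 ^ 2) - u 0 * p) ^ 2 + r ^ 2 := by
  have hS := Real.sq_sqrt (geo_u0 hu)
  have ho : inner ℝ (v : EN N) u = 0 := Submodule.mem_orthogonal_singleton_iff_inner_left.mp v.2
  have e : ((v : EN N) + t • u) 0 = Real.sqrt (1 - u 0 ^ 2) * p + t * u 0 := by
    simp only [PiLp.add_apply, PiLp.smul_apply, smul_eq_mul, h1]
  refine ⟨e, ?_⟩
  rw [e, norm_add_sq_real, real_inner_smul_right, ho, norm_smul, hu, h2, mul_one,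
    Real.norm_eq_abs, sq_abs]
  linear_combination (-(p ^ 2) - t ^ 2) * hS

theorem proj_Body (g : ℝ → ℝ) {u : EN N} (hu : ‖u‖ = 1) :
    proj (Body N g) u = PV N g (Real.sqrt (1 - u 0 ^ 2)) |u 0| := by
  obtain ⟨Φ, hΦ, hz⟩ := geo_frame hu
  have hS := Real.sq_sqrt (geo_u0 hu)
  obtain ⟨ε, hε, hε'⟩ : ∃ ε : ℝ, ε ^ 2 = 1 ∧ |u 0| = ε * u 0 := by
    rcases abs_cases (u 0) with h | h
    · exact ⟨1, by norm_num, by rw [h.1, one_mul]⟩
    · exact ⟨-1, by norm_num, by rw [h.1]; ring⟩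
  have hp : ∀ (v : (ℝ ∙ u)ᗮ) (t : ℝ),
      (ℝ ∙ u)ᗮ.orthogonalProjectionOnto ((v : EN N) + t • u) = v := by
    intro v t
    rw [map_add, Submodule.orthogonalProjectionOnto_mem_subspace_eq_self, map_smul,
      Submodule.orthogonalProjectionOnto_orthogonalComplement_singleton_eq_zero]
    simp
  rw [PV, ← hΦ.measure_preimage_equiv, proj]
  congr 1
  ext v
  have key := geo_rad hu v (hz v).1 (hz v).2
  set S := Real.sqrt (1 - u 0 ^ 2)
  constructor
  · rintro ⟨z, hzB, hv⟩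
    obtain ⟨t, rfl⟩ : ∃ t : ℝ, z = (v : EN N) + t • u := by
      have h1 := (ℝ ∙ u)ᗮ.sub_starProjection_mem_orthogonal z
      rw [Submodule.orthogonal_orthogonal, Submodule.mem_span_singleton] at h1
      obtain ⟨t, ht⟩ := h1
      refine ⟨t, ?_⟩
      rw [ht, ← hv, Submodule.starProjection_apply, add_sub_cancel]
    have hz' : ‖(v : EN N) + t • u‖ ^ 2 - ((v : EN N) + t • u) 0 ^ 2 ≤
      g (((v : EN N) + t • u) 0) := hzB
    rw [(key t).2, (key t).1] at hz'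
    refine ⟨S * (Φ v).1 + t * u 0, -ε * (t * S - u 0 * (Φ v).1), ?_, ?_⟩
    · show _ + ‖(Φ v).2‖ ^ 2 ≤ _
      rwa [mul_pow, neg_sq, hε, one_mul]
    · show (Φ v).1 = _
      rw [hε']
      linear_combination (-(Φ v).1) * hS + u 0 * (t * S - u 0 * (Φ v).1) * hε
  · rintro ⟨x, y, h1, h2⟩
    have h1' : y ^ 2 + ‖(Φ v).2‖ ^ 2 ≤ g x := h1
    have h2' : (Φ v).1 = S * x + ε * u 0 * y := by rw [← hε']; exact h2
    refine ⟨(v : EN N) + (u 0 * x - S * ε * y) • u, ?_, hp v _⟩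
    show ‖_‖ ^ 2 - _ ^ 2 ≤ g _
    rw [(key _).2, (key _).1, h2']
    have e1 : S * (S * x + ε * u 0 * y) + (u 0 * x - S * ε * y) * u 0 = x := by
      linear_combination x * hS
    have e2 : (u 0 * x - S * ε * y) * S - u 0 * (S * x + ε * u 0 * y) = -(ε * y) := by
      linear_combination (-(ε * y)) * hS
    rwa [e1, e2, neg_sq, mul_pow, hε, one_mul]

/-- volume under a power of a square root -/
theorem geo_area (hN : 0 < N) {f : ℝ → ℝ} (hf : Measurable f) :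
    volume {p : ℝ × EW N | ‖p.2‖ ^ 2 ≤ f p.1} =
      ∫⁻ x, ENNReal.ofReal (om N * Real.sqrt (f x) ^ N) := by
  have hm : MeasurableSet {p : ℝ × EW N | ‖p.2‖ ^ 2 ≤ f p.1} :=
    measurableSet_le (by fun_prop) (hf.comp measurable_fst)
  rw [Measure.volume_eq_prod, Measure.prod_apply hm]
  refine lintegral_congr fun x => ?_
  by_cases h : 0 ≤ f x
  · have : Prod.mk x ⁻¹' {p : ℝ × EW N | ‖p.2‖ ^ 2 ≤ f p.1}
        = closedBall 0 (Real.sqrt (f x)) := by
      ext y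
      simp only [mem_preimage, mem_ofPred_eq, mem_closedBall_zero_iff]
      rw [Real.le_sqrt (norm_nonneg y) h]
    rw [this, Measure.addHaar_closedBall' _ _ (Real.sqrt_nonneg _), finrank_euclideanSpace_fin,
      mul_comm (om N), ENNReal.ofReal_mul (by positivity), om,
      ENNReal.ofReal_toReal measure_closedBall_lt_top.ne]
  · have : Prod.mk x ⁻¹' {p : ℝ × EW N | ‖p.2‖ ^ 2 ≤ f p.1} = ∅ := by
      ext y
      simp only [mem_preimage, mem_ofPred_eq, mem_empty_iff_false, iff_false, not_le]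
      exact lt_of_lt_of_le (not_le.mp h) (sq_nonneg _)
    rw [this, Real.sqrt_eq_zero'.mpr (not_le.mp h).le, zero_pow hN.ne']
    simp

theorem geo_lint (hN : 0 < N) {f : ℝ → ℝ} (hf : Continuous f)
    (hn : ∀ x, 3 / 2 ≤ |x| → f x ≤ 0) :
    ∫⁻ x, ENNReal.ofReal (om N * Real.sqrt (f x) ^ N) =
      ENNReal.ofReal (om N * ∫ x in (-2 : ℝ)..2, Real.sqrt (f x) ^ N) := by
  have hc : Continuous fun x => om N * Real.sqrt (f x) ^ N := by fun_prop
  have hs : Function.support (fun x => om N * Real.sqrt (f x) ^ N) ⊆ Ioc (-2 : ℝ) 2 := by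
    intro x hx
    by_contra hx'
    apply hx
    have : 3 / 2 ≤ |x| := by
      rw [mem_Ioc, not_and_or, not_lt, not_le] at hx'
      rcases hx' with h | h
      · exact le_trans (by linarith) (neg_le_abs x)
      · exact le_trans (by linarith) (le_abs_self x)
    simp [Real.sqrt_eq_zero'.mpr (hn x this), hN.ne']
  have hi : Integrable (fun x => om N * Real.sqrt (f x) ^ N) := by
    rw [← integrableOn_iff_integrable_of_support_subset hs]
    exact (hc.integrableOn_Icc).mono_set Ioc_subset_Icc_self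
  have ho := (om_pos N).le
  rw [← ofReal_integral_eq_lintegral_ofReal hi (Eventually.of_forall fun x => by positivity),
    ← intervalIntegral.integral_const_mul, intervalIntegral.integral_eq_integral_of_support_subset hs]

theorem sect_Body (hN : 0 < N) {g : ℝ → ℝ} (h : GOK g) {u : EN N} (hu : ‖u‖ = 1)
    (h1 : u 0 ^ 2 < 1) (t : ℝ) :
    sect (Body N g) u t = ENNReal.ofReal (1 / Real.sqrt (1 - u 0 ^ 2) * (om N *
      ∫ x in (-2 : ℝ)..2, Real.sqrt (g x - (t - u 0 * x) ^ 2 / (1 - u 0 ^ 2)) ^ N)) := by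
  obtain ⟨Φ, hΦ, hz⟩ := geo_frame hu
  have hc := geo_cont h
  have h0 : 0 < 1 - u 0 ^ 2 := by linarith
  have key := fun v => geo_rad hu v (hz v).1 (hz v).2 t
  set S := Real.sqrt (1 - u 0 ^ 2) with hS
  have hS0 : 0 < S := Real.sqrt_pos.mpr h0
  have hS2 : S ^ 2 = 1 - u 0 ^ 2 := Real.sq_sqrt h0.le
  let f : ℝ → ℝ := fun x => g x - (t - u 0 * x) ^ 2 / (1 - u 0 ^ 2)
  have hf : Continuous f := by fun_prop
  have hn : ∀ x, 3 / 2 ≤ |x| → f x ≤ 0 := by
    intro x hx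
    have := h.ng x hx
    have h2 : 0 ≤ (t - u 0 * x) ^ 2 / (1 - u 0 ^ 2) := by positivity
    simp only [f]
    linarith
  have e1 : {v : (ℝ ∙ u)ᗮ | (v : EN N) + t • u ∈ Body N g}
      = Φ ⁻¹' {p : ℝ × EW N | ‖p.2‖ ^ 2 ≤ f (S * p.1 + t * u 0)} := by
    ext v
    show ‖_‖ ^ 2 - _ ^ 2 ≤ g _ ↔ ‖(Φ v).2‖ ^ 2 ≤ f (S * (Φ v).1 + t * u 0)
    rw [(key v).2, (key v).1]
    have e3 : (t - u 0 * (S * (Φ v).1 + t * u 0)) ^ 2 / (1 - u 0 ^ 2)
        = (t * S - u 0 * (Φ v).1) ^ 2 := by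
      have : t - u 0 * (S * (Φ v).1 + t * u 0) = S * (t * S - u 0 * (Φ v).1) := by
        linear_combination (-t) * hS2
      rw [this, mul_pow, hS2]
      field_simp
    simp only [f]
    rw [e3, le_sub_iff_add_le, add_comm]
  rw [sect, e1, hΦ.measure_preimage_equiv,
    geo_area hN (f := fun x => f (S * x + t * u 0)) (by fun_prop)]
  have e5 : ∫⁻ x, ENNReal.ofReal (om N * Real.sqrt (f (S * x + t * u 0)) ^ N)
      = ENNReal.ofReal (1 / S) * ∫⁻ x, ENNReal.ofReal (om N * Real.sqrt (f x) ^ N) := by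
    have h2 := Real.map_volume_mul_left hS0.ne'
    have h3 := lintegral_map (μ := volume)
      (f := fun x => ENNReal.ofReal (om N * Real.sqrt (f (x + t * u 0)) ^ N))
      (g := fun x : ℝ => S * x) (by fun_prop) (by fun_prop)
    rw [← h3, h2, lintegral_smul_measure,
      lintegral_add_right_eq_self (fun x => ENNReal.ofReal (om N * Real.sqrt (f x) ^ N)),
      abs_of_pos (inv_pos.mpr hS0), one_div, smul_eq_mul]
  rw [e5, geo_lint hN hf hn, ← ENNReal.ofReal_mul (by positivity)]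

theorem PV_one (hN : 0 < N) {g : ℝ → ℝ} (h : GOK g) (y : ℝ) :
    PV N g 1 0 = ENNReal.ofReal (om N * ArI N g 0 y) := by
  have e : {p : ℝ × EW N | (p.1, ‖p.2‖) ∈ PSet g 1 0} = {p : ℝ × EW N | ‖p.2‖ ^ 2 ≤ g p.1} := by
    ext p
    constructor
    · rintro ⟨x, y, h1, h2⟩
      have : p.1 = x := by
        have h3 : p.1 = 1 * x + 0 * y := h2
        rw [h3]
        ring
      have h4 : y ^ 2 + ‖p.2‖ ^ 2 ≤ g x := h1
      show ‖p.2‖ ^ 2 ≤ g p.1
      rw [this]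
      nlinarith [sq_nonneg y]
    · intro hp
      exact ⟨p.1, 0, by simpa using hp, by ring⟩
  rw [PV, e, geo_area hN (geo_cont h).measurable,
    geo_lint hN (geo_cont h) (fun x hx => (h.ng x hx).le), ArI]
  simp

end BonG
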