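import Pool.Agent.Lib.MP_3dbf58_gt.N.Int
import Pool.Agent.Lib.MP_3dbf58_gt.N.ArR
import Pool.Agent.Lib.MP_3dbf58_gt.N.GeoA
import Pool.Agent.Lib.MP_3dbf58_gt.ArA

/-! The normalised section volume: derivative, critical planes, stability. -/

open Set Filter Topology MeasureTheory Metric

noncomputable section

namespace BonN

open Bon3

variable [Cs]

theorem Ar_eq (g : ℝ → ℝ) (σ y : ℝ) : Ar g σ y = 2 / (((ii + 1 : ℕ) : ℝ) + 2) *
    ∫ x in (-2 : ℝ)..2, Real.sqrt (g x - σ * (x + y) ^ 2) ^ (ii + 1 + 2) := by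
  unfold Ar BonG.ArI Nr
  push_cast
  congr 2
  ring

theorem Cr_eq (g : ℝ → ℝ) (σ y : ℝ) : bet / Real.pi * Cr g σ y =
    ∫ x in (-2 : ℝ)..2, (x + y) * Real.sqrt (g x - σ * (x + y) ^ 2) ^ (ii + 1) := by
  unfold Cr
  rw [← mul_assoc, div_mul_div_cancel₀ Real.pi_pos.ne', div_self bet_pos.ne', one_mul]

/-- derivative of the section volume along a curve of profiles and planes -/
theorem hasDerivAt_Ar {g : ℝ → ℝ → ℝ} {y gd : ℝ → ℝ} {σ t y' L : ℝ} (s0 : 0 ≤ σ)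
    (hg : ∀ᶠ τ in 𝓝 t, GOK (g τ)) (hp : σ * y t ^ 2 < 1)
    (lip : ∀ᶠ τ in 𝓝 t, ∀ x ∈ Icc (-2 : ℝ) 2, |g τ x - g t x| ≤ L * |τ - t|)
    (hy : HasDerivAt y y' t)
    (hd : ∀ᵐ x, x ∈ Icc (-2 : ℝ) 2 → 0 < g t x - σ * (x + y t) ^ 2 →
      HasDerivAt (fun τ => g τ x) (gd x) t) :
    IntervalIntegrable (fun x => gd x * Real.sqrt (g t x - σ * (x + y t) ^ 2) ^ (ii + 1))
      volume (-2) 2 ∧
    HasDerivAt (fun τ => Ar (g τ) σ (y τ))
      ((∫ x in (-2 : ℝ)..2, gd x * Real.sqrt (g t x - σ * (x + y t) ^ 2) ^ (ii + 1)) -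
        2 * σ * y' * (bet / Real.pi * Cr (g t) σ (y t))) t := by
  simp only [Ar_eq, Cr_eq]
  exact BonG.arr_deriv (Nat.succ_ne_zero ii) s0 hg hp lip hy hd

theorem Cr_int {g : ℝ → ℝ} (h : GOK g) (σ y : ℝ) :
    IntervalIntegrable (fun x => (x + y) * Real.sqrt (g x - σ * (x + y) ^ 2) ^ (ii + 1))
      volume (-2) 2 := BonG.arr_Cr_int h σ y _ _ _

/-- a critical plane is a maximal plane -/
theorem crit_max {g : ℝ → ℝ} (h : GOK g) {σ y : ℝ} (s0 : 0 ≤ σ) (hp : σ * y ^ 2 < 1)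
    (hc : Cr g σ y = 0) (y' : ℝ) : Ar g σ y' ≤ Ar g σ y := by
  have e := Cr_eq g σ y
  rw [hc, mul_zero] at e
  rw [Ar_eq, Ar_eq]
  exact mul_le_mul_of_nonneg_left (BonG.arr_crit (Nat.succ_ne_zero ii) h s0 hp e.symm y')
    (by positivity)

theorem Ar_close {g g' : ℝ → ℝ} (h : GOK g) (h' : GOK g') {δ : ℝ}
    (hc : ∀ x, |x| ≤ 2 → |g x - g' x| ≤ δ) {σ : ℝ} (s0 : 0 ≤ σ) (y : ℝ) :
    |Ar g σ y - Ar g' σ y| ≤ 8 * Real.sqrt δ := by
  have a := BonG.arr_close (ii + 3) h h' hc s0 y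
  have n := Nr_pos
  rw [Nr_cast] at a
  unfold Ar BonG.ArI
  rw [← mul_sub, abs_mul, abs_of_pos (by positivity : 0 < 2 / Nr)]
  refine (mul_le_mul_of_nonneg_left a (by positivity)).trans (le_of_eq ?_)
  field_simp
  ring

/-- planes whose chord stays in the common band -/
theorem Ar_band {g g' : ℝ → ℝ} (h : GOK g) (h' : GOK g') {a b σ y : ℝ} (s0 : 0 ≤ σ)
    (hp : σ * y ^ 2 < 1) (ha : a < 0) (hb : 0 < b) (eq : ∀ x ∈ Icc a b, g x = g' x)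
    (na : g a - σ * (a + y) ^ 2 ≤ 0) (nb : g b - σ * (b + y) ^ 2 ≤ 0) :
    Ar g σ y = Ar g' σ y ∧ Cr g σ y = Cr g' σ y := by
  unfold Ar Cr BonG.ArI
  simp only [BonG.arr_band h h' s0 hp ha hb eq na nb, and_self]

/-- equal brightness gives equal axial sections -/
theorem Ar_zero {g g' : ℝ → ℝ} (h : GOK g) (h' : GOK g') (br : BrEq g g') (y y' : ℝ) :
    Ar g 0 y = Ar g' 0 y' := by
  have e := br 1 0 zero_le_one le_rfl (by norm_num)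
  have o := BonG.om_pos (ii + 3)
  have n0 : 0 < ii + 3 := Nat.succ_pos _
  have p : ∀ (k : ℝ → ℝ) (z : ℝ), 0 ≤ BonG.om (ii + 3) * BonG.ArI (ii + 3) k 0 z := fun k z =>
    mul_nonneg o.le (BonG.arr_nonneg _ _ _ _)
  rw [BonG.PV_one n0 h y, BonG.PV_one n0 h' y',
    ENNReal.ofReal_eq_ofReal_iff (p g y) (p g' y')] at e
  unfold Ar
  rw [mul_left_cancel₀ o.ne' e]

end BonN
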