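import Pool.Agent.Lib.MP_3dbf58_gt.N.BaseB8

open Set Filter Topology MeasureTheory Metric

noncomputable section

namespace BonN.Bx

open Bon3

variable [Cs]

theorem Cb_eq (Ia Ib : ℂ × ℂ × ℂ → ℂ) (σ y : ℂ) : Cb Ia Ib σ y =
    (y * sy Ia (σ, y, gam) - gam * sy Ib (σ, y, gam)) / ((1 + σ) * Real.pi) := rfl

theorem den_ge {σ : ℂ} (h : ‖σ‖ ≤ dl / 10 ^ 13) : 5 / 2 ≤ ‖(1 + σ) * (Real.pi : ℂ)‖ :=
  Bon3.den_ge (h.trans (by linarith [dl_le]))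

theorem g_PD1 {σ y : ℂ} (h : ‖σ‖ ≤ dl / 10 ^ 13) (hy : ‖y‖ < lam / 10 ^ 6) :
    (σ, y, (gam : ℂ)) ∈ PD1 :=
  ⟨h.trans_lt (by linarith [dl_le]), hy, gam_le.trans_lt (by linarith [gam_le_lam, lam_pos])⟩

theorem Cb_lip {cc Ia Ib : ℂ × ℂ × ℂ → ℂ} (A : BA cc Ia Ib) {σ y y' : ℂ} (h' : ‖σ‖ ≤ dl / 10 ^ 13)
    (hx : ‖cc (σ, 0, 0) - 1‖ ≤ 1 / 10 ^ 15) (hy : ‖y‖ < 3 / 4 * (lam / 10 ^ 6))
    (hy' : ‖y'‖ < 3 / 4 * (lam / 10 ^ 6)) :
    ‖Cb Ia Ib σ y - Cb Ia Ib σ y' - (y - y')‖ ≤ 1 / 8 * ‖y - y'‖ := by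
  have dn := den_ge h'
  have h : ‖σ‖ ≤ 1 / 10 ^ 28 := h'.trans (by linarith [dl_le])
  have l0 := lam_pos
  have d0 : (1 + σ) * (Real.pi : ℂ) ≠ 0 := fun e => by rw [e] at dn; norm_num at dn
  have m : MapsTo (fun y : ℂ => (σ, y, (gam : ℂ))) (ball 0 (lam / 10 ^ 6)) PD :=
    fun s hs => PD1_sub (g_PD1 h' (mem_ball_zero_iff.1 hs))
  have := lip_ball (c := 0) (R := lam / 10 ^ 6) (M := lam / (100 * 10 ^ 6))
    (f := fun y => Cb Ia Ib σ y - y)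
    ((((differentiableOn_id.mul (sy_HC A.ha _ _ isOpen_ball (by fun_prop) m)).sub
      ((sy_HC A.hb _ _ isOpen_ball (by fun_prop) m).const_mul _)).div_const _).sub
      differentiableOn_id)
    (fun s hs => by
      have s1 := mem_ball_zero_iff.1 hs
      have a1 := Sa_near A (g_PD1 h' s1)
      have a2 := sy_le A.b0 (m hs)
      have a3 := gam_le.trans gam_le_lam
      have p4 : ‖(Real.pi : ℂ)‖ ≤ 4 := by
        rw [Complex.norm_real, Real.norm_of_nonneg Real.pi_pos.le]; exact Real.pi_le_four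
      have e : Cb Ia Ib σ s - s = (s * (sy Ia (σ, s, gam) - cc (σ, 0, 0) * Real.pi) +
          s * ((cc (σ, 0, 0) - 1 - σ) * Real.pi) + -(gam * sy Ib (σ, s, gam))) /
          ((1 + σ) * Real.pi) := by
        rw [Cb_eq, eq_div_iff d0, sub_mul, div_mul_cancel₀ _ d0]; ring
      have a4 := (norm_sub_le (cc (σ, 0, 0) - 1) σ).trans (add_le_add hx h)
      rw [e, norm_div, div_le_iff₀ (by linarith)]
      refine norm_add₃_le.trans (le_trans (b := lam / 10 ^ 6 * (6 / 500) +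
        lam / 10 ^ 6 * ((1 / 10 ^ 15 + 1 / 10 ^ 28) * 4) + lam / 10 ^ 80 * (2 * 10 ^ 6)) ?_
        (by linarith [mul_le_mul_of_nonneg_left dn l0.le]))
      simp only [norm_mul, norm_neg]
      gcongr)
    (mem_ball_zero_iff.2 hy) (mem_ball_zero_iff.2 hy')
  calc _ = ‖Cb Ia Ib σ y - y - (Cb Ia Ib σ y' - y')‖ := by congr 1; ring
    _ ≤ _ := this.trans (mul_le_mul_of_nonneg_right
      (by rw [div_le_iff₀ (by positivity)]; linarith) (norm_nonneg _))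

end BonN.Bx

namespace BonN

open Bon3

variable [Cs]

theorem baseB {cc Ia Ib : ℂ × ℂ × ℂ → ℂ} (A : BA cc Ia Ib) :
    ∃ (hb U : ℂ → ℂ) (q μ0 c0 : ℝ), BB cc Ia Ib hb q μ0 c0 ∧ ∀ g : ℝ → ℝ,
      InvC (Par0 hb q μ0 c0 g) th0 (th0 / 32) (100 * dl * (120 * gam * q))
        (St0 cc Ia Ib hb U q g) := by
  obtain ⟨et, b2, cr⟩ := Bx.b2_exists A
  set c : ℂ × ℂ → ℂ := fun p => cc (p.2, p.1 * et p, p.1) with hc
  obtain ⟨yy, y1, y2, y3⟩ := Bx.yy_exists b2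
  have b : Bx.B3 c et yy := ⟨b2, y1, fun p hp => (y2 p hp).1, fun p hp => (y2 p hp).2, y3⟩
  obtain ⟨q, q2, q1, t⟩ := b.touch
  have q0 : 0 < q := lt_of_lt_of_le (half_pos tt_pos) q2
  have qs := Bx.q_le q0 q1
  have mq : ((gam : ℂ), (q : ℂ)) ∈ Bx.DD (1 / 11) := Bx.g_mem Bx.gam_le (qs.trans_lt Bx.dl_lt)
  have hm : ∀ σ : ℂ, cc (σ, -(gam * et (gam, σ)), -gam) = c (ng (gam, σ)) := fun σ => by
    simp only [hc, b.ev (gam, σ)]; simp only [ng, neg_mul]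
  have ngc : ∀ σ : ℂ, ng (gam, σ) = (((-gam : ℝ) : ℂ), σ) := fun σ => by simp [ng]
  have gm : ‖((-gam : ℝ) : ℂ)‖ ≤ gam := by
    rw [Complex.ofReal_neg, norm_neg]; exact Bx.gam_le
  obtain ⟨c0, hc0⟩ : ∃ c0 : ℝ, c (gam, q) = c0 :=
    ⟨(c (gam, q)).re, Complex.ext (by simp) (by simp [b.rc gam q (Bx.D11 mq)])⟩
  have hc1 : c (((-gam : ℝ) : ℂ), q) = c0 := by
    have e : yy (gam, q) = 1 := by rw [b.yY mq, t]; simp
    have := b.cs mq
    rw [ngc] at this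
    rw [← this, ← hc0]; simp [Bx.bs, e]
  have B0 : 0 ≤ 100 * dl * (120 * gam * q) := by
    have := gam_pos; have := dl_pos; positivity
  have sb : Sec th0 ⊆ ball 0 2 := fun _ => Bx.Sec_b2
  have hb0 : ∀ σ : ℂ, ‖σ‖ < 1 / 12 → ‖gam * et (gam, σ)‖ ≤ gam * 10 ^ 6 := fun σ hσ => by
    have := b.e0 _ (Bx.g_mem Bx.gam_le (hσ.trans (by norm_num)))
    rw [norm_mul]
    exact mul_le_mul Bx.gam_le this (norm_nonneg _) gam_pos.le
  have dm : ∀ ξ y : ℂ, (ξ, y) ∈ Dom th0 (th0 / 32 / 1000) (fun ξ => gam * et (gam, Bx.sq q ξ)) →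
      ‖y‖ < 3 / 4 * (lam / 10 ^ 6) := fun ξ y h => by
    have h1 := h.2
    have h2 := hb0 _ ((Bx.sq_le q0 q1 (sb h.1)).trans_lt (by linarith [dl_le]))
    have h3 := mem_ball_zero_iff.1 (sb h.1)
    have h4 := norm_sub_norm_le y (gam * et (gam, Bx.sq q ξ))
    simp only at h1 h3
    have h5 := mul_le_mul_of_nonneg_left h3.le th0_pos.le
    have h6 := gam_le_lam
    have h7 := th0_pos
    unfold lam at h6 ⊢; linarith
  have cm := b.cap q0 q1 gm B0 hc1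
  have zm : ∀ ξ : ℂ, HH (-gam : ℂ) (c (ng (gam, Bx.sq q ξ))) - gam * et (gam, Bx.sq q ξ) =
      Bx.bz c et (ng (gam, Bx.sq q ξ)) := fun ξ => by
    simp only [Bx.bz, Bx.bH, b.ev (gam, Bx.sq q ξ)]; simp only [ng]; ring
  refine ⟨fun σ => gam * et (gam, σ), fun ξ => 1 - (1 - ξ) * yy (gam, Bx.sq q ξ), q,
    q * gam * (deriv (sl (Bx.bY c et yy) gam) q).re, c0, ⟨q2, q1, b.mu q0 q1, ?_, ?_, hb0,
    fun σ hσ => ?_, fun σ hσ => ?_, fun σ hσ => ?_⟩, fun g => ?_⟩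
  · have := (abs_le.1 ((Complex.abs_re_le_norm _).trans ((b.nc Bx.gam_le).v _ qs))).1
    simp only [sl, hc0, Complex.sub_re, Complex.ofReal_re, Complex.one_re] at this
    linarith [dl_le]
  · have := (b.mono Bx.gam_le q0.le le_rfl (by linarith [tt_le])).2 q0
    rwa [hc0] at this
  · exact im_mul (by simp) (b.re gam σ (Bx.g_mem Bx.gam_le (by simp; linarith)))
  · rw [Bx.Cb_eq, mul_assoc, cr (gam, σ) (Bx.g_mem Bx.gam_le (hσ.trans (by norm_num))), sub_self, zero_div]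
  · have h1 := (b.mono Bx.gam_le q0.le hσ.1 hσ.2).1
    have h2 := (b.mono gm q0.le hσ.1 hσ.2).1
    rw [hc0] at h1
    rw [hc1, ← ngc, ← hm] at h2
    exact ⟨h1, h2⟩
  have eS : St0 cc Ia Ib (fun σ => gam * et (gam, σ)) (fun ξ => 1 - (1 - ξ) * yy (gam, Bx.sq q ξ)) q g =
      { up := fun ζ => (1 - ζ) * (Bx.bz c et (gam, Bx.sq q ζ) / Bx.bT c (gam, Bx.sq q ζ)) ^ 2
        Tp := fun ζ => Bx.bT c (gam, Bx.sq q ζ)
        Hp := fun ζ => Bx.bH c (gam, Bx.sq q ζ)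
        um := fun ζ => (1 - ζ) * (Bx.bz c et (ng (gam, Bx.sq q ζ)) / Bx.bT c (ng (gam, Bx.sq q ζ))) ^ 2
        Tm := fun ζ => Bx.bT c (ng (gam, Bx.sq q ζ))
        Hm := fun ζ => Bx.bH c (ng (gam, Bx.sq q ζ))
        h := fun ζ => gam * et (gam, Bx.sq q ζ)
        ρ := fun ζ => (1 + gam * rr (c (ng (gam, Bx.sq q ζ)))) / (1 - gam * rr (c (ng (gam, Bx.sq q ζ))))
        U := fun ξ => 1 - (1 - ξ) * yy (gam, Bx.sq q ξ)
        E := fun _ => 0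
        Cf := fun p => Cb Ia Ib (Bx.sq q p.1) p.2
        g := g
        s := 0 } := by
    simp only [St0, hm, ← zm]; rfl
  rw [eS]
  have ezm : St.zm
      { up := fun ζ => (1 - ζ) * (Bx.bz c et (gam, Bx.sq q ζ) / Bx.bT c (gam, Bx.sq q ζ)) ^ 2
        Tp := fun ζ => Bx.bT c (gam, Bx.sq q ζ)
        Hp := fun ζ => Bx.bH c (gam, Bx.sq q ζ)
        um := fun ζ => (1 - ζ) * (Bx.bz c et (ng (gam, Bx.sq q ζ)) / Bx.bT c (ng (gam, Bx.sq q ζ))) ^ 2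
        Tm := fun ζ => Bx.bT c (ng (gam, Bx.sq q ζ))
        Hm := fun ζ => Bx.bH c (ng (gam, Bx.sq q ζ))
        h := fun ζ => gam * et (gam, Bx.sq q ζ)
        ρ := fun ζ => (1 + gam * rr (c (ng (gam, Bx.sq q ζ)))) / (1 - gam * rr (c (ng (gam, Bx.sq q ζ))))
        U := fun ξ => 1 - (1 - ξ) * yy (gam, Bx.sq q ξ)
        E := fun _ => 0
        Cf := fun p => Cb Ia Ib (Bx.sq q p.1) p.2
        g := g
        s := 0 } = fun ζ => Bx.bz c et (ng (gam, Bx.sq q ζ)) := funext zm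
  have eU : ∀ ξ : ℂ, ((gam : ℂ), Bx.sq q (1 - (1 - ξ) * yy (gam, Bx.sq q ξ))) = Bx.bs yy (gam, Bx.sq q ξ) :=
    fun ξ => by simp only [Bx.bs, Bx.sq, Prod.mk.injEq, true_and]; ring
  have dy : DifferentiableOn ℂ (fun ξ => yy (gam, Bx.sq q ξ)) (Sec th0) :=
    b.hy _ _ (isOpen_Sec _) (by unfold Bx.sq; fun_prop) fun ξ h => b.m q0 q1 Bx.gam_le (sb h)
  have pm : MapsTo (fun p : ℂ × ℂ => (Bx.sq q p.1, p.2, (gam : ℂ)))
      (Dom th0 (th0 / 32 / 1000) fun ξ => gam * et (gam, Bx.sq q ξ)) PD := fun p hp =>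
    Bx.PD1_sub (Bx.g_PD1 (Bx.sq_le q0 q1 (sb hp.1)) ((dm _ _ hp).trans (by linarith [lam_pos])))
  have pd : HC (fun p : ℂ × ℂ => (Bx.sq q p.1, p.2, (gam : ℂ)))
      (Dom th0 (th0 / 32 / 1000) fun ξ => gam * et (gam, Bx.sq q ξ)) :=
    HC.of_diff (by unfold Bx.sq; fun_prop)
  refine ⟨b.cap q0 q1 Bx.gam_le B0 hc0, ?_, fun ξ h => b.h1 q0 q1 (sb h), fun ξ h => b.h2 q0 q1 (sb h),
    (((differentiableOn_const _).sub differentiableOn_id).mul dy).const_sub _, fun x h => ?_,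
    fun ξ h => b.U0 q0 q1 t (sb h), fun ξ h => ?_,
    fun ξ h => (b.dρ q0 q1 (sb h)).differentiableAt.differentiableWithinAt, fun x h => ?_,
    fun ξ h => ?_, fun ξ h => ?_, fun ξ h => ?_, fun ξ h => ?_, ?_, fun ξ h => ?_,
    fun ξ y y' h h' => ?_, fun x y h => ?_⟩
  · have e : (fun ζ => ((-gam : ℝ) : ℂ) * et (((-gam : ℝ) : ℂ), Bx.sq q ζ)) =
        fun ζ => -(gam * et (gam, Bx.sq q ζ)) := funext fun ζ => by
      rw [← ngc, b.ev]; push_cast; ring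
    rw [e] at cm
    simp only [← ngc] at cm
    exact cm
  · have := b.yr _ (b.m q0 q1 Bx.gam_le (sb h)) (by simp) (by simp [Bx.sq])
    simp [this]
  · have m := b.m q0 q1 Bx.gam_le (sb h)
    simp only [eU, b.toB2.nz (b.sm m), b.toB2.nz (Bx.ng_mem (Bx.D11 m)), ← b.yn m]; ring
  · have := (b.toB2.im (Bx.ng_mem (Bx.D11 (b.m q0 q1 Bx.gam_le (sb h)))) (by simp [ng])
      (by simp [ng, Bx.sq])).2.2.2.2.2.2.2.2
    exact im_div (by simp [this]) (by simp [this])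
  · have m := b.m q0 q1 Bx.gam_le (sb h)
    have := b.rne (Bx.D11 m)
    have e1 : (ng ((gam : ℂ), Bx.sq q ξ)).1 = -gam := rfl
    have e2 : (Bx.bs yy ((gam : ℂ), Bx.sq q ξ)).1 = gam := rfl
    simp only [eU, Bx.bT, TT, b.cs m, e1, e2] at this ⊢
    rw [neg_mul, ← sub_eq_add_neg]
    field_simp
  · simp only [(b.dρ q0 q1 (sb h)).deriv]
    exact b.ρ1 q0 q1 (sb h)
  · rw [ezm]; simp only [b.eρ q0 q1 (sb h)]
    exact b.f1 q0 q1 q2 t (sb h)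
  · rw [ezm]; exact b.f2 q0 q1 (sb h)
  · exact (((HC.snd HC.id).mul ((Bx.sy_HC A.ha).comp pd pm)).sub ((HC.const _).mul
      ((Bx.sy_HC A.hb).comp pd pm))).div (HC.of_diff (by unfold Bx.sq; fun_prop)) fun p hp e => by
        have := Bx.den_ge (Bx.sq_le q0 q1 (sb hp.1)); rw [e] at this; norm_num at this
  · simp only [Bx.Cb_eq]
    rw [mul_assoc, cr (gam, Bx.sq q ξ) (Bx.D11 (b.m q0 q1 Bx.gam_le (sb h))), sub_self, zero_div]
  · have hx := ((b.nc Bx.gam0).v _ (Bx.sq_le q0 q1 (sb h.1))).trans dl_le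
    simp only [sl, hc, zero_mul] at hx
    exact (Bx.Cb_lip A (Bx.sq_le q0 q1 (sb h.1)) hx (dm _ _ h) (dm _ _ h')).trans
      (mul_le_mul_of_nonneg_right (by linarith) (norm_nonneg _))
  · have e : Bx.sq q x = ((q * (1 - x) : ℝ) : ℂ) := by simp [Bx.sq]
    have := pm h
    simp only [e] at this
    have := Bx.sy_real A this
    simp only [Bx.Cb_eq, e]
    exact im_div (by simp only [Complex.sub_im, im_mul (Complex.ofReal_im y) this.1,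
      im_mul (Complex.ofReal_im gam) this.2, sub_zero]) (im_mul (by simp) (by simp))

end BonN
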