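import Pool.Agent.Lib.MP_3dbf58_gt.N.Cst

open Set Filter Topology MeasureTheory Metric

noncomputable section

namespace BonN

open Bon3

variable [Cs]

omit [Cs] in
theorem int_ioo {E : Type} [NormedAddCommGroup E] [NormedSpace ℝ E] {f : ℝ → E} {a b : ℝ}
    (h : a ≤ b) : ∫ x in a..b, f x = ∫ x in Ioo a b, f x := by
  rw [intervalIntegral.integral_of_le h, integral_Ioc_eq_integral_Ioo]

theorem bet_half : ∫ v in Ioo (0 : ℝ) 1, Real.sqrt (1 - v ^ 2) ^ (ii + 1) = bet / 2 := by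
  have hc : Continuous fun x : ℝ => Real.sqrt (1 - x ^ 2) ^ (ii + 1) := by fun_prop
  have h1 := intervalIntegral.integral_comp_neg (a := 0) (b := 1)
    (fun x : ℝ => Real.sqrt (1 - x ^ 2) ^ (ii + 1))
  simp only [neg_sq, neg_zero] at h1
  have h2 := intervalIntegral.integral_add_adjacent_intervals (μ := volume)
    (hc.intervalIntegrable (-1) 0) (hc.intervalIntegrable 0 1)
  rw [← int_ioo zero_le_one, bet, ← h2, ← h1]
  ring

theorem bet_low : 2 / Nr ≤ bet := by
  have hc : Continuous fun x : ℝ => Real.sqrt (1 - x ^ 2) ^ (ii + 1) := by fun_prop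
  have h1 : ∫ x in (0 : ℝ)..1, (1 - x) ^ (ii + 1) ≤
      ∫ x in (0 : ℝ)..1, Real.sqrt (1 - x ^ 2) ^ (ii + 1) :=
    intervalIntegral.integral_mono_on zero_le_one
      ((by fun_prop : Continuous fun x : ℝ => (1 - x) ^ (ii + 1)).intervalIntegrable _ _)
      (hc.intervalIntegrable _ _) fun x hx => pow_le_pow_left₀ (by linarith [hx.2])
        (Real.le_sqrt_of_sq_le (by nlinarith [hx.1, hx.2])) _
  have h2 := intervalIntegral.integral_comp_sub_left (a := 0) (b := 1)
    (fun x : ℝ => x ^ (ii + 1)) 1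
  rw [h2, integral_pow, int_ioo zero_le_one, bet_half] at h1
  simp only [sub_self, sub_zero, one_pow, ne_eq, Nat.add_eq_zero_iff, one_ne_zero, and_false,
    not_false_eq_true, zero_pow] at h1
  have h3 : 1 / Nr ≤ 1 / (((ii + 1 : ℕ) : ℝ) + 1) :=
    one_div_le_one_div_of_le (by positivity) (by unfold Nr; push_cast; linarith)
  have : 2 / Nr = 2 * (1 / Nr) := by ring
  linarith

theorem bet_pos : 0 < bet := lt_of_lt_of_le (by have := Nr_pos; positivity) bet_low
theorem pi_bet : Real.pi / bet ≤ 4 * Nr := by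
  have h := bet_low
  have N0 := Nr_pos
  rw [div_le_iff₀ N0] at h
  rw [div_le_iff₀ bet_pos]
  nlinarith [Real.pi_le_four]

omit [Cs] in
theorem sqrt_pow_deriv (j : ℕ) {x : ℝ} (h : 0 < x) :
    HasDerivAt (fun t => Real.sqrt t ^ (j + 2)) (((j : ℝ) + 2) / 2 * Real.sqrt x ^ j) x := by
  have s := Real.sqrt_pos.2 h
  refine ((Real.hasDerivAt_sqrt h.ne').fun_pow (j + 2)).congr_deriv ?_
  simp only [Nat.add_succ_sub_one]
  push_cast
  field_simp
  ring

/-- even moments of the weight -/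
theorem bet_mom (k : ℕ) :
    (2 * k + 1) * ∫ v in Ioo (0 : ℝ) 1, v ^ (2 * k) * Real.sqrt (1 - v ^ 2) ^ (ii + 1) =
      (2 * k + 1 + Nr) * ∫ v in Ioo (0 : ℝ) 1, v ^ (2 * k + 2) * Real.sqrt (1 - v ^ 2) ^ (ii + 1) := by
  have c : ∀ m : ℕ, Continuous fun v : ℝ => v ^ m * Real.sqrt (1 - v ^ 2) ^ (ii + 1) :=
    fun m => by fun_prop
  have key := intervalIntegral.integral_eq_sub_of_hasDerivAt_of_le (a := 0) (b := 1) zero_le_one
    (f := fun v : ℝ => v ^ (2 * k + 1) * Real.sqrt (1 - v ^ 2) ^ (ii + 1 + 2))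
    (f' := fun v : ℝ => (2 * k + 1) * (v ^ (2 * k) * Real.sqrt (1 - v ^ 2) ^ (ii + 1)) -
      (2 * k + 1 + Nr) * (v ^ (2 * k + 2) * Real.sqrt (1 - v ^ 2) ^ (ii + 1)))
    (by fun_prop) (fun v hv => by
      have p : 0 < 1 - v ^ 2 := by nlinarith [hv.1, hv.2]
      have d1 : HasDerivAt (fun v : ℝ => 1 - v ^ 2) (-(2 * v)) v := by
        simpa using (hasDerivAt_pow 2 v).const_sub 1
      have d2 := (sqrt_pow_deriv (ii + 1) p).comp v d1
      refine ((hasDerivAt_pow (2 * k + 1) v).fun_mul d2).congr_deriv ?_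
      have e : Real.sqrt (1 - v ^ 2) ^ (ii + 1 + 2) =
          Real.sqrt (1 - v ^ 2) ^ (ii + 1) * (1 - v ^ 2) := by
        rw [pow_add _ (ii + 1) 2, Real.sq_sqrt p.le]
      simp only [Function.comp, e, Nat.add_sub_cancel]
      unfold Nr
      push_cast
      ring)
    ((((c _).const_mul _).sub ((c _).const_mul _)).intervalIntegrable _ _)
  rw [intervalIntegral.integral_sub (((c _).const_mul _).intervalIntegrable _ _)
    (((c _).const_mul _).intervalIntegrable _ _), intervalIntegral.integral_const_mul,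
    intervalIntegral.integral_const_mul, int_ioo zero_le_one, int_ioo zero_le_one] at key
  simp at key
  linarith

theorem wg_cont : Continuous wg := by unfold wg; fun_prop
theorem wg_nonneg (s : ℝ) : 0 ≤ wg s := pow_nonneg (Real.sqrt_nonneg _) _
theorem wg_le {s : ℝ} (h : s ∈ Icc (0 : ℝ) 1) : wg s ≤ 1 :=
  pow_le_one₀ (Real.sqrt_nonneg _) (Real.sqrt_le_one.2 (by nlinarith [h.1, h.2]))
theorem wg_int : IntegrableOn wg (Ioo (0 : ℝ) 1) :=
  wg_cont.integrableOn_Icc.mono_set Ioo_subset_Icc_self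
theorem be2_pos : 0 < be2 := by
  rw [be2, ← int_ioo zero_le_one]
  exact intervalIntegral.intervalIntegral_pos_of_pos_on (wg_cont.intervalIntegrable _ _)
    (fun s hs => pow_pos (Real.sqrt_pos.2 (mul_pos hs.1 (sub_pos.2 hs.2))) _) zero_lt_one
theorem wg_mean : ∫ s in Ioo (0 : ℝ) 1, s * wg s = be2 / 2 := by
  have c : Continuous fun s : ℝ => s * wg s := continuous_id.mul wg_cont
  have h := intervalIntegral.integral_comp_sub_left (a := 0) (b := 1) (fun s : ℝ => s * wg s) 1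
  have e : ∀ s : ℝ, (1 - s) * wg (1 - s) = wg s - s * wg s := fun s => by
    have : wg (1 - s) = wg s := by unfold wg; rw [sub_sub_cancel, mul_comm]
    rw [this]; ring
  simp only [e, sub_self, sub_zero] at h
  rw [intervalIntegral.integral_sub (wg_cont.intervalIntegrable _ _) (c.intervalIntegrable _ _),
    int_ioo zero_le_one, int_ioo zero_le_one] at h
  unfold be2
  linarith
theorem cq_pos {q : ℝ} (h : 0 < q) : 0 < cq q := by unfold cq; positivity
theorem cq_le {q : ℝ} (h : 0 < q) (h1 : q ≤ 1) : cq q ≤ 1 :=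
  mul_le_one₀ (pow_le_one₀ h.le h1) (by positivity)
    (pow_le_one₀ (Real.sqrt_nonneg _) (Real.sqrt_le_one.2 h1))

theorem int_wt {x v : ℝ} (x1 : x ≤ 1) (hv : v ∈ Ioo 0 x) : ‖Real.sqrt (x - v) ^ (ii + 1)‖ ≤ 1 := by
  rw [Real.norm_of_nonneg (by positivity)]
  exact pow_le_one₀ (Real.sqrt_nonneg _) (Real.sqrt_le_one.2 (by linarith [hv.1]))

theorem Jr_int {f : ℝ → ℝ} {x M : ℝ} (x0 : 0 < x) (x1 : x ≤ 1) (hf : ContinuousOn f (Ioo 0 x))
    (hM : ∀ v ∈ Ioo 0 x, |f v| ≤ M) :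
    IntervalIntegrable (fun v => f v * Real.sqrt (x - v) ^ (ii + 1)) volume 0 x ∧
      |Jr f x| ≤ M := by
  have M0 : 0 ≤ M := (abs_nonneg _).trans (hM (x / 2) ⟨by linarith, by linarith⟩)
  have b : ∀ᵐ v ∂volume.restrict (Ioo 0 x), ‖f v * Real.sqrt (x - v) ^ (ii + 1)‖ ≤ M :=
    (ae_restrict_mem measurableSet_Ioo).mono fun v hv => by
      rw [norm_mul]
      exact (mul_le_mul (hM v hv) (int_wt x1 hv) (norm_nonneg _) M0).trans_eq (mul_one _)
  refine ⟨(intervalIntegrable_iff_integrableOn_Ioo_of_le x0.le).2 ((integrable_const M).mono'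
    ((hf.aemeasurable measurableSet_Ioo).mul (by fun_prop)).aestronglyMeasurable b), ?_⟩
  rw [Jr, int_ioo x0.le]
  refine (norm_integral_le_of_norm_le (integrable_const M) b).trans ?_
  simp only [integral_const, MeasurableSet.univ, measureReal_restrict_apply, univ_inter,
    Real.volume_real_Ioo, sub_zero, smul_eq_mul, max_eq_left x0.le]
  nlinarith

theorem Jr_pow5 : 0 < Jr (fun v => v ^ 5) 1 :=
  intervalIntegral.intervalIntegral_pos_of_pos_on
    ((by fun_prop : Continuous fun v : ℝ =>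
      v ^ 5 * Real.sqrt (1 - v) ^ (ii + 1)).intervalIntegrable _ _)
    (fun s hs => mul_pos (pow_pos hs.1 _) (pow_pos (Real.sqrt_pos.2 (sub_pos.2 hs.2)) _))
    zero_lt_one

theorem Jr_swap {f : ℝ × ℝ → ℝ} {x M : ℝ} (x0 : 0 < x) (x1 : x ≤ 1)
    (hf : ContinuousOn f (Icc 0 1 ×ˢ Ioo 0 x)) (hM : ∀ p ∈ Icc (0 : ℝ) 1 ×ˢ Ioo 0 x, |f p| ≤ M) :
    ContinuousOn (fun t => Jr (fun v => f (t, v)) x) (Icc 0 1) ∧
    ∫ t in (0 : ℝ)..1, Jr (fun v => f (t, v)) x = Jr (fun v => ∫ t in (0 : ℝ)..1, f (t, v)) x := by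
  have b : ∀ p ∈ Icc (0 : ℝ) 1 ×ˢ Ioo 0 x, ‖f p * Real.sqrt (x - p.2) ^ (ii + 1)‖ ≤ M :=
    fun p hp => by
      rw [norm_mul]
      exact (mul_le_mul (hM p hp) (int_wt x1 hp.2) (norm_nonneg _)
        ((abs_nonneg _).trans (hM p hp))).trans_eq (mul_one _)
  simp only [Jr, int_ioo x0.le, int_ioo zero_le_one, ← integral_mul_const,
    ← integral_Icc_eq_integral_Ioo (x := (0 : ℝ)) (y := 1)]
  refine ⟨continuousOn_of_dominated (fun t ht => ?_) (fun t ht =>
    (ae_restrict_mem measurableSet_Ioo).mono fun v hv => b (t, v) ⟨ht, hv⟩)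
    (integrable_const M) ((ae_restrict_mem measurableSet_Ioo).mono fun v hv =>
      (hf.comp (f := fun t => (t, v)) (by fun_prop) fun t ht => ⟨ht, hv⟩).mul continuousOn_const),
    integral_integral_swap ((integrable_const M).mono' ?_ ?_)⟩
  · exact (((hf.comp (f := fun v => (t, v)) (by fun_prop) fun v hv => ⟨ht, hv⟩).aemeasurable
      measurableSet_Ioo).mul (by fun_prop)).aestronglyMeasurable
  all_goals rw [Measure.prod_restrict]
  · exact ((hf.aemeasurable (measurableSet_Icc.prod measurableSet_Ioo)).mul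
      (Measurable.aemeasurable (by fun_prop))).aestronglyMeasurable
  · exact (ae_restrict_mem (measurableSet_Icc.prod measurableSet_Ioo)).mono b

theorem Jr_congr {f g : ℝ → ℝ} {x : ℝ} (x0 : 0 < x) (h : ∀ v ∈ Ioo 0 x, f v = g v) :
    Jr f x = Jr g x := by
  unfold Jr
  rw [int_ioo x0.le, int_ioo x0.le]
  refine setIntegral_congr_fun measurableSet_Ioo fun v hv => ?_
  simp only [h v hv]
theorem Jr_add {f g : ℝ → ℝ} {x M M' : ℝ} (x0 : 0 < x) (x1 : x ≤ 1) (hf : ContinuousOn f (Ioo 0 x))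
    (hM : ∀ v ∈ Ioo 0 x, |f v| ≤ M) (hg : ContinuousOn g (Ioo 0 x))
    (hM' : ∀ v ∈ Ioo 0 x, |g v| ≤ M') : Jr (fun v => f v + g v) x = Jr f x + Jr g x := by
  unfold Jr
  rw [← intervalIntegral.integral_add (Jr_int x0 x1 hf hM).1 (Jr_int x0 x1 hg hM').1]
  simp only [add_mul]
theorem Jr_smul (c : ℝ) (f : ℝ → ℝ) (x : ℝ) : Jr (fun v => c * f v) x = c * Jr f x := by
  unfold Jr
  rw [← intervalIntegral.integral_const_mul]
  simp only [mul_assoc]

end BonN
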