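import Pool.Agent.Lib.MP_3dbf58_gt.N.BaseCA
import Pool.Agent.Lib.MP_3dbf58_gt.N.Int

/-! The real side of the base body. -/

open Set Filter Topology MeasureTheory Metric

noncomputable section

namespace BonN

open Bon3

variable [Cs]

namespace BC

/-- a piece of the base profile in an affine parameter -/
def pc (γ k : ℝ) (f : ℝ → ℝ) : Pc where
  H := fun s => HH γ (f s)
  X := fun s => XX γ (f s)
  T := fun s => TT γ (f s)
  H' := fun s => HH' γ (f s) * k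
  T' := fun s => TT' γ (f s) * k

theorem pc_ok {γ k : ℝ} {f : ℝ → ℝ} (hg : |γ| ≤ 1 / 10 ^ 20) (hf : ∀ s, HasDerivAt f k s)
    (k0 : 0 < k) (k2 : k ≤ 2) (m : ∀ s ∈ Icc (0 : ℝ) 1, |f s| ≤ 1) : PcOK (pc γ k f) := by
  have cf : Continuous f := continuous_iff_continuousAt.2 fun s => (hf s).continuousAt
  refine ⟨((c_HH γ).comp cf).continuousOn, ((c_XX γ).comp cf).continuousOn,
    ((c_TT γ).comp cf).continuousOn, fun s _ => (d_HH γ _).comp s (hf s),
    fun s _ => ((d_XX γ _).comp s (hf s)).congr_deriv (by simp only [pc]; ring),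
    fun s _ => (d_TT γ _).comp s (hf s), fun s hs => ?_, fun s hs => ?_, fun s hs => ?_,
    fun s hs => ?_⟩
  · have := abs_le.1 (HH'_near hg (m s (Ioo_subset_Icc_self hs)))
    simp only [pc]
    constructor <;> nlinarith [this.1, this.2]
  · have h1 := abs_le.1 (HH'_near hg (m s (Ioo_subset_Icc_self hs)))
    have h2 := abs_le.1 (TT'_near hg (m s (Ioo_subset_Icc_self hs)))
    simp only [pc]
    constructor <;> nlinarith [h1.1, h1.2, h2.1, h2.2]
  · have h1 := abs_le.1 (HH_near hg (m s hs))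
    have h2 := abs_le.1 (m s hs)
    simp only [pc]
    rw [abs_le]; constructor <;> linarith [h1.1, h1.2, h2.1, h2.2]
  · have h1 := abs_le.1 (TT_near hg (m s hs))
    have h2 := abs_le.1 (m s hs)
    simp only [pc]
    rw [abs_le]; constructor <;> linarith [h1.1, h1.2, h2.1, h2.2]

theorem d_NB (σ y γ c : ℝ) :
    HasDerivAt (NB σ y γ) (-2 * ((TT γ c + σ * (HH γ c + y)) * HH' γ c)) c := by
  have := (d_XX γ c).sub ((((d_HH γ c).add_const y).pow 2).const_mul σ)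
  refine this.congr_deriv ?_
  push_cast; ring

section
variable {cc Ia Ib : ℂ × ℂ × ℂ → ℂ} (A : BA cc Ia Ib)
include A

theorem half {σ y γ : ℝ} (hp : ((σ : ℂ), (y : ℂ), (γ : ℂ)) ∈ PD) (s0 : 0 ≤ σ)
    (hg : |γ| ≤ 1 / 10 ^ 20) :
    IntervalIntegrable (fun x => (x + y) * Real.sqrt (gg γ x - σ * (x + y) ^ 2) ^ (ii + 1))
      volume 0 2 ∧
    (1 + σ) * (Real.pi / bet *
        ∫ x in (0 : ℝ)..2, (x + y) * Real.sqrt (gg γ x - σ * (x + y) ^ 2) ^ (ii + 1)) =
      y * (Ia (σ, y, γ)).re - γ * (Ib (σ, y, γ)).re +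
        Real.pi / bet * (Real.sqrt (1 - σ * y ^ 2) ^ (ii + 1 + 2) / Nr) := by
  obtain ⟨l1, l2, l3, l5, l6⟩ := A.lnk σ y γ hp s0
  set r := (cc (σ, y, γ)).re
  set F : ℝ → ℝ := fun x => (x + y) * Real.sqrt (gg γ x - σ * (x + y) ^ 2) ^ (ii + 1) with hF
  have cN : Continuous (NB σ y γ) :=
    continuous_iff_continuousAt.2 fun c => (d_NB σ y γ c).continuousAt
  have jj : ∀ w : ℝ → ℝ, Continuous w →
      IntervalIntegrable (fun c => w c * Real.sqrt (NB σ y γ c) ^ (ii + 1)) volume 0 1 :=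
    fun w hw => (hw.mul (cN.sqrt.pow _)).intervalIntegrable _ _
  have cH := c_HH γ
  have cH' := c_HH' γ
  have cT := c_TT γ
  have ok := pc_ok (k := 1) (f := fun s => s) hg hasDerivAt_id' one_pos (by norm_num)
    fun s hs => abs_le.2 ⟨by linarith [hs.1], hs.2⟩
  obtain ⟨v1, v2⟩ := ok.cv F
  simp only [pc, HH_zero, mul_one] at v1 v2
  have eq1 : EqOn (fun s => F (HH γ s) * HH' γ s)
      (fun c => (HH γ c + y) * HH' γ c * Real.sqrt (NB σ y γ c) ^ (ii + 1)) (uIcc 0 1) :=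
    fun s hs => by
      rw [uIcc_of_le zero_le_one] at hs
      simp only [hF, gg_HH hg (c := s) ⟨by linarith [hs.1], hs.2⟩, NB]
      ring
  have i1 : IntervalIntegrable F volume 0 (HH γ 1) :=
    v2.2 ((jj (fun c => (HH γ c + y) * HH' γ c) (by fun_prop)).congr
      fun s hs => (eq1 (uIoc_subset_uIcc hs)).symm)
  have hH := abs_le.1 (HH_near (c := 1) hg (by simp))
  have hT := abs_le.1 (TT_near (c := 1) hg (by simp))
  have eq2 : EqOn F (fun _ => 0) (uIcc (HH γ 1) 2) := fun x hx => by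
    rw [uIcc_of_le (by linarith [hH.2])] at hx
    have : gg γ x - σ * (x + y) ^ 2 ≤ 0 := by
      rw [gg_far hg hx.1]
      nlinarith [mul_nonneg (show 0 ≤ TT γ 1 by linarith [hT.1]) (sub_nonneg.2 hx.1),
        mul_nonneg s0 (sq_nonneg (x + y))]
    simp only [hF, Real.sqrt_eq_zero'.2 this, zero_pow (Nat.succ_ne_zero ii), mul_zero]
  have i2 : IntervalIntegrable F volume (HH γ 1) 2 :=
    (intervalIntegrable_const (c := (0 : ℝ))).congr fun x hx => (eq2 (uIoc_subset_uIcc hx)).symm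
  refine ⟨i1.trans i2, ?_⟩
  rw [← intervalIntegral.integral_add_adjacent_intervals i1 i2, v1,
    intervalIntegral.integral_congr eq1, intervalIntegral.integral_congr eq2]
  have j3 := jj (fun c => (TT γ c + σ * (HH γ c + y)) * HH' γ c) (by fun_prop)
  have N0 := Nr_pos.ne'
  have ftc := integral_eq_of_hasDerivAt_off_countable_of_le
    (fun c => -(Real.sqrt (NB σ y γ c) ^ (ii + 1 + 2) / Nr)) _ zero_le_one (countable_singleton r)
    (by fun_prop) (fun c hc => ?_) j3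
  · have n1 : Real.sqrt (NB σ y γ 1) = 0 := Real.sqrt_eq_zero'.2 (l3 1 l1 le_rfl)
    have n0 : NB σ y γ 0 = 1 - σ * y ^ 2 := by simp [NB, XX_zero, HH_zero]
    simp only [n1, n0, zero_pow (Nat.succ_ne_zero (ii + 1 + 1)), zero_div, neg_zero, zero_sub,
      neg_neg] at ftc
    have j1 := (jj _ cH').const_mul y
    have j2 := (jj (fun c => ph c * HH' γ c) (c_ph.mul cH')).const_mul γ
    rw [l5, l6, ← ftc, mul_left_comm (1 + σ), mul_left_comm y, mul_left_comm γ, ← mul_sub,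
      ← mul_add, ← intervalIntegral.integral_const_mul y, ← intervalIntegral.integral_const_mul γ,
      ← intervalIntegral.integral_sub j1 j2, ← intervalIntegral.integral_add (j1.sub j2) j3,
      intervalIntegral.integral_zero, add_zero, ← intervalIntegral.integral_const_mul (1 + σ)]
    refine congrArg _ (intervalIntegral.integral_congr fun c _ => ?_)
    have : TT γ c = HH γ c + γ * ph c := by unfold HH; ring
    simp only [this]; ring
  · rcases lt_or_gt_of_ne (show c ≠ r from hc.2) with h | h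
    · have p := l2 c hc.1.1.le h
      refine (((sqrt_pow_deriv (ii + 1) p).comp c (d_NB σ y γ c)).div_const Nr).neg.congr_deriv ?_
      rw [show ((ii + 1 : ℕ) : ℝ) + 2 = Nr by unfold Nr; push_cast; ring]
      field_simp
    · have z : ∀ t ∈ Ioo r 1, Real.sqrt (NB σ y γ t) = 0 := fun t ht =>
        Real.sqrt_eq_zero'.2 (l3 t ht.1.le ht.2.le)
      rw [z c ⟨h, hc.1.2⟩, zero_pow (Nat.succ_ne_zero ii), mul_zero]
      refine (hasDerivAt_const c (0 : ℝ)).congr_of_eventuallyEq ?_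
      filter_upwards [Ioo_mem_nhds h hc.1.2] with t ht
      rw [z t ht, zero_pow (Nat.succ_ne_zero _), zero_div, neg_zero]

omit A in
theorem mem_PD {σ y γ : ℝ} (h1 : |σ| < 1 / 10) (h2 : |y| < lam / 10 ^ 3) (hg : |γ| ≤ gam) :
    ((σ : ℂ), (y : ℂ), (γ : ℂ)) ∈ PD := by
  refine ⟨?_, ?_, ?_⟩ <;> simp only [Complex.norm_real, Real.norm_eq_abs]
  exacts [h1, h2, hg.trans_lt (by linarith [gam_le_lam, lam_pos])]

theorem link {σ y : ℝ} (s0 : 0 ≤ σ) (s1 : σ < 1 / 10) (hy : |y| < lam / 10 ^ 3) :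
    Cr (gg gam) σ y = Real.pi * (Cb Ia Ib σ y).re := by
  have s2 : |σ| < 1 / 10 := by rwa [abs_of_nonneg s0]
  have m1 := mem_PD s2 hy a1
  have m2 := mem_PD (y := -y) s2 (by rwa [abs_neg]) a2
  obtain ⟨i1, e1⟩ := half A m1 s0 g1
  obtain ⟨i2, e2⟩ := half A m2 s0 g2
  set F : ℝ → ℝ := fun x => (x + y) * Real.sqrt (gg gam x - σ * (x + y) ^ 2) ^ (ii + 1) with hF
  set G : ℝ → ℝ := fun x => (x + -y) * Real.sqrt (gg (-gam) x - σ * (x + -y) ^ 2) ^ (ii + 1) with hG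
  have e : ∀ x, F x = -G (-x) := fun x => by
    simp only [hF, hG, gg_neg, neg_neg]
    rw [show (-x + -y) ^ 2 = (x + y) ^ 2 by ring]; ring
  have i3 : IntervalIntegrable F volume (-2) 0 := by
    have := ((IntervalIntegrable.iff_comp_neg (by simp)).1 i2).neg.symm
    simp only [neg_zero] at this
    exact this.congr fun x _ => (e x).symm
  have e3 : ∫ x in (-2 : ℝ)..0, F x = -∫ x in (0 : ℝ)..2, G x := by
    simp only [e, intervalIntegral.integral_neg, intervalIntegral.integral_comp_neg, neg_zero,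
      neg_neg]
  have e4 : Cr (gg gam) σ y =
      Real.pi / bet * ((∫ x in (-2 : ℝ)..0, F x) + ∫ x in (0 : ℝ)..2, F x) :=
    congrArg _ (intervalIntegral.integral_add_adjacent_intervals i3 i1).symm
  have d : ((1 + σ : ℂ) * Real.pi) = (((1 + σ) * Real.pi : ℝ) : ℂ) := by push_cast; ring
  have p := Real.pi_pos
  push_cast at e2
  rw [e4, e3, Cb, d, Complex.div_ofReal_re]
  simp only [Complex.sub_re, Complex.add_re, Complex.re_ofReal_mul]
  have s3 : 0 < 1 + σ := by linarith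
  rw [neg_sq] at e2
  rw [mul_div_assoc', eq_div_iff (by positivity)]
  linear_combination Real.pi * e1 - Real.pi * e2

theorem point {σ y γ : ℝ} (s0 : 0 ≤ σ) (s1 : σ < 1 / 10) (hy : |y| < lam / 10 ^ 3)
    (hg : |γ| ≤ gam) : ∃ c : ℝ, cc (σ, y, γ) = c ∧ 7 / 8 ≤ c ∧ c ≤ 1 ∧
      NB σ y γ c = 0 ∧ (σ = 0 → c = 1) := by
  have m := mem_PD (σ := σ) (by rwa [abs_of_nonneg s0]) hy hg
  have e : cc (σ, y, γ) = ((cc (σ, y, γ)).re : ℂ) :=
    Complex.ext (by simp) (by simp [(A.rl σ y γ m).1])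
  have h1 := (A.lnk σ y γ m s0).1
  have h2 := A.c0 _ m
  have h3 := A.root _ m
  set c := (cc (σ, y, γ)).re
  rw [e] at h2 h3
  have h4 : |c - 1| ≤ 1 / 8 := by
    rw [← Real.norm_eq_abs, ← Complex.norm_real]; push_cast; exact h2
  have h5 : NB σ y γ c = 0 := by
    exact_mod_cast (NB_cast σ y γ c).symm.trans h3
  have h6 : 7 / 8 ≤ c := by linarith [(abs_le.1 h4).1]
  refine ⟨c, e, h6, h1, h5, fun z => ?_⟩
  have h7 := R_pos (sm hg) (c := c) (abs_le.2 ⟨by linarith, h1⟩)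
  simp only [z, NB, XX, zero_mul, sub_zero, mul_eq_zero] at h5
  rcases h5 with h5 | h5
  · nlinarith
  · exact absurd h5 (by positivity)

end

/-- the points of a cap of the base state are points of the profile -/
theorem cap_pt {cc Ia Ib : ℂ × ℂ × ℂ → ℂ} (A : BA cc Ia Ib) {e : ℂ → ℂ} {q γ c0 : ℝ}
    (hg : |γ| ≤ gam) (q0 : 0 < q) (q1 : q < 1 / 12) (c1 : 999 / 1000 ≤ c0) (c2 : c0 < 1)
    (e0 : ∀ σ : ℂ, ‖σ‖ < 1 / 12 → ‖e σ‖ ≤ gam * 10 ^ 6) (er : ∀ σ : ℝ, |σ| < 1 / 12 → (e σ).im = 0)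
    {u T H : ℂ → ℂ}
    (hu : ∀ ξ, u ξ = (1 - ξ) * ((H ξ + e (q * (1 - ξ))) / T ξ) ^ 2)
    (hT : ∀ ξ, T ξ = TT (γ : ℂ) (cc (q * (1 - ξ), e (q * (1 - ξ)), γ)))
    (hH : ∀ ξ, H ξ = HH (γ : ℂ) (cc (q * (1 - ξ), e (q * (1 - ξ)), γ)))
    {p : Pc} (hp : p = capOf q u T H ((1 - c0 ^ 2) / (c0 ^ 2 * q)) (TT γ c0) (HH γ c0))
    {s : ℝ} (hs : s ∈ Icc (0 : ℝ) 1) :
    ∃ c ∈ Icc (-1 : ℝ) 1, p.H s = HH γ c ∧ p.X s = XX γ c ∧ p.T s = TT γ c ∧ (s = 1 → c = 1) ∧
      (s = 0 → c = c0) := by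
  subst hp
  rcases hs.1.eq_or_lt with z | z
  · subst z
    refine ⟨c0, ⟨by linarith, c2.le⟩, by simp [capOf, rc], ?_, by simp [capOf, rc], by simp,
      fun _ => rfl⟩
    have : c0 ≠ 0 := by linarith
    simp only [capOf, rc, le_refl, if_true, XX, TT]
    field_simp
  · have s0 : 0 ≤ q * (1 - s) := mul_nonneg q0.le (by linarith [hs.2])
    have s1 : q * (1 - s) < 1 / 12 := by nlinarith
    have s2 : |q * (1 - s)| < 1 / 12 := by rwa [abs_of_nonneg s0]
    have cs : (q : ℂ) * (1 - s) = ((q * (1 - s) : ℝ) : ℂ) := by push_cast; ring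
    set σ := q * (1 - s) with hσ
    have ey : e σ = ((e σ).re : ℂ) := Complex.ext (by simp) (by simp [er σ s2])
    have hy : |(e σ).re| < lam / 10 ^ 3 :=
      ((Complex.abs_re_le_norm _).trans (e0 σ (by simpa using s2))).trans_lt
        (by linarith [gam_le_lam, lam_pos])
    set y := (e σ).re
    obtain ⟨c, h1, h2, h3, h4, h5⟩ := point A s0 (by linarith) hy hg
    have t : T s = ((TT γ c : ℝ) : ℂ) := by rw [hT, cs, ey, h1, TT_cast]
    have hh : H s = ((HH γ c : ℝ) : ℂ) := by rw [hH, cs, ey, h1, HH_cast]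
    have uu : u s = (((1 - s) * ((HH γ c + y) / TT γ c) ^ 2 : ℝ) : ℂ) := by
      rw [hu, cs, ey, t, hh]; push_cast; ring
    have tp : 0 < TT γ c := mul_pos (by linarith) (R_pos (sm hg) (abs_le.2 ⟨by linarith, h3⟩))
    refine ⟨c, ⟨by linarith, h3⟩, ?_, ?_, ?_, fun o => h5 (by simp [hσ, o]),
      fun o => absurd o z.ne'⟩
    · simp only [capOf, rc, if_neg (not_le.2 z), hh, Complex.ofReal_re]
    · simp only [capOf, rc, if_neg (not_le.2 z), uu, t, Complex.ofReal_re]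
      have : XX γ c = σ * (HH γ c + y) ^ 2 := by unfold NB at h4; linarith
      rw [this, hσ]
      field_simp
    · simp only [capOf, rc, if_neg (not_le.2 z), t, Complex.ofReal_re]

theorem tg_of {γ : ℝ} (hg : |γ| ≤ 1 / 10 ^ 20) {p : Pc}
    (h : ∀ s ∈ Icc (0 : ℝ) 1, ∃ c ∈ Icc (-1 : ℝ) 1,
      p.H s = HH γ c ∧ p.X s = XX γ c ∧ p.T s = TT γ c) : Tg (gg γ) p := fun s hs => by
  obtain ⟨c, hc, h1, h2, h3⟩ := h s hs
  rw [h1, h2, h3]
  exact ⟨gg_HH hg hc, fun x => gg_le γ x hc⟩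

end BC

open BC in
theorem baseC {cc Ia Ib : ℂ × ℂ × ℂ → ℂ} {hb U : ℂ → ℂ} {q μ0 c0 : ℝ} (A : BA cc Ia Ib)
    (B : BB cc Ia Ib hb q μ0 c0)
    (h : ∀ g : ℝ → ℝ, InvC (Par0 hb q μ0 c0 g) th0 (th0 / 32) (th0 ^ 2 * (120 * gam * q) / 2)
        (St0 cc Ia Ib hb U q g)) :
    ∃ g : ℝ → ℝ, BaseX (Par0 hb q μ0 c0 g) ∧
      InvR (Par0 hb q μ0 c0 g) th0 (th0 / 32) 0 (St0 cc Ia Ib hb U q g) := by
  have q0 : 0 < q := lt_of_lt_of_le (half_pos tt_pos) B.q1
  have q2 : q ≤ 1 / 10 ^ 7 := B.q2.trans (by linarith [tt_le])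
  have q1 : q ≤ del1 := B.q2.trans (by linarith [tt_eq, dl_le_th0, del1_eq, th0_pos])
  have q3 : q < 1 / 12 := by linarith
  have c1 := B.c1
  have c2 := B.c2
  have ca : |c0| ≤ 1 := abs_le.2 ⟨by linarith, c2.le⟩
  have t0 : 0 < th0 := th0_pos
  have hB : th0 ^ 2 * (120 * gam * q) / 2 ≤ th0 ^ 2 * q := by
    have := gam_small
    have : 120 * gam * q / 2 ≤ q := by nlinarith
    nlinarith [sq_nonneg th0]
  have I := h (gg gam)
  obtain ⟨op, p1, pT⟩ := capOf_ok t0 le_rfl q0 q1 (I.cp.capR q0 hB q1)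
  obtain ⟨om, m1, mT⟩ := capOf_ok t0 le_rfl q0 q1 (I.cm.capR q0 hB q1)
  set P := Par0 hb q μ0 c0 (gg gam)
  set S := St0 cc Ia Ib hb U q (gg gam)
  have ptp := fun s => cap_pt A (e := hb) a1 q0 q3 c1 c2 B.hb0 B.hbr (u := S.up) (T := S.Tp)
    (H := S.Hp) (fun _ => rfl) (fun _ => rfl) (fun _ => rfl) (p := S.cp P) rfl (s := s)
  have ptm := fun s => cap_pt A (e := fun σ => -hb σ) a2 q0 q3 c1 c2
    (fun σ hσ => by simpa using B.hb0 σ hσ) (fun σ hσ => by simpa using B.hbr σ hσ)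
    (u := S.um) (T := S.Tm) (H := S.Hm) (fun _ => by rw [← sub_eq_add_neg]; rfl)
    (fun _ => by rw [Complex.ofReal_neg]; rfl) (fun _ => by rw [Complex.ofReal_neg]; rfl)
    (p := S.cm P) rfl (s := s)
  have z0 : (0 : ℝ) ∈ Icc (0 : ℝ) 1 := by simp
  have z1 : (1 : ℝ) ∈ Icc (0 : ℝ) 1 := by simp
  have bm : ∀ s ∈ Icc (0 : ℝ) 1, |c0 * (2 * s - 1)| ≤ 1 := fun s hs =>
    mul_le1 ca (abs_le.2 ⟨by linarith [hs.1], by linarith [hs.2]⟩)
  have ob : PcOK (band0 c0) :=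
    pc_ok (k := 2 * c0) (f := fun s => c0 * (2 * s - 1)) g1
      (fun s => ((((hasDerivAt_id' s).const_mul 2).sub_const 1).const_mul c0).congr_deriv (by ring))
      (by linarith) (by linarith) bm
  have rep : Rep (gg gam) (band0 c0) (S.cp P) (S.cm P) := by
    obtain ⟨a, -, a1, a2, a3, -, a5⟩ := ptp 0 z0
    obtain ⟨b, -, b1, b2, b3, -, b5⟩ := ptm 0 z0
    obtain ⟨a', -, a1', -, a3', a4, -⟩ := ptp 1 z1
    obtain ⟨b', -, b1', -, b3', b4, -⟩ := ptm 1 z1
    rw [a5 rfl] at a1 a2 a3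
    rw [b5 rfl] at b1 b2 b3
    rw [a4 rfl] at a1' a3'
    rw [b4 rfl] at b1' b3'
    have k1 : c0 * (2 * 1 - 1) = c0 := by ring
    have k0 : c0 * (2 * 0 - 1) = -c0 := by ring
    have k2 : c0 * (2 * (1 / 2) - 1) = 0 := by ring
    refine ⟨⟨ob, op, om, ?_, ?_, ?_, ?_, ?_, ?_, p1, m1, ?_, ?_, 1 / 2, by constructor <;> norm_num,
      ?_⟩, tg_of g1 fun s hs => ⟨_, abs_le.1 (bm s hs), rfl, rfl, rfl⟩, tg_of g1 fun s hs => ?_,
      ?_, fun x hx => ?_, fun x hx => ?_⟩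
    · simp only [band0, k1, a1]
    · simp only [band0, k1, a2]
    · simp only [band0, k1, a3]
    · simp only [band0, k0, b1, HH_neg, neg_neg]
    · simp only [band0, k0, b2, XX_neg]
    · simp only [band0, k0, b3, TT_neg, neg_neg]
    · rw [a3]; exact pT
    · rw [b3]; exact mT
    · simp only [band0, k2, HH_zero, TT_zero, XX_zero, and_self]
    · obtain ⟨c, hc, h1, h2, h3, -⟩ := ptp s hs
      exact ⟨c, hc, h1, h2, h3⟩
    · simp only [gg_neg]
      refine tg_of g2 fun s hs => ?_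
      obtain ⟨c, hc, h1, h2, h3, -⟩ := ptm s hs
      exact ⟨c, hc, h1, h2, h3⟩
    · rw [a1', a3']; exact gg_far g1 (a1' ▸ hx)
    · rw [b1', b3', gg_neg]; exact gg_far g2 (b1' ▸ hx)
  refine ⟨gg gam, ⟨?_, ?_, fun σ hσ => ?_, fun x hx => outer g1 hx, fun x hx => inner g1 hx,
    fun x hx => top g1 hx, asym⟩, differentiableOn_const _, fun _ _ => rfl,
    fun _ _ => by simp [St0], rep, fun _ _ _ _ _ => rfl, fun x y hd hx => ?_, fun x _ => ?_⟩
  · have := abs_le.1 (HH_near g1 ca)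
    show _ ≤ HH gam c0
    linarith [this.1]
  · have := abs_le.1 (HH_near g2 ca)
    show _ ≤ HH (-gam) c0
    linarith [this.1]
  · have s0 : 0 ≤ σ := q0.le.trans hσ.1
    have s1 : σ < 1 / 12 := by linarith [hσ.2]
    have s2 : |σ| < 1 / 12 := by rwa [abs_of_nonneg s0]
    have s3 : ‖(σ : ℂ)‖ < 1 / 12 := by simpa using s2
    have ey : hb σ = ((hb σ).re : ℂ) := Complex.ext (by simp) (by simp [B.hbr σ s2])
    have hy : |(hb σ).re| < lam / 10 ^ 3 :=
      ((Complex.abs_re_le_norm _).trans (B.hb0 σ s3)).trans_lt (by linarith [gam_le_lam, lam_pos])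
    have mo := B.mono σ hσ
    have cr := B.cr σ s3
    set y := (hb σ).re
    rw [ey] at mo cr
    have l1 := (A.lnk σ y gam (mem_PD (by linarith) hy BC.a1) s0).2.2.1 c0 mo.1 c2.le
    have l2 := (A.lnk σ (-y) (-gam) (mem_PD (by linarith) (by rwa [abs_neg]) BC.a2) s0).2.2.1 c0
      (by push_cast; exact mo.2) c2.le
    have m0 : c0 ∈ Icc (-1 : ℝ) 1 := abs_le.1 ca
    refine ⟨y, by linarith [lam_le], ?_, ?_, ?_⟩
    · show Cr (gg gam) σ y = 0
      rw [link A s0 (by linarith) hy, cr]; simp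
    · show gg gam (HH gam c0) - σ * (HH gam c0 + y) ^ 2 ≤ 0
      rw [gg_HH g1 m0]; exact l1
    · show gg gam (-HH (-gam) c0) - σ * (-HH (-gam) c0 + y) ^ 2 ≤ 0
      rw [gg_neg, gg_HH g2 m0]
      unfold NB at l2
      nlinarith
  · obtain ⟨⟨d1, d2⟩, d3⟩ := hd
    simp only [Complex.ofReal_im, abs_zero, Complex.ofReal_re] at d1 d2
    have x0 : 0 < x := (pos_iff_pos_of_mul_pos d1).1 t0
    have s0 : 0 ≤ q * (1 - x) := mul_nonneg q0.le (by linarith)
    have s1 : q * (1 - x) < 1 / 12 := by nlinarith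
    have cs : (q : ℂ) * (1 - x) = ((q * (1 - x) : ℝ) : ℂ) := by push_cast; ring
    have n1 := B.hb0 ((q : ℂ) * (1 - x)) (by
      rw [cs, Complex.norm_real, Real.norm_eq_abs, abs_of_nonneg s0]; exact s1)
    have hy : |y| < lam / 10 ^ 3 := by
      have a1 : ‖(y : ℂ) - hb (q * (1 - x))‖ < th0 / 32 / 1000 * ‖(x : ℂ)‖ := d3
      have a2 := norm_sub_norm_le (y : ℂ) (hb (q * (1 - x)))
      rw [Complex.norm_real, Real.norm_eq_abs, abs_of_pos x0] at a1
      rw [Complex.norm_real, Real.norm_eq_abs] at a2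
      have a3 : th0 * x ≤ th0 * 1 := by gcongr
      have a4 : lam = 1000 * th0 := rfl
      linarith [gam_le_lam]
    have := link A s0 (by linarith) hy
    rw [← cs] at this
    exact this
  · simp [Par0, St0, Jr]

end BonN
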