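import Pool.Agent.Lib.MP_3dbf58_gt.N.KerH

open Set Filter Topology MeasureTheory Metric

noncomputable section

namespace BonN

open Bon3

theorem lcn_A0 {A : ℝ} {W ξ : ℂ} (h : ‖W‖ ≤ A * ‖ξ‖ ^ 4) (h0 : ξ ≠ 0) : 0 ≤ A :=
  nonneg_of_mul_nonneg_left ((norm_nonneg _).trans h) (pow_pos (norm_pos_iff.2 h0) 4)

theorem lcn_sm {A v : ℝ} {ξ : ℂ} (A0 : 0 ≤ A) (hv : v ∈ Ioo (0 : ℝ) 1) :
    2 * A * ‖(v : ℂ) * ξ‖ ^ 4 ≤ 2 * A * ‖ξ‖ ^ 4 := by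
  rw [norm_mul, Complex.norm_real, Real.norm_of_nonneg hv.1.le]
  have := mul_le_of_le_one_left (norm_nonneg ξ) hv.2.le
  have := mul_nonneg hv.1.le (norm_nonneg ξ)
  gcongr

theorem lcn_G1 {θ Λ : ℝ} (t0 : 0 ≤ θ) {p : ℂ × ℂ} (hp : p ∈ G1 θ Λ) {v : ℝ}
    (hv : v ∈ Ioo (0 : ℝ) 1) : (p.1, (v : ℂ) * p.2) ∈ G1 θ Λ := by
  refine ⟨Sec_smul t0 hp.1 hv.1 hv.2.le, lt_of_le_of_lt ?_ hp.2⟩
  refine mul_le_mul_of_nonneg_left ?_ (norm_nonneg _)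
  show ‖(v : ℂ) * p.2‖ ≤ ‖p.2‖
  rw [norm_mul, Complex.norm_real, Real.norm_of_nonneg hv.1.le]
  exact mul_le_of_le_one_left (norm_nonneg _) hv.2.le

theorem lcn_bd {X C : ℂ} {F : ℝ → ℂ} {A M x : ℝ} (A0 : 0 ≤ A) (M0 : 0 ≤ M) (x0 : 0 ≤ x)
    (hX : ‖X‖ ≤ 2 * A * x) (hC : ‖C‖ ≤ 3 / 2) (hF : ∀ v ∈ Ioo (0 : ℝ) 1, ‖F v‖ ≤ 2 * A * x * M) :
    ‖X * C + ∫ v in Ioo (0 : ℝ) 1, F v‖ ≤ 4 * A * (1 + M) * x := by
  have h1 := norm_setIntegral_le_of_norm_le_const (μ := volume) (by simp) hF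
  have h2 := norm_mul_le_of_le hX hC
  have h3 := mul_nonneg A0 x0
  simp only [Real.volume_real_Ioo, sub_zero, zero_le_one, sup_of_le_left, mul_one] at h1
  refine (norm_add_le_of_le h2 h1).trans ?_
  nlinarith [mul_nonneg h3 M0]

variable [Cs]

theorem lcn_ff {Z Z' W ξ : ℂ} {C : ℝ} (hz : ‖Z - 1‖ ≤ 1 / (20 * Nr)) (h1 : ‖Z'‖ ≤ 1 / 20)
    (hξ : ‖1 - ξ‖ ≤ 101 / 100) (hw : ‖W‖ ≤ C) : ‖(Z ^ 2 - 2 * (1 - ξ) * Z * Z') * W‖ ≤ 2 * C := by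
  have a0 : 1 / (20 * Nr) ≤ 1 / 20 :=
    one_div_le_one_div_of_le (by norm_num) (by linarith [Nr_ge])
  have a1 := norm_le_norm_add_norm_sub' Z 1
  rw [norm_one] at a1
  have a2 : ‖Z‖ ≤ 21 / 20 := by linarith
  refine norm_mul_le_of_le ((norm_sub_le _ _).trans
    (le_trans (b := (21 / 20) ^ 2 + 2 * (101 / 100) * (21 / 20) * (1 / 20)) ?_ (by norm_num))) hw
  simp only [norm_mul, norm_pow, Complex.norm_ofNat]
  gcongr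

theorem lcn_eq (z e w : ℂ → ℂ) (ξ : ℂ) : Lcap z e w ξ = ff z w ξ * csq (nd z e ξ) ^ (ii + 1) +
    ∫ v in Ioo (0 : ℝ) 1, ff z w (v * ξ) * (ξ * KK z e ξ (v * ξ)) := by
  rw [Lcap, ← integral_const_mul]
  simp only [mul_left_comm]

theorem ff_le {θ A : ℝ} {z e w : ℂ → ℂ} (t0 : 0 ≤ θ) (t1 : θ ≤ th0) (h : LD θ A z e w) {ξ : ℂ}
    (hξ : ξ ∈ Sec θ) : ‖ff z w ξ‖ ≤ 2 * A * ‖ξ‖ ^ 4 :=
  (lcn_ff (h.z0 ξ hξ) (h.z1 ξ hξ) (Sec_two t0 t1 hξ).2 (h.w0 ξ hξ)).trans_eq (by ring)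

/-- holomorphy and crude bound of the operator along a family -/
theorem Lcap_HC {θ d Λ A : ℝ} {z e w : ℂ × ℂ → ℂ} (d0 : 0 < d) (hd : d < θ) (t1 : θ ≤ th0)
    (h : LD2 θ Λ A z e w) :
    HC (fun p : ℂ × ℂ => Lcap (sl z p.1) (sl e p.1) (sl w p.1) p.2) (G1 (θ - d) (Λ / 2)) ∧
    ∀ p ∈ G1 (θ - d) (Λ / 2),
      ‖Lcap (sl z p.1) (sl e p.1) (sl w p.1) p.2‖ ≤ 4 * A * (1 + 1 / d ^ n2) * ‖p.2‖ ^ 4 := by
  have t0 : 0 ≤ θ := by linarith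
  have sub : G1 (θ - d) (Λ / 2) ⊆ G1 θ Λ := fun p hp => ⟨Sec_mono (by linarith) (by linarith) hp.1,
    by linarith [hp.2, mul_nonneg (norm_nonneg p.1) (norm_nonneg p.2), show _ < _ from hp.2]⟩
  have c1 : ∀ c : ℂ, HC (fun _ : ℂ × ℂ => c) (G1 θ Λ) := fun c => HC.const c
  have c2 : HC (fun p : ℂ × ℂ => p.2) (G1 θ Λ) := HC.of_diff (by fun_prop)
  have cf : HC (fun p : ℂ × ℂ => ff (sl z p.1) (sl w p.1) p.2) (G1 θ Λ) :=
    ((h.hz.pow 2).sub ((((c1 2).mul ((c1 1).sub c2)).mul h.hz).mul h.hz1)).mul h.hw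
  have cn : HC (fun p : ℂ × ℂ => nd (sl z p.1) (sl e p.1) p.2) (G1 θ Λ) :=
    (h.hz.pow 2).sub ((((c1 1).sub c2).mul h.he1).mul ((c1 2).mul h.hz))
  have bn : ∀ p ∈ G1 θ Λ, nd (sl z p.1) (sl e p.1) p.2 ∈ Complex.slitPlane ∧
      ‖csq (nd (sl z p.1) (sl e p.1) p.2) ^ (ii + 1)‖ ≤ 3 / 2 := fun p hp => by
    have := (h.ze.nn t0 t1).2 (p, p.2) ⟨hp, hp⟩
    rw [nnI_self] at this
    exact csq_pow_le this
  have bf : ∀ p ∈ G1 θ Λ, ‖ff (sl z p.1) (sl w p.1) p.2‖ ≤ 2 * A * ‖p.2‖ ^ 4 := fun p hp =>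
    (lcn_ff (h.z0 p hp) (h.z1 p hp) (Sec_two t0 t1 hp.1).2 (h.w0 p hp)).trans_eq (by ring)
  have A0 : ∀ p ∈ G1 θ Λ, 0 ≤ A := fun p hp => lcn_A0 (h.w0 p hp) (Sec_ne hp.1)
  have bF : ∀ p ∈ G1 (θ - d) (Λ / 2), ∀ v ∈ Ioo (0 : ℝ) 1, ‖ff (sl z p.1) (sl w p.1) (v * p.2) *
      (p.2 * KK (sl z p.1) (sl e p.1) p.2 (v * p.2))‖ ≤ 2 * A * ‖p.2‖ ^ 4 * (1 / d ^ n2) :=
    fun p hp v hv => norm_mul_le_of_le ((bf _ (lcn_G1 t0 (sub hp) hv)).trans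
      (lcn_sm (A0 p (sub hp)) hv)) (h.ze.kk_le d0 hd.le t1 hp hv)
  simp only [lcn_eq]
  refine ⟨((cf.mul ((cn.csq fun p hp => (bn p hp).1).pow _)).mono sub).add
    (HC.integral (b := fun _ => 2 * A * 2 ^ 4 * (1 / d ^ n2))
      ((ae_restrict_mem measurableSet_Ioo).mono fun v hv =>
        ((cf.comp (g := fun p : ℂ × ℂ => (p.1, (v : ℂ) * p.2)) (HC.of_diff (by fun_prop))
          fun p hp => lcn_G1 t0 hp hv).mul (h.ze.kk_v t0 t1 hv)).mono sub)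
      (fun p hp => ContinuousOn.aestronglyMeasurable (ContinuousOn.mul ?_
        (continuousOn_const.mul ?_)) measurableSet_Ioo)
      ((ae_restrict_mem measurableSet_Ioo).mono fun v hv p hp => (bF p hp v hv).trans ?_)
      (integrable_const _)), fun p hp => lcn_bd (A0 p (sub hp)) (by positivity) (by positivity)
        (bf p (sub hp)) (bn p (sub hp)).2 (bF p hp)⟩
  · exact (cf (fun s => (p.1, s * p.2)) {s | (p.1, s * p.2) ∈ G1 θ Λ}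
      ((isOpen_G1 θ Λ).preimage (by fun_prop)) (by fun_prop) fun _ hs => hs).continuousOn.comp
      Complex.continuous_ofReal.continuousOn fun v hv => lcn_G1 t0 (sub hp) hv
  · exact (h.ze.kk t0 t1).2.comp (f := fun v : ℝ => ((p.1, (v : ℂ) * p.2), p.2)) (by fun_prop)
      fun v hv => ⟨lcn_G1 t0 (sub hp) hv, sub hp⟩
  · have := A0 p (sub hp)
    have : ‖p.2‖ ≤ 2 := by linarith [(Sec_two t0 t1 (sub hp).1).1]
    gcongr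

section
variable {θ θ' M A : ℝ} {z e w : ℂ → ℂ} (t0 : 0 < θ') (t2 : θ' ≤ θ) (t1 : θ ≤ th0)
  (h : LD θ A z e w)
include h

theorem lcn_df : DifferentiableOn ℂ (ff z w) (Sec θ) :=
  ((h.dz.pow 2).sub ((DifferentiableOn.mul (by fun_prop) h.dz).mul
    (h.dz.deriv (isOpen_Sec θ)))).mul h.dw

include t0 t2 t1

theorem lcn_cont {ξ : ℂ} (hξ : ξ ∈ Sec θ') :
    ContinuousOn (fun v : ℝ => ff z w (v * ξ) * (ξ * KK z e ξ (v * ξ))) (Ioo 0 1) := by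
  have a := Sec_mono t0.le t2 hξ
  have b : ∀ v ∈ Ioo (0 : ℝ) 1, (v : ℂ) * ξ ∈ Sec θ := fun v hv =>
    Sec_smul (by linarith) a hv.1 hv.2.le
  exact ((lcn_df h).continuousOn.comp (by fun_prop) b).mul (continuousOn_const.mul
    ((h.ze.kk_cont (by linarith) t1).comp (f := fun v : ℝ => (ξ, (v : ℂ) * ξ)) (by fun_prop)
      fun v hv => ⟨a, b v hv⟩))

theorem lcn_le (k : KN θ' M 0 z e) {ξ : ℂ} (hξ : ξ ∈ Sec θ') {v : ℝ} (hv : v ∈ Ioo (0 : ℝ) 1) :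
    ‖ff z w (v * ξ) * (ξ * KK z e ξ (v * ξ))‖ ≤ 2 * A * ‖ξ‖ ^ 4 * M := by
  have a := Sec_mono t0.le t2 hξ
  exact norm_mul_le_of_le ((ff_le (by linarith) t1 h (Sec_smul (by linarith) a hv.1 hv.2.le)).trans
    (lcn_sm (lcn_A0 (h.w0 ξ a) (Sec_ne a)) hv)) (by simpa using k ξ hξ v hv)

end

/-- integrability of the kernel term, used to split integrals -/
theorem Lcap_int {θ θ' M A : ℝ} {z e w : ℂ → ℂ} (t0 : 0 < θ') (t2 : θ' ≤ θ) (t1 : θ ≤ th0)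
    (h : LD θ A z e w) (k : KN θ' M 0 z e) {ξ : ℂ} (hξ : ξ ∈ Sec θ') :
    IntegrableOn (fun v : ℝ => ff z w (v * ξ) * KK z e ξ (v * ξ)) (Ioo (0 : ℝ) 1) := by
  have a : Integrable _ (volume.restrict (Ioo (0 : ℝ) 1)) :=
    (integrable_const (2 * A * ‖ξ‖ ^ 4 * M)).mono'
      ((lcn_cont t0 t2 t1 h hξ).aestronglyMeasurable measurableSet_Ioo)
      ((ae_restrict_mem measurableSet_Ioo).mono fun v hv => lcn_le t0 t2 t1 h k hξ hv)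
  refine (a.const_mul ξ⁻¹).congr (.of_forall fun v => ?_)
  have := Sec_ne hξ
  field_simp

/-- the same for fixed data -/
theorem Lcap_diff {θ θ' M A : ℝ} {z e w : ℂ → ℂ} (t0 : 0 < θ') (t2 : θ' ≤ θ) (t1 : θ ≤ th0)
    (h : LD θ A z e w) (k : KN θ' M 0 z e) :
    DifferentiableOn ℂ (Lcap z e w) (Sec θ') ∧
    ∀ ξ ∈ Sec θ', ‖Lcap z e w ξ‖ ≤ 4 * A * (1 + M) * ‖ξ‖ ^ 4 := by
  have t3 : 0 ≤ θ := by linarith
  have sub := Sec_mono t0.le t2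
  have one : (1 : ℂ) ∈ Sec θ' := by simpa using Sec_real t0 one_pos le_rfl
  have A0 := lcn_A0 (h.w0 1 (sub one)) one_ne_zero
  have M0 : 0 ≤ M := (norm_nonneg _).trans (k 1 one (1 / 2) (by norm_num))
  have bn : ∀ ξ ∈ Sec θ, nd z e ξ ∈ Complex.slitPlane ∧ ‖csq (nd z e ξ) ^ (ii + 1)‖ ≤ 3 / 2 :=
    fun ξ hξ => csq_pow_le (nnI_self z e ξ ▸ h.ze.nn t3 t1 hξ hξ)
  have cn : HC (nd z e) (Sec θ) := HC.of_diff ((h.dz.pow 2).sub ((DifferentiableOn.mul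
    (by fun_prop) (h.de.deriv (isOpen_Sec θ))).mul (h.dz.const_mul 2)))
  rw [funext (lcn_eq z e w)]
  refine ⟨HC.diffOn ((((HC.of_diff (lcn_df h)).mul ((cn.csq fun p hp => (bn p hp).1).pow _)).mono
    sub).add (HC.integral (b := fun _ => 2 * A * 2 ^ 4 * M)
      ((ae_restrict_mem measurableSet_Ioo).mono fun v hv => HC.of_diff
        ((((lcn_df h).comp (f := fun ξ => (v : ℂ) * ξ) (by fun_prop)
          fun ξ hξ => Sec_smul t3 hξ hv.1 hv.2.le).mul (h.ze.kk_diff t3 t1 hv)).mono sub))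
      (fun ξ hξ => (lcn_cont t0 t2 t1 h hξ).aestronglyMeasurable measurableSet_Ioo)
      ((ae_restrict_mem measurableSet_Ioo).mono fun v hv ξ hξ =>
        (lcn_le t0 t2 t1 h k hξ hv).trans ?_) (integrable_const _))) (isOpen_Sec θ'),
    fun ξ hξ => lcn_bd A0 M0 (by positivity) (ff_le t3 t1 h (sub hξ)) (bn ξ (sub hξ)).2
      fun v hv => lcn_le t0 t2 t1 h k hξ hv⟩
  have : ‖ξ‖ ≤ 2 := by linarith [(Sec_two t3 t1 (sub hξ)).1]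
  gcongr

theorem Lcap_congr {θ : ℝ} {z e w z' e' w' : ℂ → ℂ} (t0 : 0 ≤ θ) (hz : EqOn z z' (Sec θ))
    (he : EqOn e e' (Sec θ)) (hw : EqOn w w' (Sec θ)) :
    EqOn (Lcap z e w) (Lcap z' e' w') (Sec θ) := by
  have hf : ∀ b ∈ Sec θ, ff z w b = ff z' w' b := fun b hb => by
    rw [ff, ff, hz hb, hw hb, (hz.eventuallyEq_of_mem ((isOpen_Sec θ).mem_nhds hb)).deriv_eq]
  intro ξ hξ
  rw [Lcap, Lcap, hf ξ hξ, ← nnI_self, ← nnI_self, nnI_congr hz he hξ hξ,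
    setIntegral_congr_fun measurableSet_Ioo fun v hv => ?_]
  have hb := Sec_smul t0 hξ hv.1 hv.2.le
  rw [hf _ hb, KK_congr hz he hξ hb]

theorem Lcap_real {θ A : ℝ} {z e w : ℂ → ℂ} (t0 : 0 < θ) (t1 : θ ≤ th0)
    (h : LD θ A z e w) (rz : Rl z θ) (re : Rl e θ) (rw : Rl w θ) : Rl (Lcap z e w) θ := by
  have m : ∀ {a b : ℂ}, a.im = 0 → b.im = 0 → (a * b).im = 0 := fun ha hb => by simp [ha, hb]
  have hf : ∀ b : ℝ, (b : ℂ) ∈ Sec θ → (ff z w b).im = 0 := fun b hb => by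
    simp [ff, sq, rz b hb, rw b hb, Rl.deriv h.dz rz b hb]
  intro x hx
  have a1 := (h.ze.nn_real t0.le t1 rz re hx hx).2.2.1
  have a2 := prim_real (f := fun b => ff z w b * KK z e x b) (x := x) fun v v0 v1 => by
    have hb := Sec_smul t0.le hx v0 v1.le
    rw [← Complex.ofReal_mul] at hb ⊢
    exact m (hf _ hb) (h.ze.kk_real t0.le t1 rz re hx hb)
  rw [nnI_self] at a1
  have a3 : (csq (nd z e x) ^ (ii + 1)).im = 0 := by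
    rw [← Complex.re_add_im (csq _), a1, Complex.ofReal_zero, zero_mul, add_zero,
      ← Complex.ofReal_pow, Complex.ofReal_im]
  rw [Lcap, Complex.add_im, m (hf x hx) a3, zero_add]
  exact a2

theorem Lcap_smul (z e w : ℂ → ℂ) (c ξ : ℂ) :
    Lcap z e (fun ζ => c * w ζ) ξ = c * Lcap z e w ξ := by
  have hf : ∀ b, ff z (fun ζ => c * w ζ) b = c * ff z w b := fun b => by
    unfold ff
    ring
  simp only [Lcap, hf, mul_assoc, integral_const_mul]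
  ring

end BonN
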