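import Pool.Agent.Lib.MP_3dbf58_gt.N.FamF
import Pool.Agent.Lib.MP_3dbf58_gt.N.Lc

open Set Filter Topology MeasureTheory Metric

noncomputable section

namespace BonN

open Bon3

variable [Cs]

theorem fe_num {P : Par} {θ d B a : ℝ} (N : Num P θ d B a) :
    0 < d ∧ d ≤ 1 / 10 ^ 7 ∧ 16 * d ≤ θ - 8 * d ∧ θ ≤ th0 ∧ θ ≤ Bon3.th0 := by
  have d1 := N.d1
  have t1 := N.th1
  have := th0_small
  exact ⟨N.d0, by linarith, by linarith, N.th2, N.th2.trans th0_le⟩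

theorem FamOK.err {P : Par} {θ d B a μ : ℝ} {S : St} {w : ℂ → ℂ} {F : Fam} (N : Num P θ d B a)
    (h : InvC P θ d B S) (H : FamOK P θ d B a S w F)
    (W : WOK θ P.η a μ S.zp S.zm S.h S.ρ S.U S.E w) :
    HC (FL F) (G1 (θ - 6 * d) (d ^ 7 / a / 2)) ∧
    Rl2 (FL F) {p | p.2 ∈ Sec (θ - 6 * d) ∧ ‖p.1‖ ≤ 2} ∧
    (∀ p ∈ G1 (θ - 6 * d) (d ^ 7 / a / 2), ‖FL F p‖ ≤ a / d ^ (n2 + 3) * ‖p.2‖ ^ 4) ∧
    (∀ ξ ∈ Sec (θ - 6 * d), FL F (0, ξ) = -S.E ξ - P.η * ξ ^ 5 * (ell S.U w - μ)) ∧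
    DifferentiableOn ℂ (FE F) (Sec (θ - 6 * d)) ∧ Rl (FE F) (θ - 6 * d) ∧
    ∀ ξ ∈ Sec (θ - 6 * d), ‖FE F ξ‖ ≤ a ^ 2 / d ^ ex * ‖ξ‖ ^ 4 := by
  obtain ⟨d0, d1, t1, t2, t3⟩ := fe_num N
  have a0 := N.a0
  have u0 : 0 < θ - 6 * d := by linarith
  have u1 : θ - 6 * d ≤ Bon3.th0 := by linarith
  have v0 : 0 < θ - 5 * d := by linarith
  have v1 : θ - 5 * d ≤ th0 := by linarith
  obtain ⟨s1, s2⟩ := N.seven
  have hΛ : 10 ≤ d ^ 7 / a / 2 := by linarith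
  obtain ⟨l1, l2, r1, r2, r3, r4⟩ := H.ld N h
  obtain ⟨z1, z2, z3, z4, z5⟩ := H.zero N h
  obtain ⟨c1, c2⟩ := Lcap_HC d0 (by linarith) v1 l1
  obtain ⟨c3, c4⟩ := Lcap_HC d0 (by linarith) v1 l2
  rw [show θ - 5 * d - d = θ - 6 * d by ring] at c1 c2 c3 c4
  have hL : HC (FL F) (G1 (θ - 6 * d) (d ^ 7 / a / 2)) := c1.add c3
  have rh : Rl2 F.h (G1 (θ - 5 * d) (d ^ 7 / a)) := fun t x hp =>
    H.hl.rh t x (fl_G1_mono v0.le (by linarith) (by linarith) hp)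
  have rL : ∀ t x : ℝ, (x : ℂ) ∈ Sec (θ - 6 * d) → ‖(t : ℂ)‖ ≤ 2 → (FL F (t, x)).im = 0 := by
    intro t x hx ht
    have hΛ' : 10 ≤ d ^ 7 / a := by linarith
    have hx' : (x : ℂ) ∈ Sec (θ - 5 * d) := Sec_mono u0.le (by linarith) hx
    have R : ∀ f : ℂ × ℂ → ℂ, Rl2 f (G1 (θ - 5 * d) (d ^ 7 / a)) → Rl (sl f t) (θ - 5 * d) :=
      fun f hf y hy => hf t y (fl_mem v0 (by linarith) hΛ' ht hy)
    have b1 := Lcap_real v0 v1 (l1.slice v0 v1 hΛ' ht) (R _ r1) (R _ rh) (R _ r3) x hx'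
    have b2 := Lcap_real v0 v1 (l2.slice v0 v1 hΛ' ht) (R _ r2)
      (R _ fun t x hp => by simpa using rh t x hp) (R _ r4) x hx'
    unfold FL
    rw [Complex.add_im, b1, b2, add_zero]
  have bL : ∀ p ∈ G1 (θ - 6 * d) (d ^ 7 / a / 2), ‖FL F p‖ ≤ a / d ^ (n2 + 3) * ‖p.2‖ ^ 4 := by
    intro p hp
    have b1 : 2 * (4 * (2 * a / d ^ 2) * (1 + 1 / d ^ n2)) ≤ a / d ^ (n2 + 3) := by
      have : 2 * (4 * (2 * a / d ^ 2) * (1 + 1 / d ^ n2)) =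
          16 * (d * d ^ n2 + d) * (a / d ^ (n2 + 3)) := by
        rw [pow_add d n2 3]
        field_simp
        ring
      rw [this]
      have b0 : d ^ n2 ≤ 1 := pow_le_one₀ d0.le (by linarith)
      have b2 : 16 * (d * d ^ n2 + d) ≤ 1 := by nlinarith
      exact mul_le_of_le_one_left (by positivity) b2
    have b2 := mul_le_mul_of_nonneg_right b1 (pow_nonneg (norm_nonneg p.2) 4)
    refine (norm_add_le _ _).trans ?_
    linarith [c2 p hp, c4 p hp]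
  have mt : ∀ t ∈ Ioo (0 : ℝ) 1, ‖(t : ℂ)‖ ≤ 1 := fun t ht => by
    rw [Complex.norm_real, Real.norm_eq_abs, abs_of_pos ht.1]; exact ht.2.le
  have bE : ∀ t ∈ Ioo (0 : ℝ) 1, ∀ ξ ∈ Sec (θ - 6 * d),
      ‖FL F (t, ξ) - FL F (0, ξ)‖ ≤ a ^ 2 / d ^ ex * ‖ξ‖ ^ 4 := by
    intro t ht ξ hξ
    obtain ⟨n0, n2⟩ := fl_norm u0.le u1 hξ
    have b1 := schwarz_G1 hL bL (fl_mem u0 u1 hΛ ((mt t ht).trans one_le_two) hξ)
    refine b1.trans ?_
    have b2 : ‖(t : ℂ)‖ * ‖ξ‖ ≤ 2 := by nlinarith [mt t ht, norm_nonneg (t : ℂ)]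
    have b3 : 4 * d ^ 2 * (‖(t : ℂ)‖ * ‖ξ‖) ≤ 1 := by nlinarith [sq_nonneg d]
    calc _ = 4 * d ^ 2 * (‖(t : ℂ)‖ * ‖ξ‖) * (a ^ 2 / d ^ ex * ‖ξ‖ ^ 4) := by
          rw [show ex = BonN.n2 + 3 + 9 from rfl, pow_add d _ 9]
          field_simp
          ring
      _ ≤ _ := mul_le_of_le_one_left (by positivity) b3
  refine ⟨hL, fun t x hp => rL t x hp.1 hp.2, bL, fun ξ hξ => ?_, ?_, fun x hx => ?_,
    fun ξ hξ => ?_⟩
  · have s3 : ξ ∈ Sec (θ - 3 * d) := Sec_mono u0.le (by linarith) hξ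
    have b1 := Lcap_congr (by linarith) z1 z3 z4 s3
    have b2 := Lcap_congr (e := sl (fun r => -F.h r) 0) (e' := fun ζ => -S.h ζ) (by linarith) z2
      (fun ζ hζ => congrArg Neg.neg (z3 hζ)) z5 s3
    have b3 := W.eq ξ (Sec_mono u0.le (by linarith) hξ)
    unfold FL
    dsimp only
    rw [b1, b2]
    linear_combination b3
  · have sl1 : ∀ l : ℂ, ‖l‖ ≤ 2 → HC (fun ξ => FL F (l, ξ)) (Sec (θ - 6 * d)) := fun l hl =>
      HC.comp hL ((HC.const l).prodMk HC.id) (fun ξ hξ => fl_mem u0 u1 hΛ hl hξ)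
    refine HC.diffOn (HC.integral (μ := volume.restrict (Ioo (0 : ℝ) 1))
      (f := fun ξ (t : ℝ) => FL F (t, ξ) - FL F (0, ξ))
      (b := fun _ => a ^ 2 / d ^ ex * 2 ^ 4) ?_ ?_ ?_ (integrable_const _)) (isOpen_Sec _)
    · filter_upwards [ae_restrict_mem measurableSet_Ioo] with t ht
      exact (sl1 t ((mt t ht).trans one_le_two)).sub (sl1 0 (by simp))
    · intro ξ hξ
      refine ContinuousOn.aestronglyMeasurable (fun t ht => ?_) measurableSet_Ioo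
      have b1 := (HC.hasDerivAt1 (isOpen_G1 _ _) hL
        (fl_mem u0 u1 hΛ ((mt t ht).trans one_le_two) hξ)).continuousAt
      exact ((ContinuousAt.comp (f := fun s : ℝ => (s : ℂ)) b1
        Complex.continuous_ofReal.continuousAt).sub continuousAt_const).continuousWithinAt
    · filter_upwards [ae_restrict_mem measurableSet_Ioo] with t ht ξ hξ
      refine (bE t ht ξ hξ).trans ?_
      gcongr
      exact (fl_norm u0.le u1 hξ).2
  · unfold FE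
    rw [setIntegral_congr_fun measurableSet_Ioo
      (g := fun t : ℝ => (((FL F (t, x) - FL F (0, x)).re : ℝ) : ℂ)) (fun t ht => ?_),
      integral_complex_ofReal, Complex.ofReal_im]
    refine (fl_ofReal ?_).symm
    have b1 := rL 0 x hx (by simp)
    rw [Complex.ofReal_zero] at b1
    rw [Complex.sub_im, rL t x hx ((mt t ht).trans one_le_two), b1, sub_zero]
  · have := norm_setIntegral_le_of_norm_le_const (μ := volume) (s := Ioo (0 : ℝ) 1)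
      (f := fun t : ℝ => FL F (t, ξ) - FL F (0, ξ)) (by simp) (fun t ht => bE t ht ξ hξ)
    unfold FE
    simpa using this


theorem fe_kn {P : Par} {θ d B a M c : ℝ} {z e : ℂ × ℂ → ℂ} {z' e' : ℂ → ℂ} (N : Num P θ d B a)
    (Z : ZE2 (θ - 5 * d) (d ^ 7 / a) z e) (hz : EqOn (sl z 0) z' (Sec (θ - 3 * d)))
    (he : EqOn (sl e 0) e' (Sec (θ - 3 * d))) (k : KN θ M c z' e') :
    KN (θ - 8 * d) (M + a / d ^ ex) c (sl z 1) (sl e 1) := by
  intro ξ hξ v hv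
  obtain ⟨d0, d1, t1, t2, t3⟩ := fe_num N
  have a0 := N.a0
  have u0 : 0 < θ - 5 * d - d := by linarith
  have u1 : θ - 5 * d - d ≤ Bon3.th0 := by linarith
  have s1 := N.seven.1
  have m : ξ ∈ Sec (θ - 5 * d - d) := Sec_mono (by linarith) (by linarith) hξ
  have m3 : ξ ∈ Sec (θ - 3 * d) := Sec_mono (by linarith) (by linarith) hξ
  have b1 := schwarz_G1 (k := 0) (M := 1 / d ^ n2)
    ((Z.kk_v (by linarith) (by linarith) hv).mono
      (fl_G1_mono (Λ' := d ^ 7 / a / 2) u0.le (by linarith) (by linarith)))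
    (fun p hp => by simpa using Z.kk_le d0 (by linarith) (by linarith) hp hv)
    (fl_mem (l := 1) u0 u1 (by linarith) (by simp) m)
  dsimp only at b1
  rw [KK_congr hz he m3 (Sec_smul (by linarith) m3 hv.1 hv.2.le)] at b1
  have b2 := k ξ (Sec_mono (by linarith) (by linarith) hξ) v hv
  have b3 : 4 * d ^ 5 * ‖ξ‖ ≤ 1 := by
    have := pow_le_pow_left₀ d0.le (show d ≤ 1 / 2 by linarith) 5
    nlinarith [(fl_norm u0.le u1 m).2, norm_nonneg ξ, pow_pos d0 5]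
  have b4 : 2 * (1 / d ^ n2) / (d ^ 7 / a / 2) * ‖(1 : ℂ)‖ * ‖ξ‖ ^ (0 + 1) =
      4 * d ^ 5 * ‖ξ‖ * (a / d ^ ex) := by
    rw [show ex = n2 + 12 from rfl, pow_add d n2, norm_one]
    field_simp
    ring
  have b5 := mul_le_of_le_one_left (show 0 ≤ a / d ^ ex by positivity) b3
  have := norm_add_le (ξ * KK (sl z 1) (sl e 1) ξ (v * ξ) - ξ * KK z' e' ξ (v * ξ))
    (ξ * KK z' e' ξ (v * ξ) - c * ξ)
  rw [sub_add_sub_cancel] at this
  linarith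

/-- the kernel invariant after one step -/
theorem FamOK.invK {P : Par} {θ d B B' a : ℝ} {S : St} {w : ℂ → ℂ} {F : Fam} (N : Num P θ d B a)
    (h : InvC P θ d B S) (H : FamOK P θ d B a S w F) (k : InvK P θ B' S) (U : ℂ → ℂ) (g : ℝ → ℝ)
    (s : ℝ) : InvK P (θ - 8 * d) (B' + a / d ^ ex) (newSt S F U g s) := by
  obtain ⟨l1, l2, -⟩ := H.ld N h
  obtain ⟨z1, z2, z3, -⟩ := H.zero N h
  have k1 := fe_kn N l1.ze z1 z3 k.kp
  have k2 := fe_kn N l2.ze z2 (e' := fun ζ => -S.h ζ) (fun ζ hζ => congrArg Neg.neg (z3 hζ)) k.km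
  rw [add_assoc] at k1 k2
  exact ⟨k1, k2⟩

theorem fe_cap {q θ θ' B B' : ℝ} {u T H e : ℂ → ℂ} {a0 b0 c0 : ℝ}
    (h : CapInv q θ B u T H e a0 b0 c0) (s : Sec θ' ⊆ Sec θ) (hB : B ≤ B') :
    CapInv q θ' B' u T H e a0 b0 c0 :=
  ⟨h.du.mono s, h.dT.mono s, h.dH.mono s, h.de.mono s, fun x hx => h.ru x (s hx),
    fun x hx => h.rT x (s hx), fun x hx => h.rH x (s hx), fun x hx => h.re x (s hx),
    fun x hx => (h.u0 x (s hx)).trans (by gcongr), fun x hx => (h.u1 x (s hx)).trans (by gcongr),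
    h.up, fun x hx => (h.T0 x (s hx)).trans (by gcongr),
    fun x hx => (h.T1 x (s hx)).trans (by gcongr), fun x hx => (h.H0 x (s hx)).trans (by gcongr),
    fun x hx => h.H1 x (s hx), fun x hx => (h.e0 x (s hx)).trans (by gcongr),
    fun x hx => h.ch x (s hx), fun x hx => (h.vu x (s hx)).trans (by gcongr),
    fun x hx => (h.vT x (s hx)).trans (by gcongr), fun x hx => (h.vH x (s hx)).trans (by gcongr)⟩

omit [Cs] in
theorem fe_dom {θ θ' d d' : ℝ} (e : ℂ → ℂ) (s : Sec θ' ⊆ Sec θ) (d1 : d' ≤ d) :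
    Dom θ' (d' / 1000) e ⊆ Dom θ (d / 1000) e := fun p hp => ⟨s hp.1, hp.2.trans_le (by gcongr)⟩

theorem InvC.mono {P : Par} {θ θ' d d' B B' : ℝ} {S : St} (h : InvC P θ d B S) (t0 : 0 ≤ θ')
    (t1 : θ' ≤ θ) (d1 : d' ≤ d) (hB : B ≤ B') : InvC P θ' d' B' S := by
  have s := Sec_mono t0 t1
  have m := fe_dom S.h s d1
  exact ⟨fe_cap h.cp s hB, fe_cap h.cm s hB, fun x hx => (h.h1 x (s hx)).trans hB,
    fun x hx => (h.h2 x (s hx)).trans hB, h.dU.mono s, fun x hx => h.rU x (s hx),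
    fun x hx => (h.U0 x (s hx)).trans (by gcongr), fun x hx => h.Uu x (s hx), h.dρ.mono s,
    fun x hx => h.rρ x (s hx), fun x hx => h.ρT x (s hx), fun x hx => (h.ρ1 x (s hx)).trans hB,
    fun x hx => (h.f1 x (s hx)).trans hB, fun x hx => (h.f2 x (s hx)).trans hB, h.hC.mono m,
    fun x hx => h.C0 x (s hx), fun x y y' a b => (h.C1 x y y' (m a) (m b)).trans (by gcongr),
    fun t x a => h.rC t x (m a)⟩

theorem InvK.mono {P : Par} {θ θ' B B' : ℝ} {S : St} (h : InvK P θ B S) (t0 : 0 ≤ θ')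
    (t1 : θ' ≤ θ) (hB : B ≤ B') : InvK P θ' B' S := by
  exact ⟨h.kp.mono t0 t1 (by gcongr), h.km.mono t0 t1 (by gcongr)⟩

theorem InvR.mono {P : Par} {θ θ' d d' e : ℝ} {S : St} (h : InvR P θ d e S) (t0 : 0 ≤ θ')
    (t1 : θ' ≤ θ) (d1 : d' ≤ d) : InvR P θ' d' e S := by
  have s := Sec_mono t0 t1
  exact ⟨h.dE.mono s, fun x hx => h.rE x (s hx), fun x hx => h.E0 x (s hx), h.rep, h.br,
    fun x y a => h.lC x y (fe_dom S.h s d1 a), h.lA⟩

end BonN
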