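import Pool.Agent.Lib.MP_3dbf58_gt.N.KerH

open Set Filter Topology MeasureTheory Metric

noncomputable section

namespace BonN

open Bon3

theorem kf_iter (b ξ : ℂ) (m k : ℕ) :
    iteratedDeriv k (fun a : ℂ => (a - b) ^ m) ξ = m.descFactorial k * (ξ - b) ^ (m - k) := by
  rw [iteratedDeriv_comp_sub_const k (fun a : ℂ => a ^ m) b]
  exact iteratedDeriv_pow m k

/-- pointwise first order expansion of the root -/
theorem kf_root {y D w δ s : ℂ} {B η : ℝ} (hy : ‖y - 1‖ ≤ 1 / 100) (hs : ‖s‖ ≤ η)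
    (hD : ‖D - s‖ ≤ B) (e1 : η ≤ 1 / 100) (hB : B ≤ 1 / 100) (hw : ‖w‖ ≤ 101 / 100)
    (hδ : ‖δ‖ ≤ 101 / 100) :
    ‖csq (y ^ 2 - w * D * (2 * y + δ * D)) - y‖ ≤ 3 * (η + B) ∧
    ‖csq (y ^ 2 - w * D * (2 * y + δ * D)) - y + s * w‖ ≤ 24 * (B + η ^ 2) := by
  have η0 : 0 ≤ η := (norm_nonneg _).trans hs
  have B0 : 0 ≤ B := (norm_nonneg _).trans hD
  have d1 : ‖D‖ ≤ η + B := by linarith [norm_le_norm_add_norm_sub' D s]
  have y1 : ‖y‖ ≤ 101 / 100 := by linarith [norm_le_norm_add_norm_sub' y 1, norm_one (α := ℂ)]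
  have y2 : 1 / 2 ≤ ‖y‖ := by
    linarith [norm_le_norm_add_norm_sub' 1 y, norm_one (α := ℂ), norm_sub_rev 1 y]
  have d2 : ‖δ * D‖ ≤ 101 / 100 * (η + B) := by rw [norm_mul]; gcongr
  have d3 : ‖2 * y + δ * D‖ ≤ 5 / 2 := by
    have := norm_add_le (2 * y) (δ * D)
    rw [norm_mul, Complex.norm_ofNat] at this
    linarith
  generalize hn : y ^ 2 - w * D * (2 * y + δ * D) = n
  have n1 : ‖n - y ^ 2‖ ≤ 3 * (η + B) := by
    rw [← hn, sub_sub_cancel_left, norm_neg, norm_mul, norm_mul]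
    exact le_trans (b := 101 / 100 * (η + B) * (5 / 2)) (by gcongr) (by linarith)
  have x1 := (csq_near (T := y) (z := n) (by linarith) (by linarith)).2.trans n1
  refine ⟨x1, ?_⟩
  have m1 : (η + B) ^ 2 ≤ 2 * (B + η ^ 2) := by nlinarith [sq_nonneg (η - B)]
  have e : 2 * y * (csq n - y + s * w) =
      -(w * (D - s) * (2 * y)) + -(w * D * (δ * D)) + -(csq n - y) ^ 2 := by
    linear_combination csq_sq n - hn
  have h1 : ‖w * (D - s) * (2 * y)‖ ≤ 101 / 100 * B * (2 * (101 / 100)) := by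
    simp only [norm_mul, Complex.norm_ofNat]
    gcongr
  have h2 : ‖w * D * (δ * D)‖ ≤ 101 / 100 * (η + B) * (101 / 100 * (η + B)) := by
    rw [norm_mul, norm_mul w]
    gcongr
  have h3 : ‖(csq n - y) ^ 2‖ ≤ (3 * (η + B)) ^ 2 := by
    rw [norm_pow]
    gcongr
  have h4 := norm_add₃_le (a := -(w * (D - s) * (2 * y))) (b := -(w * D * (δ * D)))
    (c := -(csq n - y) ^ 2)
  rw [← e, norm_neg, norm_neg, norm_neg, norm_mul, norm_mul, Complex.norm_ofNat] at h4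
  nlinarith [mul_le_mul_of_nonneg_right y2 (norm_nonneg (csq n - y + s * w)), sq_nonneg η]

variable [Cs]

theorem kf_pow {x y u : ℂ} {δ m : ℝ} (hy : ‖y - 1‖ ≤ th0) (h1 : ‖x - y‖ ≤ δ) (d1 : δ ≤ 6 * th0)
    (d2 : δ ^ 2 ≤ 18 * m) (h2 : ‖x - y + u‖ ≤ 24 * m) :
    ‖x ^ (ii + 1) - y ^ (ii + 1) + (ii + 1) * y ^ ii * u‖ ≤ 400 * Nr ^ 2 * m := by
  have t0 := th0_pos
  have t1 := th0_small
  have t2 := th0_Nr
  have N3 := Nr_ge
  have δ0 : 0 ≤ δ := (norm_nonneg _).trans h1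
  have m0 : 0 ≤ m := by nlinarith [sq_nonneg δ]
  have M1 : ((ii + 1 : ℕ) : ℝ) ≤ Nr := by unfold Nr; push_cast; linarith
  have M0 : (0 : ℝ) ≤ (ii + 1 : ℕ) := Nat.cast_nonneg _
  have M2 : ((ii : ℕ) : ℝ) ≤ Nr := by unfold Nr; linarith
  have y2 : 1 / 2 ≤ ‖y‖ := by
    linarith [norm_le_norm_add_norm_sub' 1 y, norm_one (α := ℂ), norm_sub_rev 1 y]
  have y0 : y ≠ 0 := norm_pos_iff.1 (by linarith)
  have p : ∀ k : ℕ, (k : ℝ) ≤ Nr → ‖y ^ k‖ ≤ 2 := fun k hk => by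
    have h := mul_le_mul_of_nonneg_right hk t0.le
    have := (pow_near (k := k) hy (by linarith)).1
    linarith [norm_le_norm_add_norm_sub' (y ^ k) 1, norm_one (α := ℂ)]
  have u1 : ‖x / y - 1‖ ≤ 2 * δ := by
    rw [div_sub_one y0, norm_div, div_le_iff₀ (by linarith)]
    nlinarith
  have u2 := (pow_near (k := ii + 1) u1 (by
    nlinarith [mul_le_mul M1 d1 δ0 (by linarith)])).2
  have e : x ^ (ii + 1) - y ^ (ii + 1) + (ii + 1) * y ^ ii * u =
      y ^ (ii + 1) * ((x / y) ^ (ii + 1) - 1 - (ii + 1 : ℕ) * (x / y - 1)) +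
        (ii + 1 : ℕ) * y ^ ii * (x - y + u) := by
    rw [div_pow]
    push_cast
    field_simp
    ring
  have q1 := p _ M1
  have q2 := p _ M2
  have q3 : 2 * (((ii + 1 : ℕ) : ℝ) * (2 * δ)) ^ 2 ≤ 2 * (Nr * (2 * δ)) ^ 2 := by gcongr
  rw [e]
  refine (norm_add_le _ _).trans
    (le_trans (b := 2 * (2 * (Nr * (2 * δ)) ^ 2) + Nr * 2 * (24 * m)) ?_ ?_)
  · have := u2.trans q3
    rw [norm_mul, norm_mul, norm_mul, Complex.norm_natCast]
    gcongr
  · nlinarith [mul_le_mul_of_nonneg_left d2 (sq_nonneg Nr),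
      mul_nonneg m0 (show 0 ≤ Nr ^ 2 - Nr by nlinarith), mul_nonneg m0 (sq_nonneg Nr)]

section
variable {θ η B s : ℝ} {z e : ℂ → ℂ} (t0 : 0 ≤ θ) (t1 : θ ≤ th0) (e1 : η ≤ th0) (hs : |s| ≤ η)
  (hB : B ≤ th0) (dz : DifferentiableOn ℂ z (Sec θ)) (de : DifferentiableOn ℂ e (Sec θ))
  (z0 : ∀ ξ ∈ Sec θ, ‖z ξ - 1‖ ≤ th0) (h1 : ∀ ξ ∈ Sec θ, ‖deriv e ξ - s‖ ≤ B)

include e1 hs hB dz de z0 h1 in
theorem kf_ze : ZE θ z e := by
  have N0 := Nr_pos
  have a : 2 * th0 ≤ 1 / (20 * Nr) := by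
    rw [le_div_iff₀ (by positivity)]
    nlinarith [th0_Nr]
  refine ⟨dz, de, fun ξ hξ => by linarith [z0 ξ hξ, th0_pos], fun ξ hξ => ?_⟩
  have := norm_le_norm_add_norm_sub' (deriv e ξ) s
  rw [Complex.norm_real, Real.norm_eq_abs] at this
  linarith [h1 ξ hξ]

include t0 t1 e1 hs hB de z0 h1 in
theorem kf_k {b c : ℂ} (hb : b ∈ Sec θ) (hc : c ∈ Sec θ) :
    ‖csq (nnI z e c b) ^ (ii + 1) - z b ^ (ii + 1) + (ii + 1) * z b ^ ii * (s * (1 - c))‖ ≤
      400 * Nr ^ 2 * (B + η ^ 2) := by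
  have t2 := th0_small
  have a0 := ddI_near de h1 hc hb
  have B0 : 0 ≤ B := (norm_nonneg _).trans a0
  obtain ⟨a1, a2⟩ := kf_root (y := z b) (D := ddI e c b) (w := 1 - c) (δ := c - b) (s := s)
    (B := B) (η := η) (by linarith [z0 b hb]) (by rwa [Complex.norm_real]) a0 (by linarith)
    (by linarith) (Sec_two t0 t1 hc).2 (Sec_sub t0 t1 hc hb)
  rw [ddI_mul de hc hb] at a1 a2
  exact kf_pow (z0 b hb) a1 (by linarith) (by nlinarith [sq_nonneg (η - B)]) a2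

include t0 t1 e1 hs hB dz de z0 h1 in
theorem kf_Psi {b : ℂ} (hb : b ∈ Sec θ) : ∃ P, ∀ a ∈ Sec θ,
    ‖Psi z e a b - P - (ii + 1) * z b ^ ii * s / 2 * (a - b)‖ ≤ 400 * Nr ^ 2 * (B + η ^ 2) := by
  have ze := kf_ze e1 hs hB dz de z0 h1
  refine ⟨z b ^ (ii + 1) - (ii + 1) * z b ^ ii * (s * (1 - b)), fun a ha => ?_⟩
  have a2 : ∀ c ∈ Sec θ, ‖csq (nnI z e c b) ^ (ii + 1) -
      (z b ^ (ii + 1) - (ii + 1) * z b ^ ii * (s * (1 - b))) -
      (ii + 1) * z b ^ ii * s * (c - b)‖ ≤ 400 * Nr ^ 2 * (B + η ^ 2) := fun c hc =>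
    (le_of_eq (congrArg norm (by ring))).trans (kf_k t0 t1 e1 hs hB de z0 h1 hb hc)
  generalize z b ^ (ii + 1) - (ii + 1) * z b ^ ii * (s * (1 - b)) = P at a2
  generalize (ii + 1) * z b ^ ii * (s : ℂ) = κ at a2
  have c := wg_cont
  have a3 : ContinuousOn (fun c => csq (nnI z e c b) ^ (ii + 1)) (Sec θ) := fun c hc =>
    ((csq_hasDerivAt (csq_pow_le (ze.nn t0 t1 hc hb)).1).continuousAt.comp_continuousWithinAt
      (f := fun c => nnI z e c b) ((ze.nn_diff t0 t1 hb).continuousOn c hc)).pow _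
  have i0 : Integrable (fun t : ℝ => (wg t : ℂ) * csq (nnI z e (b + t * (a - b)) b) ^ (ii + 1))
      (volume.restrict (Ioo 0 1)) :=
    (ContinuousOn.integrableOn_Icc (ContinuousOn.mul (by fun_prop)
      (a3.comp (f := fun t : ℝ => b + t * (a - b)) (by fun_prop)
        fun t ht => seg_mem ha hb ht))).mono_set Ioo_subset_Icc_self
  have i1 : Integrable (fun t : ℝ => (wg t : ℂ) * P) (volume.restrict (Ioo 0 1)) :=
    (wg_int.ofReal (𝕜 := ℂ)).mul_const P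
  have i2 : Integrable (fun t : ℝ => ((t * wg t : ℝ) : ℂ) * (κ * (a - b)))
      (volume.restrict (Ioo 0 1)) :=
    ((((show Continuous fun t => t * wg t by fun_prop).integrableOn_Icc).mono_set
      Ioo_subset_Icc_self).ofReal (𝕜 := ℂ)).mul_const _
  have h := norm_integral_le_of_norm_le (μ := volume.restrict (Ioo (0 : ℝ) 1))
    (f := fun t : ℝ => (wg t : ℂ) * csq (nnI z e (b + t * (a - b)) b) ^ (ii + 1) -
      (wg t : ℂ) * P - ((t * wg t : ℝ) : ℂ) * (κ * (a - b)))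
    (Integrable.mul_const wg_int (400 * Nr ^ 2 * (B + η ^ 2)))
    ((ae_restrict_mem measurableSet_Ioo).mono fun t ht => by
      have := mul_le_mul_of_nonneg_left (a2 _ (seg_mem ha hb (Ioo_subset_Icc_self ht)))
        (wg_nonneg t)
      rw [← Real.norm_of_nonneg (wg_nonneg t), ← Complex.norm_real, ← norm_mul,
        Complex.norm_real, Real.norm_of_nonneg (wg_nonneg t)] at this
      refine (le_of_eq (congrArg norm ?_)).trans this
      push_cast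
      ring)
  have i3 : Integrable (fun t : ℝ => (wg t : ℂ) * csq (nnI z e (b + t * (a - b)) b) ^ (ii + 1) -
      (wg t : ℂ) * P) (volume.restrict (Ioo 0 1)) := i0.sub i1
  rw [integral_sub i3 i2, integral_sub i0 i1, integral_mul_const,
    integral_mul_const, integral_mul_const, integral_complex_ofReal, integral_complex_ofReal,
    wg_mean, ← be2] at h
  have p := be2_pos
  have p' : (be2 : ℂ) ≠ 0 := Complex.ofReal_ne_zero.2 p.ne'
  refine le_of_mul_le_mul_left (le_trans (le_of_eq ?_) h) p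
  have q : ∀ w : ℂ, be2 * ‖w‖ = ‖(be2 : ℂ) * w‖ := fun w => by
    rw [norm_mul, Complex.norm_real, Real.norm_of_nonneg p.le]
  rw [q, Psi, mul_sub, mul_sub, mul_div_cancel₀ _ p']
  congr 2
  push_cast
  ring

end

/-- fine bound of the kernel: `e'` is close to the real number `s` -/
theorem KK_fine {θ d η B s : ℝ} {z e : ℂ → ℂ} (d0 : 0 < d) (hd : d < θ) (t1 : θ ≤ th0) (e0 : 0 < η)
    (e1 : η ≤ th0) (hs : |s| ≤ η) (hB : B ≤ th0) (dz : DifferentiableOn ℂ z (Sec θ))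
    (de : DifferentiableOn ℂ e (Sec θ)) (z0 : ∀ ξ ∈ Sec θ, ‖z ξ - 1‖ ≤ th0)
    (h1 : ∀ ξ ∈ Sec θ, ‖deriv e ξ - s‖ ≤ B) :
    KN (θ - d) ((B + η ^ 2) / d ^ n2 + 10 * Nr ^ 3 * th0 * η) (Nr * (Nr - 2) / 2 * s) z e := by
  intro ξ hξ v hv
  have t0 : 0 ≤ θ := by linarith
  have t2 := th0_pos
  have N3 := Nr_ge
  have N0 := Nr_pos
  have hx : ξ ∈ Sec θ := Sec_mono (by linarith) (by linarith) hξ
  have hb : (v : ℂ) * ξ ∈ Sec θ := Sec_smul t0 hx hv.1 hv.2.le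
  have B0 : 0 ≤ B := (norm_nonneg _).trans (h1 ξ hx)
  obtain ⟨P, a2⟩ := kf_Psi t0 t1 e1 hs hB dz de z0 h1 hb
  have a1 := (kf_ze e1 hs hB dz de z0 h1).psi_diff t0 t1 hb
  have sub := Sec_ball d0 hd.le t1 hξ
  obtain ⟨κ, hκ⟩ : ∃ κ : ℂ, κ = (ii + 1) * z (v * ξ) ^ ii * s / 2 := ⟨_, rfl⟩
  rw [← hκ] at a2
  have dR : DifferentiableOn ℂ (fun a => Psi z e a (v * ξ) - P - κ * (a - v * ξ)) (Sec θ) :=
    (a1.sub_const _).sub (by fun_prop)
  have c1 := cauchy_Th (M := 10 ^ 6 * Nr ^ 3 * (B + η ^ 2)) d0 hd.le t1 hξ hv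
    (dR.mono (closure_ball_subset_closedBall.trans sub)).diffContOnCl fun a ha =>
      (a2 a (sub (sphere_subset_closedBall ha))).trans (mul_le_mul_of_nonneg_right
        (by nlinarith [sq_nonneg Nr]) (by positivity))
  have y1 := z0 _ hb
  generalize (v : ℂ) * ξ = b at *
  have c2 : Th z e b = fun a => (a - b) ^ (ii + 2) * (Psi z e a b - P - κ * (a - b)) +
      (P * (a - b) ^ (ii + 2) + κ * (a - b) ^ (ii + 3)) := funext fun a => by unfold Th; ring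
  have dR' : DifferentiableOn ℂ (fun a => (a - b) ^ (ii + 2) * (Psi z e a b - P - κ * (a - b)))
      (Sec θ) := DifferentiableOn.mul (by fun_prop) dR
  have c3 : KK z e ξ b = iteratedDeriv (ii + 3)
      (fun a => (a - b) ^ (ii + 2) * (Psi z e a b - P - κ * (a - b))) ξ / (ii + 2).factorial +
      ((Nr * (Nr - 2) / 2 * s : ℝ) : ℂ) * z b ^ ii := by
    have f0 : ((ii + 2).factorial : ℂ) ≠ 0 := Nat.cast_ne_zero.2 (Nat.factorial_ne_zero _)
    rw [KK, c2, iteratedDeriv_fun_add (dR'.analyticAt ((isOpen_Sec θ).mem_nhds hx)).contDiffAt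
      (by fun_prop), iteratedDeriv_fun_add (by fun_prop) (by fun_prop),
      iteratedDeriv_const_mul_field, iteratedDeriv_const_mul_field, kf_iter, kf_iter,
      Nat.descFactorial_of_lt (Nat.lt_succ_self _), Nat.descFactorial_self, Nat.sub_self,
      Nat.factorial_succ (ii + 2)]
    generalize iteratedDeriv (ii + 3)
      (fun a => (a - b) ^ (ii + 2) * (Psi z e a b - P - κ * (a - b))) ξ = Y
    rw [hκ]
    unfold Nr
    push_cast
    field_simp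
    ring
  rw [c3]
  generalize iteratedDeriv (ii + 3)
    (fun a => (a - b) ^ (ii + 2) * (Psi z e a b - P - κ * (a - b))) ξ / (ii + 2).factorial = Y at c1
  have M2 : ((ii : ℕ) : ℝ) * th0 ≤ Nr * th0 :=
    mul_le_mul_of_nonneg_right (by unfold Nr; linarith) t2.le
  have y2 := (pow_near (k := ii) y1 (by linarith [th0_Nr])).1.trans
    (mul_le_mul_of_nonneg_left M2 zero_le_two)
  have x1 := (Sec_two t0 t1 hx).1.trans (show _ ≤ (2 : ℝ) by norm_num)
  have s1 : ‖((Nr * (Nr - 2) / 2 * s : ℝ) : ℂ)‖ ≤ Nr ^ 2 * η := by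
    rw [Complex.norm_real, Real.norm_eq_abs, abs_mul, abs_of_nonneg (by nlinarith)]
    exact mul_le_mul (by nlinarith) hs (abs_nonneg _) (by positivity)
  generalize ((Nr * (Nr - 2) / 2 * s : ℝ) : ℂ) = c at s1
  rw [show ξ * (Y + c * z b ^ ii) - c * ξ = ξ * Y + ξ * c * (z b ^ ii - 1) by ring]
  refine norm_add_le_of_le (c1.trans (le_of_eq (by field_simp)))
    (le_trans (b := 2 * (Nr ^ 2 * η) * (2 * (Nr * th0))) ?_ ?_)
  · rw [norm_mul, norm_mul]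
    gcongr
  · nlinarith [show 0 ≤ Nr ^ 3 * th0 * η by positivity]

end BonN
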