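import Pool.Agent.Lib.MP_3dbf58_gt.N.LinB

/-! Solution of the linear problem. -/

open Set Filter Topology MeasureTheory Metric

noncomputable section

namespace BonN

open Bon3 BonG

variable [Cs]

section
variable {θ η μ0 B a a' : ℝ} {zp zm h ρ U w w' : ℂ → ℂ} {ξ : ℂ}

/-- the homogeneous operator -/
def linL (η : ℝ) (zp zm h ρ U w : ℂ → ℂ) (ξ : ℂ) : ℂ :=
  Lcap zp h w ξ + Lcap zm (fun ζ => -h ζ) (wm (rN ρ) U w) ξ + η * ξ ^ 5 * ell U w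

/-- the contraction -/
def linT (η : ℝ) (zp zm h ρ U w : ℂ → ℂ) (ξ : ℂ) : ℂ :=
  w ξ - linL η zp zm h ρ U w ξ / linD zp h ξ

theorem LinHyp.Dlow (H : LinHyp θ η μ0 B zp zm h ρ U) (hξ : ξ ∈ Sec θ) :
    0.99 ≤ ‖linD zp h ξ‖ := le_trans (by linarith [th0_Nr]) (lin_low (H.sp.D hξ))

theorem LinHyp.Dne (H : LinHyp θ η μ0 B zp zm h ρ U) (hξ : ξ ∈ Sec θ) : linD zp h ξ ≠ 0 :=
  fun e => by
    have := H.Dlow hξ
    rw [e] at this; norm_num at this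

theorem LinHyp.Tsub (H : LinHyp θ η μ0 B zp zm h ρ U) (c : LinC θ a w) (c' : LinC θ a' w')
    (hξ : ξ ∈ Sec θ) : linT η zp zm h ρ U (fun ζ => w ζ - w' ζ) ξ =
      linT η zp zm h ρ U w ξ - linT η zp zm h ρ U w' ξ := by
  have e1 : EqOn (Bon3.wm (rN ρ) U (fun ζ => w ζ - w' ζ))
      (fun ζ => Bon3.wm (rN ρ) U w ζ - Bon3.wm (rN ρ) U w' ζ) (Sec θ) := fun ζ hζ => by
    have := (H.P c).prim_sub H.t0 H.t2 (H.P c') hζ
    unfold Bon3.wm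
    simp only [mul_sub]
    rw [this]; ring
  have e2 : ell U (fun ζ => w ζ - w' ζ) = ell U w - ell U w' := by
    unfold ell
    rw [(H.W c).prim_sub H.t0 H.t2 (H.W c') H.base, c.prim_sub H.t0 H.t2 c' H.base]
    ring
  unfold linT linL
  rw [H.sp.sub c c' hξ, Lcap_congr H.t0.le (fun _ _ => rfl) (fun _ _ => rfl) e1 hξ,
    H.sm.sub (H.wm c) (H.wm c') hξ, e2]
  ring

theorem LinHyp.Td (H : LinHyp θ η μ0 B zp zm h ρ U) (c : LinC θ a w) :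
    DifferentiableOn ℂ (linT η zp zm h ρ U w) (Sec θ) := by
  have h1 := (Lcap_diff H.t0 le_rfl H.th2 (H.sp.ld c) H.sp.k0).1
  have h2 := (Lcap_diff H.t0 le_rfl H.th2 (H.sm.ld (H.wm c)) H.sm.k0).1
  have h3 : DifferentiableOn ℂ (linL η zp zm h ρ U w) (Sec θ) := by unfold linL; fun_prop
  exact c.d.sub (h3.div H.sp.dD fun ξ hξ => H.Dne hξ)

theorem LinHyp.Tr (H : LinHyp θ η μ0 B zp zm h ρ U) (c : LinC θ a w) (r : Rl w θ) :
    Rl (linT η zp zm h ρ U w) θ := by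
  intro x hx
  have h1 := Lcap_real H.t0 H.th2 (H.sp.ld c) H.rzp H.rh r x hx
  have h2 := Lcap_real H.t0 H.th2 (H.sm.ld (H.wm c)) H.rzm H.sm.re (H.rwm r) x hx
  have h3 := H.rell r
  have h4 := H.sp.rD x hx
  have h5 : (linL η zp zm h ρ U w x).im = 0 := by
    unfold linL
    simp [h1, h2, h3, ← Complex.ofReal_pow]
  unfold linT
  simp [Complex.div_im, r x hx, h4, h5]

theorem LinHyp.err (H : LinHyp θ η μ0 B zp zm h ρ U) (c : LinC θ a w) (hξ : ξ ∈ Sec θ) :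
    ‖(linT η zp zm h ρ U w ξ - linc η ξ * w (U ξ)) * linD zp h ξ -
      η * (a1c * (prim (fun ζ => w (U ζ)) ξ - ξ ^ 5 * prim (fun ζ => w (U ζ)) x0) +
        a2c * (prim w ξ - ξ ^ 5 * prim w x0))‖ ≤ 4 * (tol * η) * (a * ‖ξ‖ ^ 4) := by
  have t0 := H.t0
  have t1 := H.t2
  have e0 := H.et1
  have cW := H.W1 c
  have k2 : ‖(Nr : ℂ) * ((2 * nu + kap) * η)‖ ≤ Nr * (η / 5) := lin_mul ln_Nr (ln_k e0)
  have c1 := cW.mul (f := fun _ => (Nr : ℂ) * ((2 * nu + kap) * η)) (differentiableOn_const _)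
    (fun _ _ => k2)
  have c2 := cW.mul (f := fun ζ => deriv (rN ρ) ζ + Nr * ((2 * nu + kap) * η))
    ((H.dr.deriv (isOpen_Sec θ)).add_const _) (fun ζ hζ => (H.r1 hζ).1)
  have b1 := (c2.prim t0 t1).b ξ hξ
  simp only [add_mul (deriv (rN ρ) _)] at b1
  rw [(H.P c).prim_add t0 t1 c1 hξ, lin_prim_smul] at b1
  have b2 := (cW.prim t0 t1).b ξ hξ
  have b3 := ((H.wmW c).prim t0 t1).b ξ hξ
  rw [(H.wm c).prim_add t0 t1 cW hξ] at b3
  have Kp := H.sp.K c hξ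
  have Km := H.sm.K (H.wm c) hξ
  have Dm := H.sm.D hξ
  have Dm1 : ‖linD zm (fun ζ => -h ζ) ξ‖ ≤ 1.01 := (lin_one Dm).trans (by linarith [th0_Nr])
  have n0 : 0 ≤ η * (a * ‖ξ‖ ^ 4) := by
    have := c.nonneg t0
    positivity
  have n1 := mul_le_mul_of_nonneg_right ln_t3 n0
  have n2 := mul_nonneg tol_pos.le n0
  refine lin_eq (lin_sub (lin_sub (lin_sub (lin_add (lin_sub (lin_mul (H.X hξ) (cW.b ξ hξ))
    (lin_mul Dm1 b1)) (lin_mul (lin_mul Dm k2) b2)) Kp) Km)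
    (lin_mul (lin_re (ln_a2 e0)) b3)) ?_ (by linarith)
  have e1 : linT η zp zm h ρ U w ξ * linD zp h ξ = w ξ * linD zp h ξ - linL η zp zm h ρ U w ξ := by
    unfold linT
    rw [sub_mul, div_mul_cancel₀ _ (H.Dne hξ)]
  have e2 : linL η zp zm h ρ U w ξ = linD zp h ξ * w ξ + linK zp h w ξ +
      (linD zm (fun ζ => -h ζ) ξ *
        (-(rN ρ ξ * w (U ξ)) + prim (fun ζ => deriv (rN ρ) ζ * w (U ζ)) ξ) +
        linK zm (fun ζ => -h ζ) (Bon3.wm (rN ρ) U w) ξ) +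
      η * ξ ^ 5 * (a1c * prim (fun ζ => w (U ζ)) x0 + a2c * prim w x0) := by
    unfold linL
    rw [lin_Lcap, lin_Lcap]; rfl
  have e3 : (a1c : ℂ) = Nr * (2 * nu + kap) + a2c := by rw [a1c_eq]; push_cast; ring
  push_cast
  linear_combination e1 - e2 - η * prim (fun ζ => w (U ζ)) ξ * e3

/-- the primitive with the rank one term -/
theorem ln_G (t0 : 0 < θ) (t1 : θ ≤ th0) (hξ : ξ ∈ Sec θ) : ∃ g : ℝ, 0 ≤ g ∧ g ≤ 1 / 4 ∧
    kap * Nr * (5 + dl0) * g ≤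
      kap * (Nr * ξ.re + 2 * dl0 * (1 - ξ.re)) - 0.058 * ep0 + 2 * (th0 * Nr) ∧
    ∀ {a : ℝ} {w : ℂ → ℂ}, LinC θ a w →
      ‖prim w ξ - ξ ^ 5 * prim w x0‖ ≤ g * (a * ‖ξ‖ ^ 4) := by
  have t2 := t1.trans th0_le
  have y0 := x0_pos
  have y1 : x0 ≤ 1 := by linarith [x0_le]
  have p0 := ep0_pos
  have p1 := ep0_le
  have s1 := ln_t
  have N3 := Nr_ge
  have z0 := Sec_re_pos t0.le hξ
  have z1 := hξ.2
  have q0 : Nr * θ ≤ Nr * th0 := by gcongr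
  have q1 : 0 < Nr * θ := by positivity
  have q2 : Nr * θ * ep0 ≤ Nr * θ * (1 / 7776) := by gcongr
  have q3 : 0 ≤ ξ.re * ep0 := by positivity
  have q4 : ξ.re * ep0 ≤ 1.001 * ep0 := by gcongr; linarith
  have q5 : 0 ≤ Nr * ξ.re * ep0 * ep0 := by positivity
  rcases le_total x0 ξ.re with yx | yx
  · have r0 : ξ.re * ep0 ≤ ξ.re * (1 / 7776) := by gcongr
    refine ⟨ξ.re / 5 * (1 - ep0) + 6 * θ, by linarith, by linarith, ?_,
      fun c => lm_G1 t0 t2 c hξ y0 y1 yx⟩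
    have r1 : 3 * (ξ.re * ep0) ≤ Nr * (ξ.re * ep0) := by gcongr
    unfold kap dl0
    linarith
  · refine ⟨ξ.re / 5 * (1 + ep0) + θ, by linarith, by linarith, ?_,
      fun c => lm_G0 t0 t2 c hξ y0 y1⟩
    have r0 : ξ.re * Nr ≤ 1 / 2 := by rw [← x0_mul]; gcongr
    have r1 : ξ.re * Nr * ep0 ≤ 1 / 2 * ep0 := by gcongr
    have r2 : ξ.re * Nr * ep0 * ep0 ≤ 1 / 2 * ep0 * (1 / 7776) := by gcongr
    have r3 : ξ.re * ep0 ≤ 1 / 6 * ep0 := by gcongr; exact yx.trans x0_le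
    unfold kap dl0
    linarith

theorem LinHyp.T (H : LinHyp θ η μ0 B zp zm h ρ U) (c : LinC θ a w) :
    LinC θ ((1 - ep0 * η / 20) * a) (linT η zp zm h ρ U w) := by
  refine ⟨H.Td c, fun ξ hξ => ?_⟩
  have e0 := H.et1
  have a0 := c.nonneg H.t0
  obtain ⟨g, g0, g1, g2, hg⟩ := ln_G H.t0 H.th2 hξ
  have n0 : 0 ≤ a * ‖ξ‖ ^ 4 := by positivity
  have s0 := th0_pos
  have N0 := Nr_pos
  have u0 := mul_pos s0 N0
  have h2 : ‖prim (fun ζ => w (U ζ)) ξ - ξ ^ 5 * prim (fun ζ => w (U ζ)) x0‖ ≤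
      g * (1 + 5 * th0) * (a * ‖ξ‖ ^ 4) := (hg (H.W c)).trans_eq (by ring)
  have h3 : ‖prim w ξ - ξ ^ 5 * prim w x0‖ ≤ g * (1 + 5 * th0) * (a * ‖ξ‖ ^ 4) :=
    (hg c).trans (mul_le_mul_of_nonneg_right (le_mul_of_one_le_right g0 (by linarith)) n0)
  set S := kap * Nr * (5 + dl0) * g with hS
  have S0 : 0 ≤ S := by rw [hS, ← a12c]; have := a1c_pos; have := a2c_pos; positivity
  have S1 : S ≤ Nr / 10 := by
    have : (a1c + a2c) * g ≤ (Nr / 5 + Nr / 10) * (1 / 4) :=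
      mul_le_mul (add_le_add a1c_le a2c_le) g1 g0 (by positivity)
    rw [hS, ← a12c]; linarith
  have S2 : S * th0 ≤ Nr / 10 * th0 := by gcongr
  have h4 := (lin_add (lin_mul (lin_re (abs_of_pos a1c_pos).le) h2)
    (lin_mul (lin_re (abs_of_pos a2c_pos).le) h3)).trans
    (show _ ≤ (S + th0 * Nr) * (a * ‖ξ‖ ^ 4) by
      refine le_of_eq_of_le (b := S * (1 + 5 * th0) * (a * ‖ξ‖ ^ 4)) (by rw [hS, ← a12c]; ring) ?_
      exact mul_le_mul_of_nonneg_right (by linarith) n0)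
  have h5 := lin_eq (lin_add (H.err c hξ) (lin_mul H.eta h4)) (sub_add_cancel _ _).symm le_rfl
  have h6 := lin_cancel h5 (by linarith [th0_Nr]) (lin_low (H.sp.D hξ))
  have t3 := ln_t3
  have t2 := ln_t2
  have h7 : (4 * (tol * η) * (a * ‖ξ‖ ^ 4) + η * ((S + th0 * Nr) * (a * ‖ξ‖ ^ 4))) /
      (1 - 12 * (th0 * Nr)) ≤ η * (S + 6 * tol) * (a * ‖ξ‖ ^ 4) := by
    rw [div_le_iff₀ (by linarith [th0_Nr])]
    have k1 : S * (th0 * Nr) ≤ Nr / 10 * (th0 * Nr) := by gcongr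
    have k2 : tol * (th0 * Nr) ≤ tol * (1 / 10 ^ 10) :=
      mul_le_mul_of_nonneg_left th0_Nr tol_pos.le
    have k3 : 4 * tol + (S + th0 * Nr) ≤ (S + 6 * tol) * (1 - 12 * (th0 * Nr)) := by linarith
    have := mul_le_mul_of_nonneg_right k3 (mul_nonneg e0.le n0)
    linarith
  refine lin_eq (lin_add (h6.trans h7) (H.cW c hξ)) (by ring) ?_
  have q : S + 6 * tol - (kap * (Nr * ξ.re + 2 * dl0 * (1 - ξ.re)) - 5 * (th0 * Nr)) ≤
      -(ep0 / 20) := by linarith [tol_ep0, ep0_pos]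
  have q2 := mul_le_mul_of_nonneg_right q (mul_nonneg e0.le n0)
  linarith

end

theorem linsolve {θ η μ0 B e μ : ℝ} {zp zm h ρ U E : ℂ → ℂ} (H : LinHyp θ η μ0 B zp zm h ρ U)
    (dE : DifferentiableOn ℂ E (Sec θ)) (rE : Rl E θ)
    (hE : ∀ ξ ∈ Sec θ, ‖E ξ‖ ≤ e * ‖ξ‖ ^ 4) :
    ∃ w, WOK θ η (1 / (th0 * η) * (e + 2 * η * |μ|)) μ zp zm h ρ U E w := by
  have e0 : 0 ≤ e := (⟨dE, hE⟩ : LinC θ e E).nonneg H.t0
  have η0 := H.et1
  have c : LinC θ (2 * (e + 2 * η * |μ|)) (fun ξ => (η * ξ ^ 5 * μ - E ξ) / linD zp h ξ) := by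
    refine ⟨DifferentiableOn.div (by fun_prop) H.sp.dD fun ξ hξ => H.Dne hξ, fun ξ hξ => ?_⟩
    have h4 : ‖ξ ^ 4‖ ≤ ‖ξ‖ ^ 4 := (norm_pow _ _).le
    have h1 := lin_sub (lin_mul (lin_mul H.eta (lin_mul h4 (ln_n H.t0 H.th2 hξ).1))
      (lin_re (le_refl |μ|))) (hE ξ hξ)
    rw [← pow_succ, ← div_mul_cancel₀ (_ - E ξ) (H.Dne hξ)] at h1
    refine (lin_cancel h1 (by norm_num) (H.Dlow hξ)).trans ?_
    have a1 : 0 ≤ e * ‖ξ‖ ^ 4 := by positivity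
    have a2 : 0 ≤ η * |μ| * ‖ξ‖ ^ 4 := by positivity
    rw [div_le_iff₀ (by norm_num)]
    linarith
  have p0 := mul_pos ep0_pos η0
  have p1 : ep0 * η ≤ 1 * 1 :=
    mul_le_mul (by linarith [ep0_le]) (by linarith [H.et2, ln_t]) η0.le zero_le_one
  obtain ⟨w, cw, rw', hw⟩ := lm_fix (κ := 1 - ep0 * η / 20) (T := linT η zp zm h ρ U) H.t0 H.t2
    (by linarith) (by linarith) H.T (fun c c' _ hξ => H.Tsub c c' hξ) H.Tr c fun x hx => by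
      simp [Complex.div_im, H.sp.rD x hx, rE x hx, ← Complex.ofReal_pow]
  refine ⟨w, cw.d, rw', (cw.mono ?_).b, fun ξ hξ => ?_⟩
  · rw [← mul_assoc]
    refine mul_le_mul_of_nonneg_right ?_ (by positivity)
    have t0 := th0_pos
    have k : 40 * th0 ≤ ep0 := by
      linarith [tol_ep0, ln_t1, ln_t2, ln_t3, ep0_pos]
    rw [sub_sub_cancel, inv_mul_eq_div, div_le_div_iff₀ (by positivity) (by positivity)]
    linarith [mul_le_mul_of_nonneg_right k η0.le]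
  · have := hw ξ hξ
    unfold linT at this
    rw [sub_sub_cancel, div_left_inj' (H.Dne hξ)] at this
    unfold linL at this
    linear_combination this

theorem WOK.smul {θ η a : ℝ} {zp zm h ρ U w : ℂ → ℂ}
    (H : WOK θ η a 1 zp zm h ρ U (fun _ => 0) w) (c : ℝ) :
    WOK θ η (|c| * a) c zp zm h ρ U (fun _ => 0) (fun ξ => c * w ξ) := by
  refine ⟨H.dw.const_mul _, fun x hx => by simp [H.rw x hx], fun ξ hξ =>
    (lin_mul (lin_re (le_refl |c|)) (H.w0 ξ hξ)).trans (le_of_eq (by ring)), fun ξ hξ => ?_⟩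
  have e1 : wm (rN ρ) U (fun ξ => c * w ξ) = fun ξ => c * wm (rN ρ) U w ξ := by
    funext ζ
    unfold wm
    rw [mul_add, ← lin_prim_smul]
    simp only [mul_left_comm (c : ℂ), mul_neg]
  have e2 : ell U (fun ξ => c * w ξ) = c * ell U w := by
    unfold ell
    rw [lin_prim_smul, lin_prim_smul]; ring
  have := H.eq ξ hξ
  rw [e1, e2, Lcap_smul, Lcap_smul]
  push_cast at this
  linear_combination (c : ℂ) * this

theorem WOK.nontriv {θ η μ0 B a : ℝ} {zp zm h ρ U w : ℂ → ℂ} (H : LinHyp θ η μ0 B zp zm h ρ U)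
    (W : WOK θ η a 1 zp zm h ρ U (fun _ => 0) w) : ∃ x ∈ Ioo (0 : ℝ) 1, (w x).re ≠ 0 := by
  by_contra hn
  push Not at hn
  have t0 := H.t0
  have an : AnalyticOnNhd ℂ w (Sec θ) := W.dw.analyticOnNhd (isOpen_Sec θ)
  have hz : ∀ x ∈ Ioo (0 : ℝ) 1, w x = 0 := fun x hx =>
    Complex.ext (hn x hx) (W.rw x (Sec_real t0 hx.1 hx.2.le))
  have fr : ∃ᶠ z in 𝓝[≠] (((1 / 2 : ℝ) : ℂ)), w z = 0 := by
    have h1 : Tendsto (fun x : ℝ => (x : ℂ)) (𝓝[≠] (1 / 2)) (𝓝[≠] (((1 / 2 : ℝ) : ℂ))) :=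
      tendsto_nhdsWithin_of_tendsto_nhds_of_eventually_within _
        (Complex.continuous_ofReal.continuousAt.tendsto.mono_left nhdsWithin_le_nhds)
        (eventually_nhdsWithin_of_forall fun x hx e => hx (Complex.ofReal_injective e))
    refine h1.frequently (Eventually.frequently ?_)
    filter_upwards [nhdsWithin_le_nhds (Ioo_mem_nhds (by norm_num : (0 : ℝ) < 1 / 2)
      (by norm_num : (1 / 2 : ℝ) < 1))] with x hx using hz x hx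
  have z := an.eqOn_zero_of_preconnected_of_frequently_eq_zero (convex_Sec θ).isPreconnected
    (Sec_real t0 (by norm_num) (by norm_num)) fr
  have c0 : LinC θ 0 w := ⟨W.dw, fun ξ hξ => by simp [z hξ]⟩
  have l1 := (Lcap_diff t0 le_rfl H.th2 (H.sp.ld c0) H.sp.k0).2 1 H.one
  have l2 := (Lcap_diff t0 le_rfl H.th2 (H.sm.ld (H.wm c0)) H.sm.k0).2 1 H.one
  have l3 := (H.W c0).prim5 t0 H.base
  have l4 := c0.prim5 t0 H.base
  simp only [mul_zero, zero_mul, zero_div, norm_le_zero_iff] at l1 l2 l3 l4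
  have := W.eq 1 H.one
  unfold ell at this
  rw [l1, l2, l3, l4] at this
  refine H.et1.ne' (Complex.ofReal_injective ?_)
  push_cast at this ⊢
  linear_combination -this

theorem WOK.ell_real {θ η μ0 B a μ : ℝ} {zp zm h ρ U E w : ℂ → ℂ}
    (H : LinHyp θ η μ0 B zp zm h ρ U) (W : WOK θ η a μ zp zm h ρ U E w) : (ell U w).im = 0 :=
  H.rell W.rw

theorem WOK.mono {θ η a a' μ : ℝ} {zp zm h ρ U E w : ℂ → ℂ}
    (W : WOK θ η a μ zp zm h ρ U E w) (ha : a ≤ a') : WOK θ η a' μ zp zm h ρ U E w :=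
  ⟨W.dw, W.rw, fun ξ hξ => (W.w0 ξ hξ).trans (mul_le_mul_of_nonneg_right ha (by positivity)), W.eq⟩

theorem ln_cap {q θ B η a0 b0 c0 : ℝ} {u T H e : ℂ → ℂ} (t0 : 0 < θ) (t2 : θ ≤ th0)
    (e0 : 0 < η) (e2 : η ≤ q) (q1 : q ≤ del1) (hB : B ≤ th0 ^ 2 * η)
    (h : CapInv q θ B u T H e a0 b0 c0) {ξ : ℂ} (hξ : ξ ∈ Sec θ) (he : ‖deriv e ξ‖ ≤ η + B) :
    ‖H ξ + e ξ - 1‖ ≤ th0 ∧ ‖deriv (fun ζ => H ζ + e ζ) ξ‖ ≤ th0 := by
  have n2 := (ln_n t0 t2 hξ).2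
  have hn := (isOpen_Sec θ).mem_nhds hξ
  have s : ‖(q : ℂ)‖ ≤ del1 := lin_re (by rw [abs_of_pos (by linarith)]; exact q1)
  have hf : ‖(1 / 2 : ℂ)‖ ≤ 1 / 2 := by simp
  have d0 := del1_eq
  have d1 := ln_t
  have d2 := th0_pos
  have hB' : B ≤ del1 := by linarith [ln_sq e0, mul_le_mul_of_nonneg_right d1 e0.le]
  have T0 : ‖T ξ‖ ≤ 11 / 10 := (lin_one (h.T0 ξ hξ)).trans (by linarith)
  have u1 : ‖deriv u ξ‖ ≤ 11 / 10 := lin_eq (lin_sub (h.u1 ξ hξ) lin_1) (by ring) (by linarith)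
  have u0 : ‖u ξ‖ ≤ 11 / 10 := lin_eq (lin_add (h.u0 ξ hξ) n2) (by ring) (by linarith)
  have T1 : ‖deriv T ξ‖ ≤ 1 / 10 :=
    lin_eq (lin_add (h.T1 ξ hξ) (lin_mul s hf)) (by ring) (by linarith)
  refine ⟨lin_eq (lin_add (h.H0 ξ hξ) (h.e0 ξ hξ)) (by ring) (by linarith), ?_⟩
  rw [deriv_fun_add (h.dH.differentiableAt hn) (h.de.differentiableAt hn), h.H1 ξ hξ]
  exact lin_eq (lin_sub he (lin_mul s (lin_add (lin_mul (lin_mul T0 u1) hf) (lin_mul u0 T1))))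
    (by ring) (by linarith)

/-- size of `zp`, `zm` and of their derivatives -/
theorem InvC.z {P : Par} {θ d B : ℝ} {S : St} (hP : ParOK P) (t0 : 0 < θ) (t2 : θ ≤ th0)
    (hB : B ≤ th0 ^ 2 * P.η) (h : InvC P θ d B S) :
    DifferentiableOn ℂ S.zp (Sec θ) ∧ DifferentiableOn ℂ S.zm (Sec θ) ∧ ∀ ξ ∈ Sec θ,
      ‖S.zp ξ - 1‖ ≤ th0 ∧ ‖S.zm ξ - 1‖ ≤ th0 ∧ ‖deriv S.zp ξ‖ ≤ th0 ∧ ‖deriv S.zm ξ‖ ≤ th0 := by
  have e0 := hP.et1
  have ν : ‖(nu : ℂ) * P.η‖ ≤ P.η / 20 := by simpa using ln_nu e0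
  have he : ∀ ξ ∈ Sec θ, ‖deriv S.h ξ‖ ≤ P.η + B := fun ξ hξ =>
    lin_eq (lin_sub (h.h1 ξ hξ) ν) (by ring) (by linarith)
  have p := fun ξ hξ => ln_cap t0 t2 e0 hP.et2 hP.q1 hB h.cp hξ (he ξ hξ)
  have m := fun ξ hξ => ln_cap t0 t2 e0 hP.et2 hP.q1 hB h.cm hξ
    (by rw [lin_dneg, norm_neg]; exact he ξ hξ)
  have em : S.zm = fun ξ => S.Hm ξ + -S.h ξ := by funext ξ; exact sub_eq_add_neg _ _
  exact ⟨h.cp.dH.add h.cp.de, h.cm.dH.sub h.cp.de, fun ξ hξ => ⟨(p ξ hξ).1,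
    by rw [em]; exact (m ξ hξ).1, (p ξ hξ).2, by rw [em]; exact (m ξ hξ).2⟩⟩

/-- the invariants give the hypotheses of the linear problem -/
theorem InvC.lin {P : Par} {θ d B : ℝ} {S : St} (hP : ParOK P) (t1 : th0 / 2 ≤ θ) (t2 : θ ≤ th0)
    (hB : B ≤ th0 ^ 2 * P.η) (h : InvC P θ d B S) (k : InvK P θ B S) :
    LinHyp θ P.η P.μ0 B S.zp S.zm S.h S.ρ S.U := by
  have d2 := th0_pos
  have t0 : 0 < θ := by linarith
  have e0 := hP.et1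
  have d0 := del1_eq
  have d1 := ln_t
  have e1 : P.η ≤ del1 := hP.et2.trans hP.q1
  obtain ⟨z1, z2, z3⟩ := h.z hP t0 t2 hB
  have b1 := hB.trans (ln_sq e0)
  have b2 : tol * P.η / 2 + B ≤ tol * P.η := by
    have : 1000 * th0 * P.η ≤ tol * P.η :=
      mul_le_mul_of_nonneg_right (by linarith [ln_t1, ln_t2, ln_t3]) e0.le
    linarith [mul_pos d2 e0]
  refine ⟨t1, t2, e0, by linarith, hP.mu, hB, z1, z2, h.cp.de, h.dρ, h.dU,
    fun x hx => by simp [St.zp, h.cp.rH x hx, h.cp.re x hx],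
    fun x hx => by simp [St.zm, h.cm.rH x hx, h.cp.re x hx], h.cp.re, h.rρ, h.rU,
    fun ξ hξ => (z3 ξ hξ).1, fun ξ hξ => (z3 ξ hξ).2.1, fun ξ hξ => (z3 ξ hξ).2.2.1,
    fun ξ hξ => (z3 ξ hξ).2.2.2, h.h1, fun ξ hξ => ?_, h.ρ1, h.U0, h.f1, h.f2,
    fun ξ hξ v hv => (k.kp ξ hξ v hv).trans b2, fun ξ hξ v hv => (k.km ξ hξ v hv).trans b2⟩
  have hU := (U_maps t1 le_rfl t2 e0 (by linarith) hP.mu hB h.U0 hξ).1
  have a1 := h.cm.T0 ξ hξ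
  have a2 : ‖(S.ρ ξ - 1) * S.Tm ξ‖ ≤ del1 + B + (del1 + B) :=
    lin_eq (lin_sub (h.cp.T0 _ hU) a1) (by rw [← h.ρT ξ hξ]; ring) le_rfl
  have a3 := lin_low a1
  have b3 : B ≤ del1 := by linarith [mul_le_mul_of_nonneg_right d1 e0.le]
  exact (lin_cancel a2 (c := 1 / 2) (by norm_num) (by linarith)).trans (by linarith)

end BonN
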