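import Pool.Agent.Lib.MP_3dbf58_gt.N.BaseA
import Pool.Agent.Lib.MP_3dbf58_gt.N.BaseB
import Pool.Agent.Lib.MP_3dbf58_gt.N.BaseC
import Pool.Agent.Lib.MP_3dbf58_gt.N.KerF
import Pool.Agent.Lib.MP_3dbf58_gt.N.FamE
import Pool.Agent.Lib.MP_3dbf58_gt.N.Lin

open Set Filter Topology MeasureTheory Metric

noncomputable section

namespace BonN

open Bon3

variable [Cs]

theorem bs_dl : dl ≤ th0 ^ 8 * (th0 / 4) ^ n2 := by
  have t0 := th0_pos
  have h1 : th0 ^ 2 ≤ th0 / 4 := by nlinarith [th0_small]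
  have h2 : (th0 ^ 2) ^ n2 ≤ (th0 / 4) ^ n2 := pow_le_pow_left₀ (by positivity) h1 _
  have e : dl = th0 ^ 8 * (th0 ^ 2) ^ n2 := by
    unfold dl; rw [← pow_mul, ← pow_add]; congr 1; unfold n2; omega
  rw [e]
  exact mul_le_mul_of_nonneg_left h2 (by positivity)

/-- the kernel invariant at the start -/
theorem InvC.invK0 {P : Par} {d B : ℝ} {S : St} (hP : ParOK P) (h : InvC P th0 d B S)
    (hB : B ≤ 100 * dl * P.η) (he : P.η ≤ dl) : InvK P (3 / 4 * th0) 0 S := by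
  have t0 := th0_pos
  have e0 := hP.et1
  have d0 := dl_pos
  have e1 : P.η ≤ th0 := he.trans dl_le_th0
  have b1 : B ≤ th0 ^ 2 * P.η := by
    have := mul_le_mul_of_nonneg_right dl_le_sq e0.le
    nlinarith [mul_pos (pow_pos t0 2) e0]
  have ts := th0_small
  have b2 : B ≤ th0 := by
    have : th0 * P.η ≤ 1 := by nlinarith
    nlinarith
  obtain ⟨dp, dm, z⟩ := h.z hP t0 le_rfl b1
  have s1 : |nu * P.η| ≤ P.η := by
    rw [abs_of_pos (mul_pos nu_pos e0)]; nlinarith [nu_le]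
  have num : (B + P.η ^ 2) / (th0 / 4) ^ n2 + 10 * Nr ^ 3 * th0 * P.η ≤ tol * P.η / 2 + 0 := by
    have p : 0 < (th0 / 4) ^ n2 := by positivity
    have h1 : (B + P.η ^ 2) / (th0 / 4) ^ n2 ≤ 101 * th0 ^ 8 * P.η := by
      rw [div_le_iff₀ p]
      have := mul_le_mul_of_nonneg_right bs_dl e0.le
      nlinarith
    have h2 : th0 ^ 8 ≤ th0 := by
      simpa using pow_le_pow_of_le_one t0.le (ts.trans (by norm_num)) (show 1 ≤ 8 by norm_num)
    have h3 := th0_tol (k := 3) (by norm_num)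
    have h4 := th0_tol (k := 0) (by norm_num)
    rw [pow_zero, mul_one] at h4
    have h5 : 101 * th0 ^ 8 + 10 * Nr ^ 3 * th0 ≤ tol / 2 := by nlinarith
    nlinarith [mul_le_mul_of_nonneg_right h5 e0.le]
  have e34 : th0 - th0 / 4 = 3 / 4 * th0 := by ring
  have kp := KK_fine (d := th0 / 4) (s := -(nu * P.η)) (z := S.zp) (e := S.h) (by positivity)
    (by linarith) le_rfl e0 e1 (by rwa [abs_neg]) b2 dp h.cp.de (fun ξ hξ => (z ξ hξ).1)
    (fun ξ hξ => by simpa using h.h1 ξ hξ)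
  have km := KK_fine (d := th0 / 4) (s := nu * P.η) (z := S.zm) (e := fun ζ => -S.h ζ)
    (by positivity) (by linarith) le_rfl e0 e1 s1 b2 dm h.cm.de (fun ξ hξ => (z ξ hξ).2.1)
    (fun ξ hξ => by
      rw [lin_dneg, ← norm_neg]
      simpa [add_comm] using h.h1 ξ hξ)
  rw [e34] at kp km
  have c1 : Nr * (Nr - 2) / 2 * -(nu * P.η) = -(a2c * P.η) := by rw [a2c_eq]; ring
  have c2 : Nr * (Nr - 2) / 2 * (nu * P.η) = a2c * P.η := by rw [a2c_eq]; ring
  rw [c1] at kp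
  rw [c2] at km
  exact ⟨kp.mono (by positivity) le_rfl num, km.mono (by positivity) le_rfl num⟩

theorem base : ∃ (P : Par) (S : St), ParOK P ∧ BaseX P ∧ S.g = P.gb ∧ S.E = (fun _ => 0) ∧ S.s = 0 ∧
    InvC P (3 / 4 * th0) (th0 / 64) (th0 ^ 2 * P.η / 2) S ∧
    InvK P (3 / 4 * th0) (th0 ^ 2 * P.η / 2) S ∧ InvR P (3 / 4 * th0) (th0 / 64) 0 S := by
  obtain ⟨cc, Ia, Ib, A⟩ := baseA
  obtain ⟨hb, U, q, μ0, c0, B, h⟩ := baseB A
  have q1 := B.q1
  have q2 := B.q2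
  have t0 := th0_pos
  have q0 : 0 < q := by linarith [tt_pos]
  have g0 := gam_pos
  have g1 := gam_small
  have e0 : 0 < 120 * gam * q := by positivity
  have e1 : 120 * gam * q ≤ q := by nlinarith
  have q3 : q ≤ dl / 100 := by rw [tt_eq] at q2; linarith [dl_pos]
  have hB : 100 * dl * (120 * gam * q) ≤ th0 ^ 2 * (120 * gam * q) / 2 := by
    have := mul_le_mul_of_nonneg_right dl_le_sq e0.le
    nlinarith [mul_pos (pow_pos t0 2) e0]
  obtain ⟨g, X, R⟩ := baseC A B fun g => (h g).mono t0.le le_rfl le_rfl hB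
  have hP : ParOK (Par0 hb q μ0 c0 g) :=
    ⟨e0, e1, by show q ≤ del1; rw [del1_eq]; linarith [dl_le_th0], B.mu⟩
  refine ⟨Par0 hb q μ0 c0 g, St0 cc Ia Ib hb U q g, hP, X, rfl, rfl, rfl,
    (h g).mono (by positivity) (by linarith) (by linarith) hB,
    ((h g).invK0 hP le_rfl (by show 120 * gam * q ≤ dl; linarith [dl_pos])).mono (by positivity)
      le_rfl (by show 0 ≤ th0 ^ 2 * (120 * gam * q) / 2; positivity),
    R.mono (by positivity) (by linarith) (by linarith)⟩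

end BonN
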