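import Pool.Agent.Lib.MP_3dbf58_gt.N.BaseK

/-! Elementary estimates for the radicand of the base body, and the moments of the weight. -/

open Set Filter Topology MeasureTheory Metric

noncomputable section

namespace BonN.BA1

open Bon3

variable [Cs]

theorem rr_le6 {c : ℂ} (h : ‖c‖ ≤ 2) : ‖rr c‖ ≤ 10 ^ 6 := (rr_le h).trans (by norm_num)
theorem ph_le6 {c : ℂ} (h : ‖c‖ ≤ 2) : ‖ph c‖ ≤ 10 ^ 6 := (ph_le h).trans (by norm_num)

theorem HH'_le {γ c : ℂ} (hγ : ‖γ‖ < 1 / 10 ^ 10) (h : ‖c‖ ≤ 2) : ‖HH' γ c‖ ≤ 101 / 100 := by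
  have e : HH' γ c = 1 + γ * (rr c + c ^ 2 * ph' c - ph' c) := by unfold HH' TT'; ring
  have h1 := rr_le6 h
  have h2 := ph'_le h
  have h0 := norm_nonneg c
  have k : ‖rr c + c ^ 2 * ph' c - ph' c‖ ≤ 10 ^ 6 + 2 ^ 2 * 10 ^ 6 + 10 ^ 6 := by
    refine (norm_sub_le _ _).trans (add_le_add ((norm_add_le _ _).trans ?_) h2)
    rw [norm_mul, norm_pow]
    gcongr
  rw [e]
  refine (norm_add_le _ _).trans ?_
  rw [norm_one, norm_mul]
  have : ‖γ‖ * ‖rr c + c ^ 2 * ph' c - ph' c‖ ≤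
      1 / 10 ^ 10 * (10 ^ 6 + 2 ^ 2 * 10 ^ 6 + 10 ^ 6) := by gcongr
  norm_num at this ⊢
  linarith

theorem PD_gam {p : ℂ × ℂ × ℂ} (hp : p ∈ PD) : ‖p.2.2‖ < 1 / 10 ^ 10 := by
  have h : ‖p.2.2‖ < lam / 10 ^ 10 := hp.2.2
  linarith [lam_le]

theorem PD_zero {σ : ℂ} (h : ‖σ‖ < 1 / 10) : (σ, (0 : ℂ), (0 : ℂ)) ∈ PD := by
  have := lam_pos
  exact ⟨h, by simp only [norm_zero]; positivity, by simp only [norm_zero]; positivity⟩

theorem d_ph : Differentiable ℂ (ph : ℂ → ℂ) := by unfold ph; fun_prop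
theorem d_ph' : Differentiable ℂ (ph' : ℂ → ℂ) := by unfold ph'; fun_prop
theorem d_rr : Differentiable ℂ (rr : ℂ → ℂ) := by unfold rr; fun_prop
theorem c_ph : Continuous (ph : ℝ → ℝ) := by unfold ph; fun_prop
theorem c_ph' : Continuous (ph' : ℝ → ℝ) := by unfold ph'; fun_prop
theorem c_rr : Continuous (rr : ℝ → ℝ) := by unfold rr; fun_prop

/-- remainder of the radicand -/
def RR (σ y γ c : ℂ) : ℂ := NB σ y γ c - (1 - (1 + σ) * c ^ 2)

theorem RR_le {σ y γ c : ℂ} (hp : (σ, y, γ) ∈ PD) (h : ‖c‖ ≤ 2) : ‖RR σ y γ c‖ ≤ lam / 500 := by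
  obtain ⟨h1, h2, h3⟩ : ‖σ‖ < 1 / 10 ∧ ‖y‖ < lam / 10 ^ 3 ∧ ‖γ‖ < lam / 10 ^ 10 := hp
  have l0 := lam_pos
  have l1 := lam_le
  have h0 := norm_nonneg c
  have hr := rr_le6 h
  have hph := ph_le6 h
  set u := γ * rr c with hu
  set e := γ * (c * rr c - ph c) + y with he
  have eq : RR σ y γ c = (1 - c ^ 2) * (u * (2 + u)) - σ * (e * (2 * c + e)) := by
    unfold RR NB XX HH TT; rw [hu, he]; ring
  have nu : ‖u‖ ≤ lam / 10 ^ 4 := by
    rw [hu, norm_mul]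
    calc ‖γ‖ * ‖rr c‖ ≤ lam / 10 ^ 10 * 10 ^ 6 := by gcongr
      _ = _ := by ring
  have ne : ‖e‖ ≤ 13 * lam / 10 ^ 4 := by
    rw [he]
    refine (norm_add_le _ _).trans ?_
    have k : ‖c * rr c - ph c‖ ≤ 2 * 10 ^ 6 + 10 ^ 6 := by
      refine (norm_sub_le _ _).trans ?_
      rw [norm_mul]; gcongr
    have : ‖γ‖ * ‖c * rr c - ph c‖ ≤ lam / 10 ^ 10 * (2 * 10 ^ 6 + 10 ^ 6) := by gcongr
    rw [norm_mul]
    linarith
  have n1 : ‖1 - c ^ 2‖ ≤ 1 + 2 ^ 2 := by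
    refine (norm_sub_le _ _).trans ?_
    rw [norm_one, norm_pow]; gcongr
  have n2 : ‖2 + u‖ ≤ 2 + 1 / 10 ^ 4 := by
    refine (norm_add_le _ _).trans ?_
    rw [Complex.norm_ofNat]; linarith
  have n3 : ‖2 * c + e‖ ≤ 2 * 2 + 13 / 10 ^ 4 := by
    refine (norm_add_le _ _).trans ?_
    rw [norm_mul, Complex.norm_ofNat]; linarith
  rw [eq]
  refine (norm_sub_le _ _).trans ?_
  simp only [norm_mul]
  calc ‖1 - c ^ 2‖ * (‖u‖ * ‖2 + u‖) + ‖σ‖ * (‖e‖ * ‖2 * c + e‖)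
      ≤ (1 + 2 ^ 2) * (lam / 10 ^ 4 * (2 + 1 / 10 ^ 4)) +
        1 / 10 * (13 * lam / 10 ^ 4 * (2 * 2 + 13 / 10 ^ 4)) := by gcongr
    _ ≤ _ := by linarith

theorem RR_lip {σ y γ c c' : ℂ} (hp : (σ, y, γ) ∈ PD) (h : ‖c‖ ≤ 5 / 4) (h' : ‖c'‖ ≤ 5 / 4) :
    ‖RR σ y γ c - RR σ y γ c'‖ ≤ lam / 200 * ‖c - c'‖ := by
  have hd : DifferentiableOn ℂ (RR σ y γ) (ball 0 2) := by
    apply Differentiable.differentiableOn
    have := d_ph
    have := d_rr
    unfold RR NB XX HH TT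
    fun_prop
  have := lip_ball (c := 0) (R := 2) (M := lam / 500) hd
    (fun s hs => RR_le hp (mem_ball_zero_iff.1 hs).le)
    (y := c) (y' := c') (mem_ball_zero_iff.2 (by linarith)) (mem_ball_zero_iff.2 (by linarith))
  exact this.trans (le_of_eq (by ring))

omit [Cs] in
theorem n98 {c : ℂ} (h : ‖c - 1‖ ≤ 1 / 8) : ‖c‖ ≤ 9 / 8 := by
  have := norm_add_le (c - 1) 1
  rw [sub_add_cancel, norm_one] at this
  linarith

theorem dNB : Differentiable ℂ (fun q : (ℂ × ℂ × ℂ) × ℂ => NB q.1.1 q.1.2.1 q.1.2.2 q.2) := by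
  have := d_ph
  have := d_rr
  unfold NB XX HH TT
  fun_prop

theorem dHH' : Differentiable ℂ (fun q : (ℂ × ℂ × ℂ) × ℂ => HH' q.1.2.2 q.2) := by
  have := d_ph'
  have := d_rr
  unfold HH' TT'
  fun_prop

/-- real triples -/
def RT : Set (ℂ × ℂ × ℂ) := {p | p.1.im = 0 ∧ p.2.1.im = 0 ∧ p.2.2.im = 0}

theorem exists_cc : ∃ cc : ℂ × ℂ × ℂ → ℂ, HC cc PD ∧ (∀ p ∈ PD, ‖cc p - 1‖ ≤ 1 / 8) ∧
    (∀ p ∈ PD, NB p.1 p.2.1 p.2.2 (cc p) = 0) ∧ ∀ p ∈ PD, p ∈ RT → (cc p).im = 0 := by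
  have l0 := lam_pos
  have l1 := lam_le
  obtain ⟨y, h1, h2, h3⟩ := HC.fixed (G := PD) (c := fun _ => 1) (r := fun _ => 1 / 8)
    (r0 := 1 / 8) (Φ := fun q => q.2 + NB q.1.1 q.1.2.1 q.1.2.2 q.2 / 2) RT (HC.const 1)
    (fun _ _ => ⟨by norm_num, le_rfl⟩)
    (HC.of_diff (Differentiable.differentiableOn (by have := dNB; fun_prop)))
    (by
      rintro ⟨σ, y, γ⟩ hp
      have h1 : ‖σ‖ < 1 / 10 := hp.1
      have := RR_le (c := 1) hp (by simp)
      have e : (1 : ℂ) + NB σ y γ 1 / 2 - 1 = (RR σ y γ 1 - σ) / 2 := by unfold RR; ring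
      show ‖(1 : ℂ) + NB σ y γ 1 / 2 - 1‖ ≤ 1 / 8 / 2
      rw [e, norm_div, Complex.norm_ofNat]
      have := norm_sub_le (RR σ y γ 1) σ
      linarith)
    (by
      rintro ⟨σ, y, γ⟩ hp c c' hc hc'
      have h1 : ‖σ‖ < 1 / 10 := hp.1
      have hl := RR_lip hp ((n98 hc).trans (by norm_num)) ((n98 hc').trans (by norm_num))
      set u := ((c - 1) + (c' - 1)) / 2 with hu
      have nu : ‖u‖ ≤ 1 / 8 := by
        rw [hu, norm_div, Complex.norm_ofNat]
        have := norm_add_le (c - 1) (c' - 1)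
        linarith
      have e : c + NB σ y γ c / 2 - (c' + NB σ y γ c' / 2) =
          (RR σ y γ c - RR σ y γ c') / 2 - (σ + u + σ * u) * (c - c') := by
        unfold RR; rw [hu]; ring
      show ‖c + NB σ y γ c / 2 - (c' + NB σ y γ c' / 2)‖ ≤ 1 / 2 * ‖c - c'‖
      have n1 : ‖σ + u + σ * u‖ ≤ 1 / 10 + 1 / 8 + 1 / 10 * (1 / 8) := by
        refine (norm_add_le _ _).trans (add_le_add ((norm_add_le _ _).trans (by linarith)) ?_)
        rw [norm_mul]; gcongr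
      rw [e]
      refine (norm_sub_le _ _).trans ?_
      rw [norm_div, Complex.norm_ofNat, norm_mul]
      have h0 := norm_nonneg (c - c')
      have := mul_le_mul_of_nonneg_right n1 h0
      have := mul_le_mul_of_nonneg_right (show lam / 200 ≤ 1 / 200 by linarith) h0
      linarith)
    (by
      rintro ⟨σ, y, γ⟩ _ ⟨a, b, c⟩
      refine ⟨by simp, fun x _ => ?_⟩
      lift σ to ℝ using a
      lift y to ℝ using b
      lift γ to ℝ using c
      show ((x : ℂ) + NB (σ : ℂ) y γ x / 2).im = 0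
      rw [NB_cast]
      simp)
  refine ⟨y, h1, fun p hp => (h2 p hp).1, fun p hp => ?_, h3⟩
  have := (h2 p hp).2.1
  simp only at this
  linear_combination 2 * this

/-- the radicand along the chord -/
theorem NB_near {σ y γ c : ℂ} (hp : (σ, y, γ) ∈ PD) (hc : ‖c - 1‖ ≤ 1 / 8)
    (root : NB σ y γ c = 0) {v : ℝ} (v0 : 0 ≤ v) (v1 : v ≤ 1) :
    ‖NB σ y γ (v * c) - ((1 - v ^ 2 : ℝ) : ℂ)‖ ≤ (1 - v ^ 2) * (lam / 100) := by
  have l0 := lam_pos
  have n := n98 hc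
  have nv : ‖(v : ℂ) * c‖ ≤ 5 / 4 := by
    rw [norm_mul, Complex.norm_real, Real.norm_eq_abs, abs_of_nonneg v0]
    have := norm_nonneg c
    nlinarith
  have hl := RR_lip hp nv (n.trans (by norm_num))
  have hr := RR_le hp (n.trans (by norm_num : (9 / 8 : ℝ) ≤ 2))
  have e : NB σ y γ (v * c) - ((1 - v ^ 2 : ℝ) : ℂ) =
      (RR σ y γ (v * c) - RR σ y γ c) + ((1 - v ^ 2 : ℝ) : ℂ) * RR σ y γ c := by
    unfold RR; push_cast; linear_combination (v : ℂ) ^ 2 * root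
  have e2 : ‖(v : ℂ) * c - c‖ = (1 - v) * ‖c‖ := by
    rw [show (v : ℂ) * c - c = -(((1 - v : ℝ) : ℂ) * c) by push_cast; ring, norm_neg, norm_mul,
      Complex.norm_real, Real.norm_eq_abs, abs_of_nonneg (by linarith)]
  have w : 0 ≤ 1 - v ^ 2 := by nlinarith
  rw [e]
  refine (norm_add_le _ _).trans ?_
  rw [norm_mul, Complex.norm_real, Real.norm_eq_abs, abs_of_nonneg w]
  rw [e2] at hl
  have a1 : (1 - v) * ‖c‖ ≤ (1 - v ^ 2) * (9 / 8) := by
    have := norm_nonneg c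
    have : 1 - v ≤ 1 - v ^ 2 := by nlinarith
    gcongr
  have a2 := mul_le_mul_of_nonneg_left hr w
  have a3 := mul_le_mul_of_nonneg_left a1 (show 0 ≤ lam / 200 by positivity)
  have a4 := mul_nonneg w l0.le
  linarith

theorem re_ge {z : ℂ} {w : ℝ} (w0 : 0 ≤ w) (h : ‖z - (w : ℂ)‖ ≤ w * (lam / 100)) :
    99 / 100 * w ≤ z.re := by
  have := (abs_le.1 ((Complex.abs_re_le_norm _).trans h)).1
  simp only [Complex.sub_re, Complex.ofReal_re] at this
  have := mul_le_mul_of_nonneg_left (show lam / 100 ≤ 1 / 100 by linarith [lam_le]) w0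
  linarith

omit [Cs] in
theorem norm_csq (z : ℂ) : ‖csq z‖ = Real.sqrt ‖z‖ := by
  conv_rhs => rw [← csq_sq z, norm_pow, Real.sqrt_sq (norm_nonneg _)]

theorem lam_pow : (1 + lam / 100) ^ (ii + 1) ≤ 101 / 100 := by
  have l0 := lam_pos
  have l1 : ((ii + 1 : ℕ) : ℝ) * (lam / 100) ≤ 1 / 10 ^ 9 := by
    have : ((ii + 1 : ℕ) : ℝ) ≤ Nr := by unfold Nr; push_cast; linarith
    have := mul_le_mul_of_nonneg_right this l0.le
    linarith [lam_Nr]
  have h := (pow_near (z := ((1 + lam / 100 : ℝ) : ℂ)) (ε := lam / 100) (k := ii + 1)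
    (by rw [← Complex.ofReal_one, ← Complex.ofReal_sub, Complex.norm_real, add_sub_cancel_left,
      Real.norm_of_nonneg (by positivity)]) (by linarith)).1
  rw [← Complex.ofReal_pow, ← Complex.ofReal_one, ← Complex.ofReal_sub, Complex.norm_real] at h
  linarith [(abs_le.1 h).2]

theorem csq_le {z : ℂ} {w : ℝ} (w0 : 0 < w) (h : ‖z - (w : ℂ)‖ ≤ w * (lam / 100)) :
    z ∈ Complex.slitPlane ∧ ‖csq z ^ (ii + 1)‖ ≤ 101 / 100 * Real.sqrt w ^ (ii + 1) := by
  have l0 := lam_pos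
  have h1 := re_ge w0.le h
  refine ⟨Or.inl (by linarith), ?_⟩
  have h2 : ‖z‖ ≤ w * (1 + lam / 100) := by
    have := norm_add_le (z - w) w
    rw [sub_add_cancel, Complex.norm_real, Real.norm_of_nonneg w0.le] at this
    linarith
  have h3 : Real.sqrt ‖z‖ ≤ (1 + lam / 100) * Real.sqrt w := by
    rw [Real.sqrt_le_left (by positivity), mul_pow, Real.sq_sqrt w0.le]
    nlinarith [mul_pos w0 l0, mul_pos (mul_pos w0 l0) l0]
  rw [norm_pow, norm_csq]
  calc Real.sqrt ‖z‖ ^ (ii + 1) ≤ ((1 + lam / 100) * Real.sqrt w) ^ (ii + 1) := by gcongr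
    _ = (1 + lam / 100) ^ (ii + 1) * Real.sqrt w ^ (ii + 1) := mul_pow _ _ _
    _ ≤ _ := by have := lam_pow; gcongr

/-! ### moments of the weight -/

/-- the weight -/
def wN (v : ℝ) : ℝ := Real.sqrt (1 - v ^ 2) ^ (ii + 1)
def Mo (k : ℕ) : ℝ := ∫ v in (0 : ℝ)..1, v ^ k * wN v

theorem c_wN : Continuous wN := by unfold wN; fun_prop

theorem Mo_rec (k : ℕ) : (k + 1 + Nr) * Mo (k + 2) = (k + 1) * Mo k := by
  have cw := c_wN
  have := intervalIntegral.integral_eq_sub_of_hasDerivAt_of_le (a := 0) (b := 1) zero_le_one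
    (f := fun v : ℝ => v ^ (k + 1) * Real.sqrt (1 - v ^ 2) ^ (ii + 3))
    (f' := fun v : ℝ => (k + 1) * (v ^ k * wN v) - (k + 1 + Nr) * (v ^ (k + 2) * wN v))
    (by fun_prop)
    (fun x hx => by
      have w : 0 < 1 - x ^ 2 := by nlinarith [hx.1, hx.2]
      have s0 := Real.sqrt_pos.2 w
      have h2 : HasDerivAt (fun v : ℝ => Real.sqrt (1 - v ^ 2))
          (-(2 * x) / (2 * Real.sqrt (1 - x ^ 2))) x := by
        have := ((hasDerivAt_pow 2 x).const_sub 1).sqrt w.ne'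
        simpa using this
      refine ((hasDerivAt_pow (k + 1) x).mul (h2.pow (ii + 3))).congr_deriv ?_
      have hs := Real.sq_sqrt w.le
      unfold wN Nr
      simp only [Pi.pow_apply, Nat.add_sub_cancel, show ii + 3 - 1 = ii + 2 from rfl]
      set s := Real.sqrt (1 - x ^ 2)
      push_cast
      field_simp
      linear_combination ((k : ℝ) + 1) * x ^ k * s ^ (ii + 2) * hs)
    (Continuous.intervalIntegrable (by fun_prop) _ _)
  rw [intervalIntegral.integral_sub (Continuous.intervalIntegrable (by fun_prop) _ _)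
    (Continuous.intervalIntegrable (by fun_prop) _ _), intervalIntegral.integral_const_mul,
    intervalIntegral.integral_const_mul] at this
  simp only [one_pow, sub_self, Real.sqrt_zero, ne_eq, Nat.add_eq_zero_iff, one_ne_zero,
    and_false, not_false_eq_true, zero_pow, mul_zero, zero_mul, OfNat.ofNat_ne_zero] at this
  unfold Mo
  linarith

theorem Mo_zero : Mo 0 = ∫ v in (0 : ℝ)..1, wN v := by simp [Mo]

theorem bet_eq : bet = 2 * Mo 0 := by
  have i := fun a b : ℝ => c_wN.intervalIntegrable (μ := volume) a b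
  have e : ∫ v in (-1 : ℝ)..0, wN v = ∫ v in (0 : ℝ)..1, wN v := by
    have := intervalIntegral.integral_comp_neg (a := 0) (b := 1) wN
    rw [neg_zero] at this
    rw [← this]
    simp [wN]
  have := intervalIntegral.integral_add_adjacent_intervals (i (-1) 0) (i 0 1)
  rw [e] at this
  rw [Mo_zero, two_mul, this]
  rfl

theorem Mo_pos : 0 < Mo 0 := by
  rw [Mo_zero]
  refine intervalIntegral.intervalIntegral_pos_of_pos_on (c_wN.intervalIntegrable _ _)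
    (fun x hx => ?_) zero_lt_one
  exact pow_pos (Real.sqrt_pos.2 (by nlinarith [hx.1, hx.2])) _

theorem bet_pos1 : 0 < bet := by rw [bet_eq]; linarith [Mo_pos]

theorem Mo_two : Mo 2 = m1 * Mo 0 := by
  have h := Mo_rec 0
  have := Nr_pos
  unfold m1
  field_simp
  push_cast at h
  linarith

theorem Mo_four : Mo 4 = m2 * Mo 0 := by
  have h := Mo_rec 2
  have := Nr_pos
  rw [Mo_two] at h
  unfold m1 at h
  unfold m2
  push_cast at h
  field_simp at h ⊢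
  linarith

theorem Mo_six : Mo 6 = m3 * Mo 0 := by
  have h := Mo_rec 4
  have := Nr_pos
  rw [Mo_four] at h
  unfold m2 at h
  unfold m3
  push_cast at h
  field_simp at h ⊢
  linarith

end BonN.BA1
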