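import Pool.Agent.Lib.MP_3dbf58_gt.N.BaseB2

open Set Filter Topology MeasureTheory Metric

noncomputable section

namespace BonN.Bx

open Bon3

variable [Cs]

theorem im_TT {γ c : ℂ} (h1 : γ.im = 0) (h2 : c.im = 0) :
    (TT γ c).im = 0 ∧ (HH γ c).im = 0 ∧ (ph c).im = 0 ∧ (rr c).im = 0 := by
  lift γ to ℝ using h1
  lift c to ℝ using h2
  simp only [ph_cast, rr_cast, TT_cast, HH_cast, Complex.ofReal_im, and_self]

section
variable {c et : ℂ × ℂ → ℂ} (b : B2 c et)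
include b

theorem B2.im {p : ℂ × ℂ} (hp : p ∈ DD (1 / 10)) (h1 : p.1.im = 0) (h2 : p.2.im = 0) :
    (c p).im = 0 ∧ (et p).im = 0 ∧ (bT c p).im = 0 ∧ (bH c p).im = 0 ∧ (bD c et p).im = 0 ∧
      (bz c et p).im = 0 ∧ (bG c et p).im = 0 ∧ (bn c et p).im = 0 ∧ (rr (c p)).im = 0 := by
  obtain ⟨γ, σ⟩ := p
  simp only at h1 h2
  lift γ to ℝ using h1
  lift σ to ℝ using h2
  have a1 := b.rc γ σ hp
  have a2 := b.re γ σ hp
  obtain ⟨t1, t2, t3, t4⟩ := im_TT (γ := γ) (by simp) a1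
  have a5 : (bD c et (γ, σ)).im = 0 := by simp [bD, t3, a2]
  have a6 := im_div a5 (show (bT c (γ, σ)).im = 0 from t1)
  have a7 : (bG c et (γ, σ)).im = 0 := by
    have := im_pow a6 2
    simp [bG, a6, this]
  exact ⟨a1, a2, t1, t2, a5, by simp [bz, bH, t2, a2], a7, by simp [bn, a7], t4⟩

theorem yy_exists : ∃ yy : ℂ × ℂ → ℂ, HC yy (DD (1 / 11)) ∧
    (∀ p ∈ DD (1 / 11), ‖yy p - 1‖ ≤ 1 / 20 ∧
      yy p = bn c et (ng p) / bn c et (p.1, p.2 * yy p)) ∧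
    ∀ p ∈ DD (1 / 11), p.1.im = 0 → p.2.im = 0 → (yy p).im = 0 := by
  have mem : ∀ p ∈ DD (1 / 11), ∀ y : ℂ, ‖y - 1‖ < 1 / 12 → (p.1, p.2 * y) ∈ DD (1 / 10) := by
    intro p hp y hy
    refine ⟨hp.1, ?_⟩
    have h1 := hp.2
    have h2 := norm_sub_norm_le y 1
    simp only [norm_one] at h2
    show ‖p.2 * y‖ < _
    rw [norm_mul]; nlinarith [norm_nonneg p.2, norm_nonneg y]
  have sub : DD (1 / 11) ⊆ DD (1 / 10) := DD_mono (by norm_num)
  have sm : ∀ p ∈ DD (1 / 11), ∀ y : ℂ, ‖y - 1‖ < 1 / 12 →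
      ‖bn c et (ng p) / bn c et (p.1, p.2 * y) - 1‖ ≤ 1 / 10 ^ 13 := by
    intro p hp y hy
    have h1 := b.n (ng_mem (sub hp))
    have h2 := b.n (mem p hp y hy)
    have h3 := b.n1 (mem p hp y hy)
    rw [div_sub_one (b.nne (mem p hp y hy)), norm_div, div_le_iff₀ (by linarith)]
    have := norm_sub_le_norm_sub_add_norm_sub (bn c et (ng p)) 1 (bn c et (p.1, p.2 * y))
    rw [norm_sub_rev 1] at this
    nlinarith
  have hc : HC (fun x : (ℂ × ℂ) × ℂ => bn c et (ng x.1) / bn c et (x.1.1, x.1.2 * x.2))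
      {x | x.1 ∈ DD (1 / 11) ∧ ‖x.2 - 1‖ < 1 / 12} :=
    ((b.hn.ngN).comp (HC.fst HC.id) fun x hx => sub hx.1).div
      (b.hn.comp (g := fun x : (ℂ × ℂ) × ℂ => (x.1.1, x.1.2 * x.2)) (HC.of_diff (by fun_prop))
        fun x hx => mem _ hx.1 _ hx.2) fun x hx => b.nne (mem _ hx.1 _ hx.2)
  obtain ⟨y, hy, hf, hr⟩ := HC.fixed (G := DD (1 / 11)) (c := fun _ => 1)
    (r := fun _ => 1 / 20) (r0 := 1)
    (Φ := fun x => bn c et (ng x.1) / bn c et (x.1.1, x.1.2 * x.2))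
    {p | p.1.im = 0 ∧ p.2.im = 0} (HC.const _) (fun _ _ => by norm_num)
    (hc.mono fun x hx => ⟨hx.1, hx.2.trans_lt (by norm_num)⟩)
    (fun p hp => (sm p hp 1 (by simp)).trans (by norm_num))
    (fun p hp y y' h1 h2 => by
      have := lip_ball (c := 1) (R := 1 / 12) (M := 1 / 10 ^ 13)
        (f := fun y => bn c et (ng p) / bn c et (p.1, p.2 * y) - 1)
        ((hc (fun y => (p, y)) _ isOpen_ball (by fun_prop)
          fun s hs => ⟨hp, by simpa [dist_eq_norm] using hs⟩).sub_const 1)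
        (fun s hs => sm p hp s (by simpa [dist_eq_norm] using hs)) (y := y) (y' := y')
        (by simp only [mem_ball, dist_eq_norm]; linarith)
        (by simp only [mem_ball, dist_eq_norm]; linarith)
      simp only [sub_sub_sub_cancel_right] at this
      exact this.trans (mul_le_mul_of_nonneg_right (by norm_num) (norm_nonneg _)))
    (fun p hp hR => ⟨by simp, fun y hy => im_div
      (b.im (ng_mem (sub hp)) (by simpa [ng] using hR.1) hR.2).2.2.2.2.2.2.2.1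
      (b.im (mem p hp y (by linarith)) hR.1 (im_mul hR.2 (by simp))).2.2.2.2.2.2.2.1⟩)
  exact ⟨y, hy, fun p hp => ⟨(hf p hp).1, (hf p hp).2.1.symm⟩, fun p hp h1 h2 => hr p hp ⟨h1, h2⟩⟩
end

/-- Taylor data of a slice near `σ = 0` -/
structure Nice (f : ℂ → ℂ) (V D : ℂ) : Prop where
  df : DifferentiableOn ℂ f (ball 0 (1 / 11))
  v : ∀ σ : ℂ, ‖σ‖ ≤ dl / 10 ^ 13 → ‖f σ - V‖ ≤ dl
  d : ∀ σ : ℂ, ‖σ‖ ≤ dl / 10 ^ 13 → ‖deriv f σ - D‖ ≤ dl
  dd : ∀ σ : ℂ, ‖σ‖ ≤ dl / 10 ^ 13 → ‖deriv (deriv f) σ‖ ≤ 10 ^ 12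

theorem sl_diff {F : ℂ × ℂ → ℂ} {r : ℝ} (hF : HC F (DD r)) {γ : ℂ} (hγ : ‖γ‖ < lam / 10 ^ 21) :
    DifferentiableOn ℂ (sl F γ) (ball 0 r) :=
  hF (fun s => (γ, s)) _ isOpen_ball (by fun_prop) fun s hs => ⟨hγ, by simpa using hs⟩

theorem gam_lt {γ : ℂ} (hγ : ‖γ‖ ≤ gam) : ‖γ‖ < lam / 10 ^ 21 :=
  hγ.trans_lt (by linarith [gam_le_lam, lam_pos])

theorem sl_close {F : ℂ × ℂ → ℂ} {r M : ℝ} (hF : HC F (DD r)) (hM : ∀ p ∈ DD r, ‖F p‖ ≤ M)
    {γ σ : ℂ} (hγ : ‖γ‖ ≤ gam) (hσ : ‖σ‖ < r) :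
    ‖F (γ, σ) - F (0, σ)‖ ≤ 2 * M * dl ^ 2 / 10 ^ 29 := by
  have l0 := lam_pos
  have m : MapsTo (fun s : ℂ => (s, σ)) (ball 0 (lam / 10 ^ 21)) (DD r) :=
    fun s hs => ⟨by simpa using hs, hσ⟩
  have M0 : 0 ≤ M := (norm_nonneg _).trans (hM (0, σ) (DD_zero hσ))
  have := schwarz1 (z := γ) (hF _ _ isOpen_ball (by fun_prop) m) (fun s hs => hM _ (m hs))
    (gam_lt hγ)
  refine this.trans ?_
  calc _ ≤ 2 * M / (lam / 10 ^ 21) * gam := by gcongr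
    _ = _ := by rw [gam_eq]; field_simp

theorem nice_of {F : ℂ × ℂ → ℂ} {V D D' γ : ℂ} (hF : HC F (DD (1 / 11)))
    (hM : ∀ p ∈ DD (1 / 11), ‖F p‖ ≤ 10 ^ 8) (hγ : ‖γ‖ ≤ gam)
    (hD : HasDerivAt (sl F 0) D' 0) (e1 : ‖D' - D‖ ≤ dl / 10 ^ 5)
    (e2 : ‖F (0, 0) - V‖ ≤ dl / 10 ^ 5) : Nice (sl F γ) V D := by
  have g1 : ‖γ‖ < lam / 10 ^ 21 := gam_lt hγ
  have l0 := dl_pos
  have l1 := dl_le
  have l2 := dl_sq_le
  have df := sl_diff hF g1
  have df0 := sl_diff hF (γ := 0) (gam_lt (by simpa using gam_pos.le))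
  have bd : ∀ s ∈ ball (0 : ℂ) (1 / 11), ‖sl F γ s‖ ≤ 10 ^ 8 :=
    fun s hs => hM _ ⟨g1, by simpa using hs⟩
  have d1 : ∀ s ∈ ball (0 : ℂ) (1 / 20), ‖deriv (sl F γ) s‖ ≤ 10 ^ 8 / (1 / 25) := fun s hs =>
    cauchy_ball df bd (by norm_num) (by simp only [mem_ball, dist_zero_right] at hs; linarith)
  have sub : ball (0 : ℂ) (1 / 20) ⊆ ball 0 (1 / 11) := ball_subset_ball (by norm_num)
  have ddf : DifferentiableOn ℂ (deriv (sl F γ)) (ball 0 (1 / 20)) :=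
    (df.deriv isOpen_ball).mono sub
  have d2' : ∀ s ∈ ball (0 : ℂ) (1 / 50), ‖deriv (deriv (sl F γ)) s‖ ≤ 10 ^ 12 := fun s hs =>
    (cauchy_ball (ρ := 1 / 40) ddf d1 (by norm_num)
      (by simp only [mem_ball, dist_zero_right] at hs; linarith)).trans (by norm_num)
  have at0 : ∀ s ∈ ball (0 : ℂ) (1 / 11), DifferentiableAt ℂ (sl F γ) s :=
    fun s hs => df.differentiableAt (isOpen_ball.mem_nhds hs)
  have c0 : ‖deriv (sl F γ) 0 - D'‖ ≤ 2 * 10 ^ 8 * dl ^ 2 / 10 ^ 29 / (1 / 25) := by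
    have := cauchy_ball (f := fun s => sl F γ s - sl F 0 s) (z := 0) (ρ := 1 / 25) (df.sub df0)
      (fun s hs => sl_close hF hM hγ (by simpa using hs)) (by norm_num) (by norm_num)
    rwa [deriv_fun_sub (at0 0 (by simp)) hD.differentiableAt, hD.deriv] at this
  refine ⟨df, fun σ hσ => ?_, fun σ hσ => ?_, fun σ hσ => d2' σ ?_⟩
  · have h1 := (convex_ball (0 : ℂ) (1 / 20)).norm_image_sub_le_of_norm_deriv_le
      (fun s hs => at0 s (sub hs)) d1 (x := 0) (y := σ) (by simp)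
      (by simp only [mem_ball, dist_zero_right]; linarith)
    have h2 := sl_close hF hM hγ (σ := 0) (by norm_num)
    have h3 : sl F γ σ - V = (sl F γ σ - sl F γ 0) + (F (γ, 0) - F (0, 0)) + (F (0, 0) - V) := by
      simp only [sl]; ring
    rw [h3, sub_zero] at *
    refine (norm_add₃_le).trans ?_
    linarith
  · have h1 := (convex_ball (0 : ℂ) (1 / 50)).norm_image_sub_le_of_norm_deriv_le
      (f := deriv (sl F γ)) (fun s hs => ddf.differentiableAt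
        (isOpen_ball.mem_nhds (ball_subset_ball (by norm_num) hs))) d2' (x := 0) (y := σ) (by simp)
      (by simp only [mem_ball, dist_zero_right]; linarith)
    have h3 : deriv (sl F γ) σ - D = (deriv (sl F γ) σ - deriv (sl F γ) 0) +
      (deriv (sl F γ) 0 - D') + (D' - D) := by ring
    rw [h3]
    rw [sub_zero] at h1
    refine (norm_add₃_le).trans ?_
    linarith
  · simp only [mem_ball, dist_zero_right]; linarith

end BonN.Bx
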