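import Pool.Agent.Lib.MP_3dbf58_gt.N.BaseB4

open Set Filter Topology MeasureTheory Metric

noncomputable section

namespace BonN.Bx

open Bon3

variable [Cs]

theorem z_mem {σ : ℂ} (h : ‖σ‖ < 1 / 11) : ((0 : ℂ), σ) ∈ DD (1 / 11) := DD_zero h

def A1 : ℂ := b1 * (1 - m1)
def A2 : ℂ := b2 * (1 - m2)
def A3 : ℂ := b3 * (1 - m3)

theorem rel2C : (b1 : ℂ) * m1 + 2 * (b2 * m2) + 3 * (b3 * m3) = -(120 * nu) := by
  exact_mod_cast rel2
theorem rel3C : (b1 : ℂ) + 2 * b2 + 3 * b3 = -(120 * nu + 2) := by exact_mod_cast rel3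
theorem sA : A1 + A2 + A3 = -2 * tt := by
  have h : (b1 : ℂ) * (m1 - 1) + b2 * (m2 - 1) + b3 * (m3 - 1) = 2 * tt := by exact_mod_cast rel1
  unfold A1 A2 A3; linear_combination -h
theorem sB : A1 + 2 * A2 + 3 * A3 = -2 := by
  unfold A1 A2 A3; linear_combination rel3C - rel2C

theorem ntt {z : ℂ} (k : ℝ) (hk : |k| ≤ 10) (e : z = k * tt) : ‖z‖ ≤ dl / 10 ^ 5 := by
  rw [e, norm_mul, Complex.norm_real, Complex.norm_real, Real.norm_of_nonneg tt_pos.le,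
    Real.norm_eq_abs]
  have := mul_le_mul_of_nonneg_right hk tt_pos.le
  linarith [tt_eq, dl_pos]
theorem gam0 : ‖(0 : ℂ)‖ ≤ gam := by simpa using gam_pos.le

section
variable {c et yy : ℂ × ℂ → ℂ} (b : B3 c et yy)
include b

theorem B3.x2 {σ : ℂ} (h : ‖σ‖ < 1 / 11) : c (0, σ) ^ 2 * (1 + σ) = 1 := by
  simpa [bn] using b.toB2.cn (D11 (z_mem h))

theorem B3.xne {σ : ℂ} (h : ‖σ‖ < 1 / 11) : c (0, σ) ≠ 0 := fun e => by
  have := b.x2 h; rw [e] at this; simp at this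

theorem B3.x0 : c (0, 0) = 1 := by
  have h1 := b.x2 (σ := 0) (by simp)
  have h2 := (nrm_c (b.c0 _ (D11 (z_mem (σ := 0) (by simp))))).2.2
  have h3 : (c (0, 0) - 1) * (c (0, 0) + 1) = 0 := by linear_combination h1
  rcases mul_eq_zero.1 h3 with h | h
  · exact sub_eq_zero.1 h
  · have := congrArg Complex.re h
    simp at this; linarith

theorem B3.xd : HasDerivAt (sl c 0) (-(1 / 2)) 0 := by
  have d : HasDerivAt (sl c 0) (deriv (sl c 0) 0) 0 :=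
    ((sl_diff b.hc (γ := 0) (gam_lt gam0)).differentiableAt
      (isOpen_ball.mem_nhds (by simp))).hasDerivAt
  have h1 := (d.fun_pow 2).fun_mul ((hasDerivAt_id (0 : ℂ)).const_add 1)
  have h2 : HasDerivAt (fun σ => sl c 0 σ ^ 2 * (1 + id σ)) 0 0 :=
    (hasDerivAt_const (0 : ℂ) (1 : ℂ)).congr_of_eventuallyEq (by
      filter_upwards [isOpen_ball.mem_nhds (show (0 : ℂ) ∈ ball 0 (1 / 11) by simp)] with σ hσ
      exact b.x2 (by simpa using hσ))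
  have h3 := h1.unique h2
  have e : sl c 0 0 = 1 := b.x0
  simp only [e] at h3
  have : deriv (sl c 0) 0 = -(1 / 2) := by
    simp at h3; linear_combination h3 / 2
  rwa [this] at d

theorem B3.nice {F : ℂ × ℂ → ℂ} {V D γ : ℂ} (a₁ a₂ a₃ : ℂ) (i j k : ℕ) (hF : HC F (DD (1 / 11)))
    (hM : ∀ p ∈ DD (1 / 11), ‖F p‖ ≤ 10 ^ 8) (hγ : ‖γ‖ ≤ gam)
    (e : ∀ σ : ℂ, ‖σ‖ < 1 / 11 → F (0, σ) =
      a₁ * c (0, σ) ^ (i + 1) + a₂ * c (0, σ) ^ (j + 1) + a₃ * c (0, σ) ^ (k + 1))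
    (e1 : ‖-(a₁ * (i + 1) + a₂ * (j + 1) + a₃ * (k + 1)) / 2 - D‖ ≤ dl / 10 ^ 5)
    (e2 : ‖a₁ + a₂ + a₃ - V‖ ≤ dl / 10 ^ 5) : Nice (sl F γ) V D := by
  have d := b.xd
  have x0 : sl c 0 0 = 1 := b.x0
  have h := (((d.fun_pow (i + 1)).const_mul a₁).fun_add ((d.fun_pow (j + 1)).const_mul a₂)).fun_add
    ((d.fun_pow (k + 1)).const_mul a₃)
  refine nice_of hF hM hγ ((h.congr_deriv ?_).congr_of_eventuallyEq ?_) e1 ?_
  · simp only [x0, one_pow]; push_cast; ring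
  · filter_upwards [isOpen_ball.mem_nhds (show (0 : ℂ) ∈ ball 0 (1 / 11) by simp)] with σ hσ
    exact e σ (by simpa using hσ)
  · rw [e 0 (by simp), b.x0]; simpa using e2

theorem B3.v {σ : ℂ} (h : ‖σ‖ < 1 / 11) :
    bT c (0, σ) = c (0, σ) ∧ bH c (0, σ) = c (0, σ) ∧ bz c et (0, σ) = c (0, σ) ∧
    et (0, σ) = b1 * m1 * c (0, σ) ^ 2 + b2 * m2 * c (0, σ) ^ 4 + b3 * m3 * c (0, σ) ^ 6 ∧
    bD c et (0, σ) = A1 * c (0, σ) ^ 2 + A2 * c (0, σ) ^ 4 + A3 * c (0, σ) ^ 6 ∧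
    bG c et (0, σ) = -2 * A1 * c (0, σ) ^ 1 + -2 * A2 * c (0, σ) ^ 3 +
      -2 * A3 * c (0, σ) ^ 5 := by
  have h1 := b.ez σ (h.trans (by norm_num))
  have h0 := b.xne h
  have t : bT c (0, σ) = c (0, σ) := by simp [bT, TT]
  have d : bD c et (0, σ) = A1 * c (0, σ) ^ 2 + A2 * c (0, σ) ^ 4 + A3 * c (0, σ) ^ 6 := by
    simp only [bD, h1, ph_C, hh1_C, A1, A2, A3]; ring
  refine ⟨t, by simp [bH, HH, TT], by simp [bz, bH, HH, TT], by rw [h1, hh1_C]; ring, d, ?_⟩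
  simp only [bG, t, d, zero_mul, add_zero]
  field_simp; ring

theorem B3.vY {σ : ℂ} (h : ‖σ‖ < 1 / 11) : bY c et yy (0, σ) =
    4 * A1 * c (0, σ) ^ 1 + 4 * A2 * c (0, σ) ^ 3 + 4 * A3 * c (0, σ) ^ 5 := by
  have y1 : yy (0, σ) = 1 := by simpa using b.yY (z_mem h)
  have e1 : bs yy (0, σ) = (0, σ) := by simp [bs, y1]
  have e2 : ng ((0 : ℂ), σ) = (0, σ) := by simp [ng]
  simp only [bY, e1, e2, (b.v h).2.2.2.2.2, bn, zero_mul, add_zero, div_one]; ring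

theorem B3.vZ {σ : ℂ} (h : ‖σ‖ < 1 / 11) : bZ c et (0, σ) =
    2 * c (0, σ) ^ 2 * bD c et (0, σ) - 2 * c (0, σ) * rr (c (0, σ)) := by
  have e2 : ng ((0 : ℂ), σ) = (0, σ) := by simp [ng]
  have h0 := b.xne h
  have h2 := b.x2 h
  have t := (b.v h).1
  have h3 : c (0, σ) + c (0, σ) ≠ 0 := by rw [← two_mul]; exact mul_ne_zero two_ne_zero h0
  simp only [bZ, e2, bG, t, zero_mul, add_zero]
  field_simp
  linear_combination (-4 * bD c et (0, σ)) * h2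

theorem B3.vF {σ : ℂ} (h : ‖σ‖ < 1 / 11) : bF c et (0, σ) = 2 * c (0, σ) ^ 2 * bD c et (0, σ) := by
  have e2 : ng ((0 : ℂ), σ) = (0, σ) := by simp [ng]
  simp only [bF, b.vZ h, br, e2, (b.v h).2.2.1, zero_mul, sub_zero, div_one]; ring

theorem B3.vF3 {σ : ℂ} (h : ‖σ‖ < 1 / 11) : bF3 c et yy (0, σ) = 0 := by
  simp only [bF3, b.vF h, b.vY h, (b.v h).2.2.2.2.1]; ring

variable {γ : ℂ} (hγ : ‖γ‖ ≤ gam)
include hγ

theorem B3.nc : Nice (sl c γ) 1 (-(1 / 2)) :=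
  b.nice 1 0 0 0 0 0 (b.hc.mono fun _ => D11)
    (fun p hp => (nrm_c (b.c0 _ (D11 hp))).2.1.trans (by norm_num)) hγ (fun _ _ => by simp)
    (ntt 0 (by norm_num) (by norm_num)) (ntt 0 (by norm_num) (by norm_num))
theorem B3.nT : Nice (sl (bT c) γ) 1 (-(1 / 2)) :=
  b.nice 1 0 0 0 0 0 (b.toB2.hT.mono fun _ => D11)
    (fun p hp => (b.toB2.T (D11 hp)).2.trans (by norm_num)) hγ (fun _ h => by simp [(b.v h).1])
    (ntt 0 (by norm_num) (by norm_num)) (ntt 0 (by norm_num) (by norm_num))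
theorem B3.nz : Nice (sl (bz c et) γ) 1 (-(1 / 2)) :=
  b.nice 1 0 0 0 0 0 (b.toB2.hz.mono fun _ => D11)
    (fun p hp => (b.toB2.z (D11 hp)).trans (by norm_num)) hγ (fun _ h => by simp [(b.v h).2.2.1])
    (ntt 0 (by norm_num) (by norm_num)) (ntt 0 (by norm_num) (by norm_num))
theorem B3.nH : Nice (sl (bH c) γ) 1 (-(1 / 2)) :=
  b.nice 1 0 0 0 0 0 (b.toB2.hH.mono fun _ => D11)
    (fun p hp => by
      have h1 := b.toB2.z (D11 hp)
      have h2 := b.e0 _ (D11 hp)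
      have h3 := DD_sm hp
      have e : bH c p = bz c et p - p.1 * et p := by simp [bz]
      rw [e]
      refine (norm_sub_le _ _).trans ?_
      rw [norm_mul]; nlinarith [norm_nonneg p.1, norm_nonneg (et p)])
    hγ (fun _ h => by simp [(b.v h).2.1])
    (ntt 0 (by norm_num) (by norm_num)) (ntt 0 (by norm_num) (by norm_num))
theorem B3.ne : Nice (sl et γ) (hh1 1) (120 * nu) :=
  b.nice _ _ _ 1 3 5 (b.he.mono fun _ => D11)
    (fun p hp => (b.e0 _ (D11 hp)).trans (by norm_num)) hγ (fun _ h => (b.v h).2.2.2.1)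
    (ntt 0 (by norm_num) (by push_cast; linear_combination -rel2C))
    (ntt 0 (by norm_num) (by rw [hh1_C]; push_cast; ring))
theorem B3.nG : Nice (sl (bG c et) γ) 0 (-4) :=
  b.nice _ _ _ 0 2 4 (b.toB2.hG.mono fun _ => D11)
    (fun p hp => (b.toB2.G (D11 hp)).trans (by norm_num)) hγ (fun _ h => (b.v h).2.2.2.2.2)
    (ntt 2 (by norm_num) (by push_cast; linear_combination 2 * sB - sA))
    (ntt 4 (by norm_num) (by push_cast; linear_combination -2 * sA))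
theorem B3.nY : Nice (sl (bY c et yy) γ) 0 8 :=
  b.nice _ _ _ 0 2 4 b.hY (fun p hp => (b.Y hp).trans (by norm_num)) hγ (fun _ h => b.vY h)
    (ntt (-4) (by norm_num) (by push_cast; linear_combination 2 * sA - 4 * sB))
    (ntt (-8) (by norm_num) (by push_cast; linear_combination 4 * sA))
theorem B3.nr : Nice (sl (br c) γ) (2 * rr 1) (240 * nu + 4) :=
  b.nice (4 / 3 * b1) (8 / 5 * b2) (12 / 7 * b3) 2 4 6 (b.hr.mono fun _ => D11)
    (fun p hp => (b.r (D11 hp)).trans (by norm_num)) hγ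
    (fun _ h => by simp only [br, ng, neg_zero, zero_mul, sub_zero, div_one, rr_C]; ring)
    (ntt 0 (by norm_num) (by push_cast; linear_combination -2 * rel3C))
    (ntt 0 (by norm_num) (by rw [rr_C]; push_cast; ring))
theorem B3.nZ : Nice (sl (bZ c et) γ) (-2 * rr 1) (rr 1 - 240 * nu) :=
  b.nice (2 * A1 - 4 / 3 * b1) (2 * A2 - 8 / 5 * b2) (2 * A3 - 12 / 7 * b3) 3 5 7
    (b.hZ.mono fun _ => D11) (fun p hp => (b.Z (D11 hp)).trans (by norm_num)) hγ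
    (fun _ h => by rw [b.vZ h, (b.v h).2.2.2.2.1, rr_C]; ring)
    (ntt 4 (by norm_num) (by
      rw [rr_C]; push_cast; linear_combination 2 * rel3C - 2 * sA - 2 * sB))
    (ntt (-4) (by norm_num) (by rw [rr_C]; push_cast; linear_combination 2 * sA))
theorem B3.nF : Nice (sl (bF c et) γ) 0 4 :=
  b.nice (2 * A1) (2 * A2) (2 * A3) 3 5 7 (b.hF.mono fun _ => D11)
    (fun p hp => (b.F (D11 hp)).trans (by norm_num)) hγ
    (fun _ h => by rw [b.vF h, (b.v h).2.2.2.2.1]; ring)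
    (ntt 4 (by norm_num) (by push_cast; linear_combination -2 * sA - 2 * sB))
    (ntt (-4) (by norm_num) (by push_cast; linear_combination 2 * sA))

end

end BonN.Bx
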