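import Pool.Agent.Lib.MP_3dbf58_gt.N.BaseB5

open Set Filter Topology MeasureTheory Metric

noncomputable section

namespace BonN.Bx

open Bon3

variable [Cs]

theorem dl_lt : dl / 10 ^ 13 < 1 / 11 := by linarith [dl_le]

section
variable {f : ℂ → ℂ} {V D : ℂ} (h : Nice f V D)
include h

theorem Nice.at {σ : ℂ} (hσ : ‖σ‖ < 1 / 11) : HasDerivAt f (deriv f σ) σ :=
  (h.df.differentiableAt (isOpen_ball.mem_nhds (by simpa using hσ))).hasDerivAt
theorem Nice.at2 {σ : ℂ} (hσ : ‖σ‖ < 1 / 11) : HasDerivAt (deriv f) (deriv (deriv f) σ) σ :=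
  ((h.df.deriv isOpen_ball).differentiableAt
    (isOpen_ball.mem_nhds (by simpa using hσ))).hasDerivAt

theorem Nice.mv0 {σ σ' E : ℂ} {M : ℝ} (h1 : ‖σ‖ ≤ dl / 10 ^ 13) (h2 : ‖σ'‖ ≤ dl / 10 ^ 13)
    (hE : ∀ s ∈ segment ℝ σ' σ, ‖deriv f s - E‖ ≤ M) :
    ‖f σ - f σ' - E * (σ - σ')‖ ≤ M * ‖σ - σ'‖ := by
  have sub : segment ℝ σ' σ ⊆ closedBall 0 (dl / 10 ^ 13) :=
    (convex_closedBall _ _).segment_subset (by simpa using h2) (by simpa using h1)
  have := (convex_segment σ' σ).norm_image_sub_le_of_norm_hasDerivWithin_le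
    (f := fun s => f s - E * s) (f' := fun s => deriv f s - E) (C := M)
    (fun s hs => ((h.at (lt_of_le_of_lt (by simpa using sub hs) dl_lt)).fun_sub
      (by simpa using (hasDerivAt_id s).const_mul E)).hasDerivWithinAt) hE
    (left_mem_segment _ _ _) (right_mem_segment _ _ _)
  calc _ = ‖f σ - E * σ - (f σ' - E * σ')‖ := by congr 1; ring
    _ ≤ _ := this

theorem Nice.mv {σ σ' : ℂ} (h1 : ‖σ‖ ≤ dl / 10 ^ 13) (h2 : ‖σ'‖ ≤ dl / 10 ^ 13) :
    ‖f σ - f σ' - D * (σ - σ')‖ ≤ dl * ‖σ - σ'‖ :=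
  h.mv0 h1 h2 fun s hs => h.d s (mem_closedBall_zero_iff.1
    ((convex_closedBall (0 : ℂ) (dl / 10 ^ 13)).segment_subset (mem_closedBall_zero_iff.2 h2)
      (mem_closedBall_zero_iff.2 h1) hs))

theorem Nice.mv2 {σ σ' : ℂ} (h1 : ‖σ‖ ≤ dl / 10 ^ 13) (h2 : ‖σ'‖ ≤ dl / 10 ^ 13) :
    ‖f σ - f σ' - deriv f σ' * (σ - σ')‖ ≤ 10 ^ 12 * ‖σ - σ'‖ * ‖σ - σ'‖ :=
  h.mv0 h1 h2 fun s hs => by
    have m : s ∈ closedBall (0 : ℂ) (dl / 10 ^ 13) :=
      (convex_closedBall _ _).segment_subset (by simpa using h2) (by simpa using h1) hs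
    have := (convex_closedBall (0 : ℂ) (dl / 10 ^ 13)).norm_image_sub_le_of_norm_deriv_le
      (f := deriv f) (C := 10 ^ 12)
      (fun s hs => (h.at2 (lt_of_le_of_lt (by simpa using hs) dl_lt)).differentiableAt) (fun s hs => h.dd s (by simpa using hs))
      (x := σ') (y := s) (by simpa using h2) m
    refine this.trans (mul_le_mul_of_nonneg_left ?_ (by norm_num))
    have := (convex_closedBall σ' ‖σ - σ'‖).segment_subset (x := σ') (y := σ) (by simp)
      (by simp [dist_eq_norm]) hs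
    simpa [dist_eq_norm] using this
end

theorem gam_le : ‖(gam : ℂ)‖ ≤ gam := by
  rw [Complex.norm_real, Real.norm_of_nonneg gam_pos.le]

theorem g_mem {γ σ : ℂ} {r : ℝ} (hγ : ‖γ‖ ≤ gam) (h : ‖σ‖ < r) : (γ, σ) ∈ DD r :=
  ⟨gam_lt hγ, h⟩

section
variable {c et yy : ℂ × ℂ → ℂ} (b : B3 c et yy)
include b

theorem B3.touch : ∃ q : ℝ, tt / 2 ≤ q ∧ q ≤ 2 * tt ∧ bY c et yy (gam, q) = 0 := by
  have n := b.nY gam_le
  have t0 := tt_pos
  have t1 := tt_le
  have t2 := tt_eq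
  have v0 : bY c et yy (0, 0) = ((-8 * tt : ℝ) : ℂ) := by
    rw [b.vY (by simp), b.x0]; push_cast; linear_combination 4 * sA
  have c0 := sl_close b.hY (fun p hp => b.Y hp) gam_le (σ := 0) (by norm_num)
  rw [v0] at c0
  have key : ∀ s : ℝ, 0 ≤ s → s ≤ 10 * tt →
      |(bY c et yy (gam, s)).re - (8 * s - 8 * tt)| ≤ tt / 10 ^ 10 := by
    intro s s0 s1
    have hs : ‖(s : ℂ)‖ = s := by simp [abs_of_nonneg s0]
    have h1 := n.mv (σ := s) (σ' := 0) (by rw [hs]; linarith)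
      (by rw [norm_zero]; linarith)
    simp only [sl, sub_zero, hs] at h1
    have h2 := (norm_add_le _ _).trans (add_le_add h1 c0)
    have h3 := (Complex.abs_re_le_norm _).trans h2
    simp only [Complex.add_re, Complex.sub_re, Complex.mul_re, Complex.re_ofNat, Complex.ofReal_re,
      Complex.im_ofNat, Complex.ofReal_im, mul_zero, sub_zero] at h3
    have h4 := mul_le_mul dl_le s1 s0 (by norm_num)
    calc _ = |(bY c et yy (gam, s)).re - (bY c et yy (gam, 0)).re - 8 * s +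
        ((bY c et yy (gam, 0)).re - -8 * tt)| := by congr 1; ring
      _ ≤ _ := h3.trans (by linarith [dl_sq_le])
  have ct : ContinuousOn (fun s : ℝ => (bY c et yy (gam, s)).re) (Icc (tt / 2) (2 * tt)) := by
    refine Complex.continuous_re.comp_continuousOn (n.df.continuousOn.comp
      Complex.continuous_ofReal.continuousOn fun s hs => ?_)
    simp only [mem_ball, dist_zero_right, Complex.norm_real, Real.norm_eq_abs, abs_lt]
    constructor <;> linarith [hs.1, hs.2]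
  have k1 := abs_le.1 (key (tt / 2) (by linarith) (by linarith))
  have k2 := abs_le.1 (key (2 * tt) (by linarith) (by linarith))
  obtain ⟨q, hq, h0⟩ := intermediate_value_Icc (by linarith) ct
    (show (0 : ℝ) ∈ Icc _ _ from ⟨by linarith [k1.2], by linarith [k2.1]⟩)
  refine ⟨q, hq.1, hq.2, Complex.ext h0 (b.imY (g_mem gam_le ?_) (by simp) (by simp))⟩
  simp only [Complex.norm_real, Real.norm_eq_abs, abs_lt]
  constructor <;> linarith [hq.1, hq.2]

/-- the chord end moves towards the equator when the plane gets steeper -/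
theorem B3.mono {γ q σ : ℝ} (hγ' : ‖(γ : ℂ)‖ ≤ gam) (q0 : 0 ≤ q) (h1 : q ≤ σ)
    (h2 : σ ≤ 1 / 20) : (c (γ, σ)).re ≤ (c (γ, q)).re ∧ (0 < q → (c (γ, q)).re < 1) := by
  have hγ := hγ'.trans gam_small
  have g1 := gam_lt hγ'
  have dG := sl_diff b.toB2.hG g1
  have bG' : ∀ s ∈ ball (0 : ℂ) (1 / 10), ‖sl (bG c et) γ s‖ ≤ 10 ^ 7 :=
    fun s hs => b.toB2.G ⟨g1, by simpa using hs⟩
  have mv := (convex_closedBall (0 : ℂ) (1 / 20)).norm_image_sub_le_of_norm_hasDerivWithin_le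
    (f := fun s => s * (γ * sl (bG c et) γ s))
    (f' := fun s => 1 * (γ * sl (bG c et) γ s) + s * (γ * deriv (sl (bG c et) γ) s)) (C := 1 / 2)
    (fun s hs => ((hasDerivAt_id s).fun_mul (((dG.differentiableAt (isOpen_ball.mem_nhds
      (closedBall_subset_ball (by norm_num) hs))).hasDerivAt).const_mul _)).hasDerivWithinAt)
    (fun s hs => by
      have s1 : ‖s‖ ≤ 1 / 20 := by simpa using hs
      have a1 := bG' s (closedBall_subset_ball (by norm_num) hs)
      have a2 := cauchy_ball (ρ := 1 / 25) (z := s) dG bG' (by norm_num) (by linarith)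
      refine (norm_add_le _ _).trans ?_
      simp only [norm_mul, one_mul]
      have : ‖(γ : ℂ)‖ * ‖sl (bG c et) γ s‖ ≤ 1 / 10 ^ 80 * 10 ^ 7 := by gcongr
      have : ‖s‖ * (‖(γ : ℂ)‖ * ‖deriv (sl (bG c et) γ) s‖) ≤
        1 / 20 * (1 / 10 ^ 80 * (10 ^ 7 / (1 / 25))) := by gcongr
      linarith)
    (x := q) (y := σ) (by simp [abs_le]; constructor <;> linarith)
    (by simp [abs_le]; constructor <;> linarith)
  have mq : ((γ : ℂ), (q : ℂ)) ∈ DD (1 / 10) := ⟨g1, by simp [abs_lt]; constructor <;> linarith⟩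
  have ms : ((γ : ℂ), (σ : ℂ)) ∈ DD (1 / 10) := ⟨g1, by simp [abs_lt]; constructor <;> linarith⟩
  have iq := b.toB2.im mq (by simp) (by simp)
  have is := b.toB2.im ms (by simp) (by simp)
  have cq := congrArg Complex.re (b.toB2.cn mq)
  have cs := congrArg Complex.re (b.toB2.cn ms)
  have pq := (nrm_c (b.c0 _ mq)).2.2
  have ps := (nrm_c (b.c0 _ ms)).2.2
  have nq := (abs_le.1 ((Complex.abs_re_le_norm _).trans (b.toB2.n mq))).1
  have m2 := (abs_le.1 ((Complex.abs_re_le_norm _).trans mv)).1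
  rw [← Complex.ofReal_sub, Complex.norm_real, Real.norm_of_nonneg (by linarith)] at m2
  simp [bn, sl, pow_two, iq.1, is.1, iq.2.2.2.2.2.2.1, is.2.2.2.2.2.2.1] at cq cs nq m2
  set x := (c (γ, q)).re
  set y := (c (γ, σ)).re
  set A := γ * (bG c et (γ, q)).re
  set B := γ * (bG c et (γ, σ)).re
  have hA : 0 < 1 + A := by linarith
  have u1 : q * (1 + A) ≤ σ * (1 + B) := by nlinarith
  have u0 : 0 ≤ q * (1 + A) := by positivity
  constructor
  · by_contra hlt
    push Not at hlt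
    have : x * x < y * y := by nlinarith
    nlinarith
  · intro q1
    by_contra hlt
    push Not at hlt
    have : 0 < q * (1 + A) := by positivity
    have : 1 ≤ x * x := by nlinarith
    nlinarith

end

end BonN.Bx
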