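import Pool.Agent.Lib.MP_3dbf58_gt.N.BaseB7

open Set Filter Topology MeasureTheory Metric

noncomputable section

namespace BonN.Bx

open Bon3

variable [Cs]

theorem rr1_le : ‖(rr 1 : ℂ)‖ ≤ 2400 := by
  have e : (rr 1 : ℂ) = ((2 / 3 * b1 + 4 / 5 * b2 + 6 / 7 * b3 : ℝ) : ℂ) := by
    rw [rr_C]; push_cast; ring
  have h1 := abs_le.1 b1_le
  have h2 := abs_le.1 b2_le
  have h3 := abs_le.1 b3_le
  rw [e, Complex.norm_real, Real.norm_eq_abs, abs_le]
  constructor <;> linarith [h1.1, h1.2, h2.1, h2.2, h3.1, h3.2]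

section
variable {c et yy : ℂ × ℂ → ℂ} (b : B3 c et yy) {q : ℝ} (q0 : 0 < q) (q1 : q ≤ 2 * tt) {ξ : ℂ}
include b q0 q1

omit b in
theorem nq : ‖(gam : ℂ) * q‖ = gam * q := by
  rw [← Complex.ofReal_mul, Complex.norm_real, Real.norm_of_nonneg (mul_pos gam_pos q0).le]

theorem B3.h1 (h : ξ ∈ ball (0 : ℂ) 2) :
    ‖deriv (fun ζ => gam * et (gam, sq q ζ)) ξ + nu * ((120 * gam * q : ℝ) : ℂ)‖ ≤
      100 * dl * (120 * gam * q) := by
  have d := (((b.ne gam_le).cd q0 q1 h).const_mul (gam : ℂ)).deriv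
  simp only [sl] at d
  have a := (b.ne gam_le).d _ (sq_le q0 q1 h)
  have := mul_pos gam_pos q0
  rw [d]
  calc _ = ‖-(gam * q) * (deriv (sl et gam) (sq q ξ) - 120 * nu)‖ := by congr 1; push_cast; ring
    _ ≤ gam * q * dl := by rw [norm_mul, norm_neg, nq q0 q1]; gcongr
    _ ≤ _ := by linarith [mul_pos this dl_pos]

theorem B3.h2 (h : ξ ∈ ball (0 : ℂ) 2) :
    ‖deriv (deriv (fun ζ => gam * et (gam, sq q ζ))) ξ‖ ≤ 100 * dl * (120 * gam * q) := by
  have n := b.ne gam_le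
  have d : HasDerivAt (deriv (fun ζ => gam * et (gam, sq q ζ)))
      (gam * (-q * (deriv (deriv (sl et gam)) (sq q ξ) * -q))) ξ := by
    refine ((((n.at2 (sq_lt q0 q1 h)).comp ξ (sq_d ξ)).const_mul (-q : ℂ)).const_mul
      (gam : ℂ)).congr_of_eventuallyEq ?_
    filter_upwards [isOpen_ball.mem_nhds h] with ζ hζ
    exact ((n.cd q0 q1 hζ).const_mul (gam : ℂ)).deriv
  have a := n.dd _ (sq_le q0 q1 h)
  have := mul_pos gam_pos q0
  rw [d.deriv]
  calc _ = ‖(gam * q) * (q * deriv (deriv (sl et gam)) (sq q ξ))‖ := by congr 1; ring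
    _ ≤ gam * q * (2 * tt * 10 ^ 12) := by
      rw [norm_mul, nq q0 q1, norm_mul, Complex.norm_real, Real.norm_of_nonneg q0.le]
      have : 0 ≤ 2 * tt := by linarith
      gcongr
    _ ≤ _ := by rw [tt_eq]; linarith [mul_pos this dl_pos]

omit b in
theorem q_le : ‖(q : ℂ)‖ ≤ dl / 10 ^ 13 := by 
  have := sq_le q0 q1 (ξ := 0) (by simp)
  rwa [sq, sub_zero, mul_one] at this

theorem B3.Yim : (deriv (sl (bY c et yy) gam) q).im = 0 := by
  have h := (q_le q0 q1).trans_lt dl_lt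
  refine im_deriv ((b.nY gam_le).at h) ?_
  have : ∀ᶠ t : ℝ in 𝓝 q, ‖(t : ℂ)‖ < 1 / 11 :=
    (Complex.continuous_ofReal.norm.tendsto q).eventually (gt_mem_nhds h)
  exact this.mono fun t ht => b.imY (g_mem gam_le ht) (by simp) (by simp)

theorem B3.mu : |q * gam * (deriv (sl (bY c et yy) gam) q).re - 2 * kap * (120 * gam * q)| ≤
    th0 * (120 * gam * q) := by
  have a := abs_le.1 (((Complex.abs_re_le_norm _).trans ((b.nY gam_le).d _ (q_le q0 q1))).trans
    dl_le_th0)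
  simp only [Complex.sub_re, Complex.re_ofNat] at a
  have := mul_pos gam_pos q0
  have a1 := mul_le_mul_of_nonneg_left a.1 this.le
  have a2 := mul_le_mul_of_nonneg_left a.2 this.le
  have a3 := mul_pos this th0_pos
  rw [kap_eq, abs_le]; constructor <;> linarith

theorem B3.U0 (t : bY c et yy (gam, q) = 0) (h : ξ ∈ ball (0 : ℂ) 2) :
    ‖1 - (1 - ξ) * yy (gam, sq q ξ) - ξ -
      ((q * gam * (deriv (sl (bY c et yy) gam) q).re : ℝ) : ℂ) * ξ * (1 - ξ)‖ ≤
      100 * dl * (120 * gam * q) * ‖ξ‖ ^ 2 := by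
  have a := (b.nY gam_le).mv2 (sq_le q0 q1 h) (q_le q0 q1)
  have e : ((deriv (sl (bY c et yy) gam) q).re : ℂ) = deriv (sl (bY c et yy) gam) q :=
    Complex.ext (by simp) (by simp [b.Yim q0 q1])
  have e2 : sq q ξ - q = -(q * ξ) := by simp only [sq]; ring
  have a3 := one_sub_le h
  have := mul_pos gam_pos q0
  rw [e2, norm_neg, norm_mul, Complex.norm_real, Real.norm_of_nonneg q0.le] at a
  rw [b.yY (b.m q0 q1 gam_le h)]
  push_cast
  rw [e]
  calc _ = ‖-((1 - ξ) * (gam * (sl (bY c et yy) gam (sq q ξ) - sl (bY c et yy) gam q -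
        deriv (sl (bY c et yy) gam) q * -(q * ξ))))‖ := by congr 1; simp only [sl, t]; ring
    _ ≤ 3 * (gam * (10 ^ 12 * (q * ‖ξ‖) * (q * ‖ξ‖))) := by
      rw [norm_neg, norm_mul, norm_mul, Complex.norm_real, Real.norm_of_nonneg gam_pos.le]
      have := gam_pos
      gcongr
    _ = gam * q * ‖ξ‖ ^ 2 * (3 * 10 ^ 12 * q) := by ring
    _ ≤ gam * q * ‖ξ‖ ^ 2 * (3 * 10 ^ 12 * (2 * tt)) := by gcongr
    _ ≤ _ := by
      rw [tt_eq]; linarith [mul_nonneg (mul_nonneg this.le (sq_nonneg ‖ξ‖)) dl_pos.le]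

theorem B3.eρ (h : ξ ∈ ball (0 : ℂ) 2) :
    (1 + gam * rr (c (ng (gam, sq q ξ)))) / (1 - gam * rr (c (ng (gam, sq q ξ)))) =
      1 + gam * br c (gam, sq q ξ) := by
  have := b.rne (D11 (b.m q0 q1 gam_le h))
  simp only [br] at this ⊢
  field_simp; ring

theorem B3.dρ (h : ξ ∈ ball (0 : ℂ) 2) : HasDerivAt
    (fun ζ => (1 + gam * rr (c (ng (gam, sq q ζ)))) / (1 - gam * rr (c (ng (gam, sq q ζ)))))
    (gam * (-q * deriv (sl (br c) gam) (sq q ξ))) ξ := by
  refine ((((b.nr gam_le).cd q0 q1 h).const_mul (gam : ℂ)).const_add 1).congr_of_eventuallyEq ?_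
  filter_upwards [isOpen_ball.mem_nhds h] with ζ hζ using b.eρ q0 q1 hζ

theorem B3.ρ1 (h : ξ ∈ ball (0 : ℂ) 2) : ‖gam * (-q * deriv (sl (br c) gam) (sq q ξ)) +
    (2 * nu + kap) * ((120 * gam * q : ℝ) : ℂ)‖ ≤ 100 * dl * (120 * gam * q) := by
  have a := (b.nr gam_le).d _ (sq_le q0 q1 h)
  have := mul_pos gam_pos q0
  calc _ = ‖-(gam * q) * (deriv (sl (br c) gam) (sq q ξ) - (240 * nu + 4))‖ := by
        congr 1; unfold kap; push_cast; ring
    _ ≤ gam * q * dl := by rw [norm_mul, norm_neg, nq q0 q1]; gcongr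
    _ ≤ _ := by linarith [mul_pos this dl_pos]

theorem B3.f1 (q2 : tt / 2 ≤ q) (t : bY c et yy (gam, q) = 0) (h : ξ ∈ ball (0 : ℂ) 2) :
    ‖(1 + gam * br c (gam, sq q ξ)) * bz c et (ng (gam, sq q ξ)) - bz c et (gam, sq q ξ) *
      (1 - kap * ((120 * gam * q : ℝ) : ℂ) * ξ)‖ ≤ 100 * dl * (120 * gam * q) := by
  have a := (b.nF gam_le).mv (sq_le q0 q1 h) (q_le q0 q1)
  have e2 : sq q ξ - q = -(q * ξ) := by simp only [sq]; ring
  have x2 : ‖ξ‖ ≤ 2 := by simpa using (mem_ball_zero_iff.1 h).le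
  rw [e2, norm_neg, norm_mul, Complex.norm_real, Real.norm_of_nonneg q0.le] at a
  have lq := (q_le q0 q1).trans_lt dl_lt
  have a2 := sl_close b.hF3 (fun p hp => b.F3 hp) gam_le lq
  rw [b.vF3 lq, sub_zero, bF3, t, mul_zero, sub_zero] at a2
  have a3 := (b.nz gam_le).v _ (sq_le q0 q1 h)
  have z := b.zZ (D11 (b.m q0 q1 gam_le h))
  have g := gam_pos
  have l0 := dl_pos
  calc _ = ‖gam * ((sl (bF c et) gam (sq q ξ) - sl (bF c et) gam q - 4 * -(q * ξ)) +
        bF c et (gam, q) + 4 * (q * ξ) * (sl (bz c et) gam (sq q ξ) - 1))‖ := by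
        congr 1; simp only [sl, bF] at z ⊢; unfold kap; push_cast
        linear_combination z
    _ ≤ gam * (dl * (q * 2) + 2 * 10 ^ 8 * dl ^ 2 / 10 ^ 29 + 4 * (q * 2) * dl) := by
      rw [norm_mul, Complex.norm_real, Real.norm_of_nonneg g.le]
      refine mul_le_mul_of_nonneg_left (norm_add₃_le.trans (add_le_add (add_le_add (a.trans
        (by gcongr)) a2) ?_)) g.le
      rw [norm_mul, norm_mul, norm_mul, Complex.norm_real, Real.norm_of_nonneg q0.le]
      simp only [Complex.norm_ofNat]; gcongr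
    _ ≤ gam * (100 * dl * (120 * q)) := by
      refine mul_le_mul_of_nonneg_left ?_ g.le
      have := mul_le_mul_of_nonneg_left q2 l0.le
      rw [tt_eq] at this
      linarith [mul_pos l0 q0, sq_nonneg dl]
    _ = _ := by ring

theorem B3.f2 (h : ξ ∈ ball (0 : ℂ) 2) :
    ‖deriv (fun ζ => bz c et (ng (gam, sq q ζ))) ξ * bz c et (gam, sq q ξ) -
      deriv (fun ζ => bz c et (gam, sq q ζ)) ξ * bz c et (ng (gam, sq q ξ)) -
      2 * nu * ((120 * gam * q : ℝ) : ℂ)‖ ≤ 100 * dl * (120 * gam * q) := by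
  have d1 := (b.nz gam_le).cd q0 q1 h
  have d2 := (d1.fun_add (((b.nZ gam_le).cd q0 q1 h).const_mul (gam : ℂ))).congr_of_eventuallyEq
    (f₁ := fun ζ => bz c et (ng (gam, sq q ζ))) (by
      filter_upwards [isOpen_ball.mem_nhds h] with ζ hζ using b.zZ (D11 (b.m q0 q1 gam_le hζ)))
  have s := sq_le q0 q1 h
  have a1 := (b.nZ gam_le).d _ s
  have a2 := (b.nz gam_le).v _ s
  have a3 := (b.nz gam_le).d _ s
  have a4 := (b.nZ gam_le).v _ s
  have d1' := d1.deriv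
  simp only [sl] at d1' a2 a4
  rw [d2.deriv, d1', b.zZ (D11 (b.m q0 q1 gam_le h))]
  generalize deriv (sl (bZ c et) gam) (sq q ξ) = Z' at *
  generalize deriv (sl (bz c et) gam) (sq q ξ) = z' at *
  generalize bz c et (gam, sq q ξ) = z at *
  generalize bZ c et (gam, sq q ξ) = Z at *
  have := mul_pos gam_pos q0
  have r := rr1_le
  generalize (rr 1 : ℂ) = R at *
  have l0 := dl_pos
  have n0 : ‖(240 * nu : ℂ)‖ ≤ 12 := by
    rw [norm_mul, Complex.norm_real, Real.norm_of_nonneg nu_pos.le]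
    simp only [Complex.norm_ofNat]; linarith [nu_le]
  have n1 : ‖R - 240 * nu‖ ≤ 2412 := (norm_sub_le _ _).trans (by linarith)
  have n2 : ‖-2 * R‖ ≤ 4800 := by
    rw [norm_mul, norm_neg]; simp only [Complex.norm_ofNat]; linarith
  have n3 : ‖(1 / 2 : ℂ)‖ ≤ 1 := by norm_num
  calc _ = ‖-(gam * q) * ((Z' - (R - 240 * nu)) + (Z' - (R - 240 * nu)) * (z - 1) +
        (R - 240 * nu) * (z - 1) + (-((z' - -(1 / 2)) * (Z - -2 * R)) +
        -((z' - -(1 / 2)) * (-2 * R)) + 1 / 2 * (Z - -2 * R)))‖ := by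
        congr 1; push_cast; ring
    _ ≤ gam * q * (dl + dl * dl + 2412 * dl + (dl * dl + dl * 4800 + 1 * dl)) := by
      rw [norm_mul, norm_neg, nq q0 q1]
      refine mul_le_mul_of_nonneg_left ((norm_add_le _ _).trans (add_le_add
        (norm_add₃_le.trans ?_) (norm_add₃_le.trans ?_))) this.le
      · simp only [norm_mul (_ - _) (_ - _)]; gcongr
      · rw [norm_neg, norm_neg, norm_mul, norm_mul, norm_mul (1 / 2 : ℂ)]; gcongr
    _ ≤ gam * q * (12000 * dl) :=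
      mul_le_mul_of_nonneg_left (by linarith [dl_sq_le]) this.le
    _ = _ := by ring

end

end BonN.Bx
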