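import Pool.Agent.Lib.MP_3dbf58_gt.N.BaseK

/-! The real profile of the base body: envelope of its tangent lines. -/

open Set Filter Topology MeasureTheory Metric

noncomputable section

namespace BonN.BC

open Bon3

variable [Cs]

theorem ph_le {c : ℝ} (hc : |c| ≤ 1) : |ph c| ≤ 10 ^ 5 := (ph_leR hc).1.trans (by norm_num)
theorem rr_le {c : ℝ} (hc : |c| ≤ 1) : |rr c| ≤ 10 ^ 5 := (ph_leR hc).2.2.trans (by norm_num)
theorem ph'_le {c : ℝ} (hc : |c| ≤ 1) : |ph' c| ≤ 10 ^ 5 := (ph_leR hc).2.1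

theorem a1 : |gam| ≤ gam := (abs_of_pos gam_pos).le
theorem a2 : |-gam| ≤ gam := by rw [abs_neg]; exact a1
theorem sm {γ : ℝ} (h : |γ| ≤ gam) : |γ| ≤ 1 / 10 ^ 20 := h.trans (gam_small.trans (by norm_num))
theorem g1 : |gam| ≤ 1 / 10 ^ 20 := sm a1
theorem g2 : |-gam| ≤ 1 / 10 ^ 20 := sm a2

omit [Cs] in
theorem small {γ t : ℝ} (hg : |γ| ≤ 1 / 10 ^ 20) (ht : |t| ≤ 10 ^ 5) : |γ * t| ≤ 1 / 10 ^ 15 := by
  rw [abs_mul]
  calc |γ| * |t| ≤ 1 / 10 ^ 20 * 10 ^ 5 := mul_le_mul hg ht (abs_nonneg _) (by norm_num)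
    _ = 1 / 10 ^ 15 := by norm_num

omit [Cs] in
theorem mul_le1 {c t e : ℝ} (hc : |c| ≤ 1) (ht : |t| ≤ e) : |c * t| ≤ e := by
  rw [abs_mul]
  exact (mul_le_of_le_one_left (abs_nonneg _) hc).trans ht

section
variable {γ c : ℝ} (hg : |γ| ≤ 1 / 10 ^ 20) (hc : |c| ≤ 1)
include hg hc

theorem TT_near : |TT γ c - c| ≤ 1 / 10 ^ 15 := by
  have e : TT γ c - c = c * (γ * rr c) := by unfold TT; ring
  rw [e]; exact mul_le1 hc (small hg (rr_le hc))
theorem HH_near : |HH γ c - c| ≤ 2 / 10 ^ 15 := by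
  have h1 := abs_le.1 (TT_near hg hc)
  have h2 := abs_le.1 (small hg (ph_le hc))
  unfold HH
  rw [abs_le]; constructor <;> linarith [h1.1, h1.2, h2.1, h2.2]
theorem TT'_near : |TT' γ c - 1| ≤ 2 / 10 ^ 15 := by
  have h1 := abs_le.1 (small hg (rr_le hc))
  have h2 := abs_le.1 (mul_le1 hc (mul_le1 hc (small hg (ph'_le hc))))
  have e : TT' γ c - 1 = γ * rr c + c * (c * (γ * ph' c)) := by unfold TT'; ring
  rw [e, abs_le]; constructor <;> linarith [h1.1, h1.2, h2.1, h2.2]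
theorem HH'_near : |HH' γ c - 1| ≤ 3 / 10 ^ 15 := by
  have h1 := abs_le.1 (TT'_near hg hc)
  have h2 := abs_le.1 (small hg (ph'_le hc))
  unfold HH'
  rw [abs_le]; constructor <;> linarith [h1.1, h1.2, h2.1, h2.2]
theorem R_pos : 0 < 1 + γ * rr c := by
  have h1 := abs_le.1 (small hg (rr_le hc))
  linarith [h1.1]
theorem XX_near : |XX γ c - (1 - c ^ 2)| ≤ 3 / 10 ^ 15 := by
  have h1 := small hg (rr_le hc)
  have h2 := abs_le.1 h1
  have e : XX γ c - (1 - c ^ 2) = (1 - c ^ 2) * (γ * rr c * (2 + γ * rr c)) := by unfold XX; ring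
  have h3 : |1 - c ^ 2| ≤ 1 := by
    have : c ^ 2 ≤ 1 := by rw [← sq_abs]; exact pow_le_one₀ (abs_nonneg _) hc
    rw [abs_le]; constructor <;> nlinarith [sq_nonneg c]
  rw [e]
  refine mul_le1 h3 ?_
  rw [abs_mul]
  have h4 : |2 + γ * rr c| ≤ 3 := by rw [abs_le]; constructor <;> linarith [h2.1, h2.2]
  calc _ ≤ 1 / 10 ^ 15 * 3 := mul_le_mul h1 h4 (abs_nonneg _) (by norm_num)
    _ = _ := by norm_num
end

theorem d_rr (c : ℝ) : HasDerivAt rr (c * ph' c) c := by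
  have := (((hasDerivAt_pow 3 c).const_mul (2 / 3 * b1)).add
    ((hasDerivAt_pow 5 c).const_mul (4 / 5 * b2))).add ((hasDerivAt_pow 7 c).const_mul (6 / 7 * b3))
  refine this.congr_deriv ?_
  rw [ph'_R]; push_cast; ring
theorem d_ph (c : ℝ) : HasDerivAt ph (ph' c) c := by
  have := (((hasDerivAt_pow 2 c).const_mul b1).add
    ((hasDerivAt_pow 4 c).const_mul b2)).add ((hasDerivAt_pow 6 c).const_mul b3)
  refine this.congr_deriv ?_
  rw [ph'_R]; push_cast; ring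
theorem d_R (γ c : ℝ) : HasDerivAt (fun c => 1 + γ * rr c) (γ * (c * ph' c)) c :=
  ((d_rr c).const_mul γ).const_add 1
theorem d_TT (γ c : ℝ) : HasDerivAt (TT γ) (TT' γ c) c := by
  have := (hasDerivAt_id' c).mul (d_R γ c)
  refine this.congr_deriv ?_
  unfold TT'; ring
theorem d_HH (γ c : ℝ) : HasDerivAt (HH γ) (HH' γ c) c :=
  (d_TT γ c).sub ((d_ph c).const_mul γ)
theorem d_XX (γ c : ℝ) : HasDerivAt (XX γ) (-2 * TT γ c * HH' γ c) c := by
  have := ((hasDerivAt_pow 2 c).const_sub 1).mul ((d_R γ c).pow 2)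
  refine this.congr_deriv ?_
  unfold HH' TT' TT; simp only [Pi.pow_apply]; push_cast; ring
theorem c_TT (γ : ℝ) : Continuous (TT γ) :=
  continuous_iff_continuousAt.2 fun c => (d_TT γ c).continuousAt
theorem c_HH (γ : ℝ) : Continuous (HH γ) :=
  continuous_iff_continuousAt.2 fun c => (d_HH γ c).continuousAt
theorem c_XX (γ : ℝ) : Continuous (XX γ) :=
  continuous_iff_continuousAt.2 fun c => (d_XX γ c).continuousAt
theorem c_HH' (γ : ℝ) : Continuous (HH' γ) := by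
  unfold HH' TT'; simp only [rr_R, ph'_R]; fun_prop
theorem c_ph : Continuous (ph : ℝ → ℝ) :=
  continuous_iff_continuousAt.2 fun c => (d_ph c).continuousAt

theorem TT_neg (γ c : ℝ) : TT γ (-c) = -TT (-γ) c := by simp only [TT, rr_R]; ring
theorem HH_neg (γ c : ℝ) : HH γ (-c) = -HH (-γ) c := by
  simp only [HH, TT, rr_R, ph_R]; ring
theorem XX_neg (γ c : ℝ) : XX γ (-c) = XX (-γ) c := by simp only [XX, rr_R]; ring
theorem TT_zero (γ : ℝ) : TT γ 0 = 0 := by simp [TT]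
theorem HH_zero (γ : ℝ) : HH γ 0 = 0 := by simp [HH, TT, ph]
theorem XX_zero (γ : ℝ) : XX γ 0 = 1 := by simp [XX, rr]
theorem XX_one (γ : ℝ) : XX γ 1 = 0 := by simp [XX]

omit [Cs] in
theorem abs_of_mem {c : ℝ} (h : c ∈ Icc (-1 : ℝ) 1) : |c| ≤ 1 := abs_le.2 h

theorem TT_mono {γ : ℝ} (hg : |γ| ≤ 1 / 10 ^ 20) : MonotoneOn (TT γ) (Icc (-1) 1) := by
  refine monotoneOn_of_deriv_nonneg (convex_Icc _ _) (c_TT γ).continuousOn
    (fun c _ => (d_TT γ c).differentiableAt.differentiableWithinAt) fun c hc => ?_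
  rw [(d_TT γ c).deriv]
  have := abs_le.1 (TT'_near hg (abs_of_mem (interior_subset hc)))
  linarith [this.1]

/-- tangent line number `c` -/
def ln (γ c x : ℝ) : ℝ := XX γ c - 2 * TT γ c * (x - HH γ c)

theorem key {γ c c' : ℝ} (hg : |γ| ≤ 1 / 10 ^ 20) (hc : c ∈ Icc (-1 : ℝ) 1)
    (hc' : c' ∈ Icc (-1 : ℝ) 1) : XX γ c' ≤ ln γ c (HH γ c') := by
  let φ : ℝ → ℝ := fun t => XX γ c - 2 * TT γ c * (HH γ t - HH γ c) - XX γ t
  have d : ∀ t, HasDerivAt φ (2 * (TT γ t - TT γ c) * HH' γ t) t := fun t => by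
    have := ((((d_HH γ t).sub_const (HH γ c)).const_mul (2 * TT γ c)).const_sub (XX γ c)).sub
      (d_XX γ t)
    exact this.congr_deriv (by ring)
  have cont : Continuous φ := continuous_iff_continuousAt.2 fun t => (d t).continuousAt
  have z : φ c = 0 := by simp [φ]
  have hp : ∀ t ∈ Icc (-1 : ℝ) 1, 0 ≤ HH' γ t := fun t ht => by
    have := abs_le.1 (HH'_near hg (abs_of_mem ht))
    linarith [this.1]
  have : φ c ≤ φ c' := by
    rcases le_total c c' with h | h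
    · refine monotoneOn_of_deriv_nonneg (convex_Icc c 1) cont.continuousOn
        (fun t _ => (d t).differentiableAt.differentiableWithinAt) (fun t ht => ?_)
        ⟨le_rfl, hc.2⟩ ⟨h, hc'.2⟩ h
      have ht' := interior_subset ht
      have m : t ∈ Icc (-1 : ℝ) 1 := ⟨hc.1.trans ht'.1, ht'.2⟩
      rw [(d t).deriv]
      have := TT_mono hg hc m ht'.1
      exact mul_nonneg (by linarith) (hp t m)
    · refine antitoneOn_of_deriv_nonpos (convex_Icc (-1) c) cont.continuousOn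
        (fun t _ => (d t).differentiableAt.differentiableWithinAt) (fun t ht => ?_)
        ⟨hc'.1, h⟩ ⟨hc.1, le_rfl⟩ h
      have ht' := interior_subset ht
      have m : t ∈ Icc (-1 : ℝ) 1 := ⟨ht'.1, ht'.2.trans hc.2⟩
      rw [(d t).deriv]
      have := TT_mono hg m hc ht'.2
      exact mul_nonpos_of_nonpos_of_nonneg (by linarith) (hp t m)
  rw [z] at this
  simp only [φ] at this
  unfold ln; linarith

/-- the squared radius of the base body -/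
def gg (γ x : ℝ) : ℝ := sInf ((fun c => ln γ c x) '' Icc (-1) 1)

theorem bdd (γ x : ℝ) : BddBelow ((fun c => ln γ c x) '' Icc (-1) 1) := by
  have : Continuous fun c => ln γ c x :=
    (c_XX γ).sub ((continuous_const.mul (c_TT γ)).mul (continuous_const.sub (c_HH γ)))
  exact (isCompact_Icc.image this).bddBelow

theorem gg_le (γ x : ℝ) {c : ℝ} (hc : c ∈ Icc (-1 : ℝ) 1) : gg γ x ≤ ln γ c x :=
  csInf_le (bdd γ x) ⟨c, hc, rfl⟩

theorem le_gg {γ x t : ℝ} (h : ∀ c ∈ Icc (-1 : ℝ) 1, t ≤ ln γ c x) : t ≤ gg γ x :=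
  le_csInf ⟨_, 0, by simp, rfl⟩ (by rintro _ ⟨c, hc, rfl⟩; exact h c hc)

theorem gg_HH {γ c : ℝ} (hg : |γ| ≤ 1 / 10 ^ 20) (hc : c ∈ Icc (-1 : ℝ) 1) :
    gg γ (HH γ c) = XX γ c :=
  le_antisymm ((gg_le γ _ hc).trans (by simp [ln])) (le_gg fun _ h => key hg h hc)

theorem ln_neg (γ c x : ℝ) : ln γ (-c) (-x) = ln (-γ) c x := by
  unfold ln; rw [TT_neg, HH_neg, XX_neg]; ring

theorem gg_neg (γ x : ℝ) : gg γ (-x) = gg (-γ) x := by
  refine le_antisymm (le_gg fun c hc => ?_) (le_gg fun c hc => ?_)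
  · rw [← ln_neg]; exact gg_le _ _ ⟨by linarith [hc.2], by linarith [hc.1]⟩
  · have := gg_le (-γ) x (c := -c) ⟨by linarith [hc.2], by linarith [hc.1]⟩
    rwa [← ln_neg, neg_neg] at this

theorem gg_far {γ x : ℝ} (hg : |γ| ≤ 1 / 10 ^ 20) (hx : HH γ 1 ≤ x) :
    gg γ x = -2 * TT γ 1 * (x - HH γ 1) := by
  have o : (1 : ℝ) ∈ Icc (-1 : ℝ) 1 := by simp
  refine le_antisymm ((gg_le γ x o).trans (by simp [ln, XX_one])) (le_gg fun c hc => ?_)
  have h1 := key hg hc o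
  have h2 := TT_mono hg hc o hc.2
  rw [XX_one] at h1
  unfold ln at h1 ⊢
  nlinarith [mul_nonneg (sub_nonneg.2 h2) (sub_nonneg.2 hx)]

theorem ln_near {γ c x : ℝ} (hg : |γ| ≤ 1 / 10 ^ 20) (hc : |c| ≤ 1) (hx : |x| ≤ 2) :
    |ln γ c x - (1 - x ^ 2 + (x - c) ^ 2)| ≤ 1 / 10 ^ 13 := by
  have h1 := XX_near hg hc
  have h2 := TT_near hg hc
  have h3 := HH_near hg hc
  have e : ln γ c x - (1 - x ^ 2 + (x - c) ^ 2) = (XX γ c - (1 - c ^ 2)) -
      2 * ((TT γ c - c) * (x - HH γ c)) + 2 * (c * (HH γ c - c)) := by unfold ln; ring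
  have h4 : |x - HH γ c| ≤ 4 := by
    have a := abs_le.1 h3; have b := abs_le.1 hc; have d := abs_le.1 hx
    rw [abs_le]; constructor <;> linarith [a.1, a.2, b.1, b.2, d.1, d.2]
  have h5 : |(TT γ c - c) * (x - HH γ c)| ≤ 1 / 10 ^ 15 * 4 := by
    rw [abs_mul]; exact mul_le_mul h2 h4 (abs_nonneg _) (by norm_num)
  have h6 := abs_le.1 (mul_le1 hc h3)
  have h7 := abs_le.1 h5
  have h8 := abs_le.1 h1
  rw [e, abs_le]; constructor <;> linarith [h6.1, h6.2, h7.1, h7.2, h8.1, h8.2]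

theorem inner {γ x : ℝ} (hg : |γ| ≤ 1 / 10 ^ 20) (hx : |x| ≤ 1) :
    1 - 1 / 10 ^ 5 - x ^ 2 ≤ gg γ x :=
  le_gg fun c hc => by
    have := abs_le.1 (ln_near hg (abs_of_mem hc) (x := x) (by linarith))
    nlinarith [this.1, sq_nonneg (x - c)]

theorem outer0 {γ x : ℝ} (hg : |γ| ≤ 1 / 10 ^ 20) (h0 : 0 ≤ x) (hx : -(1 / 10 ^ 6) ≤ gg γ x) :
    gg γ x + x ^ 2 ≤ 1 + 1 / 10 ^ 5 := by
  rcases le_total x 1 with h | h
  · have h1 := gg_le γ x (c := x) ⟨by linarith, h⟩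
    have := abs_le.1 (ln_near (c := x) (x := x) hg (abs_le.2 ⟨by linarith, h⟩)
      (abs_le.2 ⟨by linarith, by linarith⟩))
    nlinarith [this.2]
  · have h1 := gg_le γ x (c := 1) (by simp)
    have h2 := abs_le.1 (TT_near (c := 1) hg (by simp))
    have h3 := abs_le.1 (HH_near (c := 1) hg (by simp))
    simp only [ln, XX_one] at h1
    have h4 : x ≤ 1 + 2 / 10 ^ 6 := by
      by_contra hh
      push Not at hh
      nlinarith [mul_nonneg (show 0 ≤ TT γ 1 - 1 / 2 by linarith [h2.1])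
        (show 0 ≤ x - HH γ 1 by linarith [h3.2])]
    have h5 : gg γ x ≤ 1 / 10 ^ 13 := by
      nlinarith [mul_nonneg (show 0 ≤ TT γ 1 by linarith [h2.1])
        (show 0 ≤ x - HH γ 1 + 2 / 10 ^ 15 by linarith [h3.2])]
    nlinarith

theorem outer {γ x : ℝ} (hg : |γ| ≤ 1 / 10 ^ 20) (hx : -(1 / 10 ^ 6) ≤ gg γ x) :
    gg γ x + x ^ 2 ≤ 1 + 1 / 10 ^ 5 := by
  rcases le_total 0 x with h | h
  · exact outer0 hg h hx
  · have e : gg γ x = gg (-γ) (-x) := by rw [gg_neg, neg_neg]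
    have := outer0 (γ := -γ) (x := -x) (by rwa [abs_neg]) (by linarith) (e ▸ hx)
    rw [e]; nlinarith

theorem top0 {γ x : ℝ} (hg : |γ| ≤ 1 / 10 ^ 20) (h0 : 0 < x) : gg γ x < 1 := by
  have e1 : ∀ᶠ c in 𝓝[>] (0 : ℝ), HH γ c < x :=
    nhdsWithin_le_nhds ((c_HH γ).continuousAt.eventually_lt continuousAt_const
      (by simpa [HH_zero] using h0))
  obtain ⟨c, h1, h2⟩ := (e1.and (Ioc_mem_nhdsGT (zero_lt_one' ℝ))).exists
  have m : c ∈ Icc (-1 : ℝ) 1 := ⟨by linarith [h2.1], h2.2⟩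
  have h3 := key hg (c := 0) (by simp) m
  simp only [ln, XX_zero, TT_zero] at h3
  have h4 : 0 < TT γ c := mul_pos h2.1 (R_pos hg (abs_of_mem m))
  have h5 := gg_le γ x m
  unfold ln at h5
  nlinarith [mul_pos h4 (sub_pos.2 h1)]

theorem top {γ x : ℝ} (hg : |γ| ≤ 1 / 10 ^ 20) (h0 : x ≠ 0) : gg γ x < 1 := by
  rcases lt_or_gt_of_ne h0 with h | h
  · have e : gg γ x = gg (-γ) (-x) := by rw [gg_neg, neg_neg]
    rw [e]; exact top0 (by rwa [abs_neg]) (by linarith)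
  · exact top0 hg h

theorem asym : ∃ x, |x| ≤ 9 / 10 ∧ gg gam x ≠ gg gam (-x) := by
  have m : (1 / 2 : ℝ) ∈ Icc (-1 : ℝ) 1 := by constructor <;> norm_num
  refine ⟨HH gam (1 / 2), ?_, ?_⟩
  · have := abs_le.1 (HH_near g1 (abs_of_mem m))
    rw [abs_le]; constructor <;> linarith [this.1, this.2]
  · rw [gg_neg, gg_HH g1 m]
    refine ((gg_le (-gam) _ m).trans_lt ?_).ne'
    have e : 1 / 4 ≤ rr (1 / 2 : ℝ) - 1 / 2 * ph (1 / 2 : ℝ) := by
      rw [rr_R, ph_R]; linarith [b_asym]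
    obtain ⟨h1, -, h2⟩ := ph_leR (abs_of_mem m)
    have h3 : |1 / 2 * rr (1 / 2 : ℝ) - ph (1 / 2 : ℝ)| ≤ 10 ^ 5 := by
      have a := abs_le.1 h1; have b := abs_le.1 h2
      rw [abs_le]; constructor <;> linarith [a.1, a.2, b.1, b.2]
    have h4 : |gam * rr (1 / 2 : ℝ) * (1 / 2 * rr (1 / 2 : ℝ) - ph (1 / 2 : ℝ))| ≤
        1 / 10 ^ 15 * 10 ^ 5 := by
      rw [abs_mul]
      exact mul_le_mul (small g1 (rr_le (abs_of_mem m))) h3 (abs_nonneg _) (by norm_num)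
    have h5 := mul_pos gam_pos (show 0 < 4 * (rr (1 / 2 : ℝ) - 1 / 2 * ph (1 / 2 : ℝ)) -
      2 * (gam * rr (1 / 2 : ℝ) * (1 / 2 * rr (1 / 2 : ℝ) - ph (1 / 2 : ℝ))) by
        linarith [(abs_le.1 h4).2])
    unfold ln XX HH TT
    linarith

end BonN.BC
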