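import Pool.Agent.Lib.MP_3dbf58_gt.N.Cst

/-! The base body in dimension `ii + 5`. -/

open Set Filter Topology MeasureTheory Metric

noncomputable section

namespace BonN

open Bon3

variable [Cs]

def lam : ℝ := 1000 * th0
def dl : ℝ := th0 ^ (4 * ii + 20)
def tt : ℝ := dl / 10 ^ 15
def gam : ℝ := dl ^ 2 * lam / 10 ^ 50

def m1 : ℝ := 1 / (Nr + 1)
def m2 : ℝ := 3 / ((Nr + 1) * (Nr + 3))
def m3 : ℝ := 15 / ((Nr + 1) * (Nr + 3) * (Nr + 5))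
def r1 : ℝ := 2 * tt
def r2 : ℝ := -(120 * nu)
def r3 : ℝ := -(120 * nu + 2)
def QN : ℝ := (Nr - 2) * Nr * (Nr + 2)
def b1 : ℝ := ((54 + 72 * Nr + 18 * Nr ^ 2) * r1 +
  (42 + 83 * Nr + 53 * Nr ^ 2 + 13 * Nr ^ 3 + Nr ^ 4) * r2 + (-42 + 9 * Nr + 6 * Nr ^ 2) * r3) / QN
def b2 : ℝ := (-(72 + 105 * Nr + 36 * Nr ^ 2 + 3 * Nr ^ 3) * r1 -
  (66 + 133 * Nr + 88 * Nr ^ 2 + 23 * Nr ^ 3 + 2 * Nr ^ 4) * r2 +
  (66 - 5 * Nr - 12 * Nr ^ 2 - Nr ^ 3) * r3) / QN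
def b3 : ℝ := ((30 + 46 * Nr + 18 * Nr ^ 2 + 2 * Nr ^ 3) * r1 +
  (30 + 61 * Nr + 41 * Nr ^ 2 + 11 * Nr ^ 3 + Nr ^ 4) * r2 +
  (-30 - Nr + 6 * Nr ^ 2 + Nr ^ 3) * r3) / QN

section
variable {K : Type} [Field K] [Algebra ℝ K]
def ph (c : K) : K := algebraMap ℝ K b1 * c ^ 2 + algebraMap ℝ K b2 * c ^ 4 + algebraMap ℝ K b3 * c ^ 6
def ph' (c : K) : K :=
  2 * algebraMap ℝ K b1 * c + 4 * algebraMap ℝ K b2 * c ^ 3 + 6 * algebraMap ℝ K b3 * c ^ 5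
def rr (c : K) : K := 2 / 3 * algebraMap ℝ K b1 * c ^ 3 + 4 / 5 * algebraMap ℝ K b2 * c ^ 5 +
  6 / 7 * algebraMap ℝ K b3 * c ^ 7
/-- weighted average of `ph` as a function of `s = c ^ 2` -/
def hh1 (s : K) : K := algebraMap ℝ K (b1 * m1) * s + algebraMap ℝ K (b2 * m2) * s ^ 2 +
  algebraMap ℝ K (b3 * m3) * s ^ 3
def TT (γ c : K) : K := c * (1 + γ * rr c)
def HH (γ c : K) : K := TT γ c - γ * ph c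
def XX (γ c : K) : K := (1 - c ^ 2) * (1 + γ * rr c) ^ 2
def TT' (γ c : K) : K := 1 + γ * (rr c + c ^ 2 * ph' c)
def HH' (γ c : K) : K := TT' γ c - γ * ph' c
/-- radicand for the plane σ, y -/
def NB (σ y γ c : K) : K := XX γ c - σ * (HH γ c + y) ^ 2
end

theorem ph_R (c : ℝ) : ph c = b1 * c ^ 2 + b2 * c ^ 4 + b3 * c ^ 6 := rfl
theorem ph'_R (c : ℝ) : ph' c = 2 * b1 * c + 4 * b2 * c ^ 3 + 6 * b3 * c ^ 5 := rfl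
theorem rr_R (c : ℝ) : rr c = 2 / 3 * b1 * c ^ 3 + 4 / 5 * b2 * c ^ 5 + 6 / 7 * b3 * c ^ 7 := rfl
theorem ph_C (c : ℂ) : ph c = b1 * c ^ 2 + b2 * c ^ 4 + b3 * c ^ 6 := rfl
theorem ph'_C (c : ℂ) : ph' c = 2 * b1 * c + 4 * b2 * c ^ 3 + 6 * b3 * c ^ 5 := rfl
theorem rr_C (c : ℂ) : rr c = 2 / 3 * b1 * c ^ 3 + 4 / 5 * b2 * c ^ 5 + 6 / 7 * b3 * c ^ 7 := rfl
theorem hh1_C (s : ℂ) : hh1 s = b1 * m1 * s + b2 * m2 * s ^ 2 + b3 * m3 * s ^ 3 := by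
  simp only [hh1, map_mul]; rfl

/-- triples σ, y, γ -/
def PD : Set (ℂ × ℂ × ℂ) := {p | ‖p.1‖ < 1 / 10 ∧ ‖p.2.1‖ < lam / 10 ^ 3 ∧ ‖p.2.2‖ < lam / 10 ^ 10}

/-- chord end and the two half integrals of the base body -/
structure BA (cc Ia Ib : ℂ × ℂ × ℂ → ℂ) : Prop where
  hc : HC cc PD
  ha : HC Ia PD
  hb : HC Ib PD
  c0 : ∀ p ∈ PD, ‖cc p - 1‖ ≤ 1 / 8
  root : ∀ p ∈ PD, NB p.1 p.2.1 p.2.2 (cc p) = 0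
  a0 : ∀ p ∈ PD, ‖Ia p‖ ≤ 3
  b0 : ∀ p ∈ PD, ‖Ib p‖ ≤ 10 ^ 6
  az : ∀ σ : ℂ, ‖σ‖ < 1 / 10 → Ia (σ, 0, 0) = cc (σ, 0, 0) * Real.pi / 2
  bz : ∀ σ : ℂ, ‖σ‖ < 1 / 10 →
    Ib (σ, 0, 0) = cc (σ, 0, 0) * Real.pi / 2 * hh1 (cc (σ, 0, 0) ^ 2)
  rl : ∀ σ y γ : ℝ, ((σ : ℂ), (y : ℂ), (γ : ℂ)) ∈ PD →
    (cc (σ, y, γ)).im = 0 ∧ (Ia (σ, y, γ)).im = 0 ∧ (Ib (σ, y, γ)).im = 0
  lnk : ∀ σ y γ : ℝ, ((σ : ℂ), (y : ℂ), (γ : ℂ)) ∈ PD → 0 ≤ σ →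
    (cc (σ, y, γ)).re ≤ 1 ∧
    (∀ c : ℝ, 0 ≤ c → c < (cc (σ, y, γ)).re → 0 < NB σ y γ c) ∧
    (∀ c : ℝ, (cc (σ, y, γ)).re ≤ c → c ≤ 1 → NB σ y γ c ≤ 0) ∧
    (Ia (σ, y, γ)).re =
      Real.pi / bet * (∫ c in (0 : ℝ)..1, HH' γ c * Real.sqrt (NB σ y γ c) ^ (ii + 1)) ∧
    (Ib (σ, y, γ)).re =
      Real.pi / bet * ∫ c in (0 : ℝ)..1, ph c * HH' γ c * Real.sqrt (NB σ y γ c) ^ (ii + 1)

/-- criticality function of the base body at σ, y -/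
def Cb (Ia Ib : ℂ × ℂ × ℂ → ℂ) (σ y : ℂ) : ℂ :=
  (y * (Ia (σ, y, gam) + Ia (σ, -y, -gam)) - gam * (Ib (σ, y, gam) + Ib (σ, -y, -gam))) /
    ((1 + σ) * Real.pi)

/-- the base state; `hb` is the critical offset as a function of `σ` -/
def St0 (cc Ia Ib : ℂ × ℂ × ℂ → ℂ) (hb U : ℂ → ℂ) (q : ℝ) (g : ℝ → ℝ) : St :=
  let σ : ℂ → ℂ := fun ξ => q * (1 - ξ)
  let cp : ℂ → ℂ := fun ξ => cc (σ ξ, hb (σ ξ), gam)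
  let cm : ℂ → ℂ := fun ξ => cc (σ ξ, -hb (σ ξ), -gam)
  { up := fun ξ => (1 - ξ) * ((HH (gam : ℂ) (cp ξ) + hb (σ ξ)) / TT (gam : ℂ) (cp ξ)) ^ 2
    Tp := fun ξ => TT (gam : ℂ) (cp ξ)
    Hp := fun ξ => HH (gam : ℂ) (cp ξ)
    um := fun ξ => (1 - ξ) * ((HH (-gam : ℂ) (cm ξ) - hb (σ ξ)) / TT (-gam : ℂ) (cm ξ)) ^ 2
    Tm := fun ξ => TT (-gam : ℂ) (cm ξ)
    Hm := fun ξ => HH (-gam : ℂ) (cm ξ)
    h := fun ξ => hb (σ ξ)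
    ρ := fun ξ => (1 + gam * rr (cm ξ)) / (1 - gam * rr (cm ξ))
    U := U
    E := fun _ => 0
    Cf := fun p => Cb Ia Ib (σ p.1) p.2
    g := g
    s := 0 }

/-- the band `|c| ≤ c0` -/
def band0 (c0 : ℝ) : Pc where
  H := fun s => HH gam (c0 * (2 * s - 1))
  X := fun s => XX gam (c0 * (2 * s - 1))
  T := fun s => TT gam (c0 * (2 * s - 1))
  H' := fun s => HH' gam (c0 * (2 * s - 1)) * (2 * c0)
  T' := fun s => TT' gam (c0 * (2 * s - 1)) * (2 * c0)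

def Par0 (hb : ℂ → ℂ) (q μ0 c0 : ℝ) (g : ℝ → ℝ) : Par where
  q := q
  η := 120 * gam * q
  μ0 := μ0
  u0 := (1 - c0 ^ 2) / (c0 ^ 2 * q)
  Tp0 := TT gam c0
  Tm0 := TT (-gam) c0
  Hp0 := HH gam c0
  Hm0 := HH (-gam) c0
  band := band0 c0
  gb := g
  Gb := fun x => Ar g (q * (1 - x)) (hb ((q : ℂ) * (1 - (x : ℂ)))).re

/-- facts on the critical offset and the touching parameter -/
structure BB (cc Ia Ib : ℂ × ℂ × ℂ → ℂ) (hb : ℂ → ℂ) (q μ0 c0 : ℝ) : Prop where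
  q1 : tt / 2 ≤ q
  q2 : q ≤ 2 * tt
  mu : |μ0 - 2 * kap * (120 * gam * q)| ≤ th0 * (120 * gam * q)
  c1 : 999 / 1000 ≤ c0
  c2 : c0 < 1
  hb0 : ∀ σ : ℂ, ‖σ‖ < 1 / 12 → ‖hb σ‖ ≤ gam * 10 ^ 6
  hbr : ∀ σ : ℝ, |σ| < 1 / 12 → (hb σ).im = 0
  cr : ∀ σ : ℂ, ‖σ‖ < 1 / 12 → Cb Ia Ib σ (hb σ) = 0
  mono : ∀ σ ∈ Icc q (1 / 20),
    (cc (σ, hb σ, gam)).re ≤ c0 ∧ (cc (σ, -hb σ, -gam)).re ≤ c0

/-- extra facts on the base body -/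
structure BaseX (P : Par) : Prop where
  hp : 99 / 100 ≤ P.Hp0
  hm : 99 / 100 ≤ P.Hm0
  mid : ∀ σ ∈ Icc P.q (1 / 20), ∃ y : ℝ, |y| ≤ 1 / 100 ∧ Cr P.gb σ y = 0 ∧
    P.gb P.Hp0 - σ * (P.Hp0 + y) ^ 2 ≤ 0 ∧ P.gb (-P.Hm0) - σ * (-P.Hm0 + y) ^ 2 ≤ 0
  outer : ∀ x, -(1 / 10 ^ 6) ≤ P.gb x → P.gb x + x ^ 2 ≤ 1 + 1 / 10 ^ 5
  inner : ∀ x, |x| ≤ 1 → 1 - 1 / 10 ^ 5 - x ^ 2 ≤ P.gb x
  top : ∀ x, x ≠ 0 → P.gb x < 1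
  asym : ∃ x, |x| ≤ 9 / 10 ∧ P.gb x ≠ P.gb (-x)

/-! ### sizes of the constants -/

theorem lam_pos : 0 < lam := by unfold lam; have := th0_pos; positivity
theorem lam_le : lam ≤ 1 / 10 ^ 12 := by unfold lam; linarith [th0_small]
theorem lam_Nr : lam * Nr ≤ 1 / 10 ^ 7 := by unfold lam; linarith [th0_Nr]
theorem dl_pos : 0 < dl := pow_pos th0_pos _
theorem dl_le_pow {k : ℕ} (hk : k ≤ 20) : dl ≤ th0 ^ k :=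
  pow_le_pow_of_le_one th0_pos.le (th0_small.trans (by norm_num)) (by omega)
theorem dl_le_th0 : dl ≤ th0 := by simpa using dl_le_pow (k := 1) (by norm_num)
theorem dl_le : dl ≤ 1 / 10 ^ 15 := dl_le_th0.trans th0_small
theorem dl_le_sq : dl ≤ th0 ^ 2 / 10 ^ 15 := by
  have h := dl_le_pow (k := 3) (by norm_num)
  have := mul_le_mul_of_nonneg_left th0_small (sq_nonneg th0)
  nlinarith
theorem tt_pos : 0 < tt := by unfold tt; have := dl_pos; positivity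
theorem tt_eq : tt = dl / 10 ^ 15 := rfl
theorem tt_le : tt ≤ 1 / 10 ^ 30 := by unfold tt; linarith [dl_le]
theorem gam_pos : 0 < gam := by unfold gam; have := dl_pos; have := lam_pos; positivity
theorem gam_eq : gam = dl ^ 2 * lam / 10 ^ 50 := rfl
theorem dl_sq_le : dl ^ 2 ≤ dl / 10 ^ 15 := by nlinarith [dl_le, dl_pos]
theorem gam_le_lam : gam ≤ lam / 10 ^ 80 := by
  have h1 : dl ^ 2 ≤ 1 / 10 ^ 30 := by linarith [dl_sq_le, dl_le]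
  have := mul_le_mul_of_nonneg_right h1 lam_pos.le
  unfold gam; linarith
theorem gam_le_dl : gam ≤ dl / 10 ^ 77 := by
  have := mul_le_mul dl_sq_le lam_le lam_pos.le (by have := dl_pos; positivity)
  unfold gam; linarith
theorem gam_small : gam ≤ 1 / 10 ^ 80 := by linarith [gam_le_lam, lam_le]

end BonN
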