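import Pool.Agent.Lib.MP_3dbf58_gt.N.BaseD

/-! The coefficients of the base body. -/

open Set Filter Topology MeasureTheory Metric

noncomputable section

namespace BonN

open Bon3

variable [Cs]

theorem bk_Q : 0 < QN := by
  have := Nr_ge
  have : 0 < Nr - 2 := by linarith
  have := Nr_pos
  unfold QN
  positivity

theorem rel1 : b1 * (m1 - 1) + b2 * (m2 - 1) + b3 * (m3 - 1) = 2 * tt := by
  have h := Nr_pos
  have h2 : Nr - 2 ≠ 0 := by linarith [Nr_ge]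
  change _ = r1
  unfold b1 b2 b3 m1 m2 m3 QN
  field_simp
  ring
theorem rel2 : b1 * m1 + 2 * (b2 * m2) + 3 * (b3 * m3) = -(120 * nu) := by
  have h := Nr_pos
  have h2 : Nr - 2 ≠ 0 := by linarith [Nr_ge]
  change _ = r2
  unfold b1 b2 b3 m1 m2 m3 QN
  field_simp
  ring
theorem rel3 : b1 + 2 * b2 + 3 * b3 = -(120 * nu + 2) := by
  have h := Nr_pos
  have h2 : Nr - 2 ≠ 0 := by linarith [Nr_ge]
  change _ = r3
  unfold b1 b2 b3 QN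
  field_simp
  ring

theorem bk_nu : Nr * (120 * nu) = 16 + 8 * ep0 := by
  have := nu_mul
  rw [kap_eq, dl0_eq] at this
  linear_combination 120 * this

theorem bk_1 : b1 * QN = (54 + 72 * Nr + 18 * Nr ^ 2) * (2 * tt) -
    (16 + 8 * ep0) * (92 + 59 * Nr + 13 * Nr ^ 2 + Nr ^ 3) - 2 * (-42 + 9 * Nr + 6 * Nr ^ 2) := by
  rw [b1, div_mul_cancel₀ _ bk_Q.ne', r1, r2, r3, ← bk_nu]
  ring
theorem bk_2 : b2 * QN = -(72 + 105 * Nr + 36 * Nr ^ 2 + 3 * Nr ^ 3) * (2 * tt) +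
    (16 + 8 * ep0) * (138 + 100 * Nr + 24 * Nr ^ 2 + 2 * Nr ^ 3) -
      2 * (66 - 5 * Nr - 12 * Nr ^ 2 - Nr ^ 3) := by
  rw [b2, div_mul_cancel₀ _ bk_Q.ne', r1, r2, r3, ← bk_nu]
  ring
theorem bk_3 : b3 * QN = (30 + 46 * Nr + 18 * Nr ^ 2 + 2 * Nr ^ 3) * (2 * tt) -
    (16 + 8 * ep0) * (60 + 47 * Nr + 12 * Nr ^ 2 + Nr ^ 3) -
      2 * (-30 - Nr + 6 * Nr ^ 2 + Nr ^ 3) := by
  rw [b3, div_mul_cancel₀ _ bk_Q.ne', r1, r2, r3, ← bk_nu]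
  ring

theorem bk_all : (-1000 * QN ≤ b1 * QN ∧ b1 * QN ≤ 1000 * QN) ∧
    (-1000 * QN ≤ b2 * QN ∧ b2 * QN ≤ 1000 * QN) ∧
    (-1000 * QN ≤ b3 * QN ∧ b3 * QN ≤ 1000 * QN) ∧
    1 / 4 * QN ≤ -(b1 * QN / 24 + b2 * QN / 160 + b3 * QN / 896) := by
  rw [bk_1, bk_2, bk_3, QN]
  obtain ⟨n, n0, hn⟩ : ∃ n : ℝ, 0 ≤ n ∧ Nr = n + 3 := ⟨Nr - 3, by linarith [Nr_ge], by ring⟩
  have e0 := ep0_pos.le
  have e1 : ep0 ≤ 1 / 1000 := ep0_le.trans (by norm_num)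
  have t0 := tt_pos.le
  have t1 : tt ≤ 1 / 1000 := tt_le.trans (by norm_num)
  rw [hn]
  generalize ep0 = e at e0 e1
  generalize tt = t at t0 t1
  have n2 : 0 ≤ n ^ 2 := by positivity
  have n3 : 0 ≤ n ^ 3 := by positivity
  have a1 := mul_nonneg e0 n0
  have a2 := mul_nonneg e0 n2
  have a3 := mul_nonneg e0 n3
  have a4 := mul_le_mul_of_nonneg_right e1 n0
  have a5 := mul_le_mul_of_nonneg_right e1 n2
  have a6 := mul_le_mul_of_nonneg_right e1 n3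
  have c1 := mul_nonneg t0 n0
  have c2 := mul_nonneg t0 n2
  have c3 := mul_nonneg t0 n3
  have c4 := mul_le_mul_of_nonneg_right t1 n0
  have c5 := mul_le_mul_of_nonneg_right t1 n2
  have c6 := mul_le_mul_of_nonneg_right t1 n3
  refine ⟨⟨?_, ?_⟩, ⟨?_, ?_⟩, ⟨?_, ?_⟩, ?_⟩ <;> linarith

theorem b1_le : |b1| ≤ 1000 :=
  abs_le.2 ⟨le_of_mul_le_mul_right bk_all.1.1 bk_Q, le_of_mul_le_mul_right bk_all.1.2 bk_Q⟩
theorem b2_le : |b2| ≤ 1000 :=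
  abs_le.2 ⟨le_of_mul_le_mul_right bk_all.2.1.1 bk_Q, le_of_mul_le_mul_right bk_all.2.1.2 bk_Q⟩
theorem b3_le : |b3| ≤ 1000 :=
  abs_le.2 ⟨le_of_mul_le_mul_right bk_all.2.2.1.1 bk_Q,
    le_of_mul_le_mul_right bk_all.2.2.1.2 bk_Q⟩
theorem b_asym : 1 / 4 ≤ -(b1 / 24 + b2 / 160 + b3 / 896) :=
  le_of_mul_le_mul_right (bk_all.2.2.2.trans (le_of_eq (by ring))) bk_Q
theorem m_mem : m1 ∈ Icc (0 : ℝ) 1 ∧ m2 ∈ Icc (0 : ℝ) 1 ∧ m3 ∈ Icc (0 : ℝ) 1 := by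
  have h := Nr_pos
  have h2 : 3 ≤ (Nr + 1) * (Nr + 3) := by nlinarith
  have h3 : 3 * 5 ≤ (Nr + 1) * (Nr + 3) * (Nr + 5) :=
    mul_le_mul h2 (by linarith) (by norm_num) (by positivity)
  unfold m1 m2 m3
  refine ⟨⟨by positivity, ?_⟩, ⟨by positivity, ?_⟩, by positivity, ?_⟩ <;>
    rw [div_le_one (by positivity)] <;> linarith

omit [Cs] in
theorem bk_term {b R : ℝ} {c : ℂ} (hb : |b| ≤ 1000) (h : ‖c‖ ≤ R) (k : ℕ) :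
    ‖(b : ℂ) * c ^ k‖ ≤ 1000 * R ^ k := by
  rw [norm_mul, norm_pow, Complex.norm_real, Real.norm_eq_abs]
  exact mul_le_mul hb (pow_le_pow_left₀ (norm_nonneg _) h k) (by positivity) (by norm_num)

omit [Cs] in
theorem bk_three {x y z : ℂ} (s t u : ℝ) (s0 : 0 ≤ s) (t0 : 0 ≤ t) (u0 : 0 ≤ u) :
    ‖s * x + t * y + u * z‖ ≤ s * ‖x‖ + t * ‖y‖ + u * ‖z‖ := by
  refine norm_add₃_le.trans (le_of_eq ?_)
  simp only [norm_mul, Complex.norm_real, Real.norm_of_nonneg s0, Real.norm_of_nonneg t0,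
    Real.norm_of_nonneg u0]

theorem bk_le {c : ℂ} {R : ℝ} (h : ‖c‖ ≤ R) : ‖ph c‖ ≤ 1000 * (R ^ 2 + R ^ 4 + R ^ 6) ∧
    ‖ph' c‖ ≤ 1000 * (2 * R ^ 1 + 4 * R ^ 3 + 6 * R ^ 5) ∧
    ‖rr c‖ ≤ 1000 * (2 / 3 * R ^ 3 + 4 / 5 * R ^ 5 + 6 / 7 * R ^ 7) := by
  have t1 := bk_term b1_le h
  have t2 := bk_term b2_le h
  have t3 := bk_term b3_le h
  refine ⟨?_, ?_, ?_⟩
  · rw [ph_C]
    exact norm_add₃_le.trans (by linarith [t1 2, t2 4, t3 6])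
  · have e : ph' c = (2 : ℝ) * (b1 * c ^ 1) + (4 : ℝ) * (b2 * c ^ 3) + (6 : ℝ) * (b3 * c ^ 5) := by
      rw [ph'_C]; push_cast; ring
    rw [e]
    exact (bk_three _ _ _ (by norm_num) (by norm_num) (by norm_num)).trans
      (by linarith [t1 1, t2 3, t3 5])
  · have e : rr c = (2 / 3 : ℝ) * (b1 * c ^ 3) + (4 / 5 : ℝ) * (b2 * c ^ 5) +
        (6 / 7 : ℝ) * (b3 * c ^ 7) := by
      rw [rr_C]; push_cast; ring
    rw [e]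
    exact (bk_three _ _ _ (by norm_num) (by norm_num) (by norm_num)).trans
      (by linarith [t1 3, t2 5, t3 7])

theorem ph_le {c : ℂ} (h : ‖c‖ ≤ 2) : ‖ph c‖ ≤ 10 ^ 5 := (bk_le h).1.trans (by norm_num)
theorem ph'_le {c : ℂ} (h : ‖c‖ ≤ 2) : ‖ph' c‖ ≤ 10 ^ 6 := (bk_le h).2.1.trans (by norm_num)
theorem rr_le {c : ℂ} (h : ‖c‖ ≤ 2) : ‖rr c‖ ≤ 2 * 10 ^ 5 := (bk_le h).2.2.trans (by norm_num)
theorem ph_le98 {c : ℂ} (h : ‖c‖ ≤ 9 / 8) : ‖ph c‖ ≤ 10 ^ 4 ∧ ‖ph' c‖ ≤ 10 ^ 5 ∧ ‖rr c‖ ≤ 10 ^ 4 :=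
  ⟨(bk_le h).1.trans (by norm_num), (bk_le h).2.1.trans (by norm_num),
    (bk_le h).2.2.trans (by norm_num)⟩
theorem ph_cast (c : ℝ) : ph (c : ℂ) = ((ph c : ℝ) : ℂ) := by
  rw [ph_C, ph_R]; push_cast; rfl
theorem ph'_cast (c : ℝ) : ph' (c : ℂ) = ((ph' c : ℝ) : ℂ) := by
  rw [ph'_C, ph'_R]; push_cast; rfl
theorem rr_cast (c : ℝ) : rr (c : ℂ) = ((rr c : ℝ) : ℂ) := by
  rw [rr_C, rr_R]; push_cast; rfl
theorem ph_leR {c : ℝ} (h : |c| ≤ 1) : |ph c| ≤ 10 ^ 4 ∧ |ph' c| ≤ 10 ^ 5 ∧ |rr c| ≤ 10 ^ 4 := by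
  have := ph_le98 (c := c) (by rw [Complex.norm_real, Real.norm_eq_abs]; linarith)
  rwa [ph_cast, ph'_cast, rr_cast, Complex.norm_real, Complex.norm_real, Complex.norm_real] at this
theorem TT_cast (γ c : ℝ) : TT (γ : ℂ) c = ((TT γ c : ℝ) : ℂ) := by
  rw [TT, TT, rr_cast]; push_cast; rfl
theorem HH_cast (γ c : ℝ) : HH (γ : ℂ) c = ((HH γ c : ℝ) : ℂ) := by
  rw [HH, HH, TT_cast, ph_cast]; push_cast; rfl
theorem HH'_cast (γ c : ℝ) : HH' (γ : ℂ) c = ((HH' γ c : ℝ) : ℂ) := by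
  rw [HH', HH', TT', TT', rr_cast, ph'_cast]; push_cast; rfl
theorem NB_cast (σ y γ c : ℝ) : NB (σ : ℂ) y γ c = ((NB σ y γ c : ℝ) : ℂ) := by
  rw [NB, NB, XX, XX, HH_cast, rr_cast]; push_cast; rfl
theorem d_phC (c : ℂ) : HasDerivAt ph (ph' c) c := by
  have h := (((hasDerivAt_pow 2 c).const_mul (b1 : ℂ)).fun_add
    ((hasDerivAt_pow 4 c).const_mul (b2 : ℂ))).fun_add ((hasDerivAt_pow 6 c).const_mul (b3 : ℂ))
  exact h.congr_deriv (by rw [ph'_C]; push_cast; ring)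
theorem d_rrC (c : ℂ) : HasDerivAt rr (c * ph' c) c := by
  have h := (((hasDerivAt_pow 3 c).const_mul (2 / 3 * b1 : ℂ)).fun_add
    ((hasDerivAt_pow 5 c).const_mul (4 / 5 * b2 : ℂ))).fun_add
    ((hasDerivAt_pow 7 c).const_mul (6 / 7 * b3 : ℂ))
  exact h.congr_deriv (by rw [ph'_C]; push_cast; ring)
theorem TT_d (γ c : ℂ) : HasDerivAt (TT γ) (TT' γ c) c ∧ HasDerivAt (HH γ) (HH' γ c) c := by
  have h : HasDerivAt (TT γ) (TT' γ c) c :=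
    ((hasDerivAt_id' c).fun_mul (((d_rrC c).const_mul γ).const_add 1)).congr_deriv
      (by rw [TT']; ring)
  exact ⟨h, h.fun_sub ((d_phC c).const_mul γ)⟩

end BonN
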