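import Pool.Agent.Lib.MP_3dbf58_gt.N.Cst
import Pool.Agent.Lib.MP_3dbf58_gt.N.CapJ

/-! Chord end and cap part of the criticality integral in dimension `ii + 5`. -/

open Set Filter Topology MeasureTheory Metric

noncomputable section

namespace BonN

open Bon3

theorem cps_bet (j : ℕ) : (1 / 2 : ℝ) ^ j ≤ ∫ x in (-1 : ℝ)..1, Real.sqrt (1 - x ^ 2) ^ j := by
  have hc : Continuous fun x : ℝ => Real.sqrt (1 - x ^ 2) ^ j := by fun_prop
  have h1 : ∫ x in (-1 / 2 : ℝ)..(1 / 2), (1 / 2 : ℝ) ^ j ≤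
      ∫ x in (-1 / 2 : ℝ)..(1 / 2), Real.sqrt (1 - x ^ 2) ^ j := by
    refine intervalIntegral.integral_mono_on (by norm_num) (by simp) (hc.intervalIntegrable _ _)
      fun x hx => pow_le_pow_left₀ (by norm_num) (Real.le_sqrt_of_sq_le ?_) j
    nlinarith [hx.1, hx.2]
  have h2 : ∫ x in (-1 / 2 : ℝ)..(1 / 2), Real.sqrt (1 - x ^ 2) ^ j ≤
      ∫ x in (-1 : ℝ)..1, Real.sqrt (1 - x ^ 2) ^ j :=
    intervalIntegral.integral_mono_interval (by norm_num) (by norm_num) (by norm_num)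
      (Eventually.of_forall fun x => by positivity) (hc.intervalIntegrable _ _)
  rw [intervalIntegral.integral_const, smul_eq_mul] at h1
  linarith

variable [Cs]

theorem cps_bet_pos : 0 < bet := lt_of_lt_of_le (by positivity) (cps_bet (ii + 1))

theorem capstep {q θ d B Λ A : ℝ} {u T H e : ℂ → ℂ} {a0 b0 c0 : ℝ} {Tl Hl Wl : ℂ × ℂ → ℂ}
    (q0 : 0 < q) (q1 : q ≤ del1) (hB : B ≤ th0 ^ 2 * q) (d0 : 0 < d) (d1 : d ≤ th0 / 32)
    (t1 : th0 / 2 ≤ θ - 8 * d) (t2 : θ ≤ th0) (hΛ : 100 ≤ Λ)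
    (h : CapInv q θ B u T H e a0 b0 c0) (pc : PC q (θ - d) Λ (d ^ 2) A u T H Tl Hl Wl) :
    ∃ φ I, CS q (θ - 3 * d) d (Λ / 8) u e Tl Hl φ I := by
  have tp := th0_pos
  have tl := th0_le
  obtain ⟨φ, I, c⟩ := BonG.capstepJ (j := ii + 1) (Nat.succ_pos _) q0 (q1.trans del1_le)
    (hB.trans (mul_le_mul_of_nonneg_right th0_sq_le q0.le)) d0 (by linarith) (by linarith)
    (t2.trans tl) hΛ h.old pc
  have bp := cps_bet_pos
  have k0 : 0 ≤ Real.pi / bet * Real.sqrt q ^ (ii + 1) := by positivity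
  refine ⟨φ, fun p => ((Real.pi / bet * Real.sqrt q ^ (ii + 1) : ℝ) : ℂ) * I p, c.hφ,
    (HC.const _).mul c.hI, c.φ0, c.root, c.φz, c.φ1, fun p hp => ?_, fun t x y hp => ?_,
    fun t x y hp ht hx => ?_⟩
  · rw [norm_mul, Complex.norm_real, Real.norm_of_nonneg k0]
    have qs := del1_small
    have a1 : Real.sqrt q ≤ 1 / 4 := Real.sqrt_le_iff.2 ⟨by norm_num, by linarith⟩
    have a2 : Real.sqrt q ^ (ii + 1) ≤ (1 / 4) ^ (ii + 1) :=
      pow_le_pow_left₀ (Real.sqrt_nonneg _) a1 _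
    have a3 : (1 / 4 : ℝ) ^ (ii + 1) * 2 ^ (ii + 1) = (1 / 2) ^ (ii + 1) := by
      rw [← mul_pow]; norm_num
    have a4 : (1 / 2 : ℝ) ^ (ii + 1) ≤ bet := cps_bet (ii + 1)
    have a5 : Real.sqrt q ^ (ii + 1) * 2 ^ (ii + 1) ≤ bet :=
      (mul_le_mul_of_nonneg_right a2 (by positivity)).trans (a3.le.trans a4)
    calc _ ≤ Real.pi / bet * Real.sqrt q ^ (ii + 1) * (4 * q * 2 ^ (ii + 1)) :=
          mul_le_mul_of_nonneg_left (c.I0 p hp) k0
      _ = 4 * q * Real.pi * (Real.sqrt q ^ (ii + 1) * 2 ^ (ii + 1) / bet) := by ring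
      _ ≤ 4 * q * 4 * 1 := mul_le_mul (mul_le_mul_of_nonneg_left Real.pi_le_four (by positivity))
          ((div_le_one bp).2 a5) (by positivity) (by positivity)
      _ ≤ 1 := by linarith
  · obtain ⟨a1, a2⟩ := c.rl t x y hp
    exact ⟨a1, by rw [Complex.im_ofReal_mul, a2, mul_zero]⟩
  · obtain ⟨a1, a2, a3, a4⟩ := c.lnk t x y hp ht hx
    refine ⟨a1, a2, a3, ?_⟩
    rw [Complex.re_ofReal_mul, a4, mul_assoc, ← intervalIntegral.integral_const_mul]
    congr 1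
    refine intervalIntegral.integral_congr fun s _ => ?_
    simp only [Real.sqrt_mul q0.le, mul_pow]
    ring

end BonN
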