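import Pool.Agent.Lib.MP_3dbf58_gt.N.Defs

/-! Constants, and the tools restated with the new opening `th0`. -/

open Set Filter Topology MeasureTheory Metric

noncomputable section

namespace BonN

open Bon3

variable [Cs]

theorem Nr_ge : 3 ≤ Nr := by unfold Nr; have : (0 : ℝ) ≤ ii := Nat.cast_nonneg _; linarith
theorem Nr_pos : 0 < Nr := by linarith [Nr_ge]
theorem Nr_cast : ((ii + 3 : ℕ) : ℝ) = Nr := by unfold Nr; push_cast; ring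
theorem Nr_castC : ((ii + 3 : ℕ) : ℂ) = (Nr : ℂ) := by unfold Nr; push_cast; ring
theorem ii_le : (ii : ℝ) + 4 ≤ 2 * Nr := by unfold Nr; have : (0 : ℝ) ≤ ii := Nat.cast_nonneg _; linarith
theorem one_le_Nr_pow (k : ℕ) : 1 ≤ Nr ^ k := one_le_pow₀ (by linarith [Nr_ge])
theorem th0_pos : 0 < th0 := by unfold th0; have := Nr_pos; positivity
theorem th0_mul12 : th0 * Nr ^ 12 = 1 / 10 ^ 10 := by
  unfold th0; have := Nr_pos; field_simp
/-- the main smallness fact -/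
theorem th0_mul {k : ℕ} (hk : k ≤ 12) : th0 * Nr ^ k ≤ 1 / 10 ^ 10 := by
  rw [← th0_mul12]
  exact mul_le_mul_of_nonneg_left (pow_le_pow_right₀ (by linarith [Nr_ge]) hk) th0_pos.le
theorem th0_Nr : th0 * Nr ≤ 1 / 10 ^ 10 := by simpa using th0_mul (k := 1) (by norm_num)
theorem th0_small : th0 ≤ 1 / 10 ^ 15 := by
  have h : (3 : ℝ) ^ 12 ≤ Nr ^ 12 := pow_le_pow_left₀ (by norm_num) Nr_ge 12
  have := th0_mul12
  have := th0_pos
  nlinarith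
theorem th0_le : th0 ≤ Bon3.th0 := th0_small.trans (by unfold Bon3.th0; norm_num)
theorem th0_le_inv : th0 ≤ 1 / (10 ^ 10 * Nr) := by
  have := Nr_pos
  rw [le_div_iff₀ (by positivity)]; nlinarith [th0_Nr]
theorem del1_pos : 0 < del1 := by unfold del1; have := th0_pos; positivity
theorem del1_eq : del1 = th0 / 10 := rfl
theorem del1_small : del1 ≤ 1 / 10 ^ 16 := by unfold del1; linarith [th0_small]
theorem del1_le : del1 ≤ Bon3.del1 := del1_small.trans (by unfold Bon3.del1; norm_num)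
omit [Cs] in
theorem kap_eq : kap = 1 / 30 := rfl
theorem x0_pos : 0 < x0 := by unfold x0; have := Nr_pos; positivity
theorem x0_mul : x0 * Nr = 1 / 2 := by unfold x0; have := Nr_pos; field_simp
theorem x0_le : x0 ≤ 1 / 6 := by nlinarith [x0_mul, x0_pos, Nr_ge]
theorem ep0_pos : 0 < ep0 := pow_pos x0_pos 5
theorem ep0_mul : ep0 * Nr ^ 5 = 1 / 32 := by unfold ep0; rw [← mul_pow, x0_mul]; norm_num
theorem ep0_le : ep0 ≤ 1 / 7776 :=
  (pow_le_pow_left₀ x0_pos.le x0_le 5).trans (by norm_num)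
theorem dl0_eq : dl0 = 2 * ep0 := rfl
theorem nu_mul : Nr * nu = kap * (4 + dl0) := by unfold nu; have := Nr_pos; field_simp
theorem nu_pos : 0 < nu := by
  unfold nu dl0 kap; have := Nr_pos; have := ep0_pos; positivity
theorem nu_le : nu ≤ 1 / 20 := by
  have := nu_mul; have := ep0_le; have := Nr_ge; have := nu_pos
  unfold kap dl0 at *; nlinarith
theorem a2c_eq : a2c = Nr * (Nr - 2) / 2 * nu := by
  unfold a2c; linear_combination (-(Nr - 2) / 2) * nu_mul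
theorem a2c_pos : 0 < a2c := by
  have := Nr_ge; have := nu_pos; have : 0 < Nr - 2 := by linarith
  rw [a2c_eq]; have := Nr_pos; positivity
theorem a2c_le : a2c ≤ Nr / 10 := by
  have := Nr_ge; have := ep0_le; have := ep0_pos
  unfold a2c kap dl0; nlinarith
theorem a1c_pos : 0 < a1c := by
  have := a2c_pos; have := Nr_pos; have := ep0_pos
  unfold a1c kap dl0; positivity
theorem a1c_le : a1c ≤ Nr / 5 := by
  have := Nr_ge; have := ep0_le; have := ep0_pos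
  unfold a1c a2c kap dl0; nlinarith
theorem a1c_eq : a1c = Nr * (2 * nu + kap) + a2c := by
  unfold a1c; linear_combination (-2) * nu_mul
theorem a12c : a1c + a2c = kap * Nr * (5 + dl0) := by unfold a1c a2c; ring
theorem tol_pos : 0 < tol := by unfold tol; have := Nr_pos; positivity
theorem tol_mul : tol * Nr ^ 5 = 1 / 10 ^ 5 := by unfold tol; have := Nr_pos; field_simp
theorem tol_eq : tol = th0 * (10 ^ 5 * Nr ^ 7) := by
  unfold tol th0; have := Nr_pos; field_simp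
theorem tol_ep0 : tol = 32 / 10 ^ 5 * ep0 := by
  unfold tol ep0 x0; have := Nr_pos; field_simp; norm_num
theorem th0_tol {k : ℕ} (hk : k ≤ 7) : 10 ^ 5 * (th0 * Nr ^ k) ≤ tol := by
  have := mul_le_mul_of_nonneg_left (pow_le_pow_right₀ (by linarith [Nr_ge] : 1 ≤ Nr) hk) th0_pos.le
  rw [tol_eq]; nlinarith
theorem tol_le : tol ≤ 1 / 10 ^ 5 := by
  have := tol_mul; have := one_le_Nr_pow 5; have := tol_pos; nlinarith

/-! ### wrappers -/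

theorem Sec_norm {θ : ℝ} {ξ : ℂ} (h0 : 0 ≤ θ) (h1 : θ ≤ th0) (h : ξ ∈ Sec θ) :
    ‖ξ‖ ≤ (1 + θ) * ξ.re ∧ ‖ξ‖ ≤ 1 + 3 * θ ∧ ‖1 - ξ‖ ≤ 1 + 2 * θ ∧
      ‖1 - ξ‖ ≤ |1 - ξ.re| + 2 * θ := Bon3.Sec_norm h0 (h1.trans th0_le) h
theorem Sec_two {θ : ℝ} {ξ : ℂ} (h0 : 0 ≤ θ) (h1 : θ ≤ th0) (h : ξ ∈ Sec θ) :
    ‖ξ‖ ≤ 101 / 100 ∧ ‖1 - ξ‖ ≤ 101 / 100 := by
  have := Sec_norm h0 h1 h
  have := th0_small
  constructor <;> linarith
theorem Sec_ball {θ d : ℝ} {ξ : ℂ} (d0 : 0 < d) (hd : d ≤ θ) (h1 : θ ≤ th0) (h : ξ ∈ Sec (θ - d)) :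
    closedBall ξ (d / 4 * ‖ξ‖) ⊆ Sec θ := Bon3.Sec_ball d0 hd (h1.trans th0_le) h
theorem cauchy_Sec {θ d M : ℝ} {k : ℕ} {f : ℂ → ℂ} (d0 : 0 < d) (hd : d ≤ θ) (h1 : θ ≤ th0)
    (hk : k ≤ 5) (hf : DifferentiableOn ℂ f (Sec θ)) (hM : ∀ ζ ∈ Sec θ, ‖f ζ‖ ≤ M * ‖ζ‖ ^ k)
    {ξ : ℂ} (h : ξ ∈ Sec (θ - d)) : ‖deriv f ξ‖ * ‖ξ‖ ≤ 5 * M / d * ‖ξ‖ ^ k :=
  Bon3.cauchy_Sec d0 hd (h1.trans th0_le) hk hf hM h
theorem d2_G1 {θ d Λ M : ℝ} {k : ℕ} {f : ℂ × ℂ → ℂ} (d0 : 0 < d) (hd : d ≤ θ) (h1 : θ ≤ th0)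
    (hk : k ≤ 5) (hf : HC f (G1 θ Λ)) (hM : ∀ p ∈ G1 θ Λ, ‖f p‖ ≤ M * ‖p.2‖ ^ k) :
    HC (d2 f) (G1 θ Λ) ∧
      ∀ p ∈ G1 (θ - d) (Λ / 2), ‖d2 f p‖ * ‖p.2‖ ≤ 5 * M / d * ‖p.2‖ ^ k :=
  Bon3.d2_G1 d0 hd (h1.trans th0_le) hk hf hM
theorem d2_G2 {θ d Λ M : ℝ} {k : ℕ} {f : ℂ × ℂ → ℂ} (d0 : 0 < d) (hd : d ≤ θ) (h1 : θ ≤ th0)
    (hk : k ≤ 5) (hf : HC f (G2 θ Λ)) (hM : ∀ p ∈ G2 θ Λ, ‖f p‖ ≤ M * ‖p.2‖ ^ k) :
    HC (d2 f) (G2 θ Λ) ∧
      ∀ p ∈ G2 (θ - d) (Λ / 2), ‖d2 f p‖ * ‖p.2‖ ≤ 5 * M / d * ‖p.2‖ ^ k :=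
  Bon3.d2_G2 d0 hd (h1.trans th0_le) hk hf hM
theorem capOf_ok {q θ : ℝ} {u T H : ℂ → ℂ} {a0 b0 c0 : ℝ} (t0 : 0 < θ) (t1 : θ ≤ th0)
    (q0 : 0 < q) (q1 : q ≤ del1) (h : CapR q θ u T H a0 b0 c0) :
    PcOK (capOf q u T H a0 b0 c0) ∧ (capOf q u T H a0 b0 c0).X 1 = 0 ∧ 1 / 2 ≤ b0 :=
  Bon3.capOf_ok t0 (t1.trans th0_le) q0 (q1.trans del1_le) h

/-- the new cap invariant gives the old one -/
theorem CapInv.old {q θ B : ℝ} {u T H e : ℂ → ℂ} {a0 b0 c0 : ℝ}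
    (h : CapInv q θ B u T H e a0 b0 c0) : Bon3.CapInv q θ B u T H e a0 b0 c0 := by
  have b : del1 + B ≤ Bon3.del1 + B := by linarith [del1_le]
  exact ⟨h.du, h.dT, h.dH, h.de, h.ru, h.rT, h.rH, h.re, fun ξ m => (h.u0 ξ m).trans b,
    fun ξ m => (h.u1 ξ m).trans b, h.up, fun ξ m => (h.T0 ξ m).trans b, h.T1,
    fun ξ m => (h.H0 ξ m).trans b, h.H1, fun ξ m => (h.e0 ξ m).trans b, h.ch, h.vu, h.vT, h.vH⟩

theorem th0_sq_le : th0 ^ 2 ≤ Bon3.th0 ^ 2 := pow_le_pow_left₀ th0_pos.le th0_le 2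

theorem CapInv.capR {q θ B : ℝ} {u T H e : ℂ → ℂ} {a0 b0 c0 : ℝ} (q0 : 0 < q)
    (hB : B ≤ th0 ^ 2 * q) (q1 : q ≤ del1) (h : CapInv q θ B u T H e a0 b0 c0) :
    CapR q θ u T H a0 b0 c0 :=
  Bon3.CapInv.capR q0 (hB.trans (mul_le_mul_of_nonneg_right th0_sq_le q0.le)) (q1.trans del1_le)
    h.old

/-- the map `U` keeps every triangle -/
theorem U_maps {θ θ' η μ0 B : ℝ} {U : ℂ → ℂ} (t1 : th0 / 2 ≤ θ') (t2 : θ' ≤ θ) (t3 : θ ≤ th0)
    (e1 : 0 < η) (e2 : η ≤ th0) (mu : |μ0 - 2 * kap * η| ≤ th0 * η) (hB : B ≤ th0 ^ 2 * η)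
    (hU : ∀ ξ ∈ Sec θ, ‖U ξ - ξ - μ0 * ξ * (1 - ξ)‖ ≤ B * ‖ξ‖ ^ 2) {ξ : ℂ} (h : ξ ∈ Sec θ') :
    U ξ ∈ Sec θ' ∧ ‖U ξ‖ ≤ (1 + η) * ‖ξ‖ := by
  have s0 : (0 : ℝ) < th0 := th0_pos
  have s1 : th0 ≤ 1 / 1000 := th0_small.trans (by norm_num)
  have a0 := Sec_re_pos (by linarith) h
  obtain ⟨n1, n2, n3, -⟩ := Sec_norm (by linarith) (by linarith) h
  have r := hU ξ (Sec_mono (by linarith) t2 h)
  have m := abs_le.1 mu
  have e3 := mul_le_mul_of_nonneg_right s1 e1.le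
  have m1 : η / 16 ≤ μ0 := by unfold kap at m; linarith [m.1]
  have m2 : μ0 ≤ η / 14 := by unfold kap at m; linarith [m.2]
  have x0 := norm_nonneg ξ
  have r1 : B * ‖ξ‖ ^ 2 ≤ th0 ^ 2 * η * ‖ξ‖ ^ 2 := mul_le_mul_of_nonneg_right hB (by positivity)
  refine ⟨?_, ?_⟩
  · obtain ⟨h1, h2⟩ := h
    have r2 : th0 ^ 2 * η ≤ μ0 * θ' / 20 := by
      have := mul_le_mul m1 t1 (by positivity) (by linarith)
      nlinarith [mul_pos s0 e1]
    have r3 : ‖ξ‖ ^ 2 ≤ 2 * ξ.re ^ 2 := by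
      have := pow_le_pow_left₀ x0 (n1.trans (mul_le_mul_of_nonneg_right
        (show 1 + θ' ≤ 1.1 by linarith) a0.le)) 2
      nlinarith
    have k0 : 0 < μ0 * θ' * ξ.re := by have : 0 < θ' := by linarith
                                       have : 0 < μ0 := by linarith
                                       positivity
    have r4 : ‖U ξ - ξ - μ0 * ξ * (1 - ξ)‖ ≤ μ0 * θ' * ξ.re ^ 2 / 10 := by
      have := mul_le_mul r2 r3 (by positivity) (by nlinarith)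
      linarith
    have b := abs_le.1 ((Complex.abs_re_le_norm _).trans r4)
    have c := (Complex.abs_im_le_norm _).trans r4
    simp only [Complex.sub_re, Complex.mul_re, Complex.ofReal_re, Complex.ofReal_im, Complex.one_re,
      Complex.sub_im, Complex.mul_im, Complex.one_im, zero_mul, sub_zero, zero_sub, add_zero] at b c
    have c0 : 0 ≤ 1 + μ0 - 2 * μ0 * ξ.re := by nlinarith
    have c1 : |(U ξ).im| ≤ |ξ.im| * (1 + μ0 - 2 * μ0 * ξ.re) + μ0 * θ' * ξ.re ^ 2 / 10 := by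
      have := abs_sub_abs_le_abs_sub (U ξ).im (ξ.im * (1 + μ0 - 2 * μ0 * ξ.re))
      rw [abs_mul, abs_of_nonneg c0] at this
      rw [show (U ξ).im - ξ.im - (μ0 * ξ.re * -ξ.im + μ0 * ξ.im * (1 - ξ.re)) =
        (U ξ).im - ξ.im * (1 + μ0 - 2 * μ0 * ξ.re) by ring] at c
      linarith
    have q1 : ξ.im ^ 2 ≤ (θ' * ξ.re) ^ 2 := by
      rw [← sq_abs]; exact pow_le_pow_left₀ (abs_nonneg _) h1.le 2
    have k1 := mul_pos k0 a0
    refine ⟨?_, ?_⟩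
    · have d1 := mul_le_mul_of_nonneg_right h1.le c0
      have d2 := mul_le_mul_of_nonneg_left b.1 (show 0 ≤ θ' by linarith)
      have d3 : 0 ≤ θ' * (μ0 * ξ.im ^ 2) := by have : 0 < θ' := by linarith
                                               have : 0 < μ0 := by linarith
                                               positivity
      have d4 := mul_le_mul_of_nonneg_right (show θ' ≤ 1 by linarith) k1.le
      nlinarith
    · have d1 : 0 ≤ (1 + θ' - ξ.re) * (1 - μ0 * ξ.re) := mul_nonneg (by linarith) (by nlinarith)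
      have d2 := mul_le_mul_of_nonneg_left q1 (show 0 ≤ μ0 by linarith)
      have d3 := mul_le_mul_of_nonneg_left (show θ' * ξ.re ≤ 1 / 2 by nlinarith) k0.le
      have d4 := mul_le_mul_of_nonneg_left (show ξ.re ≤ 2 by linarith) k0.le
      nlinarith [b.2]
  · have a1 : ‖U ξ‖ ≤ ‖U ξ - ξ - μ0 * ξ * (1 - ξ)‖ + ‖ξ‖ + μ0 * ‖ξ‖ * ‖1 - ξ‖ := by
      have := norm_add₃_le (a := U ξ - ξ - μ0 * ξ * (1 - ξ)) (b := ξ) (c := μ0 * ξ * (1 - ξ))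
      rw [norm_mul, norm_mul, Complex.norm_real, Real.norm_of_nonneg (by linarith)] at this
      exact (le_of_eq (congrArg norm (by ring))).trans this
    have a2 := mul_le_mul (mul_le_mul_of_nonneg_right m2 x0) (show ‖1 - ξ‖ ≤ 2 by linarith)
      (norm_nonneg _) (by positivity)
    have a3 : th0 ^ 2 * ‖ξ‖ ≤ 1 / 2 := by nlinarith
    have a4 := mul_le_mul_of_nonneg_right a3 (show 0 ≤ η * ‖ξ‖ by positivity)
    nlinarith [mul_nonneg e1.le x0]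

theorem Num.small {P : Par} {θ d B a : ℝ} (h : Num P θ d B a) :
    a ≤ d ^ 12 * (th0 ^ 2 * P.η) ∧ d ≤ del1 ∧ B ≤ th0 ^ 2 * P.η ∧ B ≤ th0 ^ 2 * P.q ∧ 0 < P.q ∧
      P.η ≤ del1 ∧ 100 ≤ d ^ 6 / a ∧ d ^ 6 / a ≤ d ^ 4 / a := by
  obtain ⟨⟨et1, et2, q1, _⟩, d0, d1, _, _, a0, _, hB⟩ := h
  have hd12 : 0 < d ^ 12 := pow_pos d0 12
  have h1 : a / d ^ 12 ≤ th0 ^ 2 * P.η := by linarith
  have h2 : a ≤ d ^ 12 * (th0 ^ 2 * P.η) := by
    rw [div_le_iff₀ hd12] at h1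
    linarith
  have hd : d ≤ del1 := by
    have := th0_pos
    unfold del1
    linarith
  have hpos : 0 < a / d ^ 12 := div_pos a0 hd12
  have hB' : B ≤ th0 ^ 2 * P.η := by linarith
  have hd1 : d ≤ 1 := by
    linarith [del1_small]
  have he : P.η ≤ del1 := et2.trans q1
  refine ⟨h2, hd, hB', hB'.trans (mul_le_mul_of_nonneg_left et2 (sq_nonneg _)),
    et1.trans_le et2, he, ?_, ?_⟩
  · rw [le_div_iff₀ a0]
    have b1 : d ^ 6 ≤ 1 := pow_le_one₀ d0.le hd1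
    have b2 : th0 ^ 2 * P.η ≤ 1 / 100 := by
      have := del1_small
      have := th0_small
      have := th0_pos
      have : th0 ^ 2 ≤ 1 := by nlinarith
      nlinarith
    have b3 : d ^ 6 * (th0 ^ 2 * P.η) ≤ 1 * (1 / 100) :=
      mul_le_mul b1 b2 (by positivity) (by norm_num)
    have b4 : d ^ 12 * (th0 ^ 2 * P.η) = d ^ 6 * (d ^ 6 * (th0 ^ 2 * P.η)) := by ring
    have b5 := mul_le_mul_of_nonneg_left b3 (pow_pos d0 6).le
    linarith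
  · exact div_le_div_of_nonneg_right (pow_le_pow_of_le_one d0.le hd1 (by norm_num)) a0.le

/-! ### powers of numbers near `1` -/

omit [Cs] in
theorem pow_near {z : ℂ} {ε : ℝ} {k : ℕ} (h : ‖z - 1‖ ≤ ε) (hk : k * ε ≤ 1 / 2) :
    ‖z ^ k - 1‖ ≤ 2 * (k * ε) ∧ ‖z ^ k - 1 - k * (z - 1)‖ ≤ 2 * (k * ε) ^ 2 := by
  have e0 : 0 ≤ ε := (norm_nonneg _).trans h
  induction k with
  | zero => simp
  | succ k ih =>
    push_cast at hk ⊢
    have k0 : (0 : ℝ) ≤ k := Nat.cast_nonneg k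
    obtain ⟨i1, i2⟩ := ih (by nlinarith)
    have m : ‖(z ^ k - 1) * (z - 1)‖ ≤ 2 * (k * ε) * ε := by
      rw [norm_mul]; exact mul_le_mul i1 h (norm_nonneg _) (by positivity)
    constructor
    · have e : z ^ (k + 1) - 1 = (z ^ k - 1) + (z - 1) + (z ^ k - 1) * (z - 1) := by ring
      rw [e]
      refine norm_add₃_le.trans ?_
      nlinarith
    · have e : z ^ (k + 1) - 1 - (k + 1) * (z - 1) =
          (z ^ k - 1 - k * (z - 1)) + (z ^ k - 1) * (z - 1) := by ring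
      rw [e]
      refine (norm_add_le _ _).trans ?_
      nlinarith [mul_nonneg k0 (mul_nonneg e0 e0), mul_nonneg e0 e0]

omit [Cs] in
theorem csq_near1 {z : ℂ} (h : ‖z - 1‖ ≤ 1 / 10) :
    ‖csq z - 1‖ ≤ ‖z - 1‖ ∧ ‖csq z - 1 - (z - 1) / 2‖ ≤ ‖z - 1‖ ^ 2 := by
  have h1 := (csq_near (T := 1) (z := z) (by simp) (by simpa using h)).2
  rw [one_pow] at h1
  refine ⟨h1, ?_⟩
  have e : csq z - 1 - (z - 1) / 2 = -((csq z - 1) ^ 2) / 2 := by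
    linear_combination (1 / 2 : ℂ) * csq_sq z
  rw [e, norm_div, norm_neg, norm_pow]
  have := pow_le_pow_left₀ (norm_nonneg _) h1 2
  simp only [Complex.norm_ofNat]
  nlinarith [sq_nonneg ‖z - 1‖]

end BonN
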