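import Pool.Agent.Lib.MP_3dbf58_gt.N.GDefs
import Pool.Agent.Lib.MP_3dbf58_gt.LinA
import Pool.Agent.Lib.MP_3dbf58_gt.RepL

/-! Definitions for the counterexample in dimension `n = ii + 5`; `N = n - 2 = ii + 3`. -/

open Set Filter Topology MeasureTheory

noncomputable section

namespace BonN

open Bon3

/-- the dimension is `i + 5` -/
class Cs where
  i : ℕ

variable [Cs]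

abbrev ii : ℕ := Cs.i
/-- `N = n - 2` as a real number -/
def Nr : ℝ := (ii : ℝ) + 3

def th0 : ℝ := 1 / (10 ^ 10 * Nr ^ 12)
def del1 : ℝ := th0 / 10
def x0 : ℝ := 1 / (2 * Nr)
def ep0 : ℝ := x0 ^ 5
def dl0 : ℝ := 2 * ep0
def nu : ℝ := kap * (4 + dl0) / Nr
def a2c : ℝ := kap * (Nr - 2) * (4 + dl0) / 2
def a1c : ℝ := kap * (2 * (4 + dl0) + Nr) + a2c
def tol : ℝ := 1 / (10 ^ 5 * Nr ^ 5)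
/-- `2 N` -/
abbrev n2 : ℕ := 2 * ii + 6
/-- `2 N + 12` -/
abbrev ex : ℕ := 2 * ii + 18

/-! ### Complex side -/

/-- divided difference in integral form -/
def ddI (e : ℂ → ℂ) (a b : ℂ) : ℂ := ∫ s in Ioo (0 : ℝ) 1, deriv e (b + s * (a - b))
def nnI (z e : ℂ → ℂ) (a b : ℂ) : ℂ :=
  z b ^ 2 - (1 - a) * ddI e a b * (2 * z b + (e a - e b))
def wg (s : ℝ) : ℝ := Real.sqrt (s * (1 - s)) ^ (ii + 1)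
def be2 : ℝ := ∫ s in Ioo (0 : ℝ) 1, wg s
def Psi (z e : ℂ → ℂ) (a b : ℂ) : ℂ :=
  (∫ s in Ioo (0 : ℝ) 1, (wg s : ℂ) * csq (nnI z e (b + s * (a - b)) b) ^ (ii + 1)) / be2
def Th (z e : ℂ → ℂ) (b a : ℂ) : ℂ := (a - b) ^ (ii + 2) * Psi z e a b
/-- kernel of the inverse Abel transform -/
def KK (z e : ℂ → ℂ) (a b : ℂ) : ℂ := iteratedDeriv (ii + 3) (Th z e b) a / (ii + 2).factorial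

/-- first variation of the section volume coming from one cap -/
def gcap (z e w : ℂ → ℂ) (ξ : ℂ) : ℂ :=
  ξ * ∫ v in Ioo (0 : ℝ) 1, ff z w (v * ξ) * csq (NN z e ξ (v * ξ)) ^ (ii + 1)

/-- its Abel inverse -/
def Lcap (z e w : ℂ → ℂ) (ξ : ℂ) : ℂ :=
  ff z w ξ * csq (nd z e ξ) ^ (ii + 1) +
    ξ * ∫ v in Ioo (0 : ℝ) 1, ff z w (v * ξ) * KK z e ξ (v * ξ)

def rN (ρ : ℂ → ℂ) (ξ : ℂ) : ℂ := ρ ξ ^ (ii + 3)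
def ell (U w : ℂ → ℂ) : ℂ := a1c * prim (fun ζ => w (U ζ)) x0 + a2c * prim w x0

/-- Abel integral -/
def Jr (f : ℝ → ℝ) (x : ℝ) : ℝ := ∫ v in (0 : ℝ)..x, f v * Real.sqrt (x - v) ^ (ii + 1)
def cq (q : ℝ) : ℝ := q ^ 2 * Real.sqrt q ^ (ii + 1)

/-- the kernel is close to `c` -/
def KN (θ M : ℝ) (c : ℝ) (z e : ℂ → ℂ) : Prop :=
  ∀ ξ ∈ Sec θ, ∀ v ∈ Ioo (0 : ℝ) 1, ‖ξ * KK z e ξ (v * ξ) - c * ξ‖ ≤ M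

/-- crude bounds on Lagrangian data -/
structure LD (θ A : ℝ) (z e w : ℂ → ℂ) : Prop where
  dz : DifferentiableOn ℂ z (Sec θ)
  de : DifferentiableOn ℂ e (Sec θ)
  dw : DifferentiableOn ℂ w (Sec θ)
  z0 : ∀ ξ ∈ Sec θ, ‖z ξ - 1‖ ≤ 1 / (20 * Nr)
  z1 : ∀ ξ ∈ Sec θ, ‖deriv z ξ‖ ≤ 1 / 20
  e1 : ∀ ξ ∈ Sec θ, ‖deriv e ξ‖ ≤ 1 / (20 * Nr)
  w0 : ∀ ξ ∈ Sec θ, ‖w ξ‖ ≤ A * ‖ξ‖ ^ 4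

/-- the same for a family depending on `λ` -/
structure LD2 (θ Λ A : ℝ) (z e w : ℂ × ℂ → ℂ) : Prop where
  hz : HC z (G1 θ Λ)
  he : HC e (G1 θ Λ)
  hw : HC w (G1 θ Λ)
  hz1 : HC (d2 z) (G1 θ Λ)
  he1 : HC (d2 e) (G1 θ Λ)
  z0 : ∀ p ∈ G1 θ Λ, ‖z p - 1‖ ≤ 1 / (20 * Nr)
  z1 : ∀ p ∈ G1 θ Λ, ‖d2 z p‖ ≤ 1 / 20
  e1 : ∀ p ∈ G1 θ Λ, ‖d2 e p‖ ≤ 1 / (20 * Nr)
  w0 : ∀ p ∈ G1 θ Λ, ‖w p‖ ≤ A * ‖p.2‖ ^ 4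

/-- hypotheses of the linear problem -/
structure LinHyp (θ η μ0 B : ℝ) (zp zm h ρ U : ℂ → ℂ) : Prop where
  th1 : th0 / 2 ≤ θ
  th2 : θ ≤ th0
  et1 : 0 < η
  et2 : η ≤ th0
  mu : |μ0 - 2 * kap * η| ≤ th0 * η
  hB : B ≤ th0 ^ 2 * η
  dzp : DifferentiableOn ℂ zp (Sec θ)
  dzm : DifferentiableOn ℂ zm (Sec θ)
  dh : DifferentiableOn ℂ h (Sec θ)
  dρ : DifferentiableOn ℂ ρ (Sec θ)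
  dU : DifferentiableOn ℂ U (Sec θ)
  rzp : Rl zp θ
  rzm : Rl zm θ
  rh : Rl h θ
  rρ : Rl ρ θ
  rU : Rl U θ
  zp0 : ∀ ξ ∈ Sec θ, ‖zp ξ - 1‖ ≤ th0
  zm0 : ∀ ξ ∈ Sec θ, ‖zm ξ - 1‖ ≤ th0
  zp1 : ∀ ξ ∈ Sec θ, ‖deriv zp ξ‖ ≤ th0
  zm1 : ∀ ξ ∈ Sec θ, ‖deriv zm ξ‖ ≤ th0
  h1 : ∀ ξ ∈ Sec θ, ‖deriv h ξ + nu * η‖ ≤ B
  ρ0 : ∀ ξ ∈ Sec θ, ‖ρ ξ - 1‖ ≤ th0
  ρ1 : ∀ ξ ∈ Sec θ, ‖deriv ρ ξ + (2 * nu + kap) * η‖ ≤ B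
  U0 : ∀ ξ ∈ Sec θ, ‖U ξ - ξ - μ0 * ξ * (1 - ξ)‖ ≤ B * ‖ξ‖ ^ 2
  f1 : ∀ ξ ∈ Sec θ, ‖ρ ξ * zm ξ - zp ξ * (1 - kap * η * ξ)‖ ≤ B
  f2 : ∀ ξ ∈ Sec θ, ‖deriv zm ξ * zp ξ - deriv zp ξ * zm ξ - 2 * nu * η‖ ≤ B
  kp : KN θ (tol * η) (-(a2c * η)) zp h
  km : KN θ (tol * η) (a2c * η) zm (fun ζ => -h ζ)

/-- `w` solves the modified linear equation with right side `E` and parameter `μ` -/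
structure WOK (θ η a μ : ℝ) (zp zm h ρ U E w : ℂ → ℂ) : Prop where
  dw : DifferentiableOn ℂ w (Sec θ)
  rw : Rl w θ
  w0 : ∀ ξ ∈ Sec θ, ‖w ξ‖ ≤ a * ‖ξ‖ ^ 4
  eq : ∀ ξ ∈ Sec θ, Lcap zp h w ξ + Lcap zm (fun ζ => -h ζ) (wm (rN ρ) U w) ξ +
    η * ξ ^ 5 * (ell U w - μ) = -E ξ

/-- one cap in Lagrangian form; `e` is the offset of the critical plane -/
structure CapInv (q θ B : ℝ) (u T H e : ℂ → ℂ) (a0 b0 c0 : ℝ) : Prop where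
  du : DifferentiableOn ℂ u (Sec θ)
  dT : DifferentiableOn ℂ T (Sec θ)
  dH : DifferentiableOn ℂ H (Sec θ)
  de : DifferentiableOn ℂ e (Sec θ)
  ru : Rl u θ
  rT : Rl T θ
  rH : Rl H θ
  re : Rl e θ
  u0 : ∀ ξ ∈ Sec θ, ‖u ξ - (1 - ξ)‖ ≤ del1 + B
  u1 : ∀ ξ ∈ Sec θ, ‖deriv u ξ + 1‖ ≤ del1 + B
  up : u 1 = 0
  T0 : ∀ ξ ∈ Sec θ, ‖T ξ - 1‖ ≤ del1 + B
  T1 : ∀ ξ ∈ Sec θ, ‖deriv T ξ - q / 2‖ ≤ q / 16 + B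
  H0 : ∀ ξ ∈ Sec θ, ‖H ξ - 1‖ ≤ del1 + B
  H1 : ∀ ξ ∈ Sec θ, deriv H ξ = -q * (T ξ * deriv u ξ / 2 + u ξ * deriv T ξ)
  e0 : ∀ ξ ∈ Sec θ, ‖e ξ‖ ≤ del1 + B
  ch : ∀ ξ ∈ Sec θ, u ξ * T ξ ^ 2 = (1 - ξ) * (H ξ + e ξ) ^ 2
  vu : ∀ ξ ∈ Sec θ, ‖u ξ - a0‖ ≤ (2 + B) * ‖ξ‖
  vT : ∀ ξ ∈ Sec θ, ‖T ξ - b0‖ ≤ (2 + B) * ‖ξ‖
  vH : ∀ ξ ∈ Sec θ, ‖H ξ - c0‖ ≤ (2 + B) * ‖ξ‖

def bet : ℝ := ∫ x in (-1 : ℝ)..1, Real.sqrt (1 - x ^ 2) ^ (ii + 1)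

/-- chord end `φ` and cap part `I` of the criticality integral -/
structure CS (q θ d Λ : ℝ) (u e : ℂ → ℂ) (Tl Hl : ℂ × ℂ → ℂ) (φ I : ℂ × ℂ × ℂ → ℂ) : Prop where
  hφ : HC φ (G3 θ Λ (d / 1000) e)
  hI : HC I (G3 θ Λ (d / 1000) e)
  φ0 : ∀ p ∈ G3 θ Λ (d / 1000) e, ‖φ p - p.2.1‖ ≤ d / 200 * ‖p.2.1‖
  root : ∀ p ∈ G3 θ Λ (d / 1000) e, Nl u Tl Hl p (φ p) = 0
  φz : ∀ ξ ∈ Sec θ, φ (0, ξ, e ξ) = ξ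
  φ1 : ∀ p ∈ G3 θ Λ (d / 1000) e, p.2.1 = 1 → φ p = 1
  I0 : ∀ p ∈ G3 θ Λ (d / 1000) e, ‖I p‖ ≤ 1
  rl : ∀ t x y : ℝ, ((t : ℂ), (x : ℂ), (y : ℂ)) ∈ G3 θ Λ (d / 1000) e →
    (φ (t, x, y)).im = 0 ∧ (I (t, x, y)).im = 0
  lnk : ∀ t x y : ℝ, ((t : ℂ), (x : ℂ), (y : ℂ)) ∈ G3 θ Λ (d / 1000) e → |t| ≤ 2 → x ≤ 1 →
    (φ (t, x, y)).re ∈ Ioc (0 : ℝ) 1 ∧
    (∀ s : ℝ, 0 < s → s < (φ (t, x, y)).re → 0 < (Nl u Tl Hl (t, x, y) s).re) ∧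
    (∀ s : ℝ, (φ (t, x, y)).re ≤ s → s ≤ 1 → (Nl u Tl Hl (t, x, y) s).re ≤ 0) ∧
    (I (t, x, y)).re = Real.pi / bet * ∫ s in (0 : ℝ)..1, ((Hl (t, s)).re + y) *
      Real.sqrt (q * (Nl u Tl Hl (t, x, y) s).re) ^ (ii + 1) * (d2 Hl (t, s)).re

/-! ### Real side -/

def Ar (g : ℝ → ℝ) (σ y : ℝ) : ℝ := 2 / Nr * BonG.ArI (ii + 3) g σ y
def Cr (g : ℝ → ℝ) (σ y : ℝ) : ℝ :=
  Real.pi / bet * ∫ x in (-2 : ℝ)..2, (x + y) * Real.sqrt (g x - σ * (x + y) ^ 2) ^ (ii + 1)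
abbrev BrEq (g g' : ℝ → ℝ) : Prop := BonG.BrEq (ii + 3) g g'

/-! ### The Newton scheme -/

structure ParOK (P : Par) : Prop where
  et1 : 0 < P.η
  et2 : P.η ≤ P.q
  q1 : P.q ≤ del1
  mu : |P.μ0 - 2 * kap * P.η| ≤ th0 * P.η

/-- complex invariants -/
structure InvC (P : Par) (θ d B : ℝ) (S : St) : Prop where
  cp : CapInv P.q θ B S.up S.Tp S.Hp S.h P.u0 P.Tp0 P.Hp0
  cm : CapInv P.q θ B S.um S.Tm S.Hm (fun ξ => -S.h ξ) P.u0 P.Tm0 P.Hm0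
  h1 : ∀ ξ ∈ Sec θ, ‖deriv S.h ξ + nu * P.η‖ ≤ B
  h2 : ∀ ξ ∈ Sec θ, ‖deriv (deriv S.h) ξ‖ ≤ B
  dU : DifferentiableOn ℂ S.U (Sec θ)
  rU : Rl S.U θ
  U0 : ∀ ξ ∈ Sec θ, ‖S.U ξ - ξ - P.μ0 * ξ * (1 - ξ)‖ ≤ B * ‖ξ‖ ^ 2
  Uu : ∀ ξ ∈ Sec θ, S.up (S.U ξ) = S.um ξ
  dρ : DifferentiableOn ℂ S.ρ (Sec θ)
  rρ : Rl S.ρ θ
  ρT : ∀ ξ ∈ Sec θ, S.ρ ξ * S.Tm ξ = S.Tp (S.U ξ)
  ρ1 : ∀ ξ ∈ Sec θ, ‖deriv S.ρ ξ + (2 * nu + kap) * P.η‖ ≤ B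
  f1 : ∀ ξ ∈ Sec θ, ‖S.ρ ξ * S.zm ξ - S.zp ξ * (1 - kap * P.η * ξ)‖ ≤ B
  f2 : ∀ ξ ∈ Sec θ, ‖deriv S.zm ξ * S.zp ξ - deriv S.zp ξ * S.zm ξ - 2 * nu * P.η‖ ≤ B
  hC : HC S.Cf (Dom θ (d / 1000) S.h)
  C0 : ∀ ξ ∈ Sec θ, S.Cf (ξ, S.h ξ) = 0
  C1 : ∀ ξ y y', (ξ, y) ∈ Dom θ (d / 1000) S.h → (ξ, y') ∈ Dom θ (d / 1000) S.h →
    ‖S.Cf (ξ, y) - S.Cf (ξ, y') - (y - y')‖ ≤ (1 / 8 + B) * ‖y - y'‖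
  rC : Rl2 S.Cf (Dom θ (d / 1000) S.h)

/-- the kernels stay close to their first order values -/
structure InvK (P : Par) (θ B : ℝ) (S : St) : Prop where
  kp : KN θ (tol * P.η / 2 + B) (-(a2c * P.η)) S.zp S.h
  km : KN θ (tol * P.η / 2 + B) (a2c * P.η) S.zm (fun ζ => -S.h ζ)

/-- link with the real body -/
structure InvR (P : Par) (θ d e : ℝ) (S : St) : Prop where
  dE : DifferentiableOn ℂ S.E (Sec θ)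
  rE : Rl S.E θ
  E0 : ∀ ξ ∈ Sec θ, ‖S.E ξ‖ ≤ e * ‖ξ‖ ^ 4
  rep : Rep S.g P.band (S.cp P) (S.cm P)
  br : BrEq S.g P.gb
  lC : ∀ x y : ℝ, ((x : ℂ), (y : ℂ)) ∈ Dom θ (d / 1000) S.h → x ≤ 1 →
    Cr S.g (P.q * (1 - x)) y = Real.pi * (S.Cf (x, y)).re
  lA : ∀ x ∈ Ioc (0 : ℝ) 1, Ar S.g (P.q * (1 - x)) (S.h x).re - P.Gb x =
    cq P.q * Jr (fun v => (S.E v).re + S.s * v ^ 5) x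

/-- numerical side conditions of one Newton step -/
structure Num (P : Par) (θ d B a : ℝ) : Prop where
  par : ParOK P
  d0 : 0 < d
  d1 : d ≤ th0 / 32
  th1 : th0 / 2 ≤ θ - 8 * d
  th2 : θ ≤ th0
  a0 : 0 < a
  B0 : 0 ≤ B
  hB : B + a / d ^ 12 ≤ th0 ^ 2 * P.η

structure FamOK (P : Par) (θ d B a : ℝ) (S : St) (w : ℂ → ℂ) (F : Fam) : Prop where
  pcp : PC P.q (θ - d) (d ^ 4 / a) (d ^ 2) (a / d ^ 2) S.up S.Tp S.Hp F.Tp F.Hp F.Wp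
  pcm : PC P.q (θ - d) (d ^ 4 / a) (d ^ 2) (a / d ^ 2) S.um S.Tm S.Hm F.Tm F.Hm F.Wm
  Wp : ∀ p, F.Wp p = w p.2
  Wm : ∀ ξ ∈ Sec (θ - d), F.Wm (0, ξ) = wm (rN S.ρ) S.U w ξ
  Tp2 : HC (fun p => F.Tp (p.1, S.U p.2)) (G2 (θ - d) (d ^ 4 / a))
  Tp3 : ∀ p ∈ G2 (θ - d) (d ^ 4 / a), ‖F.Tp (p.1, S.U p.2) - S.Tp (S.U p.2)‖ ≤ d ^ 2 * ‖p.2‖
  br : ∀ p ∈ G2 (θ - d) (d ^ 4 / a), F.Tm p ^ (ii + 4) - S.Tm p.2 ^ (ii + 4) =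
    S.Tp (S.U p.2) ^ (ii + 4) - F.Tp (p.1, S.U p.2) ^ (ii + 4)
  csp : CS P.q (θ - 3 * d) d (d ^ 4 / a / 8) S.up S.h F.Tp F.Hp F.φp F.Ip
  csm : CS P.q (θ - 3 * d) d (d ^ 4 / a / 8) S.um (fun ξ => -S.h ξ) F.Tm F.Hm F.φm F.Im
  hl : HL (θ - 3 * d) d (d ^ 6 / a) (1 / 8 + (B + a / d ^ 12)) S.h S.Cf F.Ip F.Im F.h

/-- the linearised operator along the family -/
def FL (F : Fam) (p : ℂ × ℂ) : ℂ :=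
  Lcap (sl F.zp p.1) (sl F.h p.1) (sl F.wp p.1) p.2 +
    Lcap (sl F.zm p.1) (sl (fun r => -F.h r) p.1) (sl F.wm p.1) p.2
/-- the new error -/
def FE (F : Fam) (ξ : ℂ) : ℂ := ∫ t in Ioo (0 : ℝ) 1, (FL F (t, ξ) - FL F (0, ξ))

/-- the new state -/
def newSt (S : St) (F : Fam) (U : ℂ → ℂ) (g : ℝ → ℝ) (s : ℝ) : St where
  up := fun ξ => S.up (F.fp (1, ξ))
  Tp := fun ξ => F.Tp (1, F.fp (1, ξ))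
  Hp := fun ξ => F.Hp (1, F.fp (1, ξ))
  um := fun ξ => S.um (F.fm (1, ξ))
  Tm := fun ξ => F.Tm (1, F.fm (1, ξ))
  Hm := fun ξ => F.Hm (1, F.fm (1, ξ))
  h := sl F.h 1
  ρ := fun ξ => F.Tp (1, S.U (F.fm (1, ξ))) / F.Tm (1, F.fm (1, ξ))
  U := U
  E := FE F
  Cf := fun p => Cfl S.Cf F.Ip F.Im (1, p)
  g := g
  s := s

end BonN
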