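import Pool.Agent.Lib.MP_3dbf58_gt.N.Cst
import Pool.Agent.Lib.MP_3dbf58_gt.FamL

open Set Filter Topology MeasureTheory Metric

noncomputable section

namespace BonN

open Bon3

variable [Cs]

theorem Num.seven {P : Par} {θ d B a : ℝ} (h : Num P θ d B a) :
    100 ≤ d ^ 7 / a ∧ d ^ 7 / a ≤ d ^ 6 / a / 8 := by
  obtain ⟨s1, s2, -, -, -, s6, -, -⟩ := h.small
  have d0 := h.d0
  have a0 := h.a0
  have e0 := h.par.et1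
  have h0 := th0_pos
  have h1 := th0_small
  have h2 := del1_small
  constructor
  · rw [le_div_iff₀ a0]
    have b1 : d ^ 5 ≤ 1 := pow_le_one₀ d0.le (by linarith)
    have b0 : th0 ^ 2 ≤ 1 := by nlinarith
    have b2 : th0 ^ 2 * P.η ≤ 1 * (1 / 100) := mul_le_mul b0 (by linarith) e0.le zero_le_one
    have b3 : d ^ 5 * (th0 ^ 2 * P.η) ≤ 1 * (1 * (1 / 100)) :=
      mul_le_mul b1 b2 (by positivity) (by norm_num)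
    have b4 : d ^ 12 * (th0 ^ 2 * P.η) = d ^ 7 * (d ^ 5 * (th0 ^ 2 * P.η)) := by ring
    have b5 := mul_le_mul_of_nonneg_left b3 (pow_pos d0 7).le
    linarith
  · have b1 : d ^ 7 / a = d * (d ^ 6 / a) := by ring
    have b2 : 0 ≤ d ^ 6 / a := by positivity
    have b3 := mul_le_mul_of_nonneg_right (show d ≤ 1 / 8 by linarith) b2
    linarith

theorem ff_num {P : Par} {θ d B a : ℝ} (N : Num P θ d B a) :
    0 < d ∧ d ≤ th0 / 10 ∧ 16 * d ≤ θ - 8 * d ∧ θ ≤ th0 ∧ B ≤ th0 / 10 ∧ P.q ≤ th0 / 10 ∧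
      P.η ≤ th0 / 10 ∧ 16 * (d ^ 6 / a) ≤ d ^ 4 / a := by
  obtain ⟨-, s2, -, s4, s5, s6, -, -⟩ := N.small
  have q1 := N.par.q1
  have d0 := N.d0
  have d1 := N.d1
  have t1 := N.th1
  have h0 := th0_pos
  have h1 := th0_small
  rw [del1_eq] at s2 s6 q1
  refine ⟨d0, s2, by linarith, N.th2, ?_, q1, s6, ?_⟩
  · have e1 : th0 ^ 2 ≤ 1 := by nlinarith
    have e2 := mul_le_mul_of_nonneg_right e1 s5.le
    linarith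
  · have e0 : d ≤ 1 / 16 := by linarith
    have : 16 * d ^ 2 ≤ 1 := by nlinarith
    have h4 : 0 ≤ d ^ 4 / a := by have := N.a0; positivity
    calc 16 * (d ^ 6 / a) = 16 * d ^ 2 * (d ^ 4 / a) := by ring
      _ ≤ 1 * (d ^ 4 / a) := by gcongr
      _ = _ := one_mul _

/-- chord end along the family, one cap -/
theorem ff_cap {q θ d Λ Λ' : ℝ} {u e : ℂ → ℂ} {Tl Hl el : ℂ × ℂ → ℂ} {φ I : ℂ × ℂ × ℂ → ℂ}
    (d0 : 0 < d) (d1 : d ≤ 1 / 10 ^ 7) (t1 : 16 * d ≤ θ - 8 * d) (t2 : θ ≤ th0) (Λ0 : 0 < Λ)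
    (hΛ : 16 * Λ ≤ Λ') (cs : CS q (θ - 3 * d) d (Λ' / 8) u e Tl Hl φ I)
    (hh : HC el (G1 (θ - 3 * d) Λ)) (rh : Rl2 el (G1 (θ - 3 * d) Λ))
    (h0 : ∀ p ∈ G1 (θ - 3 * d) Λ, ‖el p - e p.2‖ ≤ d / 8000 * ‖p.2‖)
    (hz : ∀ ξ ∈ Sec (θ - 3 * d), el (0, ξ) = e ξ) :
    HC (fun p : ℂ × ℂ => φ (p.1, p.2, el p)) (G1 (θ - 3 * d) Λ) ∧
    Rl2 (fun p : ℂ × ℂ => φ (p.1, p.2, el p)) (G1 (θ - 3 * d) Λ) ∧
    (∀ p ∈ G1 (θ - 3 * d) Λ, (p.1, p.2, el p) ∈ G3 (θ - 3 * d) (Λ' / 8) (d / 1000) e ∧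
      ‖φ (p.1, p.2, el p) - p.2‖ ≤ d / 200 * ‖p.2‖ ∧
      (p.1, φ (p.1, p.2, el p)) ∈ G2 (θ - 2 * d) (Λ' / 2)) ∧
    (∀ ξ ∈ Sec (θ - 3 * d), φ (0, ξ, el (0, ξ)) = ξ) ∧
    ∀ p ∈ G1 (θ - 4 * d) (Λ / 2), ‖d2 (fun p : ℂ × ℂ => φ (p.1, p.2, el p)) p - 1‖ ≤ 1 / 20 := by
  have t3 := t2.trans th0_le
  have m3 : ∀ p ∈ G1 (θ - 3 * d) Λ,
      (p.1, p.2, el p) ∈ G3 (θ - 3 * d) (Λ' / 8) (d / 1000) e := by
    intro p hp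
    obtain ⟨n0, n2⟩ := fl_norm (by linarith) (by linarith) hp.1
    refine ⟨hp.1, ?_, ?_⟩
    · have := hp.2
      have h1 : 0 ≤ ‖p.1‖ * ‖p.2‖ := by positivity
      show ‖p.1‖ * ‖p.2‖ ^ 2 < Λ' / 8
      nlinarith
    · show ‖el p - e p.2‖ < d / 1000 * ‖p.2‖
      have := h0 p hp
      nlinarith [mul_pos d0 n0]
  have hf : HC (fun p : ℂ × ℂ => φ (p.1, p.2, el p)) (G1 (θ - 3 * d) Λ) :=
    HC.comp cs.hφ ((HC.fst HC.id).prodMk ((HC.snd HC.id).prodMk hh)) m3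
  have f0 : ∀ p ∈ G1 (θ - 3 * d) Λ, ‖φ (p.1, p.2, el p) - p.2‖ ≤ d / 200 * ‖p.2‖ :=
    fun p hp => cs.φ0 _ (m3 p hp)
  refine ⟨hf, ?_, fun p hp => ⟨m3 p hp, f0 p hp, ?_, ?_⟩, ?_, ?_⟩
  · intro t x hp
    have e1 := fl_ofReal (rh t x hp)
    have m := m3 _ hp
    show (φ ((t : ℂ), (x : ℂ), el (t, x))).im = 0
    rw [← e1]
    refine (cs.rl t x _ ?_).1
    rw [e1]
    exact m
  · obtain ⟨n0, -⟩ := fl_norm (by linarith) (by linarith) hp.1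
    refine Sec_ball (θ := θ - 2 * d) d0 (by linarith) (by linarith)
      (show p.2 ∈ Sec (θ - 2 * d - d) by rw [show θ - 2 * d - d = θ - 3 * d by ring]; exact hp.1) ?_
    rw [mem_closedBall, dist_eq_norm]
    have := f0 p hp
    nlinarith [mul_pos d0 n0]
  · obtain ⟨n0, n2⟩ := fl_norm (by linarith) (by linarith) hp.1
    have a1 : ‖φ (p.1, p.2, el p)‖ ≤ 3 / 2 * ‖p.2‖ := by
      have := norm_add_le (φ (p.1, p.2, el p) - p.2) p.2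
      rw [sub_add_cancel] at this
      have := f0 p hp
      nlinarith
    have a2 : ‖φ (p.1, p.2, el p)‖ ^ 2 ≤ 9 / 2 * ‖p.2‖ := by
      have := pow_le_pow_left₀ (norm_nonneg _) a1 2
      nlinarith
    have a3 := mul_le_mul_of_nonneg_left a2 (norm_nonneg p.1)
    have := hp.2
    show ‖p.1‖ * ‖φ (p.1, p.2, el p)‖ ^ 2 < Λ' / 2
    nlinarith
  · intro ξ hξ
    rw [hz ξ hξ]
    exact cs.φz ξ hξ
  · intro p hp
    have := fl_d2 (g := fun ξ => ξ) (M := d / 200) d0 (by linarith) (by linarith) Λ0.le hf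
      differentiableOn_id f0 (p := p)
      (by rw [show θ - 3 * d - d = θ - 4 * d by ring]; exact hp)
    rw [deriv_id''] at this
    refine this.trans (le_of_eq_of_le (b := 1 / 40) (by field_simp; norm_num) (by norm_num))

/-- basic facts on the chord-end maps of the family -/
theorem FamOK.f {P : Par} {θ d B a : ℝ} {S : St} {w : ℂ → ℂ} {F : Fam} (N : Num P θ d B a)
    (h : InvC P θ d B S) (H : FamOK P θ d B a S w F) :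
    HC F.fp (G1 (θ - 3 * d) (d ^ 6 / a)) ∧ HC F.fm (G1 (θ - 3 * d) (d ^ 6 / a)) ∧
    Rl2 F.fp (G1 (θ - 3 * d) (d ^ 6 / a)) ∧ Rl2 F.fm (G1 (θ - 3 * d) (d ^ 6 / a)) ∧
    (∀ p ∈ G1 (θ - 3 * d) (d ^ 6 / a),
      (p.1, p.2, F.h p) ∈ G3 (θ - 3 * d) (d ^ 4 / a / 8) (d / 1000) S.h ∧
      (p.1, p.2, -F.h p) ∈ G3 (θ - 3 * d) (d ^ 4 / a / 8) (d / 1000) (fun ξ => -S.h ξ) ∧
      ‖F.fp p - p.2‖ ≤ d / 200 * ‖p.2‖ ∧ ‖F.fm p - p.2‖ ≤ d / 200 * ‖p.2‖ ∧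
      (p.1, F.fp p) ∈ G2 (θ - 2 * d) (d ^ 4 / a / 2) ∧
      (p.1, F.fm p) ∈ G2 (θ - 2 * d) (d ^ 4 / a / 2)) ∧
    (∀ ξ ∈ Sec (θ - 3 * d), F.fp (0, ξ) = ξ ∧ F.fm (0, ξ) = ξ) ∧
    ∀ p ∈ G1 (θ - 4 * d) (d ^ 6 / a / 2), ‖d2 F.fp p - 1‖ ≤ 1 / 20 ∧ ‖d2 F.fm p - 1‖ ≤ 1 / 20 := by
  have _h := h.C0
  obtain ⟨d0, d1, t1, t2, -, -, -, l1⟩ := ff_num N
  replace d1 : d ≤ 1 / 10 ^ 7 := by linarith [th0_small]
  have Λ0 : 0 < d ^ 6 / a := by have := N.a0; positivity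
  obtain ⟨a1, a2, a3, a4, a5⟩ := ff_cap d0 d1 t1 t2 Λ0 l1 H.csp H.hl.hh H.hl.rh H.hl.h0 H.hl.hz
  obtain ⟨b1, b2, b3, b4, b5⟩ := ff_cap (el := fun p => -F.h p) d0 d1 t1 t2 Λ0 l1 H.csm
    H.hl.hh.neg (fun t x hp => by simpa using H.hl.rh t x hp)
    (fun p hp => by rw [← norm_neg]; simpa [neg_add_eq_sub] using H.hl.h0 p hp)
    (fun ξ hξ => by simp [H.hl.hz ξ hξ])
  exact ⟨a1, b1, a2, b2, fun p hp => ⟨(a3 p hp).1, (b3 p hp).1, (a3 p hp).2.1, (b3 p hp).2.1,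
    (a3 p hp).2.2, (b3 p hp).2.2⟩, fun ξ hξ => ⟨a4 ξ hξ, b4 ξ hξ⟩, fun p hp => ⟨a5 p hp, b5 p hp⟩⟩

theorem ff_inv : th0 ≤ 1 / (20 * Nr) :=
  th0_le_inv.trans (one_div_le_one_div_of_le (by have := Nr_pos; positivity)
    (by have := Nr_pos; nlinarith))

/-- crude bounds along the family, one cap -/
theorem ff_ld {q θ d B Λ Λ' A : ℝ} {u T H e : ℂ → ℂ} {a0 b0 c0 : ℝ}
    {Tl Hl Wl el f : ℂ × ℂ → ℂ}
    (d0 : 0 < d) (d1 : d ≤ th0 / 10) (t1 : 16 * d ≤ θ - 8 * d) (t2 : θ ≤ th0) (Λ0 : 0 < Λ)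
    (Λ1 : 0 ≤ Λ') (A0 : 0 ≤ A) (q0 : 0 < q) (q1 : q ≤ th0 / 10) (hB : B ≤ th0 / 10)
    (h : CapInv q θ B u T H e a0 b0 c0) (pc : PC q (θ - d) Λ' (d ^ 2) A u T H Tl Hl Wl)
    (e1 : ∀ ξ ∈ Sec θ, ‖deriv e ξ‖ ≤ th0 / 2)
    (hh : HC el (G1 (θ - 3 * d) Λ)) (rh : Rl2 el (G1 (θ - 3 * d) Λ))
    (h0 : ∀ p ∈ G1 (θ - 3 * d) Λ, ‖el p - e p.2‖ ≤ d / 8000 * ‖p.2‖)
    (hz : ∀ ξ ∈ Sec (θ - 3 * d), el (0, ξ) = e ξ)
    (hf : HC f (G1 (θ - 3 * d) Λ)) (rf : Rl2 f (G1 (θ - 3 * d) Λ))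
    (f0 : ∀ p ∈ G1 (θ - 3 * d) Λ, ‖f p - p.2‖ ≤ d / 200 * ‖p.2‖)
    (fm : ∀ p ∈ G1 (θ - 3 * d) Λ, (p.1, f p) ∈ G2 (θ - 2 * d) (Λ' / 2)) :
    LD2 (θ - 5 * d) (d * Λ) (2 * A) (fun p => Hl (p.1, f p) + el p) el
      (fun p => Wl (p.1, f p)) ∧
    Rl2 (fun p => Hl (p.1, f p) + el p) (G1 (θ - 5 * d) (d * Λ)) ∧
    Rl2 (fun p => Wl (p.1, f p)) (G1 (θ - 5 * d) (d * Λ)) := by
  have k0 := th0_pos
  have k1 := th0_small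
  have t3 := t2.trans th0_le
  obtain ⟨l, r1, r2⟩ := fl_ld d0 (by linarith) t1 t3 Λ0 Λ1 A0 q0 (by linarith) (by linarith) h.old
    pc (fun ξ hξ => (e1 ξ hξ).trans (by linarith)) hh rh h0 hf rf f0 fm
  have l1 : d * Λ ≤ 1 / 8 * Λ := mul_le_mul_of_nonneg_right (by linarith) Λ0.le
  have l0 : 0 < d * Λ := mul_pos d0 Λ0
  have s5 : G1 (θ - 5 * d) (d * Λ) ⊆ G1 (θ - 5 * d) (Λ / 4) :=
    fl_G1_mono (by linarith) le_rfl (by linarith)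
  have s53 : G1 (θ - 5 * d) (d * Λ) ⊆ G1 (θ - 3 * d) Λ :=
    fl_G1_mono (by linarith) (by linarith) (by linarith)
  have s33 : G1 (θ - 3 * d) (2 * (d * Λ)) ⊆ G1 (θ - 3 * d) Λ :=
    fl_G1_mono (by linarith) le_rfl (by linarith)
  have s30 : Sec (θ - 3 * d) ⊆ Sec θ := Sec_mono (by linarith) (by linarith)
  have s20 : Sec (θ - 2 * d) ⊆ Sec θ := Sec_mono (by linarith) (by linarith)
  refine ⟨⟨l.hz.mono s5, l.he.mono s5, l.hw.mono s5, l.hz1.mono s5, l.he1.mono s5,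
    fun p hp => le_trans ?_ ff_inv, fun p hp => l.z1 p (s5 hp), fun p hp => le_trans ?_ ff_inv,
    fun p hp => l.w0 p (s5 hp)⟩, fun t x hp => r1 t x (s5 hp), fun t x hp => r2 t x (s5 hp)⟩
  · have m := s53 hp
    have m2 := fm p m
    obtain ⟨-, n2⟩ := fl_norm (by linarith) (by linarith) m.1
    have n3 : ‖f p‖ ≤ 2 := (fl_norm (by linarith) (by linarith) m2.1).2
    have b1 : ‖Hl (p.1, f p) - H (f p)‖ ≤ q * d ^ 2 * ‖f p‖ :=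
      pc.H0 _ (fl_G2_mono (by linarith) (by linarith) (by linarith) m2)
    have b2 : ‖H (f p) - 1‖ ≤ del1 + B := h.H0 _ (s20 m2.1)
    have b3 := h0 p m
    have b4 := h.e0 _ (s30 m.1)
    have b5 : d ^ 2 ≤ 1 := pow_le_one₀ d0.le (by linarith)
    have b6 : q * d ^ 2 * ‖f p‖ ≤ q * 1 * 2 := by gcongr
    have b7 : d / 8000 * ‖p.2‖ ≤ d / 8000 * 2 := by gcongr
    rw [del1_eq] at b2 b4
    calc _ = ‖(Hl (p.1, f p) - H (f p)) + (H (f p) - 1) + ((el p - e p.2) + e p.2)‖ := by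
          congr 1; ring
      _ ≤ _ := norm_add₃_le
      _ ≤ _ := by linarith [norm_add_le (el p - e p.2) (e p.2)]
  · have hg : HC (fun p : ℂ × ℂ => el p - e p.2) (G1 (θ - 3 * d) Λ) :=
      hh.sub (HC.comp (HC.of_diff (h.de.mono s30)) (HC.snd HC.id) fun p hp => hp.1)
    have c1 : ∀ r ∈ G1 (θ - 3 * d) (2 * (d * Λ)), ‖el r - e r.2‖ ≤ d ^ 2 / 2000 * ‖r.2‖ := by
      intro r hr
      have b1 := schwarz_G1 (k := 1) (M := d / 8000) hg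
        (fun s hs => by simpa using h0 s hs) (s33 hr)
      simp only [hz _ hr.1, sub_self, sub_zero] at b1
      have b2 : ‖r.1‖ * ‖r.2‖ ≤ 2 * (d * Λ) := hr.2.le
      calc _ ≤ _ := b1
        _ = d / 4000 / Λ * ‖r.2‖ * (‖r.1‖ * ‖r.2‖) := by ring
        _ ≤ d / 4000 / Λ * ‖r.2‖ * (2 * (d * Λ)) := by gcongr
        _ = _ := by field_simp; ring
    have b1 := fl_d2 d0 (by linarith) (by linarith) (by linarith) (hh.mono s33) (h.de.mono s30) c1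
      (fl_G1_mono (by linarith) (by linarith) (by linarith) hp)
    have b2 := e1 _ (s30 (s53 hp).1)
    have b3 : 5 * (d ^ 2 / 2000) / d = d / 400 := by field_simp; norm_num
    have := norm_add_le (d2 el p - deriv e p.2) (deriv e p.2)
    rw [sub_add_cancel] at this
    linarith

theorem FamOK.ld {P : Par} {θ d B a : ℝ} {S : St} {w : ℂ → ℂ} {F : Fam} (N : Num P θ d B a)
    (h : InvC P θ d B S) (H : FamOK P θ d B a S w F) :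
    LD2 (θ - 5 * d) (d ^ 7 / a) (2 * a / d ^ 2) F.zp F.h F.wp ∧
    LD2 (θ - 5 * d) (d ^ 7 / a) (2 * a / d ^ 2) F.zm (fun r => -F.h r) F.wm ∧
    Rl2 F.zp (G1 (θ - 5 * d) (d ^ 7 / a)) ∧ Rl2 F.zm (G1 (θ - 5 * d) (d ^ 7 / a)) ∧
    Rl2 F.wp (G1 (θ - 5 * d) (d ^ 7 / a)) ∧ Rl2 F.wm (G1 (θ - 5 * d) (d ^ 7 / a)) := by
  obtain ⟨d0, d1, t1, t2, hB, q1, η1, -⟩ := ff_num N
  have a0 := N.a0
  have q0 := N.small.2.2.2.2.1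
  have η0 := N.par.et1
  obtain ⟨f1, f2, f3, f4, f5, -, -⟩ := H.f N h
  have e1 : ∀ ξ ∈ Sec θ, ‖deriv S.h ξ‖ ≤ th0 / 2 := by
    intro ξ hξ
    have := norm_sub_le (deriv S.h ξ + nu * P.η) (nu * P.η)
    have b := h.h1 ξ hξ
    have n0 := nu_pos
    have n1 : nu * P.η ≤ 1 / 20 * P.η := mul_le_mul_of_nonneg_right nu_le η0.le
    rw [add_sub_cancel_right, norm_mul, Complex.norm_real, Complex.norm_real, Real.norm_eq_abs,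
      Real.norm_eq_abs, abs_of_pos η0, abs_of_pos n0] at this
    linarith
  obtain ⟨a1, a2, a3⟩ := ff_ld d0 d1 t1 t2 (by positivity) (by positivity) (by positivity) q0 q1 hB
    h.cp H.pcp e1 H.hl.hh H.hl.rh H.hl.h0 H.hl.hz f1 f3 (fun p hp => (f5 p hp).2.2.1)
    (fun p hp => (f5 p hp).2.2.2.2.1)
  obtain ⟨b1, b2, b3⟩ := ff_ld (el := fun p => -F.h p) d0 d1 t1 t2 (by positivity) (by positivity)
    (by positivity) q0 q1 hB h.cm H.pcm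
    (fun ξ hξ => by rw [deriv.fun_neg, norm_neg]; exact e1 ξ hξ) H.hl.hh.neg
    (fun t x hp => by simpa using H.hl.rh t x hp)
    (fun p hp => by rw [← norm_neg]; simpa [neg_add_eq_sub] using H.hl.h0 p hp)
    (fun ξ hξ => by simp [H.hl.hz ξ hξ]) f2 f4
    (fun p hp => (f5 p hp).2.2.2.1) (fun p hp => (f5 p hp).2.2.2.2.2)
  have ez : F.zm = fun p => F.Hm (p.1, F.fm p) + -F.h p := funext fun p => sub_eq_add_neg _ _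
  have e7 : d ^ 7 / a = d * (d ^ 6 / a) := by ring
  rw [mul_div_assoc, ez, e7]
  exact ⟨a1, b1, a2, b2, a3, b3⟩

/-- a slice of family data at a bounded parameter -/
theorem LD2.slice {θ Λ A : ℝ} {z e w : ℂ × ℂ → ℂ} (t0 : 0 < θ) (t1 : θ ≤ th0) (hΛ : 10 ≤ Λ)
    (h : LD2 θ Λ A z e w) {l : ℂ} (hl : ‖l‖ ≤ 2) : LD θ A (sl z l) (sl e l) (sl w l) := by
  have m : ∀ ξ ∈ Sec θ, (l, ξ) ∈ G1 θ Λ := fun ξ hξ => fl_mem t0 (t1.trans th0_le) hΛ hl hξ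
  have D : ∀ f : ℂ × ℂ → ℂ, HC f (G1 θ Λ) → DifferentiableOn ℂ (sl f l) (Sec θ) :=
    fun f hf ξ hξ =>
      (HC.hasDerivAt2 (isOpen_G1 θ Λ) hf (m ξ hξ)).differentiableAt.differentiableWithinAt
  exact ⟨D z h.hz, D e h.he, D w h.hw, fun ξ hξ => h.z0 _ (m ξ hξ), fun ξ hξ => h.z1 _ (m ξ hξ),
    fun ξ hξ => h.e1 _ (m ξ hξ), fun ξ hξ => h.w0 _ (m ξ hξ)⟩

/-- the family at parameter zero -/
theorem FamOK.zero {P : Par} {θ d B a : ℝ} {S : St} {w : ℂ → ℂ} {F : Fam} (N : Num P θ d B a)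
    (h : InvC P θ d B S) (H : FamOK P θ d B a S w F) :
    EqOn (sl F.zp 0) S.zp (Sec (θ - 3 * d)) ∧ EqOn (sl F.zm 0) S.zm (Sec (θ - 3 * d)) ∧
    EqOn (sl F.h 0) S.h (Sec (θ - 3 * d)) ∧ EqOn (sl F.wp 0) w (Sec (θ - 3 * d)) ∧
    EqOn (sl F.wm 0) (wm (rN S.ρ) S.U w) (Sec (θ - 3 * d)) := by
  obtain ⟨d0, -, t1, -⟩ := ff_num N
  obtain ⟨-, -, -, -, -, f6, -⟩ := H.f N h
  have s1 : Sec (θ - 3 * d) ⊆ Sec (θ - d) := Sec_mono (by linarith) (by linarith)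
  refine ⟨fun ζ hζ => ?_, fun ζ hζ => ?_, fun ζ hζ => H.hl.hz ζ hζ, fun ζ hζ => ?_,
    fun ζ hζ => ?_⟩
  · show F.Hp (0, F.fp (0, ζ)) + F.h (0, ζ) = S.Hp ζ + S.h ζ
    rw [(f6 ζ hζ).1, H.pcp.Hz ζ (s1 hζ), H.hl.hz ζ hζ]
  · show F.Hm (0, F.fm (0, ζ)) - F.h (0, ζ) = S.Hm ζ - S.h ζ
    rw [(f6 ζ hζ).2, H.pcm.Hz ζ (s1 hζ), H.hl.hz ζ hζ]
  · show F.Wp (0, F.fp (0, ζ)) = w ζ
    rw [(f6 ζ hζ).1, H.Wp]
  · show F.Wm (0, F.fm (0, ζ)) = wm (rN S.ρ) S.U w ζ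
    rw [(f6 ζ hζ).2, H.Wm ζ (s1 hζ)]

end BonN
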