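import Pool.Agent.Lib.MP_3dbf58_gt.N.GeoC

/-! The pair in dimension four: a cut near one pole is moved to the other pole. -/

open Set Filter Topology MeasureTheory Metric

noncomputable section

namespace BonG

open Bon3 (GOK PSet geo_cont geo_lt)

/-- `g` comes from `k` by reflecting the part `|x| ≥ 51 / 100` -/
structure Swap (k g : ℝ → ℝ) : Prop where
  far : ∀ x, 51 / 100 ≤ |x| → k x = g (-x)
  mid : ∀ x, |x| ≤ 51 / 100 → k x = g x
  uk : ∀ x, k x ≤ 1 - x ^ 2
  ug : ∀ x, g x ≤ 1 - x ^ 2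
  lk : ∀ x, 1 - 1 / 10 ^ 5 - x ^ 2 ≤ k x
  lg : ∀ x, 1 - 1 / 10 ^ 5 - x ^ 2 ≤ g x
  ek : ∀ x, |x| = 51 / 100 → k x = 1 - x ^ 2
  ck : Continuous k
  cg : Continuous g

theorem Swap.symm {k g : ℝ → ℝ} (h : Swap k g) : Swap g k :=
  ⟨fun x hx => by rw [h.far (-x) (by rwa [abs_neg]), neg_neg], fun x hx => (h.mid x hx).symm,
    h.ug, h.uk, h.lg, h.lk, fun x hx => by rw [← h.mid x hx.le, h.ek x hx], h.cg, h.ck⟩

theorem four_mem {g : ℝ → ℝ} {S C p z : ℝ} (h : S ^ 2 + C ^ 2 = 1) : (p, z) ∈ PSet g S C ↔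
    ∃ w, z ^ 2 + p ^ 2 + w ^ 2 ≤ g (S * p + C * w) + (S * p + C * w) ^ 2 := by
  constructor
  · rintro ⟨x, y, h1, h2⟩
    simp only at h1 h2
    have e : S * p + C * (C * x - S * y) = x := by rw [h2]; linear_combination x * h
    refine ⟨C * x - S * y, ?_⟩
    rw [e, h2]
    nlinarith [mul_comm (x ^ 2 + y ^ 2) (S ^ 2 + C ^ 2)]
  · rintro ⟨w, h1⟩
    refine ⟨S * p + C * w, C * p - S * w, ?_, ?_⟩
    · have : (S * p + C * w) ^ 2 + (C * p - S * w) ^ 2 = p ^ 2 + w ^ 2 := by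
        linear_combination (p ^ 2 + w ^ 2) * h
      simp only
      linarith
    · simp only
      linear_combination (-p) * h

/-- the shadow over `p` only sees the profile near `S p` -/
theorem four_loc {g g' : ℝ → ℝ} {S C p z : ℝ} (h : S ^ 2 + C ^ 2 = 1)
    (ug : ∀ x, g x ≤ 1 - x ^ 2)
    (hl : ∀ x, g x = g' x ∨ ∃ e, g' e = 1 - e ^ 2 ∧ (S * p ≤ e ∧ e ≤ x ∨ x ≤ e ∧ e ≤ S * p))
    (hp : (p, z) ∈ PSet g S C) : (p, z) ∈ PSet g' S C := by
  obtain ⟨w, hw⟩ := (four_mem h).1 hp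
  refine (four_mem h).2 ?_
  rcases hl (S * p + C * w) with e | ⟨e, e1, e2⟩
  · exact ⟨w, e ▸ hw⟩
  · have a1 := ug (S * p + C * w)
    by_cases c0 : C * w = 0
    · have : e = S * p + C * w := by rcases e2 with e2 | e2 <;> linarith [e2.1, e2.2]
      exact ⟨w, by rw [← this, e1]; linarith⟩
    · obtain ⟨t, ht⟩ : ∃ t, t = (e - S * p) / (C * w) := ⟨_, rfl⟩
      have t1 : S * p + C * (t * w) = e := by
        have := div_mul_cancel₀ (e - S * p) c0
        rw [ht]
        linarith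
      have t2 : t ^ 2 ≤ 1 := by
        rw [ht, div_pow, div_le_one (by positivity)]
        rcases e2 with e2 | e2 <;> nlinarith [e2.1, e2.2]
      refine ⟨t * w, ?_⟩
      rw [t1, e1]
      nlinarith [mul_le_mul_of_nonneg_right t2 (sq_nonneg w)]

theorem four_neg {g : ℝ → ℝ} {S C p z : ℝ} (h : S ^ 2 + C ^ 2 = 1)
    (hp : (p, z) ∈ PSet (fun x => g (-x)) S C) : (-p, z) ∈ PSet g S C := by
  obtain ⟨w, hw⟩ := (four_mem h).1 hp
  refine (four_mem h).2 ⟨-w, ?_⟩
  rw [show S * -p + C * -w = -(S * p + C * w) by ring]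
  simpa only [neg_sq] using hw

theorem four_out {k g : ℝ → ℝ} (h : Swap k g) {S C p z : ℝ} (hs : S ^ 2 + C ^ 2 = 1)
    (hp : (p, z) ∈ PSet k S C) (ho : 51 / 100 < |S * p|) : (-p, z) ∈ PSet g S C := by
  refine four_neg hs (four_loc hs h.uk (fun x => ?_) hp)
  have e : ∀ e, |e| = 51 / 100 → g (-e) = 1 - e ^ 2 := fun e he => by
    rw [← h.far e he.ge, h.ek e he]
  rcases le_or_gt (51 / 100) |x| with a | a
  · exact Or.inl (h.far x a)
  · have a := abs_lt.1 a
    rcases lt_abs.1 ho with b | b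
    · exact Or.inr ⟨51 / 100, e _ (abs_of_pos (by norm_num)), Or.inr ⟨a.2.le, b.le⟩⟩
    · exact Or.inr ⟨-(51 / 100), e _ (by rw [abs_neg]; exact abs_of_pos (by norm_num)),
        Or.inl ⟨by linarith, a.1.le⟩⟩

theorem four_in {k g : ℝ → ℝ} (h : Swap k g) {S C p z : ℝ} (hs : S ^ 2 + C ^ 2 = 1)
    (hp : (p, z) ∈ PSet k S C) (ho : |S * p| ≤ 51 / 100) : (p, z) ∈ PSet g S C := by
  refine four_loc hs h.uk (fun x => ?_) hp
  have b := abs_le.1 ho
  rcases le_or_gt |x| (51 / 100) with a | a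
  · exact Or.inl (h.mid x a)
  · rcases lt_abs.1 a with a | a
    · exact Or.inr ⟨51 / 100, h.symm.ek _ (abs_of_pos (by norm_num)), Or.inl ⟨b.2, a.le⟩⟩
    · exact Or.inr ⟨-(51 / 100), h.symm.ek _ (by rw [abs_neg]; exact abs_of_pos (by norm_num)),
        Or.inr ⟨by linarith, b.1⟩⟩

theorem four_br {N : ℕ} {k g : ℝ → ℝ} (h : Swap k g) {S C : ℝ} (hs : S ^ 2 + C ^ 2 = 1) :
    PV N k S C ≤ PV N g S C := by
  have hm : MeasurableSet {p : ℝ × EW N | |S * p.1| ≤ 51 / 100} :=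
    measurableSet_le (by fun_prop) measurable_const
  have hn : MeasurePreserving
      (MeasurableEquiv.prodCongr (MeasurableEquiv.neg ℝ) (MeasurableEquiv.refl (EW N)))
      volume volume := (Measure.measurePreserving_neg volume).prod (MeasurePreserving.id volume)
  rw [PV, PV, ← measure_inter_add_sdiff {p : ℝ × EW N | (p.1, ‖p.2‖) ∈ PSet k S C} hm,
    ← measure_inter_add_sdiff {p : ℝ × EW N | (p.1, ‖p.2‖) ∈ PSet g S C} hm]
  refine add_le_add (measure_mono fun p hp => ⟨four_in h hs hp.1 hp.2, hp.2⟩) ?_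
  rw [← hn.measure_preimage_equiv ({p : ℝ × EW N | (p.1, ‖p.2‖) ∈ PSet g S C} \ _)]
  refine measure_mono fun p hp => ⟨four_out h hs hp.1 (not_le.1 hp.2), fun e => hp.2 ?_⟩
  have e' : |S * -p.1| ≤ 51 / 100 := e
  rwa [mul_neg, abs_neg] at e'

theorem four_ar (g : ℝ → ℝ) (σ y : ℝ) :
    ArI 2 g σ y = ∫ x in (-2 : ℝ)..2, max (g x - σ * (x + y) ^ 2) 0 := by
  simp only [ArI, Real.sq_sqrt']

theorem four_sec {k g : ℝ → ℝ} (h : Swap k g) {σ : ℝ} (hσ : σ ∈ Icc (0 : ℝ) (1 / 20)) (y : ℝ) :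
    ∃ y', ArI 2 k σ y ≤ ArI 2 g σ y' := by
  have ck := h.ck
  have cg := h.cg
  rcases le_or_gt (σ * y ^ 2) (1 / 2) with hy | hy
  · refine ⟨-y, le_of_eq ?_⟩
    have e1 : ArI 2 g σ (-y) = ∫ x in (-2 : ℝ)..2, max (g (-x) - σ * (x + y) ^ 2) 0 := by
      have := intervalIntegral.integral_comp_neg (a := -2) (b := 2)
        fun x => max (g x - σ * (x + -y) ^ 2) 0
      rw [neg_neg] at this
      rw [four_ar, ← this]
      exact intervalIntegral.integral_congr fun x _ => by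
        simp only [show (-x + -y) ^ 2 = (x + y) ^ 2 by ring]
    have e2 : ∫ x in (-2 : ℝ)..2, (k x - g (-x)) = 0 := by
      have := intervalIntegral.integral_comp_neg (a := -2) (b := 2) fun x => k x - g (-x)
      rw [neg_neg] at this
      have e : ∫ x in (-2 : ℝ)..2, (k (-x) - g (- -x)) = -∫ x in (-2 : ℝ)..2, (k x - g (-x)) := by
        rw [← intervalIntegral.integral_neg]
        refine intervalIntegral.integral_congr fun x _ => ?_
        simp only [neg_neg]
        rcases le_total |x| (51 / 100) with a | a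
        · rw [h.mid x a, h.mid (-x) (by rwa [abs_neg])]; ring
        · rw [h.far x a, h.far (-x) (by rwa [abs_neg]), neg_neg]; ring
      linarith
    rw [e1, four_ar, ← sub_eq_zero, ← intervalIntegral.integral_sub
      (Continuous.intervalIntegrable (by fun_prop) _ _)
      (Continuous.intervalIntegrable (by fun_prop) _ _), ← e2]
    refine intervalIntegral.integral_congr fun x _ => ?_
    rcases le_total |x| (51 / 100) with a | a
    · have a1 : x ^ 2 ≤ (51 / 100) ^ 2 := by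
        rw [← sq_abs]; exact pow_le_pow_left₀ (abs_nonneg _) a 2
      have a2 : σ * (x + y) ^ 2 ≤ 7 / 10 := by
        have b1 := mul_le_mul hσ.2 a1 (sq_nonneg _) (by norm_num)
        nlinarith [mul_nonneg hσ.1 (sq_nonneg (2 * x - y / 2))]
      have a3 := h.lk x
      have a4 := h.lg (-x)
      rw [neg_sq] at a4
      rw [max_eq_left (by linarith), max_eq_left (by linarith)]
      ring
    · simp only [h.far x a, sub_self]
  · refine ⟨0, ?_⟩
    rw [four_ar, four_ar]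
    refine intervalIntegral.integral_mono_on (by norm_num)
      (Continuous.intervalIntegrable (by fun_prop) _ _)
      (Continuous.intervalIntegrable (by fun_prop) _ _) fun x _ => max_le ?_ (le_max_right _ _)
    have a1 := h.uk x
    have a2 := h.lg x
    have a3 := mul_nonneg hσ.1 (sq_nonneg (x + y))
    rcases le_total (x ^ 2) 1 with a | a
    · have b1 := mul_le_mul hσ.2 a (sq_nonneg _) (by norm_num)
      refine le_max_of_le_left ?_
      rw [add_zero]
      nlinarith [mul_nonneg hσ.1 (sq_nonneg (2 * x + y))]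
    · exact le_max_of_le_right (by linarith)

theorem four_lub {k g : ℝ → ℝ} (h : Swap k g) {σ : ℝ} (hσ : σ ∈ Icc (0 : ℝ) (1 / 20)) :
    ∃ m, IsLUB (range fun y => 1 * ArI 2 k σ y) m ∧ IsLUB (range fun y => 1 * ArI 2 g σ y) m := by
  simp only [one_mul]
  have ck := h.ck
  have hb : BddAbove (range fun y => ArI 2 k σ y) := by
    refine ⟨∫ _ in (-2 : ℝ)..2, (1 : ℝ), ?_⟩
    rintro _ ⟨y, rfl⟩
    simp only [four_ar]
    refine intervalIntegral.integral_mono_on (by norm_num)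
      (Continuous.intervalIntegrable (by fun_prop) _ _)
      (Continuous.intervalIntegrable (by fun_prop) _ _) fun x _ => max_le ?_ zero_le_one
    linarith [h.uk x, mul_nonneg hσ.1 (sq_nonneg (x + y)), sq_nonneg x]
  have hl := isLUB_csSup (range_nonempty _) hb
  refine ⟨_, hl, ?_, fun b hb => hl.2 ?_⟩
  · rintro _ ⟨y, rfl⟩
    obtain ⟨y', e⟩ := four_sec h.symm hσ y
    exact e.trans (hl.1 ⟨y', rfl⟩)
  · rintro _ ⟨y, rfl⟩
    obtain ⟨y', e⟩ := four_sec h hσ y
    exact e.trans (hb ⟨y', rfl⟩)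

/-- the ball cut along two chords of the profile -/
def cutP (m x : ℝ) : ℝ := 1 - x ^ 2 +
  min (min 0 ((x - 501 / 1000) ^ 2 - 1 / 10 ^ 6)) ((x - m) ^ 2 - 1 / 10 ^ 6)

theorem cutP_le (m x : ℝ) : cutP m x ≤ 1 - x ^ 2 := by
  have : min (min 0 ((x - 501 / 1000) ^ 2 - 1 / 10 ^ 6)) ((x - m) ^ 2 - 1 / 10 ^ 6) ≤ 0 :=
    (min_le_left _ _).trans (min_le_left _ _)
  unfold cutP
  linarith

theorem cutP_ge (m x : ℝ) : 1 - 1 / 10 ^ 6 - x ^ 2 ≤ cutP m x := by
  have : -(1 / 10 ^ 6 : ℝ) ≤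
      min (min 0 ((x - 501 / 1000) ^ 2 - 1 / 10 ^ 6)) ((x - m) ^ 2 - 1 / 10 ^ 6) :=
    le_min (le_min (by norm_num) (by linarith [sq_nonneg (x - 501 / 1000)]))
      (by linarith [sq_nonneg (x - m)])
  unfold cutP
  linarith

theorem cutP_mid {m x : ℝ} (hm : |m| = 993 / 1000) (hx : |x| ≤ 99 / 100) :
    cutP m x = 1 - x ^ 2 + min 0 ((x - 501 / 1000) ^ 2 - 1 / 10 ^ 6) := by
  have a := abs_le.1 hx
  rw [cutP, min_eq_left ((min_le_left _ _).trans ?_)]
  rcases (abs_eq (by norm_num)).1 hm with rfl | rfl <;> nlinarith [a.1, a.2]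

theorem cutP_far {m x : ℝ} (hx : 51 / 100 ≤ |x|) :
    cutP m x = 1 - x ^ 2 + min 0 ((x - m) ^ 2 - 1 / 10 ^ 6) := by
  rw [cutP, min_eq_left (a := 0) ?_]
  rcases le_abs.1 hx with a | a <;> nlinarith

theorem cutP_ok {m : ℝ} (hm : |m| = 993 / 1000) : GOK (cutP m) where
  cc := by
    have l : ∀ c : ℝ, ConcaveOn ℝ univ fun x : ℝ => 1 - x ^ 2 + ((x - c) ^ 2 - 1 / 10 ^ 6) :=
      fun c => ⟨convex_univ, fun x _ y _ a b _ _ hab => by
        obtain rfl : b = 1 - a := by linarith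
        simp only [smul_eq_mul]
        exact le_of_eq (by ring)⟩
    have l0 : ConcaveOn ℝ univ fun x : ℝ => 1 - x ^ 2 + 0 :=
      ⟨convex_univ, fun x _ y _ a b ha hb hab => by
        obtain rfl : b = 1 - a := by linarith
        simp only [smul_eq_mul]
        nlinarith [mul_nonneg (mul_nonneg ha hb) (sq_nonneg (x - y))]⟩
    refine ((l0.inf (l (501 / 1000))).inf (l m)).congr fun x _ => ?_
    simp only [cutP, Pi.inf_apply, min_add_add_left]
  g0 := by rw [cutP_mid hm (by norm_num)]; norm_num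
  le := fun x => by linarith [cutP_le m x, sq_nonneg x]
  ng := fun x hx => by
    have : (3 / 2) ^ 2 ≤ x ^ 2 := by rw [← sq_abs x]; exact pow_le_pow_left₀ (by norm_num) hx 2
    linarith [cutP_le m x]

theorem pair_four : Pair 4 := by
  have m1 : |(993 / 1000 : ℝ)| = 993 / 1000 := abs_of_pos (by norm_num)
  have m2 : |(-(993 / 1000) : ℝ)| = 993 / 1000 := by rw [abs_neg, m1]
  have eq : ∀ x, |x| ≤ 99 / 100 → cutP (993 / 1000) x = cutP (-(993 / 1000)) x := fun x hx => by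
    rw [cutP_mid m1 hx, cutP_mid m2 hx]
  have h : Swap (cutP (993 / 1000)) (cutP (-(993 / 1000))) :=
    ⟨fun x hx => by
      rw [cutP_far hx, cutP_far (by rwa [abs_neg]), neg_sq,
        show (-x - -(993 / 1000)) ^ 2 = (x - 993 / 1000) ^ 2 by ring],
      fun x hx => eq x (by linarith), cutP_le _, cutP_le _,
      fun x => by linarith [cutP_ge (993 / 1000) x],
      fun x => by linarith [cutP_ge (-(993 / 1000)) x], fun x hx => by
        rw [cutP_mid m1 (by linarith), min_eq_left, add_zero]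
        rcases (abs_eq (by norm_num)).1 hx with rfl | rfl <;> norm_num,
      geo_cont (cutP_ok m1), geo_cont (cutP_ok m2)⟩
  refine geo_main (N := 2) two_pos (cutP_ok m1) (cutP_ok m2)
    (fun S C _ _ hs => le_antisymm (four_br h.symm hs) (four_br h hs)) eq (fun x _ => abs_le.2 ?_)
    (fun x _ => by linarith [h.uk x]) (fun x _ => h.lk x) one_pos (fun σ hσ => four_lub h hσ)
    (fun x hx => by linarith [h.uk x, sq_pos_of_ne_zero hx]) ⟨501 / 1000, ?_, ?_⟩
    ⟨993 / 1000, ?_, ?_⟩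
  · constructor <;> linarith [h.uk x, h.ug x, cutP_ge (993 / 1000) x, cutP_ge (-(993 / 1000)) x]
  · rw [abs_of_pos] <;> norm_num
  · norm_num [cutP]
  · norm_num [cutP]
  · norm_num [cutP]

end BonG
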