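import Pool.Agent.Lib.MP_3dbf58_gt.N.GeoA

/-! Bodies of revolution in `ℝ^(N+2)`: maximal sections, translates, limits. -/

open Set Filter Topology MeasureTheory Metric

noncomputable section

namespace BonG

open Bon3 (GOK PSet geo_cont geo_lt)

variable {N : ℕ}

theorem geo_steep {g g' : ℝ → ℝ}
    (eq : ∀ x, |x| ≤ 99 / 100 → g x = g' x)
    (o : ∀ x, 0 ≤ g x → g x + x ^ 2 ≤ 1 + 2 / 10 ^ 5)
    (i' : ∀ x, |x| ≤ 1 → 1 - 2 / 10 ^ 5 - x ^ 2 ≤ g' x)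
    {u : EN N} (hu : ‖u‖ = 1) (h1 : 1 / 21 ≤ u 0 ^ 2) :
    ⨆ t, sect (Body N g) u t ≤ ⨆ t, sect (Body N g') u t := by
  have h0 := geo_u0 hu
  have hS := Real.sq_sqrt h0
  obtain ⟨Φ, -, hz⟩ := geo_frame hu
  have hu1 : |u 0| ≤ 1 := by
    rw [← sq_le_one_iff_abs_le_one]
    linarith
  refine iSup_le fun t => ?_
  have key : ∀ v : (ℝ ∙ u)ᗮ, (v : EN N) + t • u ∈ Body N g →
      ‖(v : EN N)‖ ^ 2 + t ^ 2 ≤ 1 + 2 / 10 ^ 5 := by
    intro v hv
    have ho : inner ℝ (v : EN N) u = 0 := Submodule.mem_orthogonal_singleton_iff_inner_left.mp v.2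
    have hv' : ‖(v : EN N) + t • u‖ ^ 2 - ((v : EN N) + t • u) 0 ^ 2 ≤
      g (((v : EN N) + t • u) 0) := hv
    have h2 := o _ (le_trans (geo_tail0 _) hv')
    have e : ‖(v : EN N) + t • u‖ ^ 2 = ‖(v : EN N)‖ ^ 2 + t ^ 2 := by
      rw [norm_add_sq_real, real_inner_smul_right, ho, norm_smul, hu, mul_one, Real.norm_eq_abs,
        sq_abs]
      ring
    linarith
  by_cases ht : |t| ≤ 1 / 100
  · refine le_iSup_of_le t (measure_mono fun v hv => ?_)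
    have hk := key v hv
    have hv' : ‖(v : EN N) + t • u‖ ^ 2 - ((v : EN N) + t • u) 0 ^ 2 ≤
      g (((v : EN N) + t • u) 0) := hv
    show ‖(v : EN N) + t • u‖ ^ 2 - ((v : EN N) + t • u) 0 ^ 2 ≤ g' (((v : EN N) + t • u) 0)
    have e : (v : EN N) 0 ^ 2 = (1 - u 0 ^ 2) * (Φ v).1 ^ 2 := by
      rw [(hz v).1, mul_pow, hS]
    have h3 : (1 - u 0 ^ 2) * (Φ v).1 ^ 2 ≤ 20 / 21 * (1 + 2 / 10 ^ 5) :=
      mul_le_mul (by linarith) (by nlinarith [sq_nonneg t, (hz v).2, sq_nonneg ‖(Φ v).2‖])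
        (by positivity) (by norm_num)
    have h4 : |(v : EN N) 0| ≤ 98 / 100 := by
      refine abs_le_of_sq_le_sq ?_ (by norm_num)
      nlinarith
    have h5 : |t * u 0| ≤ 1 / 100 := by
      rw [abs_mul]
      nlinarith [abs_nonneg t, abs_nonneg (u 0)]
    have h6 : ((v : EN N) + t • u) 0 = (v : EN N) 0 + t * u 0 := by simp
    rw [← eq _ (by rw [h6]; exact (abs_add_le _ _).trans (by linarith))]
    exact hv'
  · refine le_iSup_of_le 0 (measure_mono fun v hv => ?_)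
    have hk := key v hv
    have ht2 : (1 / 100 : ℝ) ^ 2 ≤ t ^ 2 := by
      rw [← sq_abs t]
      exact pow_le_pow_left₀ (by norm_num) (not_le.mp ht).le 2
    simp only [mem_ofPred_eq, Body, zero_smul, add_zero]
    have h4 : |(v : EN N) 0| ≤ 1 := by
      rw [← sq_le_one_iff_abs_le_one]
      nlinarith [geo_tail0 (v : EN N)]
    have := i' _ h4
    nlinarith

/-- steep directions: the maximal sections miss the caps -/
theorem sect_steep {g g' : ℝ → ℝ} (_h : GOK g) (_h' : GOK g')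
    (eq : ∀ x, |x| ≤ 99 / 100 → g x = g' x)
    (o : ∀ x, 0 ≤ g x → g x + x ^ 2 ≤ 1 + 2 / 10 ^ 5)
    (o' : ∀ x, 0 ≤ g' x → g' x + x ^ 2 ≤ 1 + 2 / 10 ^ 5)
    (i : ∀ x, |x| ≤ 1 → 1 - 2 / 10 ^ 5 - x ^ 2 ≤ g x)
    (i' : ∀ x, |x| ≤ 1 → 1 - 2 / 10 ^ 5 - x ^ 2 ≤ g' x)
    {u : EN N} (hu : ‖u‖ = 1) (h1 : 1 / 21 ≤ u 0 ^ 2) :
    ⨆ t, sect (Body N g) u t = ⨆ t, sect (Body N g') u t :=
  le_antisymm (geo_steep eq o i' hu h1) (geo_steep (fun x hx => (eq x hx).symm) o' i hu h1)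

/-- flat directions: the supremum of the sections through `ArI` -/
theorem sect_sup (hN : 0 < N) {g : ℝ → ℝ} (h : GOK g) {u : EN N} (hu : ‖u‖ = 1)
    (h1 : u 0 ^ 2 < 1) {m : ℝ} (hm : IsLUB (range (ArI N g (u 0 ^ 2 / (1 - u 0 ^ 2)))) m) :
    ⨆ t, sect (Body N g) u t = ENNReal.ofReal (1 / Real.sqrt (1 - u 0 ^ 2) * (om N * m)) := by
  have hc := geo_cont h
  have h0 : 0 < 1 - u 0 ^ 2 := by linarith
  have hS0 : 0 < 1 / Real.sqrt (1 - u 0 ^ 2) := one_div_pos.mpr (Real.sqrt_pos.mpr h0)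
  have ho := om_pos N
  have e1 : ∀ y, sect (Body N g) u (-(u 0 * y)) = ENNReal.ofReal
      (1 / Real.sqrt (1 - u 0 ^ 2) * (om N * ArI N g (u 0 ^ 2 / (1 - u 0 ^ 2)) y)) := by
    intro y
    rw [sect_Body hN h hu h1, ArI]
    congr 3
    refine intervalIntegral.integral_congr fun x _ => ?_
    show Real.sqrt _ ^ N = Real.sqrt _ ^ N
    congr 2
    ring
  apply le_antisymm
  · refine iSup_le fun t => ?_
    by_cases hz : u 0 = 0
    · rw [sect_Body hN h hu h1]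
      refine ENNReal.ofReal_le_ofReal (mul_le_mul_of_nonneg_left ?_ hS0.le)
      refine mul_le_mul_of_nonneg_left ?_ ho.le
      refine le_trans ?_ (hm.1 ⟨0, rfl⟩)
      rw [ArI]
      refine intervalIntegral.integral_mono_on (by norm_num)
        (Continuous.intervalIntegrable (by fun_prop) _ _)
        (Continuous.intervalIntegrable (by fun_prop) _ _) fun x _ =>
        pow_le_pow_left₀ (Real.sqrt_nonneg _) (Real.sqrt_le_sqrt ?_) N
      rw [hz]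
      simp only [ne_eq, OfNat.ofNat_ne_zero, not_false_eq_true, zero_pow, zero_mul, sub_zero,
        div_one]
      linarith [sq_nonneg t]
    · have : t = -(u 0 * (-t / u 0)) := by field_simp
      rw [this, e1]
      exact ENNReal.ofReal_le_ofReal (mul_le_mul_of_nonneg_left
        (mul_le_mul_of_nonneg_left (hm.1 ⟨_, rfl⟩) ho.le) hS0.le)
  · by_cases hT : ⨆ t, sect (Body N g) u t = ⊤
    · rw [hT]
      exact le_top
    · rw [ENNReal.ofReal_le_iff_le_toReal hT, ← mul_assoc, ← le_div_iff₀' (mul_pos hS0 ho)]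
      refine hm.2 ?_
      rintro _ ⟨y, rfl⟩
      rw [le_div_iff₀' (mul_pos hS0 ho), ← ENNReal.ofReal_le_iff_le_toReal hT, mul_assoc, ← e1]
      exact le_iSup (fun t => sect (Body N g) u t) _

/-- the same for a positive multiple of `ArI` -/
theorem sect_sup' (hN : 0 < N) {g : ℝ → ℝ} (h : GOK g) {u : EN N} (hu : ‖u‖ = 1)
    (h1 : u 0 ^ 2 < 1) {c m : ℝ} (hc : 0 < c)
    (hm : IsLUB (range fun y => c * ArI N g (u 0 ^ 2 / (1 - u 0 ^ 2)) y) m) :
    ⨆ t, sect (Body N g) u t =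
      ENNReal.ofReal (1 / Real.sqrt (1 - u 0 ^ 2) * (om N * (m / c))) := by
  refine sect_sup hN h hu h1 ⟨?_, fun b hb => ?_⟩
  · rintro _ ⟨y, rfl⟩
    rw [le_div_iff₀' hc]
    exact hm.1 ⟨y, rfl⟩
  · rw [div_le_iff₀' hc]
    refine hm.2 ?_
    rintro _ ⟨y, rfl⟩
    exact mul_le_mul_of_nonneg_left (hb ⟨y, rfl⟩) hc.le

/-- the point with first coordinates `x`, `r` -/
def pt (N : ℕ) (x r : ℝ) : EN N := EuclideanSpace.single 0 x + EuclideanSpace.single 1 r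

theorem pt_zero (x r : ℝ) : pt N x r 0 = x := by simp [pt]

theorem pt_succ (x r : ℝ) (i : Fin (N + 1)) : pt N x r i.succ = if i = 0 then r else 0 := by
  have : i.succ = (1 : Fin (N + 2)) ↔ i = 0 := by
    rw [← Fin.succ_zero_eq_one, Fin.succ_inj]
  simp [pt, Fin.succ_ne_zero, this]

theorem pt_add (x r : ℝ) (v : EN N) : ‖pt N x r + v‖ ^ 2 - (pt N x r + v) 0 ^ 2 =
    r ^ 2 + 2 * r * v 1 + (‖v‖ ^ 2 - v 0 ^ 2) := by
  rw [geo_tail, geo_tail, Fin.sum_univ_succ, Fin.sum_univ_succ]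
  simp only [PiLp.add_apply, pt_succ, Fin.succ_ne_zero, if_false, zero_add,
    Fin.succ_zero_eq_one]
  have := pt_succ (N := N) x r 0
  rw [Fin.succ_zero_eq_one, if_pos rfl] at this
  rw [this]
  ring

theorem pt_mem (g : ℝ → ℝ) (x r : ℝ) : pt N x r ∈ Body N g ↔ r ^ 2 ≤ g x := by
  have := pt_add (N := N) x r 0
  simp only [add_zero, PiLp.zero_apply, mul_zero, norm_zero, sub_self] at this
  show ‖_‖ ^ 2 - _ ^ 2 ≤ g _ ↔ _
  rw [this, pt_zero]

theorem Body_translate {g g' : ℝ → ℝ} (h : GOK g) (h' : GOK g') (top : ∀ x, x ≠ 0 → g x < 1)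
    {v : EN N} (hv : Body N g' = (fun z => z + v) '' Body N g) :
    ∀ x, 0 ≤ g x → g' x = g x := by
  have hm : ∀ z : EN N, z + v ∈ Body N g' ↔ z ∈ Body N g := by
    intro z
    rw [hv]
    exact (add_left_injective v).mem_set_image
  have hm' : ∀ x r : ℝ, r ^ 2 + 2 * r * v 1 + (‖v‖ ^ 2 - v 0 ^ 2) ≤ g' (x + v 0) ↔
      r ^ 2 ≤ g x := by
    intro x r
    rw [← pt_mem (N := N), ← hm, ← pt_add x r v]
    show _ ↔ _ ≤ g' ((pt N x r + v) 0)
    rw [PiLp.add_apply, pt_zero]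
  have a1 := (hm' 0 1).mpr (by simp [h.g0])
  have a2 := (hm' 0 (-1)).mpr (by simp [h.g0])
  have b1 := h'.le (0 + v 0)
  have b2 := geo_tail0 v
  have v2 : ‖v‖ ^ 2 - v 0 ^ 2 = 0 := by linarith
  have v1 : v 1 = 0 := by linarith
  simp only [v1, v2, mul_zero, add_zero] at hm'
  have a3 := (hm' (-v 0) 1).mp (by simp [h'.g0])
  have v0 : v 0 = 0 := by
    by_contra hc
    have := top (-v 0) (neg_ne_zero.mpr hc)
    linarith
  simp only [v0, add_zero] at hm'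
  intro x hx
  have c1 := (hm' x (Real.sqrt (g x))).mpr (Real.sq_sqrt hx).le
  rw [Real.sq_sqrt hx] at c1
  have hx' : 0 ≤ g' x := by linarith
  have c2 := (hm' x (Real.sqrt (g' x))).mp (Real.sq_sqrt hx').le
  rw [Real.sq_sqrt hx'] at c2
  linarith

theorem Body_neg (g : ℝ → ℝ) (v : EN N) :
    (fun z => -z + v) '' Body N g = (fun z => z + v) '' Body N (fun x => g (-x)) := by
  ext w
  constructor
  · rintro ⟨z, hz, rfl⟩
    exact ⟨-z, by simpa [Body] using hz, rfl⟩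
  · rintro ⟨z, hz, rfl⟩
    exact ⟨-z, by simpa [Body] using hz, by simp⟩

theorem geo_scale {g g' : ℝ → ℝ} (h : GOK g) (h' : GOK g') {δ : ℝ} (h1 : δ ≤ 1)
    (hc : ∀ x, |x| ≤ 2 → |g x - g' x| ≤ δ) (S C : ℝ) :
    ENNReal.ofReal ((1 - δ) ^ (N + 1)) * PV N g' S C ≤ PV N g S C := by
  have h0 : 0 ≤ δ := le_trans (abs_nonneg _) (hc 0 (by norm_num))
  have hr : 0 ≤ 1 - δ := by linarith
  have : (volume : Measure (ℝ × EW N)).IsAddHaarMeasure :=
    Measure.prod.instIsAddHaarMeasure volume volume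
  have e := Measure.addHaar_smul_of_nonneg (volume : Measure (ℝ × EW N)) hr
    {p : ℝ × EW N | (p.1, ‖p.2‖) ∈ PSet g' S C}
  rw [show Module.finrank ℝ (ℝ × EW N) = N + 1 by simp [add_comm]] at e
  rw [PV, PV, ← e]
  refine measure_mono ?_
  rintro _ ⟨p, ⟨x, y, h2, h3⟩, rfl⟩
  have h2' : y ^ 2 + ‖p.2‖ ^ 2 ≤ g' x := h2
  have h3' : p.1 = S * x + C * y := h3
  have hx : 0 ≤ g' x := le_trans (by positivity) h2'
  have h4 := abs_le.mp (hc x ((geo_lt h' hx).le.trans (by norm_num)))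
  have h5 := h.cc.2 (mem_univ x) (mem_univ 0) hr h0 (by ring)
  simp only [smul_eq_mul, mul_zero, add_zero, h.g0, mul_one] at h5
  refine ⟨(1 - δ) * x, (1 - δ) * y, ?_, ?_⟩
  · show ((1 - δ) * y) ^ 2 + ‖(1 - δ) • p.2‖ ^ 2 ≤ _
    rw [norm_smul, Real.norm_eq_abs, abs_of_nonneg hr]
    have h6 : (1 - δ) ^ 2 * (y ^ 2 + ‖p.2‖ ^ 2) ≤ (1 - δ) ^ 2 * g' x :=
      mul_le_mul_of_nonneg_left h2' (sq_nonneg _)
    have h7 : (1 - δ) * (g' x - δ) ≤ (1 - δ) * g x := mul_le_mul_of_nonneg_left (by linarith) hr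
    have h8 : 0 ≤ (1 - δ) * δ * g' x := by positivity
    nlinarith [sq_nonneg δ]
  · show (1 - δ) * p.1 = _
    rw [h3']
    ring

theorem geo_lim {k : ℕ} {δ : ℕ → ℝ} (hδ : Tendsto δ atTop (𝓝 0)) {V W : ENNReal}
    (h : ∀ n, δ n ≤ 1 → ENNReal.ofReal ((1 - δ n) ^ k) * V ≤ W) : V ≤ W := by
  have h1 : Tendsto (fun n => (1 - δ n) ^ k) atTop (𝓝 1) := by
    simpa using (hδ.const_sub 1).pow k
  have h2 : Tendsto (fun n => ENNReal.ofReal ((1 - δ n) ^ k) * V) atTop (𝓝 (1 * V)) := by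
    refine ENNReal.Tendsto.mul_const ?_ (Or.inl one_ne_zero)
    simpa using ENNReal.tendsto_ofReal h1
  rw [one_mul] at h2
  refine le_of_tendsto h2 ?_
  filter_upwards [hδ.eventually (eventually_le_nhds one_pos)] with n hn using h n hn

/-- brightness passes to the limit -/
theorem BrEq.limit {g : ℕ → ℝ → ℝ} {g' k : ℝ → ℝ} {δ : ℕ → ℝ} (h : ∀ n, GOK (g n)) (h' : GOK g')
    (hδ : Tendsto δ atTop (𝓝 0)) (hc : ∀ n x, |x| ≤ 2 → |g n x - g' x| ≤ δ n)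
    (hb : ∀ n, BrEq N (g n) k) : BrEq N g' k := by
  intro S C hS hC hSC
  apply le_antisymm
  · refine geo_lim (k := N + 1) hδ fun n hn => ?_
    rw [← hb n S C hS hC hSC]
    exact geo_scale (h n) h' hn (hc n) S C
  · refine geo_lim (k := N + 1) hδ fun n hn => ?_
    rw [← hb n S C hS hC hSC]
    exact geo_scale h' (h n) hn (fun x hx => by rw [abs_sub_comm]; exact hc n x hx) S C

end BonG
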