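import Pool.Agent.Lib.MP_3dbf58_gt.N.GeoB

/-! From two profiles to the two bodies. -/

open Set Filter Topology MeasureTheory Metric

noncomputable section

namespace BonG

open Bon3 (GOK)

/-- the statement in dimension `n` -/
def Pair (n : ℕ) : Prop := ∃ K L : Set (EuclideanSpace ℝ (Fin n)),
  IsCompact K ∧ Convex ℝ K ∧ (interior K).Nonempty ∧
  IsCompact L ∧ Convex ℝ L ∧ (interior L).Nonempty ∧
  (∀ u : EuclideanSpace ℝ (Fin n), ‖u‖ = 1 →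
    volume ((fun z => (ℝ ∙ u)ᗮ.orthogonalProjectionOnto z) '' K) =
    volume ((fun z => (ℝ ∙ u)ᗮ.orthogonalProjectionOnto z) '' L)) ∧
  (∀ u : EuclideanSpace ℝ (Fin n), ‖u‖ = 1 →
    ⨆ t : ℝ, volume {v : (ℝ ∙ u)ᗮ | (v : EuclideanSpace ℝ (Fin n)) + t • u ∈ K} =
    ⨆ t : ℝ, volume {v : (ℝ ∙ u)ᗮ | (v : EuclideanSpace ℝ (Fin n)) + t • u ∈ L}) ∧
  ∀ v, L ≠ (fun z => z + v) '' K ∧ L ≠ (fun z => -z + v) '' K

theorem geo_main {N : ℕ} (hN : 0 < N) {k g : ℝ → ℝ} (hk : GOK k) (hg : GOK g) (br : BrEq N g k)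
    (eq : ∀ x, |x| ≤ 99 / 100 → k x = g x) (cl : ∀ x, |x| ≤ 2 → |g x - k x| ≤ 1 / 10 ^ 6)
    (outer : ∀ x, -(1 / 10 ^ 6) ≤ k x → k x + x ^ 2 ≤ 1 + 1 / 10 ^ 5)
    (inner : ∀ x, |x| ≤ 1 → 1 - 1 / 10 ^ 5 - x ^ 2 ≤ k x) {c : ℝ} (hc : 0 < c)
    (lub : ∀ σ ∈ Icc (0 : ℝ) (1 / 20), ∃ m, IsLUB (range fun y => c * ArI N k σ y) m ∧
      IsLUB (range fun y => c * ArI N g σ y) m)
    (top : ∀ x, x ≠ 0 → k x < 1) (asym : ∃ x, |x| ≤ 9 / 10 ∧ k x ≠ k (-x))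
    (ne : ∃ x, 0 ≤ k x ∧ g x ≠ k x) : Pair (N + 2) := by
  refine ⟨Body N k, Body N g, Body_compact hk, Body_convex hk, Body_interior hk, Body_compact hg,
    Body_convex hg, Body_interior hg, fun u hu => ?_, fun u hu => ?_, fun v => ⟨?_, ?_⟩⟩
  · show proj _ u = proj _ u
    rw [proj_Body _ hu, proj_Body _ hu]
    exact (br _ _ (Real.sqrt_nonneg _) (abs_nonneg _)
      (by rw [Real.sq_sqrt (geo_u0 hu), sq_abs]; ring)).symm
  · show ⨆ t, sect _ u t = ⨆ t, sect _ u t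
    rcases le_or_gt (1 / 21) (u 0 ^ 2) with h1 | h1
    · refine sect_steep hk hg eq (fun x hx => ?_) (fun x hx => ?_) (fun x hx => ?_)
        (fun x hx => ?_) hu h1
      · linarith [outer x (by linarith)]
      · have h3 := abs_le.1 (cl x ((Bon3.geo_lt hg hx).le.trans (by norm_num)))
        linarith [outer x (by linarith [h3.2]), h3.2]
      · linarith [inner x hx]
      · linarith [inner x hx, (abs_le.1 (cl x (hx.trans (by norm_num)))).1]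
    · have h2 : u 0 ^ 2 < 1 := by linarith
      have h3 : 0 ≤ u 0 ^ 2 / (1 - u 0 ^ 2) := div_nonneg (sq_nonneg _) (by linarith)
      have h4 : u 0 ^ 2 / (1 - u 0 ^ 2) ≤ 1 / 20 := by
        rw [div_le_iff₀ (by linarith)]; linarith
      obtain ⟨m, m1, m2⟩ := lub _ ⟨h3, h4⟩
      rw [sect_sup' hN hk hu h2 hc m1, sect_sup' hN hg hu h2 hc m2]
  · intro hv
    obtain ⟨x, x1, x2⟩ := ne
    exact x2 (Body_translate hk hg top hv x x1)
  · intro hv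
    rw [Body_neg] at hv
    obtain ⟨x, a1, a2⟩ := asym
    have a3 : x ^ 2 ≤ (9 / 10) ^ 2 := by
      rw [← sq_abs]; exact pow_le_pow_left₀ (abs_nonneg _) a1 2
    have a4 := inner (-x) (by rw [abs_neg]; linarith)
    have a5 := Body_translate hk.neg hg (fun x hx => top (-x) (neg_ne_zero.2 hx)) hv x
      (by show 0 ≤ k (-x); nlinarith)
    exact a2 ((eq x (by linarith)).trans a5)

end BonG
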