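import Pool.Agent.Lib.MP_3dbf58_gt.N.Cst

open Set Filter Topology MeasureTheory Metric

noncomputable section

namespace BonN

open Bon3

variable [Cs]

section
variable {P : Type} [NormedAddCommGroup P] [NormedSpace ℂ P]

omit [Cs] in
theorem hc_cont {f : P → ℂ} {G : Set P} (hG : IsOpen G) (hf : HC f G)
    (hb : ∀ p ∈ G, ∃ M, ∀ᶠ r in 𝓝 p, ‖f r‖ ≤ M) : ContinuousOn f G := by
  intro p hp
  obtain ⟨ρ, ρ0, M, hM⟩ := tb_ball hG hb hp
  refine ContinuousAt.continuousWithinAt (tendsto_iff_norm_sub_tendsto_zero.2 ?_)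
  refine squeeze_zero' (g := fun r => 2 * M / ρ * ‖r - p‖) (.of_forall fun _ => norm_nonneg _)
    (mem_of_superset (ball_mem_nhds p ρ0) fun r hr => ?_)
    (by simpa using (tendsto_norm_sub_self p).const_mul (2 * M / ρ))
  rcases eq_or_ne r p with rfl | h
  · simp
  have n0 : 0 < ‖r - p‖ := norm_sub_pos_iff.2 h
  have m : ∀ t ∈ ball (0 : ℂ) (ρ / ‖r - p‖), p + t • (r - p) ∈ ball p ρ := fun t ht => by
    rwa [mem_ball_iff_norm, add_sub_cancel_left, norm_smul, ← lt_div_iff₀ n0, ← mem_ball_zero_iff]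
  have := schwarz1 (z := 1) (hf.tb_line isOpen_ball fun t ht => (hM _ (m t ht)).1)
    (fun t ht => (hM _ (m t ht)).2) (by rwa [norm_one, one_lt_div n0, ← mem_ball_iff_norm])
  simp only [one_smul, zero_smul, add_zero, add_sub_cancel, norm_one, mul_one] at this
  exact this.trans_eq (by field_simp)

omit [Cs] in
theorem hcg_lb {f : P → ℂ} {G : Set P} (hG : IsOpen G) (hf : HC f G)
    (hb : ∀ p ∈ G, ∃ M, ∀ᶠ r in 𝓝 p, ‖f r‖ ≤ M) {v : P} (hv : ‖v‖ ≤ 1) :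
    ∀ p ∈ G, ∃ M, ∀ᶠ r in 𝓝 p, ‖deriv (fun t : ℂ => f (r + t • v)) 0‖ ≤ M := by
  intro p0 hp0
  obtain ⟨ρ, ρ0, M, hM⟩ := tb_ball hG hb hp0
  refine ⟨M / (ρ / 4), mem_of_superset (ball_mem_nhds p0 (half_pos ρ0)) fun p hp => ?_⟩
  have m : ∀ t ∈ ball (0 : ℂ) (ρ / 2), p + t • v ∈ ball p0 ρ := fun t ht => by
    rw [mem_ball_iff_norm] at hp ⊢
    rw [mem_ball_zero_iff] at ht
    have h1 := norm_add_le (p - p0) (t • v)
    have h2 := mul_le_mul_of_nonneg_left hv (norm_nonneg t)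
    rw [norm_smul] at h1
    rw [add_sub_right_comm]
    linarith
  have s : closedBall (0 : ℂ) (ρ / 4) ⊆ ball 0 (ρ / 2) := closedBall_subset_ball (by linarith)
  exact Complex.norm_deriv_le_of_forall_mem_sphere_norm_le (by positivity)
    ((hf.tb_line isOpen_ball fun t ht => (hM _ (m t ht)).1).diffContOnCl_ball s)
    fun t ht => (hM _ (m t (s (sphere_subset_closedBall ht)))).2

omit [Cs] in
/-- iterated derivative in the last variable -/
theorem hc_iter {f : P × ℂ → ℂ} {G : Set (P × ℂ)} (hG : IsOpen G) (hf : HC f G)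
    (hb : ∀ p ∈ G, ∃ M, ∀ᶠ r in 𝓝 p, ‖f r‖ ≤ M) (k : ℕ) :
    HC (fun p => iteratedDeriv k (fun a => f (p.1, a)) p.2) G ∧
      ∀ p ∈ G, ∃ M, ∀ᶠ r in 𝓝 p, ‖iteratedDeriv k (fun a => f (r.1, a)) r.2‖ ≤ M := by
  induction k with
  | zero => exact ⟨hf, hb⟩
  | succ n ih =>
    have hv : ‖((0, 1) : P × ℂ)‖ ≤ 1 := by simp
    have e : (fun p : P × ℂ => iteratedDeriv (n + 1) (fun a => f (p.1, a)) p.2) =
        fun p => deriv (fun t : ℂ => (fun p : P × ℂ =>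
          iteratedDeriv n (fun a => f (p.1, a)) p.2) (p + t • (0, 1))) 0 := by
      funext p
      simp only [Prod.smul_mk, smul_eq_mul, smul_zero, mul_one, Prod.fst_add, Prod.snd_add,
        add_zero]
      rw [deriv_comp_const_add, add_zero, iteratedDeriv_succ]
    have := hcg_lb hG ih.1 ih.2 hv
    simp only [← congrFun e] at this
    exact ⟨e ▸ ih.1.tb_dir hG ih.2 hv, this⟩
end

omit [Cs] in
/-- iterated derivatives of a function that is real on the real segment -/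
theorem rl_iter {θ : ℝ} {f : ℂ → ℂ} (hf : DifferentiableOn ℂ f (Sec θ)) (h : Rl f θ) (k : ℕ) :
    DifferentiableOn ℂ (iteratedDeriv k f) (Sec θ) ∧ Rl (iteratedDeriv k f) θ := by
  induction k with
  | zero => exact ⟨hf, h⟩
  | succ n ih =>
    rw [iteratedDeriv_succ]
    exact ⟨ih.1.deriv (isOpen_Sec θ), Rl.deriv ih.1 ih.2⟩

/-- Cauchy estimate for the kernel shape -/
theorem cauchy_Th {θ d M : ℝ} {R : ℂ → ℂ} (d0 : 0 < d) (hd : d ≤ θ) (t1 : θ ≤ th0) {ξ : ℂ}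
    (hξ : ξ ∈ Sec (θ - d)) {v : ℝ} (hv : v ∈ Ioo (0 : ℝ) 1)
    (hR : DiffContOnCl ℂ R (ball ξ (d / 4 * ‖ξ‖)))
    (hM : ∀ a ∈ sphere ξ (d / 4 * ‖ξ‖), ‖R a‖ ≤ M) :
    ‖ξ * (iteratedDeriv (ii + 3) (fun a => (a - v * ξ) ^ (ii + 2) * R a) ξ / (ii + 2).factorial)‖ ≤
      M * (10 ^ 6 * Nr ^ 3 * d ^ n2)⁻¹ := by
  have n0 : 0 < ‖ξ‖ := norm_pos_iff.2 (Sec_ne hξ)
  have N0 := Nr_pos
  have ds : d * Nr ^ 2 ≤ 1 / 10 ^ 10 :=
    (mul_le_mul_of_nonneg_right (hd.trans t1) (by positivity)).trans (th0_mul (by norm_num))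
  have N3 := Nr_ge
  have r0 : 0 < d / 4 * ‖ξ‖ := by positivity
  have M0 : 0 ≤ M := (norm_nonneg _).trans (hM (ξ + (d / 4 * ‖ξ‖ : ℝ)) (by
    rw [mem_sphere_iff_norm, add_sub_cancel_left, Complex.norm_real, Real.norm_of_nonneg r0.le]))
  have a : ‖ξ - v * ξ‖ ≤ ‖ξ‖ := by
    rw [show ξ - v * ξ = ((1 - v : ℝ) : ℂ) * ξ by push_cast; ring, norm_mul,
      Complex.norm_real, Real.norm_of_nonneg (by linarith [hv.2])]
    nlinarith [hv.1]
  have d1 : d ≤ 1 := by linarith [th0_small]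
  have k := Complex.norm_iteratedDeriv_le_of_forall_mem_sphere_norm_le (ii + 3) r0
    (f := fun a => (a - v * ξ) ^ (ii + 2) * R a) (C := (2 * ‖ξ‖) ^ (ii + 2) * M)
    ⟨DifferentiableOn.mul (by fun_prop) hR.1, ContinuousOn.mul (by fun_prop) hR.2⟩ fun ζ hζ => by
      rw [norm_mul, norm_pow]
      refine mul_le_mul (pow_le_pow_left₀ (norm_nonneg _) ?_ _) (hM ζ hζ) (norm_nonneg _)
        (by positivity)
      have := norm_sub_le_norm_sub_add_norm_sub ζ ξ (v * ξ)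
      rw [mem_sphere_iff_norm.1 hζ] at this
      nlinarith
  have f0 : (0 : ℝ) < (ii + 2).factorial := Nat.cast_pos.2 (Nat.factorial_pos _)
  rw [norm_mul, norm_div, Complex.norm_natCast]
  refine (mul_le_mul_of_nonneg_left (div_le_div_of_nonneg_right k f0.le) n0.le).trans ?_
  have e : ‖ξ‖ * (((ii + 3).factorial : ℝ) * ((2 * ‖ξ‖) ^ (ii + 2) * M) / (d / 4 * ‖ξ‖) ^ (ii + 3) /
      (ii + 2).factorial) = M * (Nr / 2 * (8 * d) ^ (ii + 3) * (d ^ n2)⁻¹) := by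
    rw [Nat.factorial_succ (ii + 2), Nat.cast_mul, Nr_cast,
      show d ^ n2 = d ^ (ii + 3) * d ^ (ii + 3) by rw [← pow_add]; congr 1; unfold n2; omega,
      show (8 : ℝ) * d = 2 * 4 * d by norm_num]
    simp only [mul_pow, div_pow, pow_succ ‖ξ‖ (ii + 2), pow_succ (2 : ℝ) (ii + 2)]
    field_simp
  rw [e, mul_inv]
  refine mul_le_mul_of_nonneg_left (mul_le_mul_of_nonneg_right ?_ (by positivity)) M0
  have b : (8 * d) ^ (ii + 3) ≤ (8 * d) ^ 2 :=
    pow_le_pow_of_le_one (by positivity) (by linarith [th0_small]) (by omega)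
  have c : (d * Nr ^ 2) ^ 2 ≤ (1 / 10 ^ 10) ^ 2 := pow_le_pow_left₀ (by positivity) ds 2
  rw [← one_div, le_div_iff₀ (by positivity)]
  refine (mul_le_mul_of_nonneg_right (mul_le_mul_of_nonneg_left b (by positivity))
    (by positivity)).trans ?_
  nlinarith

end BonN
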