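import Pool.Agent.Lib.MP_3dbf58_gt.N.Int

open Set Filter Topology MeasureTheory Metric

noncomputable section

namespace BonN

open Bon3

variable [Cs]

/-- what the kernel needs -/
structure ZE (θ : ℝ) (z e : ℂ → ℂ) : Prop where
  dz : DifferentiableOn ℂ z (Sec θ)
  de : DifferentiableOn ℂ e (Sec θ)
  z0 : ∀ ξ ∈ Sec θ, ‖z ξ - 1‖ ≤ 1 / (20 * Nr)
  e1 : ∀ ξ ∈ Sec θ, ‖deriv e ξ‖ ≤ 1 / (20 * Nr)

theorem LD.ze {θ A : ℝ} {z e w : ℂ → ℂ} (h : LD θ A z e w) : ZE θ z e := ⟨h.dz, h.de, h.z0, h.e1⟩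

omit [Cs] in
theorem ker_im {f : ℝ → ℂ} (h : ∀ s ∈ Ioo (0 : ℝ) 1, (f s).im = 0) :
    (∫ s in Ioo (0 : ℝ) 1, f s).im = 0 := by
  rw [setIntegral_congr_fun (g := fun s => ((f s).re : ℂ)) measurableSet_Ioo
    fun s hs => Complex.ext (z := f s) rfl (h s hs), integral_complex_ofReal, Complex.ofReal_im]

omit [Cs] in
theorem ker_norm {f : ℝ → ℂ} {C : ℝ} (h : ∀ s ∈ Ioo (0 : ℝ) 1, ‖f s‖ ≤ C) :
    ‖∫ s in Ioo (0 : ℝ) 1, f s‖ ≤ C := by
  simpa using norm_setIntegral_le_of_norm_le_const (μ := volume) measure_Ioo_lt_top h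

omit [Cs] in
theorem ker_seg {O : Set ℂ} (cv : Convex ℝ O) {a b : ℂ} (ha : a ∈ O) (hb : b ∈ O) {s : ℝ}
    (hs : s ∈ Icc (0 : ℝ) 1) : b + s * (a - b) ∈ O := by
  simpa using cv.add_smul_sub_mem hb ha hs

omit [Cs] in
theorem ker_cv {a b : ℝ} (s : ℝ) : (b : ℂ) + s * (a - b) = ((b + s * (a - b) : ℝ) : ℂ) := by
  push_cast; rfl

omit [Cs] in
theorem ker_dd {O : Set ℂ} {e : ℂ → ℂ} {a b : ℂ}
    (op : IsOpen O) (cv : Convex ℝ O) (de : DifferentiableOn ℂ e O) (ha : a ∈ O)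
    (hb : b ∈ O) : e a - e b = (a - b) * ddI e a b := by
  have c : ContinuousOn (fun s : ℝ => deriv e (b + s * (a - b))) (Icc 0 1) :=
    (de.deriv op).continuousOn.comp (by fun_prop) fun s hs => ker_seg cv ha hb hs
  have := intervalIntegral.integral_eq_sub_of_hasDerivAt (a := 0) (b := 1)
    (f := fun s : ℝ => e (b + s * (a - b))) (f' := fun s : ℝ => (a - b) * deriv e (b + s * (a - b)))
    (fun s hs => by
      rw [uIcc_of_le zero_le_one] at hs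
      have d := (de.differentiableAt (op.mem_nhds (ker_seg cv ha hb hs))).hasDerivAt
      have l : HasDerivAt (fun t : ℂ => b + t * (a - b)) (a - b) s := by
        simpa using ((hasDerivAt_id (s : ℂ)).mul_const (a - b)).const_add b
      exact ((d.comp (s : ℂ) l).comp_ofReal).congr_deriv (mul_comm _ _))
    (ContinuousOn.intervalIntegrable_of_Icc zero_le_one (continuousOn_const.mul c))
  rw [intervalIntegral.integral_const_mul, intervalIntegral.integral_of_le zero_le_one,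
    integral_Ioc_eq_integral_Ioo] at this
  rw [ddI, this]
  simp

theorem ker_pow {x : ℝ} {k : ℕ} (x0 : 0 ≤ x) (h : x ≤ 1 + 1 / (4 * Nr)) (hk : k ≤ ii + 3) :
    x ^ k ≤ 3 / 2 := by
  have N0 := Nr_pos
  have a : 1 + 1 / (4 * Nr) ≤ Real.exp (1 / (4 * Nr)) := by linarith [Real.add_one_le_exp (1 / (4 * Nr))]
  have b : Real.exp (1 / (4 * Nr)) ^ (ii + 3) = Real.exp (1 / 4) := by
    rw [← Real.exp_nat_mul, Nr_cast]
    congr 1
    field_simp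
  have c : Real.exp (1 / 4) ≤ 1 / (1 - 1 / 4) := Real.exp_bound_div_one_sub_of_interval
    (by norm_num) (by norm_num)
  calc x ^ k ≤ Real.exp (1 / (4 * Nr)) ^ k := pow_le_pow_left₀ x0 (h.trans a) k
    _ ≤ Real.exp (1 / (4 * Nr)) ^ (ii + 3) :=
      pow_le_pow_right₀ (Real.one_le_exp (by positivity)) hk
    _ ≤ 3 / 2 := by rw [b]; linarith

omit [Cs] in
theorem seg_mem {θ : ℝ} {a b : ℂ} (ha : a ∈ Sec θ) (hb : b ∈ Sec θ) {s : ℝ} (hs : s ∈ Icc (0 : ℝ) 1) :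
    b + s * (a - b) ∈ Sec θ := ker_seg (convex_Sec θ) ha hb hs
omit [Cs] in
theorem ddI_mul {θ : ℝ} {e : ℂ → ℂ} (de : DifferentiableOn ℂ e (Sec θ)) {a b : ℂ} (ha : a ∈ Sec θ)
    (hb : b ∈ Sec θ) : (a - b) * ddI e a b = e a - e b := (ker_dd (isOpen_Sec θ) (convex_Sec θ) de ha hb).symm
omit [Cs] in
theorem ddI_self (e : ℂ → ℂ) (a : ℂ) : ddI e a a = deriv e a := by simp [ddI]
omit [Cs] in
theorem ddI_near {θ M : ℝ} {e : ℂ → ℂ} {s : ℂ} (de : DifferentiableOn ℂ e (Sec θ))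
    (h : ∀ ξ ∈ Sec θ, ‖deriv e ξ - s‖ ≤ M) {a b : ℂ} (ha : a ∈ Sec θ) (hb : b ∈ Sec θ) :
    ‖ddI e a b - s‖ ≤ M := by
  have c : ContinuousOn (fun t : ℝ => deriv e (b + t * (a - b))) (Icc 0 1) :=
    (de.deriv (isOpen_Sec θ)).continuousOn.comp (by fun_prop) fun t ht => seg_mem ha hb ht
  have := ker_norm (f := fun t : ℝ => deriv e (b + t * (a - b)) - s) fun t ht =>
    h _ (seg_mem ha hb (Ioo_subset_Icc_self ht))
  rw [integral_sub (c.integrableOn_Icc.mono_set Ioo_subset_Icc_self)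
    (integrableOn_const measure_Ioo_lt_top.ne)] at this
  simpa [ddI] using this
omit [Cs] in
theorem NN_eq {θ : ℝ} {e : ℂ → ℂ} (z : ℂ → ℂ) (de : DifferentiableOn ℂ e (Sec θ)) {a b : ℂ}
    (ha : a ∈ Sec θ) (hb : b ∈ Sec θ) : NN z e a b = (a - b) * nnI z e a b := by
  have := ddI_mul de ha hb
  unfold NN nnI
  linear_combination (1 - a) * (2 * z b + (e a - e b)) * this
omit [Cs] in
theorem nnI_self (z e : ℂ → ℂ) (a : ℂ) : nnI z e a a = nd z e a := by simp [nnI, nd, ddI_self]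
theorem Sec_sub {θ : ℝ} (t0 : 0 ≤ θ) (t1 : θ ≤ th0) {a b : ℂ} (ha : a ∈ Sec θ) (hb : b ∈ Sec θ) :
    ‖a - b‖ ≤ 101 / 100 := by
  have s := th0_small
  have a0 := Sec_re_pos t0 ha
  have b0 := Sec_re_pos t0 hb
  have a1 := abs_lt.1 ha.1
  have b1 := abs_lt.1 hb.1
  have a2 := mul_le_mul_of_nonneg_left (show a.re ≤ 2 by linarith [ha.2]) t0
  have b2 := mul_le_mul_of_nonneg_left (show b.re ≤ 2 by linarith [hb.2]) t0
  have r : |(a - b).re| ≤ 1 + θ := by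
    rw [Complex.sub_re, abs_le]
    constructor <;> linarith [ha.2, hb.2]
  have i : |(a - b).im| ≤ 4 * θ := by
    rw [Complex.sub_im, abs_le]
    constructor <;> linarith [a1.1, a1.2, b1.1, b1.2]
  linarith [Complex.norm_le_abs_re_add_abs_im (a - b)]
theorem csq_pow_le {z : ℂ} (h : ‖z - 1‖ ≤ 1 / (4 * Nr)) :
    z ∈ Complex.slitPlane ∧ ‖csq z ^ (ii + 1)‖ ≤ 3 / 2 := by
  have := Nr_ge
  have a : 1 / (4 * Nr) < 1 := by rw [div_lt_one (by positivity)]; linarith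
  refine ⟨slit_of_near (h.trans_lt a), ?_⟩
  rw [norm_pow]
  exact ker_pow (norm_nonneg _) (lin_one ((csq_near_TA z).trans h)) (by omega)
/-- pointwise form of the closeness to `1` -/
theorem nn_near {zb dd a δ : ℂ} (hz : ‖zb - 1‖ ≤ 1 / (20 * Nr)) (hd : ‖dd‖ ≤ 1 / (20 * Nr))
    (ha : ‖1 - a‖ ≤ 101 / 100) (hδ : ‖δ‖ ≤ 101 / 100) :
    ‖zb ^ 2 - (1 - a) * dd * (2 * zb + δ * dd) - 1‖ ≤ 1 / (4 * Nr) := by
  have N := Nr_ge
  set ε := 1 / (20 * Nr) with hε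
  have ε0 : 0 ≤ ε := by positivity
  have ε1 : ε ≤ 1 / 60 := one_div_le_one_div_of_le (by norm_num) (by linarith)
  have := lin_sub (lin_mul hz (lin_add hz lin_2))
    (lin_mul (lin_mul ha hd) (lin_add (lin_mul lin_2 (lin_one hz)) (lin_mul hδ hd)))
  refine lin_eq this (by ring) ?_
  rw [show 1 / (4 * Nr) = 5 * ε by rw [hε]; field_simp; norm_num]
  nlinarith

/-- data on a convex open set -/
structure KO (O : Set ℂ) (z e : ℂ → ℂ) : Prop where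
  op : IsOpen O
  cv : Convex ℝ O
  nb : ∀ ξ ∈ O, ‖1 - ξ‖ ≤ 101 / 100
  ns : ∀ a ∈ O, ∀ b ∈ O, ‖a - b‖ ≤ 101 / 100
  dz : DifferentiableOn ℂ z O
  de : DifferentiableOn ℂ e O
  z0 : ∀ ξ ∈ O, ‖z ξ - 1‖ ≤ 1 / (20 * Nr)
  e1 : ∀ ξ ∈ O, ‖deriv e ξ‖ ≤ 1 / (20 * Nr)

section
variable {O : Set ℂ} {z e : ℂ → ℂ} {a b : ℂ}

theorem KO.dd_le (h : KO O z e) (ha : a ∈ O) (hb : b ∈ O) : ‖ddI e a b‖ ≤ 1 / (20 * Nr) :=
  ker_norm fun _ hs => h.e1 _ (ker_seg h.cv ha hb (Ioo_subset_Icc_self hs))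

theorem KO.nn_near (h : KO O z e) (ha : a ∈ O) (hb : b ∈ O) :
    ‖nnI z e a b - 1‖ ≤ 1 / (4 * Nr) := by
  rw [nnI, ker_dd h.op h.cv h.de ha hb]
  exact BonN.nn_near (h.z0 b hb) (h.dd_le ha hb) (h.nb a ha) (h.ns a ha b hb)

theorem KO.Psi_le (h : KO O z e) (ha : a ∈ O) (hb : b ∈ O) : ‖Psi z e a b‖ ≤ 3 / 2 := by
  have := norm_integral_le_of_norm_le (f := fun s : ℝ =>
    (wg s : ℂ) * csq (nnI z e (b + s * (a - b)) b) ^ (ii + 1)) (wg_int.mul_const (3 / 2))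
    ((ae_restrict_mem measurableSet_Ioo).mono fun s hs => by
      rw [norm_mul, Complex.norm_real, Real.norm_of_nonneg (wg_nonneg s)]
      exact mul_le_mul_of_nonneg_left (csq_pow_le (h.nn_near
        (ker_seg h.cv ha hb (Ioo_subset_Icc_self hs)) hb)).2 (wg_nonneg s))
  rw [integral_mul_const] at this
  rw [Psi, norm_div, Complex.norm_real, Real.norm_of_nonneg be2_pos.le, div_le_iff₀ be2_pos,
    mul_comm]
  exact this

end

theorem ZE.ko {θ : ℝ} {z e : ℂ → ℂ} (h : ZE θ z e) (t0 : 0 ≤ θ) (t1 : θ ≤ th0) : KO (Sec θ) z e :=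
  ⟨isOpen_Sec θ, convex_Sec θ, fun _ hξ => (Sec_two t0 t1 hξ).2, fun _ ha _ hb =>
    Sec_sub t0 t1 ha hb, h.dz, h.de, h.z0, h.e1⟩

section
variable {θ : ℝ} {z e : ℂ → ℂ} {a b : ℂ}
theorem ZE.nn (h : ZE θ z e) (t0 : 0 ≤ θ) (t1 : θ ≤ th0) (ha : a ∈ Sec θ) (hb : b ∈ Sec θ) :
    ‖nnI z e a b - 1‖ ≤ 1 / (4 * Nr) := (h.ko t0 t1).nn_near ha hb
theorem ZE.psi (h : ZE θ z e) (t0 : 0 ≤ θ) (t1 : θ ≤ th0) (ha : a ∈ Sec θ) (hb : b ∈ Sec θ) :
    ‖Psi z e a b‖ ≤ 3 / 2 := (h.ko t0 t1).Psi_le ha hb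
theorem Psi_self (z e : ℂ → ℂ) (a : ℂ) : Psi z e a a = csq (nd z e a) ^ (ii + 1) := by
  simp only [Psi, sub_self, mul_zero, add_zero, nnI_self]
  rw [integral_mul_const, integral_complex_ofReal]
  exact mul_div_cancel_left₀ _ (Complex.ofReal_ne_zero.2 be2_pos.ne')
omit [Cs] in
theorem nnI_congr {z' e' : ℂ → ℂ} (hz : EqOn z z' (Sec θ)) (he : EqOn e e' (Sec θ))
    (ha : a ∈ Sec θ) (hb : b ∈ Sec θ) : nnI z e a b = nnI z' e' a b := by
  have : ddI e a b = ddI e' a b := setIntegral_congr_fun measurableSet_Ioo fun s hs =>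
    (he.eventuallyEq_of_mem ((isOpen_Sec θ).mem_nhds
      (seg_mem ha hb (Ioo_subset_Icc_self hs)))).deriv_eq
  rw [nnI, nnI, this, hz hb, he ha, he hb]
theorem KK_congr {z' e' : ℂ → ℂ} (hz : EqOn z z' (Sec θ)) (he : EqOn e e' (Sec θ))
    (ha : a ∈ Sec θ) (hb : b ∈ Sec θ) : KK z e a b = KK z' e' a b := by
  have : EqOn (Th z e b) (Th z' e' b) (Sec θ) := fun c hc => by
    rw [Th, Th, Psi, Psi, setIntegral_congr_fun measurableSet_Ioo fun s hs => by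
      rw [nnI_congr hz he (seg_mem hc hb (Ioo_subset_Icc_self hs)) hb]]
  rw [KK, KK, (this.eventuallyEq_of_mem ((isOpen_Sec θ).mem_nhds ha)).iteratedDeriv_eq]
theorem ZE.nn_real (h : ZE θ z e) (t0 : 0 ≤ θ) (t1 : θ ≤ th0) (rz : Rl z θ) (re : Rl e θ)
    {x y : ℝ} (hx : (x : ℂ) ∈ Sec θ) (hy : (y : ℂ) ∈ Sec θ) :
    (nnI z e x y).im = 0 ∧ 0 < (nnI z e x y).re ∧ (csq (nnI z e x y)).im = 0 ∧
      (Psi z e x y).im = 0 := by
  have k : ∀ {a : ℝ}, (a : ℂ) ∈ Sec θ → (nnI z e a y).im = 0 ∧ 0 < (nnI z e a y).re ∧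
      csq (nnI z e a y) = (√(nnI z e a y).re : ℝ) := fun {a} ha => by
    have i : (ddI e a y).im = 0 := ker_im fun s hs => by
      have := seg_mem ha hy (Ioo_subset_Icc_self hs)
      rw [ker_cv] at this ⊢
      exact Rl.deriv h.de re _ this
    have j : (nnI z e a y).im = 0 := by
      simp [nnI, sq, i, rz y hy, re a ha, re y hy]
    have k := (abs_le.1 ((Complex.abs_re_le_norm _).trans (h.nn t0 t1 ha hy))).1
    have : 1 / (4 * Nr) < 1 := by rw [div_lt_one (by linarith [Nr_ge])]; linarith [Nr_ge]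
    rw [Complex.sub_re, Complex.one_re] at k
    have p : 0 < (nnI z e a y).re := by linarith
    exact ⟨j, p, (congrArg csq (Complex.ext (z := nnI z e a y)
      (w := ((nnI z e a y).re : ℝ)) rfl j)).trans (csq_real p.le)⟩
  refine ⟨(k hx).1, (k hx).2.1, by rw [(k hx).2.2, Complex.ofReal_im], ?_⟩
  rw [Psi, Complex.div_ofReal_im, ker_im fun s hs => by
    have := seg_mem hx hy (Ioo_subset_Icc_self hs)
    rw [ker_cv] at this ⊢
    rw [(k this).2.2]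
    norm_cast, zero_div]
theorem KN.mono {θ' M M' c : ℝ} (h : KN θ M c z e) (t0 : 0 ≤ θ') (t1 : θ' ≤ θ) (hM : M ≤ M') :
    KN θ' M' c z e := fun ξ hξ v hv => (h ξ (Sec_mono t0 t1 hξ) v hv).trans hM
theorem KN.kb {M c : ℝ} (h : KN θ M c z e) (t0 : 0 ≤ θ) (t1 : θ ≤ th0) :
    KN θ (M + 2 * |c|) 0 z e := fun ξ hξ v hv => by
  have a := lin_add (h ξ hξ v hv) (lin_mul (lin_re (le_refl |c|)) (Sec_two t0 t1 hξ).1)
  refine lin_eq a (by simp) ?_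
  linarith [abs_nonneg c]
theorem KN.congr {M c : ℝ} {z' e' : ℂ → ℂ} (h : KN θ M c z e) (t0 : 0 ≤ θ)
    (hz : EqOn z z' (Sec θ)) (he : EqOn e e' (Sec θ)) : KN θ M c z' e' := fun ξ hξ v hv => by
  rw [← KK_congr hz he hξ (Sec_smul t0 hξ hv.1 hv.2.le)]
  exact h ξ hξ v hv
end

end BonN
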