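import Pool.Agent.Lib.MP_3dbf58_gt.N.Ker
import Pool.Agent.Lib.MP_3dbf58_gt.N.HCg

open Set Filter Topology MeasureTheory Metric

noncomputable section

namespace BonN

open Bon3

variable [Cs]

/-- triples λ, b, a (the last variable is the one that is differentiated) -/
def GG (θ Λ : ℝ) : Set ((ℂ × ℂ) × ℂ) := {p | p.1 ∈ G1 θ Λ ∧ (p.1.1, p.2) ∈ G1 θ Λ}

structure ZE2 (θ Λ : ℝ) (z e : ℂ × ℂ → ℂ) : Prop where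
  hz : HC z (G1 θ Λ)
  he : HC e (G1 θ Λ)
  he1 : HC (d2 e) (G1 θ Λ)
  z0 : ∀ p ∈ G1 θ Λ, ‖z p - 1‖ ≤ 1 / (20 * Nr)
  e1 : ∀ p ∈ G1 θ Λ, ‖d2 e p‖ ≤ 1 / (20 * Nr)

theorem LD2.ze {θ Λ A : ℝ} {z e w : ℂ × ℂ → ℂ} (h : LD2 θ Λ A z e w) : ZE2 θ Λ z e :=
  ⟨h.hz, h.he, h.he1, h.z0, h.e1⟩

omit [Cs] in
theorem isOpen_GG (θ Λ : ℝ) : IsOpen (GG θ Λ) := ((isOpen_G1 θ Λ).preimage continuous_fst).inter
  ((isOpen_G1 θ Λ).preimage (f := fun p : (ℂ × ℂ) × ℂ => (p.1.1, p.2)) (by fun_prop))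

omit [Cs] in
theorem kerh_cv (θ Λ : ℝ) (l : ℂ) : Convex ℝ {ζ | (l, ζ) ∈ G1 θ Λ} :=
  (convex_Sec θ).inter (t := {ζ : ℂ | ‖l‖ * ‖ζ‖ < Λ}) (by
    simpa using (convexOn_univ_norm.smul (norm_nonneg l)).convex_lt Λ)

omit [Cs] in
theorem kerh_seg {θ Λ : ℝ} {p : (ℂ × ℂ) × ℂ} (hp : p ∈ GG θ Λ) {s : ℝ} (hs : s ∈ Ioo (0 : ℝ) 1) :
    (p.1.1, p.1.2 + s * (p.2 - p.1.2)) ∈ G1 θ Λ :=
  ker_seg (kerh_cv θ Λ p.1.1) hp.2 hp.1 (Ioo_subset_Icc_self hs)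

omit [Cs] in
theorem kerh_0 {θ Λ : ℝ} (Λ0 : 0 < Λ) {ξ : ℂ} (h : ξ ∈ Sec θ) : ((0 : ℂ), ξ) ∈ G1 θ Λ :=
  ⟨h, by simpa using Λ0⟩

omit [Cs] in
theorem kerh_G1 {θ Λ : ℝ} (t0 : 0 ≤ θ) {p : ℂ × ℂ} (hp : p ∈ G1 θ Λ) {v : ℝ}
    (hv : v ∈ Ioo (0 : ℝ) 1) : (p.1, (v : ℂ) * p.2) ∈ G1 θ Λ := by
  refine ⟨Sec_smul t0 hp.1 hv.1 hv.2.le, lt_of_le_of_lt ?_ hp.2⟩
  refine mul_le_mul_of_nonneg_left ?_ (norm_nonneg _)
  show ‖(v : ℂ) * p.2‖ ≤ ‖p.2‖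
  rw [norm_mul, Complex.norm_real, Real.norm_eq_abs, abs_of_pos hv.1]
  exact mul_le_of_le_one_left (norm_nonneg _) hv.2.le

theorem ZE2.ko {θ Λ : ℝ} {z e : ℂ × ℂ → ℂ} (h : ZE2 θ Λ z e) (t0 : 0 ≤ θ) (t1 : θ ≤ th0) (l : ℂ) :
    KO {ζ | (l, ζ) ∈ G1 θ Λ} (sl z l) (sl e l) := by
  have op : IsOpen {ζ : ℂ | (l, ζ) ∈ G1 θ Λ} :=
    (isOpen_G1 θ Λ).preimage (Continuous.prodMk_right l)
  have hd : DifferentiableOn ℂ (fun ζ : ℂ => (l, ζ)) {ζ : ℂ | (l, ζ) ∈ G1 θ Λ} := by fun_prop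
  exact ⟨op, kerh_cv θ Λ l, fun ξ hξ => (Sec_two t0 t1 hξ.1).2,
    fun _ ha _ hb => Sec_sub t0 t1 ha.1 hb.1, h.hz _ _ op hd fun _ hζ => hζ,
    h.he _ _ op hd fun _ hζ => hζ, fun ξ hξ => h.z0 (l, ξ) hξ, fun ξ hξ => h.e1 (l, ξ) hξ⟩

section
variable {θ Λ : ℝ} {z e : ℂ × ℂ → ℂ}
theorem ZE2.nn (h : ZE2 θ Λ z e) (t0 : 0 ≤ θ) (t1 : θ ≤ th0) :
    HC (fun p : (ℂ × ℂ) × ℂ => nnI (sl z p.1.1) (sl e p.1.1) p.2 p.1.2) (GG θ Λ) ∧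
      ∀ p ∈ GG θ Λ, ‖nnI (sl z p.1.1) (sl e p.1.1) p.2 p.1.2 - 1‖ ≤ 1 / (4 * Nr) := by
  refine ⟨?_, fun p hp => (h.ko t0 t1 p.1.1).nn_near hp.2 hp.1⟩
  have pa : HC (fun p : (ℂ × ℂ) × ℂ => (p.1.1, p.2)) (GG θ Λ) := HC.of_diff (by fun_prop)
  have pb : HC (fun p : (ℂ × ℂ) × ℂ => p.1) (GG θ Λ) := HC.of_diff (by fun_prop)
  have cz := h.hz.comp pb fun p hp => hp.1
  have cea := h.he.comp pa fun p hp => hp.2
  have ceb := h.he.comp pb fun p hp => hp.1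
  have cd : HC (fun p : (ℂ × ℂ) × ℂ => ddI (sl e p.1.1) p.2 p.1.2) (GG θ Λ) :=
    HC.integral (b := fun _ => 1 / (20 * Nr))
      ((ae_restrict_mem measurableSet_Ioo).mono fun s hs => h.he1.comp
        (g := fun p : (ℂ × ℂ) × ℂ => (p.1.1, p.1.2 + s * (p.2 - p.1.2))) (HC.of_diff (by fun_prop))
        fun p hp => kerh_seg hp hs)
      (fun p hp => ContinuousOn.aestronglyMeasurable
        (((h.ko t0 t1 p.1.1).de.deriv (h.ko t0 t1 p.1.1).op).continuousOn.comp (by fun_prop)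
          fun s hs => kerh_seg hp hs) measurableSet_Ioo)
      ((ae_restrict_mem measurableSet_Ioo).mono fun s hs p hp => h.e1 _ (kerh_seg hp hs))
      (integrableOn_const measure_Ioo_lt_top.ne)
  exact (cz.pow 2).sub (((HC.of_diff (f := fun p : (ℂ × ℂ) × ℂ => 1 - p.2) (by fun_prop)).mul
    cd).mul (((HC.const 2).mul cz).add (cea.sub ceb)))
theorem ZE2.nd (h : ZE2 θ Λ z e) (t0 : 0 ≤ θ) (t1 : θ ≤ th0) {l b : ℂ} (hb : (l, b) ∈ G1 θ Λ) :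
    DifferentiableOn ℂ (fun a => csq (nnI (sl z l) (sl e l) a b) ^ (ii + 1))
      {ζ | (l, ζ) ∈ G1 θ Λ} :=
  (((h.nn t0 t1).1.csq fun p hp => (csq_pow_le ((h.nn t0 t1).2 p hp)).1).pow (ii + 1))
    (fun a => ((l, b), a)) _ (h.ko t0 t1 l).op (by fun_prop) fun _ ha => ⟨hb, ha⟩
theorem ZE2.psi (h : ZE2 θ Λ z e) (t0 : 0 ≤ θ) (t1 : θ ≤ th0) :
    HC (fun p : (ℂ × ℂ) × ℂ => Psi (sl z p.1.1) (sl e p.1.1) p.2 p.1.2) (GG θ Λ) ∧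
      ∀ p ∈ GG θ Λ, ‖Psi (sl z p.1.1) (sl e p.1.1) p.2 p.1.2‖ ≤ 3 / 2 := by
  refine ⟨?_, fun p hp => (h.ko t0 t1 p.1.1).Psi_le hp.2 hp.1⟩
  have c := ((h.nn t0 t1).1.csq fun p hp => (csq_pow_le ((h.nn t0 t1).2 p hp)).1).pow (ii + 1)
  refine HC.div (HC.integral (b := fun s => wg s * (3 / 2))
    ((ae_restrict_mem measurableSet_Ioo).mono fun s hs => (HC.const _).mul (c.comp
      (g := fun p : (ℂ × ℂ) × ℂ => (p.1, p.1.2 + s * (p.2 - p.1.2)))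
      (HC.of_diff (by fun_prop)) fun p hp => ⟨hp.1, kerh_seg hp hs⟩))
    (fun p hp => ContinuousOn.aestronglyMeasurable
      ((Complex.continuous_ofReal.comp wg_cont).continuousOn.mul
        ((h.nd t0 t1 (l := p.1.1) (b := p.1.2) hp.1).continuousOn.comp (by fun_prop)
          fun s hs => kerh_seg hp hs))
      measurableSet_Ioo)
    ((ae_restrict_mem measurableSet_Ioo).mono fun s hs p hp => ?_) (wg_int.mul_const _))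
    (HC.const _) fun _ _ => Complex.ofReal_ne_zero.2 be2_pos.ne'
  rw [norm_mul, Complex.norm_real, Real.norm_of_nonneg (wg_nonneg s)]
  exact mul_le_mul_of_nonneg_left
    (csq_pow_le ((h.ko t0 t1 p.1.1).nn_near (kerh_seg hp hs) hp.1)).2 (wg_nonneg s)
theorem ZE2.kk (h : ZE2 θ Λ z e) (t0 : 0 ≤ θ) (t1 : θ ≤ th0) :
    HC (fun p : (ℂ × ℂ) × ℂ => KK (sl z p.1.1) (sl e p.1.1) p.2 p.1.2) (GG θ Λ) ∧
      ContinuousOn (fun p : (ℂ × ℂ) × ℂ => KK (sl z p.1.1) (sl e p.1.1) p.2 p.1.2) (GG θ Λ) := by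
  have := hc_iter (f := fun p : (ℂ × ℂ) × ℂ => Th (sl z p.1.1) (sl e p.1.1) p.1.2 p.2)
    (isOpen_GG θ Λ) ((HC.of_diff (f := fun p : (ℂ × ℂ) × ℂ => (p.2 - p.1.2) ^ (ii + 2))
      (by fun_prop)).mul (h.psi t0 t1).1) (fun p hp => ⟨(101 / 100) ^ (ii + 2) * (3 / 2), by
    filter_upwards [(isOpen_GG θ Λ).mem_nhds hp] with r hr
    rw [Th, norm_mul, norm_pow]
    exact mul_le_mul (pow_le_pow_left₀ (norm_nonneg _) (Sec_sub t0 t1 hr.2.1 hr.1.1) _)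
      ((h.psi t0 t1).2 r hr) (norm_nonneg _) (by positivity)⟩) (ii + 3)
  exact ⟨this.1.div (HC.const _) fun _ _ => Nat.cast_ne_zero.2 (Nat.factorial_ne_zero _),
    (hc_cont (isOpen_GG θ Λ) this.1 this.2).div_const _⟩
theorem ZE2.kk_le (h : ZE2 θ Λ z e) {d : ℝ} (d0 : 0 < d) (hd : d ≤ θ) (t1 : θ ≤ th0) {p : ℂ × ℂ}
    (hp : p ∈ G1 (θ - d) (Λ / 2)) {v : ℝ} (hv : v ∈ Ioo (0 : ℝ) 1) :
    ‖p.2 * KK (sl z p.1) (sl e p.1) p.2 (v * p.2)‖ ≤ 1 / d ^ n2 := by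
  have t0 := d0.trans_le hd
  have n0 : 0 < ‖p.2‖ := norm_pos_iff.2 (Sec_ne hp.1)
  have d1 : d ≤ 1 := by linarith [th0_small]
  have hr : ∀ ζ ∈ closedBall p.2 (d / 4 * ‖p.2‖), (p.1, ζ) ∈ G1 θ Λ := fun ζ hζ =>
    ⟨Sec_ball d0 hd t1 hp.1 hζ, by
      have a := norm_le_norm_add_norm_sub' ζ p.2
      have b := mem_closedBall_iff_norm.1 hζ
      have c : ‖ζ‖ ≤ 2 * ‖p.2‖ := by nlinarith
      have := mul_le_mul_of_nonneg_left c (norm_nonneg p.1)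
      have := hp.2
      show ‖p.1‖ * ‖ζ‖ < Λ
      linarith⟩
  have hb := lc_G1 t0 (p := p) (hr _ (mem_closedBall_self (by positivity))) hv.1 hv.2.le
  have k := cauchy_Th d0 hd t1 hp.1 hv (R := fun a => Psi (sl z p.1) (sl e p.1) a (v * p.2))
    (((h.psi t0.le t1).1 (fun a => ((p.1, v * p.2), a)) _ (h.ko t0.le t1 p.1).op (by fun_prop)
      fun _ ha => ⟨hb, ha⟩).diffContOnCl_ball hr)
    fun a ha => (h.psi t0.le t1).2 ((p.1, v * p.2), a) ⟨hb, hr a (sphere_subset_closedBall ha)⟩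
  refine k.trans ?_
  have := one_le_Nr_pow 3
  rw [mul_inv, one_div, ← mul_assoc]
  refine mul_le_of_le_one_left (by positivity) ?_
  rw [← div_eq_mul_inv, div_le_one (by positivity)]
  linarith
/-- the kernel at a fixed ratio, along the family -/
theorem ZE2.kk_v (h : ZE2 θ Λ z e) (t0 : 0 ≤ θ) (t1 : θ ≤ th0) {v : ℝ} (hv : v ∈ Ioo (0 : ℝ) 1) :
    HC (fun p : ℂ × ℂ => p.2 * KK (sl z p.1) (sl e p.1) p.2 (v * p.2)) (G1 θ Λ) :=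
  (HC.of_diff (f := fun p : ℂ × ℂ => p.2) (by fun_prop)).mul ((h.kk t0 t1).1.comp
    (g := fun p : ℂ × ℂ => ((p.1, v * p.2), p.2)) (HC.of_diff (by fun_prop))
    fun _ hp => ⟨kerh_G1 t0 hp hv, hp⟩)
end

section
variable {θ : ℝ} {z e : ℂ → ℂ}
/-- constant family -/
theorem ZE.two (h : ZE θ z e) (Λ : ℝ) : ZE2 θ Λ (fun p => z p.2) (fun p => e p.2) :=
  have c2 : ∀ f : ℂ → ℂ, DifferentiableOn ℂ f (Sec θ) → HC (fun p : ℂ × ℂ => f p.2) (G1 θ Λ) :=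
    fun _ hf => HC.comp (g := fun p : ℂ × ℂ => p.2) (HC.of_diff hf) (HC.of_diff (by fun_prop))
      fun _ hp => hp.1
  ⟨c2 z h.dz, c2 e h.de, c2 _ (h.de.deriv (isOpen_Sec θ)), fun _ hp => h.z0 _ hp.1,
    fun _ hp => h.e1 _ hp.1⟩
theorem ZE.nn_diff (h : ZE θ z e) (t0 : 0 ≤ θ) (t1 : θ ≤ th0) {b : ℂ} (hb : b ∈ Sec θ) :
    DifferentiableOn ℂ (fun a => nnI z e a b) (Sec θ) :=
  ((h.two 1).nn t0 t1).1 (fun a => ((0, b), a)) _ (isOpen_Sec θ) (by fun_prop)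
    fun _ ha => ⟨kerh_0 one_pos hb, kerh_0 one_pos ha⟩
theorem ZE.psi_diff (h : ZE θ z e) (t0 : 0 ≤ θ) (t1 : θ ≤ th0) {b : ℂ} (hb : b ∈ Sec θ) :
    DifferentiableOn ℂ (fun a => Psi z e a b) (Sec θ) :=
  ((h.two 1).psi t0 t1).1 (fun a => ((0, b), a)) _ (isOpen_Sec θ) (by fun_prop)
    fun _ ha => ⟨kerh_0 one_pos hb, kerh_0 one_pos ha⟩
theorem ZE.nn_cont (h : ZE θ z e) (t0 : 0 ≤ θ) (t1 : θ ≤ th0) :
    ContinuousOn (fun p : ℂ × ℂ => nnI z e p.1 p.2) (Sec θ ×ˢ Sec θ) :=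
  (hc_cont (isOpen_GG θ 1) ((h.two 1).nn t0 t1).1 fun p hp => ⟨1 + 1 / (4 * Nr), by
    filter_upwards [(isOpen_GG θ 1).mem_nhds hp] with r hr
    exact lin_one (((h.two 1).nn t0 t1).2 r hr)⟩).comp
    (f := fun p : ℂ × ℂ => (((0 : ℂ), p.2), p.1)) (by fun_prop)
    fun _ hp => ⟨kerh_0 one_pos hp.2, kerh_0 one_pos hp.1⟩
theorem ZE.kk_cont (h : ZE θ z e) (t0 : 0 ≤ θ) (t1 : θ ≤ th0) :
    ContinuousOn (fun p : ℂ × ℂ => KK z e p.1 p.2) (Sec θ ×ˢ Sec θ) :=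
  ((h.two 1).kk t0 t1).2.comp (f := fun p : ℂ × ℂ => (((0 : ℂ), p.2), p.1)) (by fun_prop)
    fun _ hp => ⟨kerh_0 one_pos hp.2, kerh_0 one_pos hp.1⟩
theorem ZE.kk_diff (h : ZE θ z e) (t0 : 0 ≤ θ) (t1 : θ ≤ th0) {v : ℝ} (hv : v ∈ Ioo (0 : ℝ) 1) :
    DifferentiableOn ℂ (fun ξ => ξ * KK z e ξ (v * ξ)) (Sec θ) :=
  (h.two 1).kk_v t0 t1 hv (fun ξ => (0, ξ)) _ (isOpen_Sec θ) (by fun_prop)
    fun _ ha => kerh_0 one_pos ha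
theorem ZE.kb (h : ZE θ z e) {d : ℝ} (d0 : 0 < d) (hd : d ≤ θ) (t1 : θ ≤ th0) :
    KN (θ - d) (1 / d ^ n2) 0 z e := fun ξ hξ v hv => by
  have := (h.two 1).kk_le d0 hd t1 (p := (0, ξ)) (kerh_0 one_half_pos hξ) hv
  rw [Complex.ofReal_zero, zero_mul, sub_zero]
  exact this
theorem ZE.kk_real (h : ZE θ z e) (t0 : 0 ≤ θ) (t1 : θ ≤ th0) (rz : Rl z θ) (re : Rl e θ)
    {x y : ℝ} (hx : (x : ℂ) ∈ Sec θ) (hy : (y : ℂ) ∈ Sec θ) : (KK z e x y).im = 0 := by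
  have r := (rl_iter (f := Th z e y) (DifferentiableOn.mul (by fun_prop) (h.psi_diff t0 t1 hy))
    (fun a ha => by
      rw [Th, ← Complex.ofReal_sub, ← Complex.ofReal_pow, Complex.im_ofReal_mul,
        (h.nn_real t0 t1 rz re ha hy).2.2.2, mul_zero]) (ii + 3)).2
  rw [KK, Complex.div_natCast_im, r _ hx, zero_div]
end

end BonN
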