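import Pool.Agent.Lib.MP_3dbf58_gt.N.LinM
import Pool.Agent.Lib.MP_3dbf58_gt.N.Lc

/-! Diagonal part and kernel part of one cap. -/

open Set Filter Topology MeasureTheory Metric

noncomputable section

namespace BonN

open Bon3 BonG

variable [Cs]

theorem ln_t : th0 ≤ 1 / 1000 := th0_small.trans (by norm_num)
theorem ln_t1 : 3 * th0 ≤ th0 * Nr := by nlinarith [th0_pos, Nr_ge]
theorem ln_t2 : 3 * (th0 * Nr) ≤ th0 * Nr ^ 2 := by nlinarith [mul_pos th0_pos Nr_pos, Nr_ge]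
theorem ln_t3 : 10 ^ 5 * (th0 * Nr ^ 2) ≤ tol := th0_tol (by norm_num)
theorem ln_sq {η : ℝ} (e0 : 0 < η) : th0 ^ 2 * η ≤ th0 * η / 100 := by
  have := mul_le_mul_of_nonneg_right ln_t (mul_pos th0_pos e0).le
  nlinarith [mul_pos th0_pos e0]
theorem ln_m : ((ii + 1 : ℕ) : ℝ) ≤ Nr := by unfold Nr; push_cast; linarith
theorem ln_mC : ((ii + 1 : ℕ) : ℂ) = (Nr : ℂ) - 2 := by unfold Nr; push_cast; ring
theorem ln_n {θ : ℝ} {ξ : ℂ} (t0 : 0 < θ) (t1 : θ ≤ th0) (h : ξ ∈ Sec θ) :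
    ‖ξ‖ ≤ 1.01 ∧ ‖1 - ξ‖ ≤ 1.01 := by
  have := Sec_two t0.le t1 h
  constructor <;> linarith
theorem ln_Nr : ‖(Nr : ℂ)‖ ≤ Nr := lin_re (abs_of_pos Nr_pos).le

/-- powers of order at most `N` of a number near `1` -/
theorem ln_pow {z : ℂ} {ε : ℝ} {k : ℕ} (h : ‖z - 1‖ ≤ ε) (hk : (k : ℝ) ≤ Nr) (he : ε ≤ 10 * th0) :
    ‖z ^ k - 1‖ ≤ 2 * (Nr * ε) ∧ ‖z ^ k - 1 - k * (z - 1)‖ ≤ 2 * (Nr * ε) ^ 2 := by
  have e0 : 0 ≤ ε := (norm_nonneg _).trans h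
  have a : k * ε ≤ Nr * ε := mul_le_mul_of_nonneg_right hk e0
  have b : Nr * ε ≤ Nr * (10 * th0) := mul_le_mul_of_nonneg_left he Nr_pos.le
  obtain ⟨h1, h2⟩ := pow_near (k := k) h (by linarith [th0_Nr])
  refine ⟨by linarith, h2.trans ?_⟩
  have : 0 ≤ k * ε := by positivity
  gcongr

def linP (z : ℂ → ℂ) (ξ : ℂ) : ℂ := z ξ ^ 2 - 2 * (1 - ξ) * z ξ * deriv z ξ
def linD (z e : ℂ → ℂ) (ξ : ℂ) : ℂ := linP z ξ * csq (nd z e ξ) ^ (ii + 1)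
def linK (z e w : ℂ → ℂ) (ξ : ℂ) : ℂ :=
  ξ * ∫ v in Ioo (0 : ℝ) 1, ff z w (v * ξ) * KK z e ξ (v * ξ)

theorem lin_Lcap (z e w : ℂ → ℂ) (ξ : ℂ) : Lcap z e w ξ = linD z e ξ * w ξ + linK z e w ξ := by
  unfold Lcap linD linK linP
  rw [ff]; ring

/-- fine data of one cap -/
structure LinS (θ η s c : ℝ) (z e : ℂ → ℂ) : Prop where
  t0 : 0 < θ
  t1 : θ ≤ th0
  e0 : 0 < η
  e1 : η ≤ th0
  hs : |s| ≤ η
  hc : |c| ≤ Nr * η / 10
  dz : DifferentiableOn ℂ z (Sec θ)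
  de : DifferentiableOn ℂ e (Sec θ)
  rz : Rl z θ
  re : Rl e θ
  z0 : ∀ ξ ∈ Sec θ, ‖z ξ - 1‖ ≤ th0
  z1 : ∀ ξ ∈ Sec θ, ‖deriv z ξ‖ ≤ th0
  h1 : ∀ ξ ∈ Sec θ, ‖deriv e ξ - s‖ ≤ th0 * η / 100
  kn : KN θ (tol * η) c z e

section
variable {θ η s c a a' : ℝ} {z e w w' : ℂ → ℂ} {ξ : ℂ}

theorem LinS.t2 (S : LinS θ η s c z e) : θ ≤ Bon3.th0 := S.t1.trans th0_le

theorem LinS.ld (S : LinS θ η s c z e) (h : LinC θ a w) : LD θ a z e w := by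
  have e1 := S.e1
  have t0 := th0_pos
  have k : 2 * th0 ≤ 1 / (20 * Nr) := by
    rw [le_div_iff₀ (by have := Nr_pos; positivity)]; linarith [th0_Nr]
  have : th0 * η ≤ th0 * 1 := by gcongr; linarith [ln_t]
  exact ⟨S.dz, S.de, h.d, fun ξ hξ => (S.z0 ξ hξ).trans (by linarith),
    fun ξ hξ => (S.z1 ξ hξ).trans (by linarith [ln_t]),
    fun ξ hξ => lin_eq (lin_add (S.h1 ξ hξ) (lin_re S.hs)) (by ring) (by linarith), h.b⟩

theorem LinS.P (S : LinS θ η s c z e) (hξ : ξ ∈ Sec θ) : ‖linP z ξ - 1‖ ≤ 5 * th0 :=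
  lm_phi ln_t (S.z0 ξ hξ) (S.z1 ξ hξ) (ln_n S.t0 S.t1 hξ).2

theorem LinS.J (S : LinS θ η s c z e) (hξ : ξ ∈ Sec θ) : ‖nd z e ξ - 1‖ ≤ 5 * th0 ∧
    ‖csq (nd z e ξ) / z ξ - (1 - (1 - ξ) * s)‖ ≤ 3 * (th0 * η) :=
  lm_J ln_t S.e0 S.e1 S.hs (S.z0 ξ hξ) (S.h1 ξ hξ) (ln_n S.t0 S.t1 hξ).2

theorem LinS.D (S : LinS θ η s c z e) (hξ : ξ ∈ Sec θ) : ‖linD z e ξ - 1‖ ≤ 12 * (th0 * Nr) := by
  have a1 := S.P hξ
  have a2 := (ln_pow ((csq_near_TA _).trans (S.J hξ).1) ln_m (by linarith [th0_pos])).1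
  have a3 : ‖csq (nd z e ξ) ^ (ii + 1)‖ ≤ 1.01 := (lin_one a2).trans (by linarith [th0_Nr])
  exact lin_eq (lin_add (lin_mul a1 a3) a2) (by unfold linD; ring) (by linarith [ln_t1, th0_pos])

theorem LinS.dP (S : LinS θ η s c z e) : DifferentiableOn ℂ (linP z) (Sec θ) := by
  have a1 := S.dz
  have a2 := S.dz.deriv (isOpen_Sec θ)
  unfold linP
  fun_prop

theorem LinS.dD (S : LinS θ η s c z e) : DifferentiableOn ℂ (linD z e) (Sec θ) := by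
  have a1 := S.dz
  have a3 := S.de.deriv (isOpen_Sec θ)
  have a4 : DifferentiableOn ℂ (nd z e) (Sec θ) := by unfold nd; fun_prop
  have a5 : DifferentiableOn ℂ (fun ξ => csq (nd z e ξ)) (Sec θ) := fun ξ hξ =>
    (csq_hasDerivAt (slit_of_near ((S.J hξ).1.trans_lt
      (by linarith [ln_t])))).differentiableAt.comp_differentiableWithinAt ξ (a4 ξ hξ)
  exact S.dP.mul (a5.pow _)

theorem LinS.rD (S : LinS θ η s c z e) : Rl (linD z e) θ := by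
  intro x hx
  have a1 := S.rz x hx
  have a2 := Rl.deriv S.dz S.rz x hx
  have a3 := Rl.deriv S.de S.re x hx
  have a4 : (nd z e x).im = 0 := by
    unfold nd; simp [pow_two, a1, a3]
  have a5 : 0 ≤ (nd z e x).re := by
    have h1 := Complex.abs_re_le_norm (nd z e x - 1)
    have h2 := (S.J hx).1
    have h3 := neg_abs_le (nd z e x - 1).re
    simp only [Complex.sub_re, Complex.one_re] at h1 h3
    linarith [ln_t]
  have a6 : nd z e x = ((nd z e x).re : ℂ) := Complex.ext (by simp) (by simp [a4])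
  have a7 : (csq (nd z e x) ^ (ii + 1)).im = 0 := by
    rw [a6, csq_real a5, ← Complex.ofReal_pow, Complex.ofReal_im]
  have a8 : (linP z x).im = 0 := by unfold linP; simp [pow_two, a1, a2]
  unfold linD
  rw [Complex.mul_im, a7, a8]; simp

omit [Cs] in
theorem ln_w (t0 : 0 < θ) (h : LinC θ a w) (hξ : ξ ∈ Sec θ) {v : ℝ} (hv : v ∈ Ioo (0 : ℝ) 1) :
    ‖w (v * ξ)‖ ≤ a * ‖ξ‖ ^ 4 := by
  have a0 := h.nonneg t0
  refine (h.b _ (Sec_smul t0.le hξ hv.1 hv.2.le)).trans ?_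
  have : ‖(v : ℂ) * ξ‖ ≤ ‖ξ‖ :=
    (lin_mul (lin_re (A := 1) (by rw [abs_of_pos hv.1]; exact hv.2.le)) le_rfl).trans_eq
      (one_mul _)
  gcongr

theorem LinS.pt (S : LinS θ η s c z e) (h : LinC θ a w) (hξ : ξ ∈ Sec θ) {v : ℝ}
    (hv : v ∈ Ioo (0 : ℝ) 1) : ‖ξ * (ff z w (v * ξ) * KK z e ξ (v * ξ)) - c * ξ * w (v * ξ)‖ ≤
      1.02 * (tol * η) * (a * ‖ξ‖ ^ 4) := by
  have hb : (v : ℂ) * ξ ∈ Sec θ := Sec_smul S.t0.le hξ hv.1 hv.2.le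
  have p1 : ‖linP z (v * ξ)‖ ≤ 1.01 := (lin_one (S.P hb)).trans (by linarith [ln_t])
  have p2 := lin_add (lin_mul p1 (S.kn ξ hξ v hv))
    (lin_mul (S.P hb) (lin_mul (lin_re S.hc) (ln_n S.t0 S.t1 hξ).1))
  have p3 : 1000 * (th0 * Nr) * η ≤ tol * η :=
    mul_le_mul_of_nonneg_right (by linarith [ln_t2, ln_t3, mul_pos th0_pos Nr_pos]) S.e0.le
  have p4 := mul_pos tol_pos S.e0
  exact lin_eq (lin_mul (p2.trans (show _ ≤ 1.02 * (tol * η) by linarith)) (ln_w S.t0 h hξ hv))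
    (by unfold ff linP; ring) le_rfl

theorem LinS.k0 (S : LinS θ η s c z e) : KN θ (tol * η + |c| * 1.01) 0 z e := fun ξ hξ v hv =>
  lin_eq (lin_add (S.kn ξ hξ v hv) (lin_mul (lin_re (le_refl |c|)) (ln_n S.t0 S.t1 hξ).1))
    (by push_cast; ring) le_rfl

theorem LinS.int (S : LinS θ η s c z e) (h : LinC θ a w) (hξ : ξ ∈ Sec θ) :
    IntegrableOn (fun v : ℝ => ξ * (ff z w (v * ξ) * KK z e ξ (v * ξ))) (Ioo (0 : ℝ) 1) :=
  (Lcap_int S.t0 le_rfl S.t1 (S.ld h) S.k0 hξ).const_mul ξ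

theorem LinS.sub (S : LinS θ η s c z e) (h : LinC θ a w) (h' : LinC θ a' w') (hξ : ξ ∈ Sec θ) :
    Lcap z e (fun ζ => w ζ - w' ζ) ξ = Lcap z e w ξ - Lcap z e w' ξ := by
  have := integral_sub (S.int h hξ) (S.int h' hξ)
  unfold Lcap
  rw [add_sub_add_comm, ← integral_const_mul, ← integral_const_mul, ← integral_const_mul, ← this]
  congr 1
  · unfold ff; ring
  · congr 1
    funext p
    unfold ff; ring

/-- the kernel part is close to a multiple of the primitive -/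
theorem LinS.K (S : LinS θ η s c z e) (h : LinC θ a w) (hξ : ξ ∈ Sec θ) :
    ‖linK z e w ξ - c * prim w ξ‖ ≤ 1.02 * (tol * η) * (a * ‖ξ‖ ^ 4) := by
  have ee : linK z e w ξ - c * prim w ξ = ∫ v in Ioo (0 : ℝ) 1,
      (ξ * (ff z w (v * ξ) * KK z e ξ (v * ξ)) - c * ξ * w (v * ξ)) := by
    rw [integral_sub (S.int h hξ) ((h.int S.t0 S.t2 hξ).const_mul _), integral_const_mul,
      integral_const_mul]
    unfold linK prim; ring
  rw [ee]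
  have := norm_setIntegral_le_of_norm_le_const (μ := volume) (s := Ioo (0 : ℝ) 1) (by simp)
    (fun v hv => S.pt h hξ hv)
  simpa using this

/-- the power of the square root, to first order -/
theorem LinS.A (S : LinS θ η s c z e) (hξ : ξ ∈ Sec θ) :
    ‖(csq (nd z e ξ) / z ξ) ^ (ii + 1) - (1 - (Nr - 2) * ((1 - ξ) * s))‖ ≤
      11 * (th0 * Nr ^ 2 * η) := by
  have e0 := S.e0
  have j := (S.J hξ).2
  have te : th0 * η ≤ 1 / 1000 * η := mul_le_mul_of_nonneg_right ln_t e0.le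
  have j1 : ‖csq (nd z e ξ) / z ξ - 1‖ ≤ 2 * η :=
    lin_eq (lin_sub j (lin_mul (ln_n S.t0 S.t1 hξ).2 (lin_re S.hs))) (by ring) (by linarith)
  have j2 := (ln_pow j1 ln_m (by linarith [S.e1, th0_pos])).2
  rw [ln_mC] at j2
  have m : ‖(Nr : ℂ) - 2‖ ≤ Nr := by
    rw [← ln_mC, Complex.norm_natCast]; exact ln_m
  have q1 : Nr ^ 2 * η * η ≤ Nr ^ 2 * η * th0 := by have := S.e1; gcongr
  have q2 := mul_le_mul_of_nonneg_right ln_t2 e0.le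
  have q3 : 0 < th0 * Nr * η := by have := th0_pos; have := Nr_pos; positivity
  exact lin_eq (lin_add j2 (lin_mul m j)) (by ring) (by linarith)

end

end BonN
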