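import Pool.Agent.Lib.MP_3dbf58_gt.N.LinA

/-! The contraction estimate of the linear problem. -/

open Set Filter Topology MeasureTheory Metric

noncomputable section

namespace BonN

open Bon3 BonG

variable [Cs]

section
variable {θ η μ0 B a a' : ℝ} {zp zm h ρ U w w' : ℂ → ℂ} {ξ : ℂ}

theorem LinHyp.t0 (H : LinHyp θ η μ0 B zp zm h ρ U) : 0 < θ :=
  lt_of_lt_of_le (half_pos th0_pos) H.th1

theorem LinHyp.t2 (H : LinHyp θ η μ0 B zp zm h ρ U) : θ ≤ Bon3.th0 := H.th2.trans th0_le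

theorem LinHyp.B1 (H : LinHyp θ η μ0 B zp zm h ρ U) : B ≤ th0 * η / 100 :=
  H.hB.trans (ln_sq H.et1)

theorem LinHyp.one (H : LinHyp θ η μ0 B zp zm h ρ U) : (1 : ℂ) ∈ Sec θ := by
  simpa using Sec_real H.t0 one_pos le_rfl

theorem LinHyp.base (H : LinHyp θ η μ0 B zp zm h ρ U) : (x0 : ℂ) ∈ Sec θ :=
  Sec_real H.t0 x0_pos (by linarith [x0_le])

theorem ln_nu (e0 : 0 < η) : |nu * η| ≤ η / 20 := by
  rw [abs_of_pos (mul_pos nu_pos e0)]
  linarith [mul_le_mul_of_nonneg_right nu_le e0.le]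

theorem ln_a2 (e0 : 0 < η) : |a2c * η| ≤ Nr * η / 10 := by
  rw [abs_of_pos (mul_pos a2c_pos e0)]
  linarith [mul_le_mul_of_nonneg_right a2c_le e0.le]

theorem LinHyp.sp (H : LinHyp θ η μ0 B zp zm h ρ U) : LinS θ η (-(nu * η)) (-(a2c * η)) zp h :=
  ⟨H.t0, H.th2, H.et1, H.et2, by rw [abs_neg]; linarith [ln_nu H.et1, H.et1],
    by rw [abs_neg]; exact ln_a2 H.et1, H.dzp, H.dh, H.rzp, H.rh, H.zp0, H.zp1,
    fun ξ hξ => by simpa using (H.h1 ξ hξ).trans H.B1, H.kp⟩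

theorem LinHyp.sm (H : LinHyp θ η μ0 B zp zm h ρ U) :
    LinS θ η (nu * η) (a2c * η) zm (fun ζ => -h ζ) := by
  refine ⟨H.t0, H.th2, H.et1, H.et2, by linarith [ln_nu H.et1, H.et1], ln_a2 H.et1, H.dzm, H.dh.neg,
    H.rzm, fun x hx => by simp [H.rh x hx], H.zm0, H.zm1, fun ξ hξ => ?_, H.km⟩
  rw [lin_dneg, ← norm_neg]
  simpa [add_comm] using (H.h1 ξ hξ).trans H.B1

theorem LinHyp.Um (H : LinHyp θ η μ0 B zp zm h ρ U) (hξ : ξ ∈ Sec θ) :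
    U ξ ∈ Sec θ ∧ ‖U ξ‖ ≤ (1 + η) * ‖ξ‖ :=
  U_maps H.th1 le_rfl H.th2 H.et1 H.et2 H.mu H.hB H.U0 hξ

theorem LinHyp.W (H : LinHyp θ η μ0 B zp zm h ρ U) (c : LinC θ a w) :
    LinC θ ((1 + 5 * th0) * a) (fun ζ => w (U ζ)) := by
  refine ⟨c.d.comp H.dU (fun ξ hξ => (H.Um hξ).1), fun ξ hξ => (c.b _ (H.Um hξ).1).trans ?_⟩
  have a0 := c.nonneg H.t0
  have h1 : ‖U ξ‖ ≤ (1 + th0) * ‖ξ‖ :=
    (H.Um hξ).2.trans (mul_le_mul_of_nonneg_right (by linarith [H.et2]) (norm_nonneg _))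
  have h2 : (1 + th0) ^ 4 ≤ 1 + 5 * th0 := by
    have t0 := th0_pos
    have t1 := ln_t
    have : th0 * (6 + 4 * th0 + th0 ^ 2) ≤ 1 / 1000 * 7 := by
      have : th0 ^ 2 ≤ 1 / 2 := by nlinarith
      gcongr; linarith
    nlinarith
  calc a * ‖U ξ‖ ^ 4 ≤ a * ((1 + th0) * ‖ξ‖) ^ 4 := by gcongr
    _ = (1 + th0) ^ 4 * (a * ‖ξ‖ ^ 4) := by ring
    _ ≤ (1 + 5 * th0) * (a * ‖ξ‖ ^ 4) := by gcongr
    _ = _ := by ring

theorem LinHyp.W1 (H : LinHyp θ η μ0 B zp zm h ρ U) (c : LinC θ a w) :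
    LinC θ (1.01 * a) (fun ζ => w (U ζ)) :=
  (H.W c).mono (mul_le_mul_of_nonneg_right (by linarith [ln_t]) (c.nonneg H.t0))

theorem LinHyp.eta (H : LinHyp θ η μ0 B zp zm h ρ U) : ‖(η : ℂ)‖ ≤ η :=
  lin_re (abs_of_pos H.et1).le

theorem LinHyp.dr (H : LinHyp θ η μ0 B zp zm h ρ U) : DifferentiableOn ℂ (rN ρ) (Sec θ) :=
  H.dρ.pow _

theorem LinHyp.r0 (H : LinHyp θ η μ0 B zp zm h ρ U) (hξ : ξ ∈ Sec θ) :
    ‖rN ρ ξ - 1‖ ≤ 2 * (Nr * th0) :=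
  (ln_pow (H.ρ0 ξ hξ) Nr_cast.le (by linarith [th0_pos])).1

theorem ln_k (e0 : 0 < η) : ‖(2 * nu + kap : ℂ) * η‖ ≤ η / 5 := by
  have : ‖(nu : ℂ)‖ ≤ 1 / 20 := lin_re (by rw [abs_of_pos nu_pos]; exact nu_le)
  exact (lin_mul (lin_add (lin_mul lin_2 this) lin_kap) (lin_re (abs_of_pos e0).le)).trans
    (by linarith)

theorem LinHyp.r1 (H : LinHyp θ η μ0 B zp zm h ρ U) (hξ : ξ ∈ Sec θ) :
    ‖deriv (rN ρ) ξ + Nr * ((2 * nu + kap) * η)‖ ≤ th0 * Nr ^ 2 * η ∧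
      ‖deriv (rN ρ) ξ‖ ≤ Nr * η := by
  have e0 := H.et1
  have d : deriv (rN ρ) ξ = Nr * ρ ξ ^ (ii + 2) * deriv ρ ξ := by
    rw [← Nr_castC]
    exact ((H.dρ.differentiableAt ((isOpen_Sec θ).mem_nhds hξ)).hasDerivAt.pow (ii + 3)).deriv
  have p := (ln_pow (k := ii + 2) (H.ρ0 ξ hξ) (by unfold Nr; push_cast; linarith)
    (by linarith [th0_pos])).1
  have b := (H.ρ1 ξ hξ).trans H.B1
  have te : th0 * η ≤ 1 / 1000 * η := mul_le_mul_of_nonneg_right ln_t e0.le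
  have r : ‖deriv ρ ξ‖ ≤ η / 4 := lin_eq (lin_sub b (ln_k e0)) (by ring) (by linarith)
  have q2 := mul_le_mul_of_nonneg_right ln_t2 e0.le
  have q3 : 0 < th0 * Nr * η := by have := th0_pos; have := Nr_pos; positivity
  have p2 : ‖ρ ξ ^ (ii + 2)‖ ≤ 2 := (lin_one p).trans (by linarith [th0_Nr])
  have q4 := mul_pos Nr_pos e0
  rw [d]
  exact ⟨lin_eq (lin_mul ln_Nr (lin_add (lin_mul p r) b)) (by ring) (by linarith),
    (lin_mul (lin_mul ln_Nr p2) r).trans (by linarith)⟩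

theorem LinHyp.P (H : LinHyp θ η μ0 B zp zm h ρ U) (c : LinC θ a w) :
    LinC θ (Nr * η * (1.01 * a)) (fun ζ => deriv (rN ρ) ζ * w (U ζ)) :=
  (H.W1 c).mul (H.dr.deriv (isOpen_Sec θ)) fun _ hξ => (H.r1 hξ).2

theorem LinHyp.wmW (H : LinHyp θ η μ0 B zp zm h ρ U) (c : LinC θ a w) :
    LinC θ (3 * (th0 * Nr) * a) (fun ζ => wm (rN ρ) U w ζ + w (U ζ)) := by
  have a0 := c.nonneg H.t0
  have h1 := ((H.P c).prim H.t0 H.t2).sub ((H.W1 c).mul (H.dr.sub_const 1) fun _ => H.r0)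
  have e : (fun ζ => wm (rN ρ) U w ζ + w (U ζ)) = fun ζ =>
      prim (fun ζ => deriv (rN ρ) ζ * w (U ζ)) ζ - (rN ρ ζ - 1) * w (U ζ) := by
    funext ζ; unfold wm; ring
  rw [e]
  refine h1.mono ?_
  have := mul_le_mul_of_nonneg_right H.et2 (mul_nonneg Nr_pos.le a0)
  have := mul_nonneg th0_pos.le (mul_nonneg Nr_pos.le a0)
  linarith

theorem LinHyp.wm (H : LinHyp θ η μ0 B zp zm h ρ U) (c : LinC θ a w) :
    LinC θ (2 * a) (wm (rN ρ) U w) := by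
  have a0 := c.nonneg H.t0
  have h1 := (H.wmW c).sub (H.W1 c)
  simp only [add_sub_cancel_right] at h1
  refine h1.mono ?_
  have := mul_le_mul_of_nonneg_right th0_Nr a0
  linarith

theorem LinHyp.rW (H : LinHyp θ η μ0 B zp zm h ρ U) (r : Rl w θ) : Rl (fun ζ => w (U ζ)) θ := by
  intro x hx
  have e : U x = ((U x).re : ℂ) := Complex.ext (by simp) (by simp [H.rU x hx])
  have := (H.Um hx).1
  rw [e] at this
  show (w (U x)).im = 0
  rw [e]; exact r _ this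

theorem LinHyp.rell (H : LinHyp θ η μ0 B zp zm h ρ U) (r : Rl w θ) : (ell U w).im = 0 := by
  have h1 := lin_prim_real H.t0 (H.rW r) x0 H.base
  have h2 := lin_prim_real H.t0 r x0 H.base
  unfold ell
  simp [h1, h2]

theorem LinHyp.rr (H : LinHyp θ η μ0 B zp zm h ρ U) : Rl (rN ρ) θ := fun x hx => by
  have e : ρ x = ((ρ x).re : ℂ) := Complex.ext (by simp) (by simp [H.rρ x hx])
  unfold rN
  rw [e, ← Complex.ofReal_pow, Complex.ofReal_im]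

theorem LinHyp.rwm (H : LinHyp θ η μ0 B zp zm h ρ U) (r : Rl w θ) :
    Rl (Bon3.wm (rN ρ) U w) θ := by
  intro x hx
  have h1 := H.rr x hx
  have h2 : (w (U x)).im = 0 := H.rW r x hx
  have h3 := lin_prim_real (w := fun ζ => deriv (rN ρ) ζ * w (U ζ)) H.t0 (fun y hy => by
    have k1 := Rl.deriv H.dr H.rr y hy
    have k2 : (w (U y)).im = 0 := H.rW r y hy
    simp [k1, k2]) x hx
  unfold Bon3.wm
  simp [h1, h2, h3]

/-- the model of the diagonal -/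
def linc (η : ℝ) (ξ : ℂ) : ℂ := 1 - Nr * (kap * η * ξ) - 2 * Nr * ((1 - ξ) * (nu * η))

theorem LinHyp.X (H : LinHyp θ η μ0 B zp zm h ρ U) (hξ : ξ ∈ Sec θ) :
    ‖linD zm (fun ζ => -h ζ) ξ * rN ρ ξ - linc η ξ * linD zp h ξ‖ ≤
      180 * (th0 * Nr ^ 2 * η) := by
  obtain ⟨n1, n2⟩ := ln_n H.t0 H.th2 hξ
  have e0 := H.et1
  have e1 := H.et2
  have t0 := th0_pos
  have t1 := ln_t
  have N3 := Nr_ge
  have A := H.sm.A hξ
  have A' := H.sp.A hξ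
  have p0 := H.zp0 ξ hξ
  have m0 := H.zm0 ξ hξ
  have p1 : 0.999 ≤ ‖zp ξ‖ := le_trans (by linarith) (lin_low p0)
  have m1 : 0.999 ≤ ‖zm ξ‖ := le_trans (by linarith) (lin_low m0)
  have pn : zp ξ ≠ 0 := fun e => by rw [e, norm_zero] at p1; norm_num at p1
  have mn : zm ξ ≠ 0 := fun e => by rw [e, norm_zero] at m1; norm_num at m1
  have te : th0 * η ≤ 1 / 1000 * η := mul_le_mul_of_nonneg_right t1 e0.le
  have te0 : 0 < th0 * η := by positivity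
  have q1 := mul_le_mul_of_nonneg_right ln_t1 e0.le
  have q2 := mul_le_mul_of_nonneg_right ln_t2 e0.le
  have ν : ‖(nu : ℂ) * η‖ ≤ η / 20 := by simpa using ln_nu e0
  have k : ‖kap * η * ξ‖ ≤ η / 20 := (lin_mul (lin_mul lin_kap H.eta) n1).trans (by linarith)
  have g0 : ‖ρ ξ * zm ξ / zp ξ - (1 - kap * η * ξ)‖ ≤ th0 * η := by
    have : ‖(ρ ξ * zm ξ / zp ξ - (1 - kap * η * ξ)) * zp ξ‖ ≤ th0 * η / 100 :=
      lin_eq ((H.f1 ξ hξ).trans H.B1) (by field_simp) le_rfl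
    exact (lin_cancel this (by norm_num) p1).trans (by norm_num; linarith)
  have g1 : ‖ρ ξ * zm ξ / zp ξ - 1‖ ≤ η := lin_eq (lin_sub g0 k) (by ring) (by linarith)
  have g2 := (ln_pow g1 Nr_cast.le (by linarith)).2
  rw [Nr_castC] at g2
  have q3 : Nr ^ 2 * η * η ≤ Nr ^ 2 * η * th0 := by gcongr
  have G : ‖(ρ ξ * zm ξ / zp ξ) ^ (ii + 3) - (1 - Nr * (kap * η * ξ))‖ ≤
      11 * (th0 * Nr ^ 2 * η) := lin_eq (lin_add g2 (lin_mul ln_Nr g0)) (by ring) (by linarith)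
  have hq : ‖1 - 2 * (1 - ξ) * deriv zp ξ / zp ξ - 1‖ ≤ th0 * Nr := by
    have : ‖(1 - 2 * (1 - ξ) * deriv zp ξ / zp ξ - 1) * zp ξ‖ ≤ 2 * 1.01 * th0 := by
      rw [← norm_neg]
      exact lin_eq (lin_mul (lin_mul lin_2 n2) (H.zp1 ξ hξ)) (by field_simp; ring) le_rfl
    exact (lin_cancel this (by norm_num) p1).trans (by norm_num; linarith [ln_t1])
  have hq' : ‖1 - 2 * (1 - ξ) * deriv zm ξ / zm ξ -
      (1 - 2 * (1 - ξ) * deriv zp ξ / zp ξ - 4 * ((1 - ξ) * (nu * η)))‖ ≤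
      11 * (th0 * Nr ^ 2 * η) := by
    have z2 : ‖zm ξ * zp ξ - 1‖ ≤ 3 * th0 :=
      lin_eq (lin_add (lin_mul m0 ((lin_one p0).trans (show _ ≤ 2 by linarith))) p0) (by ring)
        (by linarith)
    have : ‖(1 - 2 * (1 - ξ) * deriv zm ξ / zm ξ -
        (1 - 2 * (1 - ξ) * deriv zp ξ / zp ξ - 4 * ((1 - ξ) * (nu * η)))) * zm ξ * zp ξ‖ ≤
        th0 * η :=
      lin_eq (lin_sub (lin_mul (lin_mul (lin_mul lin_4 n2) ν) z2)
        (lin_mul (lin_mul lin_2 n2) ((H.f2 ξ hξ).trans H.B1))) (by field_simp; ring) (by linarith)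
    exact (lin_cancel (lin_cancel this (by norm_num) p1) (by norm_num) m1).trans
      (by norm_num; linarith)
  have m : ‖(Nr : ℂ) - 2‖ ≤ Nr := by
    rw [← ln_mC, Complex.norm_natCast]; exact ln_m
  have q4 := mul_le_mul_of_nonneg_right N3 e0.le
  have q5 : Nr * η ≤ Nr * th0 := by gcongr
  have q6 : th0 * Nr ^ 2 * η ≤ 1 / 10 ^ 10 * th0 :=
    mul_le_mul (th0_mul (by norm_num)) e1 e0.le (by norm_num)
  have c := lm_c (u := Nr * η) (v := th0 * Nr) (E := 11 * (th0 * Nr ^ 2 * η))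
    (α := (Nr - 2) * ((1 - ξ) * (nu * η))) (A' := (csq (nd zp h ξ) / zp ξ) ^ (ii + 1)) (by linarith)
    (by linarith [th0_Nr]) (by linarith [ln_t1]) (by linarith) ((lin_mul m (lin_mul n2 ν)).trans (by linarith))
    ((lin_mul ln_Nr k).trans (by linarith)) ((lin_mul lin_4 (lin_mul n2 ν)).trans (by linarith)) hq
    (lin_eq A (by push_cast; rfl) le_rfl) (lin_eq A' (by push_cast; ring) le_rfl) G hq'
  have zN : ‖zp ξ ^ (ii + 3)‖ ≤ 1.01 :=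
    (lin_one (ln_pow p0 Nr_cast.le (by linarith)).1).trans (by linarith [th0_Nr])
  refine lin_eq (lin_mul zN c) ?_ (by linarith)
  unfold linD linP rN linc
  simp only [div_pow, mul_pow]
  field_simp
  ring

theorem LinHyp.cW (H : LinHyp θ η μ0 B zp zm h ρ U) (c : LinC θ a w) (hξ : ξ ∈ Sec θ) :
    ‖linc η ξ * w (U ξ)‖ ≤
      (1 - η * (kap * (Nr * ξ.re + 2 * dl0 * (1 - ξ.re)) - 5 * (th0 * Nr))) * (a * ‖ξ‖ ^ 4) := by
  have t0 := H.t0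
  have t1 := H.th2
  have e0 := H.et1
  have e1 := H.et2
  have a0 := c.nonneg t0
  have s0 := th0_pos
  have s1 := ln_t
  have N3 := Nr_ge
  have u4 := lm_U4 t0 t1 th0_le e0 e1 H.mu hξ
    ((H.U0 ξ hξ).trans (mul_le_mul_of_nonneg_right H.B1 (by positivity)))
  obtain ⟨j1, -, -⟩ := lm_j t0 hξ
  have x0 := Sec_re_pos t0.le hξ
  have x1 := hξ.2
  set x := ξ.re
  have j : ‖ξ - x‖ ≤ th0 * 2 := j1.trans (by gcongr; linarith)
  have ab : |1 - x| ≤ 1 := abs_le.2 ⟨by linarith, by linarith⟩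
  have ν : |nu * η| ≤ η / 20 := ln_nu e0
  have Ne := mul_pos Nr_pos e0
  have b1 : |Nr * ((1 - x) * (nu * η))| ≤ Nr * (1 * (η / 20)) := by
    rw [abs_mul, abs_mul, abs_of_pos Nr_pos]; gcongr
  have b2 : Nr * η * x ≤ Nr * η * 2 := by gcongr; linarith
  have b3 : 0 ≤ Nr * η * x := by positivity
  have b4 : Nr * η ≤ Nr * th0 := by gcongr
  have b5 := th0_Nr
  obtain ⟨b6, b7⟩ := abs_le.1 b1
  set p := Nr * (kap * η * x) + 2 * Nr * ((1 - x) * (nu * η)) - th0 * Nr * η with hp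
  have b8 : th0 * (Nr * η) ≤ 1 / 1000 * (Nr * η) := by gcongr
  have b9 : 0 < th0 * (Nr * η) := by positivity
  have p1 : |p| ≤ Nr * η := by
    rw [hp]; unfold kap; exact abs_le.2 ⟨by linarith, by linarith⟩
  have r1 : ‖((1 - p - th0 * Nr * η : ℝ) : ℂ)‖ ≤ 1 - p - th0 * Nr * η :=
    lin_re (abs_of_nonneg (by linarith [(abs_le.1 p1).2])).le
  have hc : ‖linc η ξ‖ ≤ 1 - p :=
    lin_eq (lin_add r1 (lin_mul (lin_mul ln_Nr (lin_sub (lin_mul lin_2 (lin_re ν))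
      (lin_mul lin_kap H.eta))) j)) (by rw [hp]; unfold linc; push_cast; ring) (by linarith)
  set r := η * (8 * kap * (1 - x) + 6 * th0) with hr
  have r2 : |r| ≤ η := by
    rw [hr, abs_mul, abs_of_pos e0]
    refine mul_le_of_le_one_right e0.le ?_
    unfold kap; exact abs_le.2 ⟨by linarith, by linarith⟩
  have hW : ‖w (U ξ)‖ ≤ (1 + r) * (a * ‖ξ‖ ^ 4) :=
    (c.b _ (H.Um hξ).1).trans ((mul_le_mul_of_nonneg_left u4 a0).trans_eq (by ring))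
  refine (lin_mul hc hW).trans ?_
  rw [← mul_assoc]
  refine mul_le_mul_of_nonneg_right ?_ (by positivity)
  have q3 := neg_abs_le (p * r)
  rw [abs_mul] at q3
  have q4 := mul_le_mul p1 r2 (abs_nonneg _) Ne.le
  have q5 : Nr * η * η ≤ Nr * η * th0 := by gcongr
  have q6 := mul_le_mul_of_nonneg_right ln_t1 e0.le
  have q7 : Nr * ((1 - x) * (nu * η)) = kap * (4 + dl0) * ((1 - x) * η) := by
    rw [← nu_mul]; ring
  have e : (1 - p) * (1 + r) = 1 - p + r - p * r := by ring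
  rw [e]
  linarith

end

end BonN
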