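import Pool.Agent.Lib.MP_3dbf58_gt.Lin

/-! The model contraction of the linear problem in every dimension. -/

open Set Filter Topology MeasureTheory Metric

noncomputable section

namespace BonG

open Bon3

variable {θ a : ℝ} {W : ℂ → ℂ} {ξ : ℂ}

theorem lm_j (t0 : 0 < θ) (h : ξ ∈ Sec θ) :
    ‖ξ - ξ.re‖ ≤ θ * ξ.re ∧ (ξ.re : ℂ) ∈ Sec θ ∧ ξ.re ≤ ‖ξ‖ := by
  have h0 := Sec_re_pos t0.le h
  have e : ξ - ξ.re = ξ.im * Complex.I := Complex.ext (by simp) (by simp)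
  refine ⟨?_, ⟨by simpa using mul_pos t0 h0, by simpa using h.2⟩, Complex.re_le_norm ξ⟩
  rw [e, norm_mul, Complex.norm_I, mul_one, Complex.norm_real, Real.norm_eq_abs]
  exact h.1.le

/-- from the real part to the point -/
theorem lm_vert (t0 : 0 < θ) (t1 : θ ≤ th0) (c : LinC θ a W) (h : ξ ∈ Sec θ) :
    ‖prim W ξ - prim W ξ.re‖ ≤ θ * ξ.re * (a * ‖ξ‖ ^ 4) := by
  obtain ⟨j1, j2, j3⟩ := lm_j t0 h
  have a0 := c.nonneg t0
  have hs : segment ℝ (ξ.re : ℂ) ξ ⊆ Sec θ := (convex_Sec θ).segment_subset j2 h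
  have hb : segment ℝ (ξ.re : ℂ) ξ ⊆ closedBall 0 ‖ξ‖ :=
    (convex_closedBall _ _).segment_subset (by
      rw [mem_closedBall_zero_iff, Complex.norm_real, Real.norm_eq_abs]
      exact Complex.abs_re_le_norm ξ) (by simp)
  have h2 := (convex_segment (𝕜 := ℝ) (ξ.re : ℂ) ξ).norm_image_sub_le_of_norm_hasDerivWithin_le
    (C := a * ‖ξ‖ ^ 4) (fun ζ hζ => (c.prim_deriv t0 t1 (hs hζ)).hasDerivWithinAt)
    (fun ζ hζ => (c.b ζ (hs hζ)).trans (by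
      have := mem_closedBall_zero_iff.1 (hb hζ)
      gcongr)) (left_mem_segment _ _ _) (right_mem_segment _ _ _)
  refine h2.trans ?_
  rw [mul_comm]
  exact mul_le_mul_of_nonneg_right j1 (by positivity)

/-- along the real axis -/
theorem lm_hor (t0 : 0 < θ) (t1 : θ ≤ th0) (c : LinC θ a W) {y x : ℝ} (y0 : 0 < y) (yx : y ≤ x)
    (x1 : x < 1 + θ) : ‖prim W x - prim W y‖ ≤ a * (x ^ 5 - y ^ 5) / 5 := by
  have hm : ∀ t ∈ Icc y x, (t : ℂ) ∈ Sec θ := fun t ht =>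
    ⟨by simpa using mul_pos t0 (y0.trans_le ht.1), by simpa using ht.2.trans_lt x1⟩
  have hd : ∀ t ∈ Icc y x, HasDerivAt (fun t : ℝ => prim W t - prim W y) (W t) t := fun t ht =>
    (c.prim_deriv t0 t1 (hm t ht)).comp_ofReal.sub_const _
  have hB : ∀ t : ℝ, HasDerivAt (fun t : ℝ => a * (t ^ 5 - y ^ 5) / 5) (a * t ^ 4) t := fun t => by
    refine ((((hasDerivAt_pow 5 t).sub_const (y ^ 5)).const_mul a).div_const 5).congr_deriv ?_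
    push_cast
    ring
  refine image_norm_le_of_norm_deriv_right_le_deriv_boundary
    (f := fun t : ℝ => prim W t - prim W y) (f' := fun t => W t) (a := y) (b := x)
    (fun t ht => (hd t ht).continuousAt.continuousWithinAt)
    (fun t ht => (hd t (Ico_subset_Icc_self ht)).hasDerivWithinAt) (by simp) hB
    (fun t ht => ?_) (right_mem_Icc.2 yx)
  have := c.b _ (hm t (Ico_subset_Icc_self ht))
  rwa [Complex.norm_real, Real.norm_eq_abs, abs_of_pos (y0.trans_le ht.1)] at this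

/-- the primitive with the rank one term, crude form -/
theorem lm_G0 (t0 : 0 < θ) (t1 : θ ≤ th0) (c : LinC θ a W) (h : ξ ∈ Sec θ) {y : ℝ} (y0 : 0 < y)
    (y1 : y ≤ 1) : ‖prim W ξ - ξ ^ 5 * prim W y‖ ≤
      (ξ.re / 5 * (1 + y ^ 5) + θ) * (a * ‖ξ‖ ^ 4) := by
  have a0 := c.nonneg t0
  have p1 := c.prim5 t0 h
  have p2 := c.prim5 t0 (Sec_real t0 y0 y1)
  rw [Complex.norm_real, Real.norm_eq_abs, abs_of_pos y0] at p2
  obtain ⟨n1, -⟩ := Sec_norm t0.le t1 h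
  have x0 := Sec_re_pos t0.le h
  have x1 := h.2
  have y5 : y ^ 5 ≤ 1 := pow_le_one₀ y0.le y1
  have y6 : 0 ≤ y ^ 5 := by positivity
  have t2 : θ ≤ 1 := t1.trans (by norm_num [th0])
  refine (lin_sub p1 (lin_mul (norm_pow _ _).le p2)).trans ?_
  have e : ‖ξ‖ / 5 * (1 + y ^ 5) ≤ ξ.re / 5 * (1 + y ^ 5) + θ := by
    have : θ * ξ.re * (1 + y ^ 5) ≤ θ * 2 * 2 := by gcongr <;> linarith
    nlinarith
  calc a / 5 * ‖ξ‖ ^ 5 + ‖ξ‖ ^ 5 * (a / 5 * y ^ 5)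
      = ‖ξ‖ / 5 * (1 + y ^ 5) * (a * ‖ξ‖ ^ 4) := by ring
    _ ≤ _ := by gcongr

/-- the primitive with the rank one term, beyond the base point -/
theorem lm_G1 (t0 : 0 < θ) (t1 : θ ≤ th0) (c : LinC θ a W) (h : ξ ∈ Sec θ) {y : ℝ} (y0 : 0 < y)
    (y1 : y ≤ 1) (yx : y ≤ ξ.re) : ‖prim W ξ - ξ ^ 5 * prim W y‖ ≤
      (ξ.re / 5 * (1 - y ^ 5) + 6 * θ) * (a * ‖ξ‖ ^ 4) := by
  have a0 := c.nonneg t0
  obtain ⟨j1, -, j3⟩ := lm_j t0 h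
  have p1 := lm_vert t0 t1 c h
  have p2 := lm_hor t0 t1 c y0 yx h.2
  have p3 := c.prim5 t0 (Sec_real t0 y0 y1)
  rw [Complex.norm_real, Real.norm_eq_abs, abs_of_pos y0] at p3
  obtain ⟨-, n2, -⟩ := Sec_norm t0.le t1 h
  have x1 := h.2
  have t2 : θ ≤ 1 / 10 ^ 6 := t1
  set x := ξ.re
  have x0 : 0 < x := y0.trans_le yx
  have nx : ‖(x : ℂ)‖ ≤ 1.01 := lin_re (by rw [abs_of_pos x0]; linarith)
  have nξ : ‖ξ‖ ≤ 1.01 := by linarith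
  have q1 : ‖(x : ℂ) ^ 5 - ξ ^ 5‖ ≤ 6 * θ := by
    have h3 := lin_add (lin_add (lin_add (lin_add (lin_mul (lin_mul nx nx) (lin_mul nx nx))
      (lin_mul (lin_mul nx nx) (lin_mul nx nξ))) (lin_mul (lin_mul nx nx) (lin_mul nξ nξ)))
      (lin_mul (lin_mul nx nξ) (lin_mul nξ nξ))) (lin_mul (lin_mul nξ nξ) (lin_mul nξ nξ))
    have h4 : ‖ξ - x‖ ≤ θ * 1.01 := j1.trans (by gcongr; linarith)
    rw [← norm_neg]
    exact lin_eq (lin_mul h4 h3) (by ring) (by nlinarith)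
  have q2 : |1 - x ^ 5| ≤ 1 - x ^ 5 + 12 * θ := by
    have h5 : x ^ 5 ≤ (1 + θ) ^ 5 := by gcongr
    have h6 : (1 + θ) ^ 5 ≤ 1 + 6 * θ := by
      have : θ * (10 + 10 * θ + 5 * θ ^ 2 + θ ^ 3) ≤ 1 := by
        have : θ ^ 2 ≤ 1 := pow_le_one₀ t0.le (by linarith)
        have : θ ^ 3 ≤ 1 := pow_le_one₀ t0.le (by linarith)
        nlinarith
      nlinarith
    exact abs_le.2 ⟨by linarith, by linarith⟩
  have q3 : ‖1 - ξ ^ 5‖ ≤ 1 - x ^ 5 + 12 * θ + 6 * θ :=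
    lin_eq (lin_add (lin_re q2) q1) (by push_cast; ring) le_rfl
  refine (lin_eq (lin_add (lin_add p1 p2) (lin_mul q3 p3)) (by ring) le_rfl).trans ?_
  have y5 : y ^ 5 ≤ 1 := pow_le_one₀ y0.le y1
  have z1 : x ^ 4 ≤ ‖ξ‖ ^ 4 := by gcongr
  have z2 : y ^ 5 ≤ ‖ξ‖ ^ 4 := by
    calc y ^ 5 = y * y ^ 4 := by ring
      _ ≤ 1 * ‖ξ‖ ^ 4 := by gcongr; exact yx.trans j3
      _ = _ := one_mul _
  have z3 : a * (x / 5 * (1 - y ^ 5) * x ^ 4) ≤ a * (x / 5 * (1 - y ^ 5) * ‖ξ‖ ^ 4) := by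
    have : 0 ≤ 1 - y ^ 5 := by linarith
    gcongr
  have z4 : θ * a * y ^ 5 ≤ θ * a * ‖ξ‖ ^ 4 := by gcongr
  have z5 : θ * x * (a * ‖ξ‖ ^ 4) ≤ θ * 2 * (a * ‖ξ‖ ^ 4) := by gcongr; linarith
  have z6 : 0 ≤ θ * a * ‖ξ‖ ^ 4 := by positivity
  nlinarith

/-! ### Algebra of the diagonal part; `t` is the small parameter -/

theorem lm_phi {t : ℝ} {z z' σ : ℂ} (t1 : t ≤ 1 / 1000) (hz : ‖z - 1‖ ≤ t) (hz' : ‖z'‖ ≤ t)
    (hσ : ‖σ‖ ≤ 1.01) : ‖z ^ 2 - 2 * σ * z * z' - 1‖ ≤ 5 * t := by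
  have t0 : 0 ≤ t := (norm_nonneg _).trans hz
  have z1 : ‖z‖ ≤ 1.001 := (lin_one hz).trans (by linarith)
  exact lin_eq (lin_sub (lin_mul hz (lin_add z1 lin_1))
    (lin_mul (lin_mul (lin_mul lin_2 hσ) z1) hz')) (by ring) (by linarith)

theorem lm_J {t η s : ℝ} {z e' σ : ℂ} (t1 : t ≤ 1 / 1000) (e0 : 0 < η) (e1 : η ≤ t) (hs : |s| ≤ η)
    (hz : ‖z - 1‖ ≤ t) (he : ‖e' - s‖ ≤ t * η / 100) (hσ : ‖σ‖ ≤ 1.01) :
    ‖z ^ 2 - σ * e' * (2 * z) - 1‖ ≤ 5 * t ∧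
    ‖csq (z ^ 2 - σ * e' * (2 * z)) / z - (1 - σ * s)‖ ≤ 3 * (t * η) := by
  have t0 : 0 < t := e0.trans_le e1
  have s1 : ‖(s : ℂ)‖ ≤ η := lin_re hs
  have s2 : ‖(s : ℂ)‖ ≤ t := s1.trans e1
  have s3 : ‖(s : ℂ)‖ ≤ 1 / 1000 := s2.trans t1
  have te : t * η ≤ t * 1 := by gcongr; linarith
  have te0 : 0 < t * η := by positivity
  have e2 : ‖e'‖ ≤ 1.01 * t := lin_eq (lin_add he s2) (by ring) (by linarith)
  have z1 : ‖z‖ ≤ 1.001 := (lin_one hz).trans (by linarith)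
  have z2 : 0.999 ≤ ‖z‖ := le_trans (by linarith) (lin_low hz)
  have hN : ‖z ^ 2 - σ * e' * (2 * z) - 1‖ ≤ 5 * t :=
    lin_eq (lin_sub (lin_mul hz (lin_add z1 lin_1))
      (lin_mul (lin_mul hσ e2) (lin_mul lin_2 z1))) (by ring) (by linarith)
  refine ⟨hN, ?_⟩
  have hI := (csq_near (T := 1) (z := z ^ 2 - σ * e' * (2 * z)) (by simp)
    (by simpa using hN.trans (by linarith))).2
  rw [one_pow] at hI
  have hq := csq_sq (z ^ 2 - σ * e' * (2 * z))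
  set I := csq (z ^ 2 - σ * e' * (2 * z))
  have hI' : ‖I - 1‖ ≤ 5 / 1000 := by linarith
  have hx : ‖(I + z * (1 - σ * s)) / 2 - 1‖ ≤ 1 / 100 := by
    have : ‖(I - 1) + (z - 1) - z * (σ * s)‖ ≤ 1 / 50 :=
      (lin_sub (lin_add hI' (hz.trans t1)) (lin_mul z1 (lin_mul hσ s3))).trans (by norm_num)
    rw [show (I + z * (1 - σ * s)) / 2 - 1 = ((I - 1) + (z - 1) - z * (σ * s)) / 2 by ring,
      norm_div, Complex.norm_two]
    linarith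
  have zn : z ≠ 0 := fun h => by rw [h, norm_zero] at z2; norm_num at z2
  have key : ‖(I / z - (1 - σ * s)) * z * ((I + z * (1 - σ * s)) / 2) * 2‖ ≤ 4 * (t * η) := by
    refine lin_eq (lin_sub (lin_mul (lin_mul (lin_mul lin_2 hσ) z1) (lin_sub (lin_mul hz s1) he))
      (lin_mul (lin_mul (lin_mul hσ hσ) (lin_mul s2 s1)) (lin_mul z1 z1))) ?_ (by linarith)
    rw [sub_mul, div_mul_cancel₀ _ zn]
    linear_combination hq
  have k1 := lin_cancel key (c := 2) (by norm_num) (by simp)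
  have k2 := lin_cancel k1 (c := 1 - 1 / 100) (by norm_num) (lin_low hx)
  have k3 := lin_cancel k2 (c := 0.999) (by norm_num) z2
  refine k3.trans ?_
  norm_num
  linarith

/-- the product of the three factors, to first order -/
theorem lm_c {u v E : ℝ} {α β γ q q' A A' G : ℂ} (uv : u ≤ v) (v1 : v ≤ 1 / 100) (Ev : E ≤ v)
    (hE : u * v ≤ E) (ha : ‖α‖ ≤ u) (hb : ‖β‖ ≤ u) (hg : ‖γ‖ ≤ u) (hq : ‖q - 1‖ ≤ v)
    (h1 : ‖A - (1 - α)‖ ≤ E) (h2 : ‖A' - (1 + α)‖ ≤ E) (h3 : ‖G - (1 - β)‖ ≤ E)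
    (h4 : ‖q' - (q - γ)‖ ≤ E) : ‖q' * A * G - (1 - β - 2 * α - γ) * (q * A')‖ ≤ 16 * E := by
  have u0 : 0 ≤ u := (norm_nonneg _).trans ha
  have E0 : 0 ≤ E := (norm_nonneg _).trans h1
  have v0 : 0 ≤ v := u0.trans uv
  have u1 : u ≤ 1 / 100 := uv.trans v1
  have uu : u * u ≤ E := (mul_le_mul_of_nonneg_left uv u0).trans hE
  have a1 : ‖A - 1‖ ≤ 2 * v := lin_eq (lin_sub h1 ha) (by ring) (by linarith)
  have g1 : ‖G - 1‖ ≤ 2 * v := lin_eq (lin_sub h3 hb) (by ring) (by linarith)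
  have g2 : ‖G‖ ≤ 1.02 := (lin_one g1).trans (by linarith)
  have ag : ‖A * G - 1‖ ≤ 5 * v := lin_eq (lin_add (lin_mul a1 g2) g1) (by ring) (by linarith)
  have ag2 : ‖A * G‖ ≤ 1.05 := (lin_one ag).trans (by linarith)
  have q1 : ‖q‖ ≤ 1.01 := (lin_one hq).trans (by linarith)
  have a2 : ‖1 - α‖ ≤ 1.01 := (lin_sub lin_1 ha).trans (by linarith)
  have c1 : ‖1 - β - 2 * α - γ‖ ≤ 1.04 :=
    (lin_sub (lin_sub (lin_sub lin_1 hb) (lin_mul lin_2 ha)) hg).trans (by linarith)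
  have s1 : ‖2 * (α * β) + 2 * (α * α) + α * γ‖ ≤ 5 * E :=
    (lin_add (lin_add (lin_mul lin_2 (lin_mul ha hb)) (lin_mul lin_2 (lin_mul ha ha)))
      (lin_mul ha hg)).trans (by linarith)
  exact lin_eq (lin_add (lin_add (lin_mul hg (lin_sub hq ag))
    (lin_mul q1 (lin_sub (lin_add (lin_add s1 (lin_mul h1 g2)) (lin_mul h3 a2)) (lin_mul h2 c1))))
    (lin_mul h4 ag2)) (by ring) (by linarith)

/-- size of `U` -/
theorem lm_U4 {t η μ0 : ℝ} {y : ℂ} (t0 : 0 < θ) (t1 : θ ≤ t) (t2 : t ≤ th0) (e0 : 0 < η)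
    (e1 : η ≤ t) (mu : |μ0 - 2 * kap * η| ≤ t * η) (h : ξ ∈ Sec θ)
    (U0 : ‖y - ξ - μ0 * ξ * (1 - ξ)‖ ≤ t * η / 100 * ‖ξ‖ ^ 2) :
    ‖y‖ ^ 4 ≤ (1 + η * (8 * kap * (1 - ξ.re) + 6 * t)) * ‖ξ‖ ^ 4 := by
  obtain ⟨j1, -, -⟩ := lm_j t0 h
  obtain ⟨-, m1, m2, -⟩ := Sec_norm t0.le (t1.trans t2) h
  have x0 := Sec_re_pos t0.le h
  have x1 := h.2
  have t3 : t ≤ 1 / 10 ^ 6 := t2
  have τ0 : 0 < t := t0.trans_le t1
  set x := ξ.re
  have j : ‖ξ - x‖ ≤ t * 2 := j1.trans (by gcongr; linarith)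
  have te : 0 < t * η := by positivity
  have U1 : ‖y - ξ - μ0 * ξ * (1 - ξ)‖ ≤ t * η / 100 * 2 * ‖ξ‖ := by
    refine U0.trans ?_
    calc t * η / 100 * ‖ξ‖ ^ 2 = t * η / 100 * ‖ξ‖ * ‖ξ‖ := by ring
      _ ≤ _ := by gcongr; linarith
  have b2 : |η * (1 - x)| ≤ η := by
    rw [abs_mul, abs_of_pos e0]
    exact mul_le_of_le_one_right e0.le (abs_le.2 ⟨by linarith, by linarith⟩)
  obtain ⟨b3, b4⟩ := abs_le.1 b2
  have r2 : ‖((1 + η * (1 - x) / 15 : ℝ) : ℂ)‖ ≤ 1 + η * (1 - x) / 15 :=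
    lin_re (abs_of_nonneg (by linarith)).le
  have s1 : ‖(η : ℂ)‖ ≤ η := lin_re (abs_of_pos e0).le
  have m3 : ‖1 - ξ‖ ≤ 1.01 := by linarith
  set u := η * (1 - x) / 15 + 1.2 * (t * η) with hu
  have hU : ‖y‖ ≤ (1 + u) * ‖ξ‖ := by
    have i1 := (lin_sub (lin_add r2 (lin_mul (lin_re mu) m3))
      (lin_mul (lin_mul (lin_mul lin_2 lin_kap) s1) j)).trans
      (show _ ≤ 1 + u - t * η / 100 * 2 by rw [hu]; linarith)
    exact lin_eq (lin_add U1 (lin_mul i1 (le_refl ‖ξ‖))) (by unfold kap; push_cast; ring)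
      (le_of_eq (by ring))
  have te2 : t * η ≤ 1 / 10 ^ 6 * η := by gcongr
  have u1 : |u| ≤ η / 10 := abs_le.2 ⟨by linarith, by linarith⟩
  have u2 : u ^ 2 ≤ t * η / 100 := by
    have h1 := pow_le_pow_left₀ (abs_nonneg u) u1 2
    rw [sq_abs] at h1
    have h2 : η * η ≤ t * η := by gcongr
    linarith
  have u3 : (1 + u) ^ 4 ≤ 1 + 4 * u + 7 * u ^ 2 := by
    obtain ⟨u4, u5⟩ := abs_le.1 u1
    have : u ^ 2 * (6 + 4 * u + u ^ 2) ≤ u ^ 2 * 7 :=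
      mul_le_mul_of_nonneg_left (by linarith) (sq_nonneg u)
    linarith
  calc ‖y‖ ^ 4 ≤ ((1 + u) * ‖ξ‖) ^ 4 := by gcongr
    _ = (1 + u) ^ 4 * ‖ξ‖ ^ 4 := by ring
    _ ≤ _ := by
      refine mul_le_mul_of_nonneg_right (u3.trans ?_) (by positivity)
      unfold kap
      linarith

/-! ### The Neumann series -/

theorem lm_fix {κ b : ℝ} {T : (ℂ → ℂ) → ℂ → ℂ} {f : ℂ → ℂ} (t0 : 0 < θ) (t1 : θ ≤ th0) (k0 : 0 ≤ κ)
    (k1 : κ < 1) (hT : ∀ {a w}, LinC θ a w → LinC θ (κ * a) (T w))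
    (hs : ∀ {a a' w w'}, LinC θ a w → LinC θ a' w' → ∀ ξ ∈ Sec θ,
      T (fun ζ => w ζ - w' ζ) ξ = T w ξ - T w' ξ)
    (hr : ∀ {a w}, LinC θ a w → Rl w θ → Rl (T w) θ) (c : LinC θ b f) (r : Rl f θ) :
    ∃ w, LinC θ ((1 - κ)⁻¹ * b) w ∧ Rl w θ ∧ ∀ ξ ∈ Sec θ, w ξ - T w ξ = f ξ := by
  set g : ℕ → ℂ → ℂ := fun n => T^[n] f with hg
  have gs : ∀ n, g (n + 1) = T (g n) := fun n => Function.iterate_succ_apply' T n f
  have gc : ∀ n, LinC θ (κ ^ n * b) (g n) ∧ Rl (g n) θ := by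
    intro n
    induction n with
    | zero => exact ⟨c.mono (by simp), r⟩
    | succ n ih =>
      rw [gs]
      exact ⟨(hT ih.1).mono (le_of_eq (by ring)), hr ih.1 ih.2⟩
  set R : ℕ → ℂ → ℂ := fun N ξ => ∑' n, g (n + N) ξ with hR
  have Rc := fun N => lin_tsum (b := κ ^ N * b) (g := fun n => g (n + N)) t0 t1 k0 k1
    fun n => (gc (n + N)).1.mono (le_of_eq (by ring))
  have Rs : ∀ N, ∀ ξ ∈ Sec θ, R N ξ = g N ξ + R (N + 1) ξ := fun N ξ hξ => by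
    have := ((Rc N).1 ξ hξ).tsum_eq_zero_add
    simp only [zero_add] at this
    simp only [hR]
    rw [this]
    simp only [add_assoc, add_comm 1 N]
  have step : ∀ N, ∀ ξ ∈ Sec θ, T (R N) ξ - R (N + 1) ξ = T (R (N + 1)) ξ - R (N + 2) ξ := by
    intro N ξ hξ
    have c1 := (Rc N).2.sub (Rc (N + 1)).2
    have c0 : LinC θ 0 (fun ζ => (R N ζ - R (N + 1) ζ) - g N ζ) :=
      ⟨(c1.sub (gc N).1).d, fun ζ hζ => by rw [Rs N ζ hζ]; simp⟩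
    have z := (hT c0).b ξ hξ
    rw [hs c1 (gc N).1 ξ hξ, hs (Rc N).2 (Rc (N + 1)).2 ξ hξ, mul_zero, zero_mul,
      norm_le_zero_iff] at z
    have z2 := Rs (N + 1) ξ hξ
    rw [gs] at z2
    linear_combination z - z2
  refine ⟨R 0, (Rc 0).2.mono (le_of_eq ?_), fun x hx => ?_, fun ξ hξ => ?_⟩
  · rw [pow_zero, one_mul]
  · show (∑' n, g (n + 0) x).im = 0
    rw [Complex.im_tsum ((Rc 0).1 x hx)]
    simp [fun n => (gc n).2 x hx]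
  · have cst : ∀ N, T (R 0) ξ - R 1 ξ = T (R N) ξ - R (N + 1) ξ := by
      intro N
      induction N with
      | zero => rfl
      | succ N ih => rw [ih, step N ξ hξ]
    have bd : ∀ N, ‖T (R 0) ξ - R 1 ξ‖ ≤ κ ^ N * (2 * κ * (1 - κ)⁻¹ * b * ‖ξ‖ ^ 4) := fun N => by
      rw [cst N]
      exact (lin_sub ((hT (Rc N).2).b ξ hξ) ((Rc (N + 1)).2.b ξ hξ)).trans (le_of_eq (by ring))
    have lim := (tendsto_pow_atTop_nhds_zero_of_lt_one k0 k1).mul_const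
      (2 * κ * (1 - κ)⁻¹ * b * ‖ξ‖ ^ 4)
    have z := ge_of_tendsto' lim bd
    rw [zero_mul, norm_le_zero_iff] at z
    have z2 : R 0 ξ = f ξ + R 1 ξ := Rs 0 ξ hξ
    linear_combination z2 - z

end BonG
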