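import Pool.Agent.Lib.MP_3dbf58_gt.N.Step
import Pool.Agent.Lib.MP_3dbf58_gt.N.GeoB
import Pool.Agent.Lib.MP_3dbf58_gt.Loop

/-! The Newton scheme and its limit in dimension `ii + 5`. -/

open Set Filter Topology MeasureTheory Metric

noncomputable section

namespace BonN

open Bon3

variable [Cs]

/-- the error controls the maximal sections -/
theorem max_close : ∃ C : ℝ, 0 ≤ C ∧ ∀ {P : Par} {θ d B e : ℝ} {S : St}, ParOK P → 0 < θ → θ ≤ th0 →
    0 < d → B ≤ th0 ^ 2 * P.η → InvC P θ d B S → InvR P θ d e S → GOK P.gb →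
    P.Gb 1 = Ar P.gb 0 0 → ∀ x ∈ Ioc (0 : ℝ) 1,
    |Ar S.g (P.q * (1 - x)) (S.h x).re - P.Gb x| ≤ C * e ∧
      ∀ y, Ar S.g (P.q * (1 - x)) y ≤ Ar S.g (P.q * (1 - x)) (S.h x).re := by
  have l4 := Jr_pow5
  refine ⟨1 + 1 / Jr (fun v => v ^ 5) 1, by positivity, ?_⟩
  intro P θ d B e S hP t0 t1 d0 hB h r hb G1 x hx
  have gok := r.rep.gok
  have η0 := hP.et1
  have q0 : 0 < P.q := η0.trans_le hP.et2
  have ds := del1_small
  have q1 : P.q ≤ 1 / 10 ^ 7 := by linarith [hP.q1]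
  have xs : (x : ℂ) ∈ Sec θ := Sec_real t0 hx.1 hx.2
  constructor
  · obtain ⟨cO, bO⟩ := st_trace t0 le_rfl r.dE r.E0
    have p5 : ∀ v ∈ Ioo (0 : ℝ) 1, |v ^ 5| ≤ 1 := fun v hv => by
      rw [abs_of_pos (pow_pos hv.1 5)]
      exact pow_le_one₀ hv.1.le hv.2.le
    have bd : ∀ v ∈ Ioo (0 : ℝ) 1, |S.s * v ^ 5| ≤ |S.s| := fun v hv => by
      rw [abs_mul]; exact mul_le_of_le_one_right (abs_nonneg _) (p5 v hv)
    have c0 := cq_pos q0
    have c1 := cq_le q0 (by linarith)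
    have a1 : Ar S.g 0 (S.h ((1 : ℝ) : ℂ)).re = P.Gb 1 := by
      rw [G1]
      exact Ar_zero gok hb r.br _ _
    have l1 := r.lA 1 ⟨one_pos, le_rfl⟩
    rw [sub_self, mul_zero, a1, sub_self,
      Jr_add one_pos le_rfl cO bO (by fun_prop) bd, Jr_smul] at l1
    have l2 := (mul_eq_zero.1 l1.symm).resolve_left c0.ne'
    have l3 := (Jr_int one_pos le_rfl cO bO).2
    have s0 : |S.s| ≤ 1 / Jr (fun v => v ^ 5) 1 * e := by
      have h1 : |S.s * Jr (fun v => v ^ 5) 1| ≤ e := by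
        rw [eq_neg_of_add_eq_zero_right l2, abs_neg]; exact l3
      rw [abs_mul, abs_of_pos l4] at h1
      rw [one_div_mul_eq_div, le_div_iff₀ l4]
      exact h1
    have sub : Ioo (0 : ℝ) x ⊆ Ioo 0 1 := Ioo_subset_Ioo_right hx.2
    have l5 := (Jr_int (f := fun v => (S.E v).re + S.s * v ^ 5)
      (M := (1 + 1 / Jr (fun v => v ^ 5) 1) * e) hx.1 hx.2
      ((cO.mono sub).add (by fun_prop)) fun v hv => by
        have h2 := bO v (sub hv)
        have h3 := (bd v (sub hv)).trans s0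
        rw [abs_le] at h2 h3 ⊢
        constructor <;> linarith [h2.1, h2.2, h3.1, h3.2]).2
    rw [r.lA x hx, abs_mul, abs_of_pos c0]
    exact (mul_le_of_le_one_left (abs_nonneg _) c1).trans l5
  · have hr : (((S.h x).re : ℝ) : ℂ) = S.h x := Complex.ext (by simp) (by simp [h.cp.re x xs])
    have cr : Cr S.g (P.q * (1 - x)) (S.h x).re = 0 := by
      rw [r.lC x _ ⟨xs, by
        show ‖(((S.h x).re : ℝ) : ℂ) - S.h x‖ < d / 1000 * ‖(x : ℂ)‖
        rw [hr, sub_self, norm_zero]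
        have := norm_pos_iff.2 (Sec_ne xs)
        positivity⟩ hx.2, hr, h.C0 x xs]
      simp
    have s0 : 0 ≤ P.q * (1 - x) := mul_nonneg q0.le (by linarith [hx.2])
    refine crit_max gok s0 ?_ cr
    have h1 : |(S.h x).re| ≤ 1 := by
      refine (Complex.abs_re_le_norm _).trans ((h.cp.e0 x xs).trans ?_)
      have := hP.et2
      have := th0_pos
      have := th0_small
      have : th0 ^ 2 ≤ 1 := by nlinarith
      nlinarith
    have h2 : (S.h x).re ^ 2 ≤ 1 := by rwa [sq_le_one_iff_abs_le_one]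
    have h3 : P.q * (1 - x) ≤ 1 / 2 := by nlinarith [hx.1]
    nlinarith [sq_nonneg (S.h x).re]

def lpnθ (n : ℕ) : ℝ := th0 / 2 + th0 / 4 / 2 ^ n
def lpnd (n : ℕ) : ℝ := th0 / 64 / 2 ^ n

theorem lpnθ_succ (n : ℕ) : lpnθ (n + 1) = lpnθ n - 8 * lpnd n := by
  unfold lpnθ lpnd; rw [pow_succ]; field_simp; ring

theorem lpnd_succ (n : ℕ) : lpnd (n + 1) = lpnd n / 2 := by
  unfold lpnd; rw [pow_succ]; field_simp

theorem lpnd_pos (n : ℕ) : 0 < lpnd n := by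
  unfold lpnd; have := th0_pos; positivity

theorem lpnd_le (n : ℕ) : lpnd n ≤ th0 / 32 :=
  (div_le_self (by have := th0_pos; positivity) (one_le_pow₀ one_le_two)).trans
    (by linarith [th0_pos])

theorem lpnd_one (n : ℕ) : lpnd n ≤ 1 := by linarith [lpnd_le n, th0_small]

theorem lpnθ_ge (n : ℕ) : th0 / 2 ≤ lpnθ n := by
  unfold lpnθ
  have := th0_pos
  have : 0 ≤ th0 / 4 / 2 ^ n := by positivity
  linarith

theorem lpnθ_le (n : ℕ) : lpnθ n ≤ th0 := by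
  unfold lpnθ
  have := th0_pos
  have : th0 / 4 / 2 ^ n ≤ th0 / 4 := div_le_self (by positivity) (one_le_pow₀ one_le_two)
  linarith

theorem lpn_ex {a d : ℝ} (a0 : 0 ≤ a) (d0 : 0 < d) (d1 : d ≤ 1) : a / d ^ 12 ≤ a / d ^ ex :=
  div_le_div_of_nonneg_left a0 (pow_pos d0 _) (pow_le_pow_of_le_one d0.le d1 (by unfold ex; omega))

/-- the state at stage `n` with budget `β` -/
def LpnI (P : Par) (n : ℕ) (β : ℝ) (S : St) : Prop :=
  ∃ B e, 0 ≤ B ∧ B + 2 * β ≤ th0 ^ 2 * P.η ∧ β * 2 ^ (ex + 1) ≤ th0 * P.η ∧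
    1 / (th0 * P.η) * e ≤ β * lpnd n ^ ex ∧
    InvC P (lpnθ n) (lpnd n) B S ∧ InvK P (lpnθ n) B S ∧ InvR P (lpnθ n) (lpnd n) e S

theorem lpn_next {P : Par} (hP : ParOK P) {n : ℕ} {β : ℝ} (b0 : 0 < β) {S : St}
    (h : LpnI P n β S) :
    ∃ S', LpnI P (n + 1) (β / 2) S' ∧ ∀ x, |S'.g x - S.g x| ≤ β * (1 + |x|) := by
  obtain ⟨B, e, B0, hB, hβ, he, c, k, r⟩ := h
  have d0 := lpnd_pos n
  have η0 := hP.et1
  have tp := th0_pos
  have hd : β * lpnd n ^ ex / lpnd n ^ ex = β := by field_simp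
  have h12 := lpn_ex (a := β * lpnd n ^ ex) (by positivity) d0 (lpnd_one n)
  have N : Num P (lpnθ n) (lpnd n) B (β * lpnd n ^ ex) :=
    ⟨hP, d0, lpnd_le n, by rw [← lpnθ_succ]; exact lpnθ_ge _, lpnθ_le n, by positivity, B0,
      by linarith⟩
  obtain ⟨w, W⟩ := linsolve (μ := 0) (c.lin hP (lpnθ_ge n) (lpnθ_le n) (by linarith) k)
    r.dE r.rE r.E0
  have W' := W.mono (a' := β * lpnd n ^ ex) (by simpa using he)
  obtain ⟨S', c', k', r', cl, -⟩ := step N c k r W'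
  rw [hd] at c' k' cl
  rw [← lpnθ_succ, ← lpnd_succ] at c' r'
  rw [← lpnθ_succ] at k'
  have p2 : (0 : ℝ) < 2 ^ (ex + 1) := by positivity
  refine ⟨S', ⟨B + β, _, by linarith, by linarith, by nlinarith, ?_, c', k', r'⟩, cl⟩
  have h1 : (β * lpnd n ^ ex) ^ 2 / lpnd n ^ ex = β * (β * lpnd n ^ ex) := by field_simp
  have h2 : β / 2 * lpnd (n + 1) ^ ex = 1 / 2 ^ (ex + 1) * (β * lpnd n ^ ex) := by
    rw [lpnd_succ, div_pow, pow_succ (2 : ℝ) ex]; field_simp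
  have h3 : 1 / (th0 * P.η) * β ≤ 1 / 2 ^ (ex + 1) := by
    rw [one_div_mul_eq_div, div_le_div_iff₀ (by positivity) p2]
    linarith
  rw [h1, h2, ← mul_assoc]
  exact mul_le_mul_of_nonneg_right h3 (by positivity)

/-- the limit of the stages that follow a given one -/
theorem lpn_tail {P : Par} (hP : ParOK P) {β : ℝ} (b0 : 0 < β) {S : St} (h : LpnI P 1 β S) :
    ∃ (f : ℕ → St) (g : ℝ → ℝ), f 0 = S ∧ (∀ n, LpnI P (n + 1) (β / 2 ^ n) (f n)) ∧
      ∀ n x, |(f n).g x - g x| ≤ 2 * (β / 2 ^ n) * (1 + |x|) := by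
  have : Nonempty St := ⟨S⟩
  have hs : ∀ (n : ℕ) (S : St), LpnI P (n + 1) (β / 2 ^ n) S → ∃ S', LpnI P (n + 1 + 1)
      (β / 2 ^ (n + 1)) S' ∧ ∀ x, |S'.g x - S.g x| ≤ β / 2 ^ n * (1 + |x|) := by
    intro n S h
    have := lpn_next hP (by positivity) h
    rwa [div_div, ← pow_succ] at this
  choose! nx h1 h2 using hs
  let f : ℕ → St := fun n => Nat.rec S nx n
  have hf : ∀ n, LpnI P (n + 1) (β / 2 ^ n) (f n) := by
    intro n
    induction n with
    | zero =>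
      rw [pow_zero, div_one]
      exact h
    | succ n ih => exact h1 n _ ih
  have hd : ∀ x n, dist ((f n).g x) ((f (n + 1)).g x) ≤ 2 * β * (1 + |x|) / 2 / 2 ^ n := by
    intro x n
    rw [dist_comm, Real.dist_eq]
    refine (h2 n _ (hf n) x).trans (le_of_eq ?_)
    ring
  have hl : ∀ x, ∃ l, Tendsto (fun n => (f n).g x) atTop (𝓝 l) := fun x =>
    cauchySeq_tendsto_of_complete (cauchySeq_of_le_geometric_two (hd x))
  choose g hg using hl
  refine ⟨f, g, rfl, hf, fun n x => ?_⟩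
  have := dist_le_of_le_geometric_two_of_tendsto (hd x) (hg x) n
  rw [Real.dist_eq] at this
  refine this.trans (le_of_eq ?_)
  ring

/-- the first step moves the body -/
theorem lpn_first {P : Par} {S : St} (hP : ParOK P) (hE : S.E = fun _ => 0)
    (h : InvC P (3 / 4 * th0) (th0 / 64) (th0 ^ 2 * P.η / 2) S)
    (k : InvK P (3 / 4 * th0) (th0 ^ 2 * P.η / 2) S) (r : InvR P (3 / 4 * th0) (th0 / 64) 0 S) :
    ∃ (β b : ℝ) (S' : St), 0 < β ∧ 0 ≤ b ∧ b + 2 * β ≤ th0 ^ 2 * P.η ∧ LpnI P 1 β S' ∧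
      (∀ x, |S'.g x - S.g x| ≤ b * (1 + |x|)) ∧
      ∃ x, 0 ≤ S.g x ∧ S'.g x + 2 * β * (1 + |x|) < S.g x := by
  have tp := th0_pos
  have ts := th0_small
  have ds := del1_small
  have η0 := hP.et1
  have q0 : 0 < P.q := η0.trans_le hP.et2
  have η1 : P.η ≤ 1 / 10 ^ 7 := by linarith [hP.et2, hP.q1]
  have D0 : 0 < th0 ^ 2 * P.η / 2 := by positivity
  have D1 : th0 ^ 2 * P.η / 2 ≤ th0 * P.η := by nlinarith [mul_pos tp η0]
  have L := h.lin hP (by linarith) (by linarith) (by linarith) k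
  obtain ⟨w, W⟩ := linsolve (μ := 1) L r.dE r.rE r.E0
  have a4 : 1 / (th0 * P.η) * (0 + 2 * P.η * |(1 : ℝ)|) = 2 / th0 := by
    rw [abs_one]; field_simp; ring
  rw [a4, hE] at W
  obtain ⟨x, hx, wx⟩ := W.nontriv L
  set d : ℝ := th0 / 64 with hd
  have d0 : 0 < d := by positivity
  set K : ℝ := 2 / th0 / d ^ ex with hK
  have K0 : 0 < K := by positivity
  set M : ℝ := 2 ^ ex / (th0 * P.η) * K ^ 2 with hM
  have M0 : 0 < M := by positivity
  obtain ⟨ε, ε0, h1, h2⟩ := lp_small (P.q * |(w x).re|) (K ^ 2 * d ^ ex + 6 * M + M * 2 ^ (ex + 1))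
    (th0 ^ 2 * P.η / 2) K (mul_pos q0 (abs_pos.2 wx)) D0
  obtain ⟨c, c1, c2⟩ : ∃ c : ℝ, |c| = ε ∧ c * (w x).re = -(ε * |(w x).re|) := by
    rcases lt_or_gt_of_ne wx with h0 | h0
    · exact ⟨ε, abs_of_pos ε0, by rw [abs_of_neg h0]; ring⟩
    · exact ⟨-ε, by rw [abs_neg, abs_of_pos ε0], by rw [abs_of_pos h0]; ring⟩
  have W' := W.smul c
  rw [c1, ← hE] at W'
  have hb : ε * (2 / th0) / d ^ ex = K * ε := by rw [hK]; ring
  have he : (ε * (2 / th0)) ^ 2 / d ^ ex = K ^ 2 * d ^ ex * ε ^ 2 := by rw [hK]; field_simp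
  have p1 : 0 ≤ K ^ 2 * d ^ ex * ε ^ 2 := by positivity
  have p2 : 0 < M * ε ^ 2 := by positivity
  have p3 : 0 < K * ε := by positivity
  have p4 : 0 < M * ε ^ 2 * 2 ^ (ex + 1) := by positivity
  have h12 := lpn_ex (a := ε * (2 / th0)) (by positivity) d0 (by linarith)
  have N : Num P (3 / 4 * th0) d (th0 ^ 2 * P.η / 2) (ε * (2 / th0)) :=
    ⟨hP, d0, by linarith, by linarith, by linarith, by positivity, D0.le, by linarith⟩
  obtain ⟨S', c', k', r', cl, last⟩ := step N h k r W'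
  have e1 : 3 / 4 * th0 - 8 * d = lpnθ 1 := by unfold lpnθ; rw [hd]; ring
  have e2 : d / 2 = lpnd 1 := by unfold lpnd; rw [hd]; ring
  rw [hb] at c' k' cl
  rw [he] at r' last
  rw [e1, e2] at c' r'
  rw [e1] at k'
  refine ⟨M * ε ^ 2, K * ε, S', p2, p3.le, by linarith,
    ⟨_, _, by positivity, by linarith, by linarith, le_of_eq ?_, c', k', r'⟩, cl, (S.Hp x).re,
    ?_, ?_⟩
  · rw [← e2, hM, div_pow d 2]; field_simp
  · have ok := r.rep.fit.op
    have xi : x ∈ Icc (0 : ℝ) 1 := Ioo_subset_Icc_self hx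
    have oi : (1 : ℝ) ∈ Icc (0 : ℝ) 1 := ⟨zero_le_one, le_rfl⟩
    have zi : (0 : ℝ) ∈ Icc (0 : ℝ) 1 := ⟨le_rfl, zero_le_one⟩
    obtain ⟨t1, t2⟩ := r.rep.tp x xi
    have t3 := t2 ((S.cp P).H 1)
    rw [(r.rep.tp 1 oi).1, r.rep.fit.p1] at t3
    have t4 := ok.mono xi oi hx.2
    have t5 := ok.monoT zi xi hx.1.le
    have t6 := r.rep.fit.pT0
    have t7 : (S.cp P).H x = (S.Hp x).re := if_neg (not_le.2 hx.1)
    rw [← t7, t1]
    nlinarith
  · have xs : (x : ℂ) ∈ Sec (3 / 4 * th0) := Sec_real (by positivity) hx.1 hx.2.le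
    have l1 := last x hx
    have l2 : (((c : ℂ)) * w x).re = -(ε * |(w x).re|) := by rw [Complex.re_ofReal_mul, c2]
    rw [l2] at l1
    have sm : del1 + th0 ^ 2 * P.η / 2 ≤ 1 / 2 := by nlinarith
    have l3 := abs_le.1 (((Complex.abs_re_le_norm _).trans (h.cp.T0 x xs)).trans sm)
    have l4 := abs_le.1 (((Complex.abs_re_le_norm _).trans (h.cp.H0 x xs)).trans sm)
    simp only [Complex.sub_re, Complex.one_re] at l3 l4
    have l5 : |(S.Hp x).re| ≤ 2 := abs_le.2 ⟨by linarith [l4.1], by linarith [l4.2]⟩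
    have l6 : 2 * (M * ε ^ 2) * (1 + |(S.Hp x).re|) ≤ 6 * M * ε ^ 2 := by nlinarith
    have l7 : 0 ≤ P.q * (ε * |(w x).re|) := by positivity
    have l8 : 2 * P.q * (S.Tp x).re * -(ε * |(w x).re|) ≤ -(P.q * (ε * |(w x).re|)) := by
      nlinarith [l3.1]
    have l9 := mul_lt_mul_of_pos_right h1 ε0
    linarith

/-- the limit of the scheme -/
theorem loop {P : Par} {S : St} (hP : ParOK P) (hg : S.g = P.gb) (hE : S.E = fun _ => 0)
    (hs : S.s = 0) (h : InvC P (3 / 4 * th0) (th0 / 64) (th0 ^ 2 * P.η / 2) S)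
    (k : InvK P (3 / 4 * th0) (th0 ^ 2 * P.η / 2) S) (r : InvR P (3 / 4 * th0) (th0 / 64) 0 S) :
    ∃ g : ℝ → ℝ, GOK g ∧ BrEq g P.gb ∧ (∀ x ∈ Icc (-P.Hm0) P.Hp0, g x = P.gb x) ∧
      (∀ x, |g x - P.gb x| ≤ 1 / 10 ^ 7 * (1 + |x|)) ∧
      (∀ x ∈ Ioc (0 : ℝ) 1, IsLUB (range (Ar g (P.q * (1 - x)))) (P.Gb x) ∧
        IsLUB (range (Ar P.gb (P.q * (1 - x)))) (P.Gb x)) ∧
      ∃ x, 0 ≤ P.gb x ∧ g x < P.gb x := by
  have tp := th0_pos
  have ts := th0_small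
  have η0 := hP.et1
  have η1 : P.η ≤ 1 / 10 ^ 7 := by linarith [hP.et2, hP.q1, del1_small]
  have η2 : th0 * P.η ≤ 1 / 10 ^ 7 := by nlinarith
  have η3 : th0 ^ 2 * P.η ≤ 1 / 10 ^ 7 := by nlinarith [mul_pos tp η0]
  obtain ⟨C, C0, hC⟩ := max_close
  obtain ⟨β, b, S', β0, b0, hb, I1, cl, x0, x1, x2⟩ := lpn_first hP hE h k r
  obtain ⟨f, g, f0, hf, hc⟩ := lpn_tail hP β0 I1
  choose B e B0 hB hβ he c kk rr using hf
  have gb : GOK P.gb := hg ▸ r.rep.gok
  have G1 : P.Gb 1 = Ar P.gb 0 0 := by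
    have := r.lA 1 ⟨one_pos, le_rfl⟩
    rw [hE, hs, hg] at this
    simp only [Jr, sub_self, mul_zero, add_zero, zero_mul, Complex.zero_re,
      intervalIntegral.integral_zero, sub_eq_zero] at this
    rw [← this]
    exact Ar_zero gb gb (fun _ _ _ _ _ => rfl) _ _
  have tz : Tendsto (fun n : ℕ => β / 2 ^ n) atTop (𝓝 0) :=
    tendsto_const_nhds.div_atTop (tendsto_pow_atTop_atTop_of_one_lt one_lt_two)
  have lim : ∀ x, Tendsto (fun n => (f n).g x) atTop (𝓝 (g x)) := by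
    intro x
    rw [tendsto_iff_dist_tendsto_zero]
    refine squeeze_zero (fun _ => dist_nonneg) (fun n => hc n x) ?_
    simpa using (tz.const_mul 2).mul_const (1 + |x|)
  have gok : GOK g := GOK.limit (fun n => (rr n).rep.gok) lim fun x hx =>
    (le_of_tendsto' (lim x) fun n => (rr n).rep.far hx.ge).trans_lt (by norm_num)
  have hc2 : ∀ n x, |x| ≤ 2 → |(f n).g x - g x| ≤ 6 * (β / 2 ^ n) := by
    intro n x hx
    have : 0 < β / 2 ^ n := by positivity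
    exact (hc n x).trans (by nlinarith)
  have t6 : Tendsto (fun n : ℕ => 6 * (β / 2 ^ n)) atTop (𝓝 0) := by simpa using tz.const_mul 6
  have h0 := hc 0
  simp only [f0, pow_zero, div_one] at h0
  refine ⟨g, gok, BonG.BrEq.limit (fun n => (rr n).rep.gok) gok t6 hc2 fun n => (rr n).br,
    fun x hx => ?_, fun x => ?_, fun x hx => ⟨?_, ?_⟩, x0, hg ▸ x1, ?_⟩
  · have hx' : x ∈ Icc (-(S.cm P).H 0) ((S.cp P).H 0) := by
      have e1 : (S.cm P).H 0 = P.Hm0 := if_pos le_rfl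
      have e2 : (S.cp P).H 0 = P.Hp0 := if_pos le_rfl
      rwa [e1, e2]
    have : (fun n => (f n).g x) = fun _ => P.gb x :=
      funext fun n => by rw [← hg]; exact (r.rep.band_eq (rr n).rep hx').symm
    exact tendsto_nhds_unique (lim x) (by rw [this]; exact tendsto_const_nhds)
  · have h1 := abs_le.1 (h0 x)
    have h2 := abs_le.1 (cl x)
    rw [hg] at h2
    have h3 : (b + 2 * β) * (1 + |x|) ≤ 1 / 10 ^ 7 * (1 + |x|) :=
      mul_le_mul_of_nonneg_right (by linarith) (by positivity)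
    rw [abs_le]
    constructor <;> linarith [h1.1, h1.2, h2.1, h2.2]
  · have mc := fun n => hC hP (by linarith [lpnθ_ge (n + 1)]) (lpnθ_le _) (lpnd_pos _)
      (by have : 0 < β / 2 ^ n := by positivity
          linarith [hB n]) (c n) (rr n) gb G1 x hx
    have ee : ∀ n, C * e n ≤ C * (β / 2 ^ n) := by
      intro n
      have p : 0 < β / 2 ^ n := by positivity
      have h1 : lpnd (n + 1) ^ ex ≤ 1 := pow_le_one₀ (lpnd_pos _).le (lpnd_one _)
      have h2 := (he n).trans (mul_le_of_le_one_right p.le h1)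
      rw [one_div_mul_eq_div, div_le_iff₀ (by positivity)] at h2
      exact mul_le_mul_of_nonneg_left (by nlinarith) C0
    have tt : Tendsto (fun n : ℕ => C * (β / 2 ^ n) + 8 * Real.sqrt (6 * (β / 2 ^ n))) atTop
        (𝓝 0) := by simpa using (tz.const_mul C).add (t6.sqrt.const_mul 8)
    have s0 : 0 ≤ P.q * (1 - x) := mul_nonneg (η0.le.trans hP.et2) (by linarith [hx.2])
    have ac := fun n y => abs_le.1 (Ar_close (rr n).rep.gok gok (hc2 n) s0 y)
    constructor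
    · rintro _ ⟨y, rfl⟩
      rw [← sub_nonpos]
      refine ge_of_tendsto' tt fun n => ?_
      linarith [(ac n y).1, (mc n).2 y, (abs_le.1 (mc n).1).2, ee n]
    · intro m hm
      rw [← sub_nonpos]
      refine ge_of_tendsto' tt fun n => ?_
      linarith [(ac n ((f n).h x).re).2, hm ⟨((f n).h x).re, rfl⟩, (abs_le.1 (mc n).1).1, ee n]
  · obtain ⟨m1, m2⟩ := hC hP (by positivity) (by linarith) (by positivity)
      (by have : 0 < th0 ^ 2 * P.η := by positivity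
          linarith) h r gb G1 x hx
    rw [mul_zero, abs_nonpos_iff, sub_eq_zero, hg] at m1
    rw [hg, m1] at m2
    exact IsGreatest.isLUB ⟨⟨_, m1⟩, by rintro _ ⟨y, rfl⟩; exact m2 y⟩
  · rw [← hg]
    linarith [(abs_le.1 (h0 x0)).1]

end BonN
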