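import Pool.Agent.Lib.MP_3dbf58_gt.N.Loop
import Pool.Agent.Lib.MP_3dbf58_gt.N.Base
import Pool.Agent.Lib.MP_3dbf58_gt.N.Four

open Set Filter Topology MeasureTheory Metric

noncomputable section

namespace BonN

open Bon3

variable [Cs]

theorem mainN : BonG.Pair (ii + 3 + 2) := by
  obtain ⟨P, S, hP, X, hg, hE, hs, h, k, r⟩ := base
  obtain ⟨g, gok, br, band, cl, lub, x0, x1, x2⟩ := loop hP hg hE hs h k r
  have gb : GOK P.gb := hg ▸ r.rep.gok
  have q0 : 0 < P.q := hP.et1.trans_le hP.et2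
  have hp := X.hp
  have hm := X.hm
  have eq : ∀ x, |x| ≤ 99 / 100 → P.gb x = g x := fun x hx =>
    (band x ⟨by linarith [(abs_le.1 hx).1], by linarith [(abs_le.1 hx).2]⟩).symm
  refine BonG.geo_main (Nat.succ_pos _) gb gok br eq (fun x hx => (cl x).trans (by linarith))
    X.outer X.inner (c := 2 / Nr) (by have := Nr_pos; positivity) (fun σ hσ => ?_) X.top X.asym
    ⟨x0, x1, x2.ne⟩
  obtain ⟨h3, h4⟩ := hσ
  show ∃ m, IsLUB (range (Ar P.gb σ)) m ∧ IsLUB (range (Ar g σ)) m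
  rcases lt_or_ge σ P.q with h5 | h5
  · have h6 : σ / P.q < 1 := (div_lt_one q0).2 h5
    have h7 : 0 ≤ σ / P.q := div_nonneg h3 q0.le
    have := lub (1 - σ / P.q) ⟨by linarith, by linarith⟩
    rw [show P.q * (1 - (1 - σ / P.q)) = σ by field_simp; ring] at this
    exact ⟨_, this.2, this.1⟩
  · obtain ⟨y, y1, y2, y3, y4⟩ := X.mid σ ⟨h5, h4⟩
    have y5 : σ * y ^ 2 < 1 := by
      have : y ^ 2 ≤ 1 := by rw [sq_le_one_iff_abs_le_one]; linarith
      nlinarith [sq_nonneg y]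
    obtain ⟨a1, a2⟩ := Ar_band gb gok h3 y5 (by linarith : -P.Hm0 < 0)
      (by linarith : 0 < P.Hp0) (fun x hx => (band x hx).symm) y4 y3
    refine ⟨Ar P.gb σ y, IsGreatest.isLUB ⟨⟨y, rfl⟩, ?_⟩, IsGreatest.isLUB ⟨⟨y, a1.symm⟩, ?_⟩⟩
    · rintro _ ⟨y', rfl⟩
      exact crit_max gb h3 y5 y2 y'
    · rintro _ ⟨y', rfl⟩
      rw [a1]
      exact crit_max gok h3 y5 (a2 ▸ y2) y'

omit [Cs] in
theorem main_all (n : ℕ) (h3 : 3 ≤ n) : BonG.Pair n := by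
  rcases Nat.lt_or_ge n 5 with h | h
  · obtain rfl | rfl : n = 3 ∨ n = 4 := by omega
    · exact Bon3.main
    · exact BonG.pair_four
  · obtain ⟨i, rfl⟩ : ∃ i, n = i + 3 + 2 := ⟨n - 5, by omega⟩
    exact @mainN ⟨i⟩

end BonN
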