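import Pool.Agent.Lib.MP_3dbf58_gt.N.Cst
import Pool.Agent.Lib.MP_3dbf58_gt.NewC

/-! The new cap and the new slope matching map in dimension `ii + 5`. -/

open Set Filter Topology MeasureTheory Metric

noncomputable section

namespace BonN

open Bon3

variable [Cs]

theorem ncn_cap {q θ d B a A : ℝ} {u T H e : ℂ → ℂ} {a0 b0 c0 : ℝ} {Tl Hl Wl f el : ℂ × ℂ → ℂ}
    (k : NcF q θ d B a A u T H e a0 b0 c0 Tl Hl Wl f el) (c : CapInv q θ B u T H e a0 b0 c0) :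
    CapInv q (θ - 8 * d) (B + a / d ^ 12) (fun ξ => u (f (1, ξ)))
      (fun ξ => Tl (1, f (1, ξ))) (fun ξ => Hl (1, f (1, ξ))) (sl el 1) a0 b0 c0 := by
  have s3 : Sec (θ - 8 * d) ⊆ Sec (θ - 3 * d) := k.sub (by norm_num) le_rfl
  have s0 : Sec (θ - 8 * d) ⊆ Sec θ := k.sub0 (by norm_num) le_rfl
  have s5 : ∀ ξ ∈ Sec (θ - 8 * d), ξ ∈ Sec (θ - 3 * d - 5 * d) := fun ξ h => by
    rwa [show θ - 3 * d - 5 * d = θ - 8 * d by ring]
  have E : 0 < a / d ^ 12 := by have := k.n.d0; have := k.n.a0; positivity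
  have o := k.cap
  refine ⟨o.du, o.dT, o.dH, o.de, o.ru, o.rT, o.rH, o.re,
    fun ξ h => (nc_tri (c.u0 ξ (s0 h)) (k.pu.z ξ (s3 h))).trans (by linarith), fun ξ h => ?_, o.up,
    fun ξ h => (nc_tri (c.T0 ξ (s0 h)) (k.pT.z ξ (s3 h))).trans (by linarith), o.T1,
    fun ξ h => (nc_tri (c.H0 ξ (s0 h)) (k.pH.z ξ (s3 h))).trans (by linarith), o.H1,
    fun ξ h => ?_, o.ch, o.vu, o.vT, o.vH⟩
  · have := nc_tri (z := -1) (by simpa using c.u1 ξ (s0 h)) (k.pu.o ξ (s5 ξ h))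
    rw [sub_neg_eq_add] at this
    exact this.trans (by linarith)
  · have := nc_tri (z := 0) (by simpa using c.e0 ξ (s0 h)) (k.pe.z ξ (s3 h))
    rw [sub_zero] at this
    exact this.trans (by linarith)

/-- the new slope matching map -/
theorem ncn_U {θ d a η μ0 B : ℝ} {U : ℂ → ℂ} {fp fm : ℂ × ℂ → ℂ} (n : NcN (θ - 3 * d) d a)
    (t1 : th0 / 2 ≤ θ - 8 * d) (t2 : θ ≤ th0) (e1 : 0 < η) (e2 : η ≤ th0)
    (mu : |μ0 - 2 * kap * η| ≤ th0 * η) (hB : B ≤ th0 ^ 2 * η)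
    (dU : DifferentiableOn ℂ U (Sec θ)) (rU : Rl U θ)
    (U0 : ∀ ξ ∈ Sec θ, ‖U ξ - ξ - μ0 * ξ * (1 - ξ)‖ ≤ B * ‖ξ‖ ^ 2)
    (hp : HC fp (G1 (θ - 3 * d) (d ^ 6 / a))) (hm : HC fm (G1 (θ - 3 * d) (d ^ 6 / a)))
    (rp : Rl2 fp (G1 (θ - 3 * d) (d ^ 6 / a))) (rm : Rl2 fm (G1 (θ - 3 * d) (d ^ 6 / a)))
    (bp : ∀ p ∈ G1 (θ - 3 * d) (d ^ 6 / a), ‖fp p - p.2‖ ≤ d / 200 * ‖p.2‖)
    (bm : ∀ p ∈ G1 (θ - 3 * d) (d ^ 6 / a), ‖fm p - p.2‖ ≤ d / 200 * ‖p.2‖ ∧ fm p ∈ Sec θ)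
    (z : ∀ ξ ∈ Sec (θ - 3 * d), fp (0, ξ) = ξ ∧ fm (0, ξ) = ξ) :
    ∃ V : ℂ → ℂ, DifferentiableOn ℂ V (Sec (θ - 8 * d)) ∧ Rl V (θ - 8 * d) ∧
      ∀ ξ ∈ Sec (θ - 8 * d), fp (1, V ξ) = U (fm (1, ξ)) ∧
        ‖V ξ - ξ - μ0 * ξ * (1 - ξ)‖ ≤ (B + a / d ^ 12) * ‖ξ‖ ^ 2 := by
  have d0 := n.d0
  have d1 := n.d1
  have a0 := n.a0
  have tt := th0_pos
  have t3 : th0 ≤ 1 / 10 := th0_small.trans (by norm_num)
  have E : 0 < a / d ^ 12 := by positivity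
  have t8 := n.t0
  have sb : ∀ i j : ℝ, j ≤ i → i ≤ 8 → Sec (θ - i * d) ⊆ Sec (θ - j * d) := fun i j ij i8 =>
    Sec_mono (by nlinarith) (by nlinarith)
  have s0 : Sec (θ - 3 * d) ⊆ Sec θ := by simpa using sb 3 0 (by norm_num) (by norm_num)
  have bl : ∀ i : ℝ, 0 ≤ i → i ≤ 6 → ∀ ξ ∈ Sec (θ - (i + 1) * d), ∀ y, ‖y - ξ‖ ≤ d / 4 * ‖ξ‖ →
      y ∈ Sec (θ - i * d) := fun i i0 i6 ξ h y hy =>
    Sec_ball d0 (by nlinarith) (by nlinarith) (by rwa [show θ - i * d - d = θ - (i + 1) * d by ring])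
      (mem_closedBall_iff_norm.2 hy)
  have nm : ∀ p ∈ G1 (θ - 3 * d) (d ^ 6 / a), ‖U (fm p)‖ ≤ 2 * ‖p.2‖ := fun p h => by
    have h1 := (U_maps (by linarith) le_rfl t2 e1 e2 mu hB U0 (bm p h).2).2
    have h2 := norm_le_norm_sub_add (fm p) p.2
    have h3 := (bm p h).1
    have h4 : ‖fm p‖ ≤ 11 / 10 * ‖p.2‖ := by nlinarith [norm_nonneg p.2]
    nlinarith [norm_nonneg p.2, norm_nonneg (fm p)]
  have hc : HC (fun p => U (fm p)) (G1 (θ - 3 * d) (d ^ 6 / a)) :=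
    (HC.of_diff dU).comp hm fun p h => (bm p h).2
  have kc := n.key (k := 1) (g := U) hc
    (fun p h => by rw [pow_one]; linarith [nm p h, norm_nonneg p.2])
    fun ξ h => by simp only [(z ξ h).2]
  have kp := n.key (k := 1) (g := fun _ => 0) (hp.sub (HC.snd HC.id))
    (fun p h => by rw [pow_one]; exact (bp p h).trans (by gcongr; linarith))
    fun ξ h => by simp only [(z ξ h).1, sub_self]
  generalize hD : sl (fun p => fp p - p.2) 1 = D at kp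
  have eD : ∀ y, D y = fp (1, y) - y := fun y => by rw [← hD]; rfl
  generalize hC : sl (fun p => U (fm p)) 1 = c at kc
  have eC : ∀ y, c y = U (fm (1, y)) := fun y => by rw [← hC]; rfl
  have s8 : Sec (θ - 8 * d) ⊆ Sec (θ - 3 * d) := sb 8 3 (by norm_num) le_rfl
  have s4 : Sec (θ - 4 * d) ⊆ Sec (θ - 3 * d) := sb 4 3 (by norm_num) (by norm_num)
  have mc : ∀ ξ ∈ Sec (θ - 8 * d), c ξ ∈ Sec (θ - (4 + 1) * d) := fun ξ h => by
    rw [eC]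
    refine (U_maps (by linarith) (by linarith) t2 e1 e2 mu hB U0 ?_).1
    refine bl _ (by norm_num) (by norm_num) ξ (sb 8 _ (by norm_num) le_rfl h) _
      ((bm _ (n.mem1 (s8 h))).1.trans ?_)
    gcongr
    norm_num
  have my : ∀ ξ ∈ Sec (θ - 8 * d), ∀ y, ‖y - c ξ‖ ≤ d / 4 * ‖c ξ‖ → y ∈ Sec (θ - 4 * d) :=
    fun ξ h y hy => bl 4 (by norm_num) (by norm_num) _ (mc ξ h) y hy
  have c3 : ∀ ξ ∈ Sec (θ - 8 * d), c ξ ∈ Sec (θ - 3 * d) := fun ξ h =>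
    s4 (my ξ h _ (by rw [sub_self, norm_zero]; positivity))
  obtain ⟨V, hV, eV, rV⟩ := HC.fixed (G := Sec (θ - 8 * d)) (c := c)
    (r := fun ξ => d / 4 * ‖c ξ‖) (r0 := 1) (Φ := fun x => c x.1 - D x.2) {ξ | ξ.im = 0}
    (HC.of_diff (kc.df.mono s8))
    (fun ξ h => ⟨by positivity, by nlinarith [(nc_two n.pos.le n.t1 (c3 ξ h)).1]⟩)
    (((HC.of_diff (kc.df.mono s8)).comp (HC.fst HC.id) fun x hx => hx.1).sub
      ((HC.of_diff kp.df).comp (HC.snd HC.id) fun x hx => s4 (my _ hx.1 _ hx.2)))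
    (fun ξ h => by
      have := bp _ (n.mem1 (c3 ξ h))
      simp only [sub_sub_cancel_left, norm_neg, eD] at this ⊢
      nlinarith [norm_nonneg (c ξ)])
    (fun ξ h y y' hy hy' => by
      simp only [sub_sub_sub_cancel_left]
      rw [norm_sub_rev y]
      refine (convex_Sec (θ - 4 * d)).norm_image_sub_le_of_norm_deriv_le (𝕜 := ℂ)
        (fun x hx => kp.df.differentiableAt ((isOpen_Sec _).mem_nhds (s4 hx))) (fun x hx => ?_)
        (my ξ h y hy) (my ξ h y' hy')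
      have h2 := Bon3.cauchy_Sec d0 (by linarith) n.t1 (k := 1) (M := d / 200) (by norm_num) kp.df
        (fun ζ hζ => by rw [eD, pow_one]; exact bp _ (n.mem1 hζ))
        (ξ := x) (by rwa [show θ - 3 * d - d = θ - 4 * d by ring])
      rw [pow_one] at h2
      refine (le_of_mul_le_mul_right h2 (norm_pos_iff.2 (Sec_ne hx))).trans ?_
      field_simp
      norm_num)
    (fun ξ h hr => by
      have r1 : (c ξ).im = 0 := by
        have m := s8 h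
        rw [nc_re hr] at m ⊢
        have e := nc_re (n.real rm _ m)
        have m' := (bm _ (n.mem1 m)).2
        simp only [sl] at e
        rw [eC]
        rw [e] at m' ⊢
        exact rU _ m'
      refine ⟨r1, fun y hy => ?_⟩
      have := n.real rp y (s4 (my ξ h y hy))
      simp only [sl] at this
      simp [eD, r1, this])
  refine ⟨V, hV.diffOn (isOpen_Sec _), fun x h => rV _ h (by simp), fun ξ h => ?_⟩
  obtain ⟨v1, v2, -⟩ := eV ξ h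
  simp only at v1 v2
  refine ⟨by rw [← eC, ← sub_eq_zero, ← neg_eq_zero, ← sub_eq_zero.2 v2, eD]; ring, ?_⟩
  have b1 := kp.b _ (s4 (my ξ h _ v1))
  have b2 := kc.b _ (s8 h)
  have b3 := U0 ξ (s0 (s8 h))
  have b4 := nm _ (n.mem1 (s8 h))
  have b5 := norm_le_norm_sub_add (V ξ) (c ξ)
  rw [← eC] at b4
  simp only at b4
  have b6 : ‖V ξ‖ ≤ 3 * ‖ξ‖ := by nlinarith [norm_nonneg ξ, norm_nonneg (c ξ)]
  have b7 : ‖V ξ‖ ^ 2 ≤ 9 * ‖ξ‖ ^ 2 := by nlinarith [norm_nonneg (V ξ)]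
  have b8 := n.num.1
  have b9 : 0 < 20 * a / d ^ 6 := by positivity
  rw [sub_zero] at b1
  rw [show V ξ - ξ - μ0 * ξ * (1 - ξ) = U ξ - ξ - μ0 * ξ * (1 - ξ) + (c ξ - U ξ) - D (V ξ) by
    linear_combination -v2]
  refine (norm_sub_le _ _).trans ((add_le_add_left (norm_add_le _ _) _).trans ?_)
  norm_num at b1 b2
  nlinarith [sq_nonneg ‖ξ‖]

end BonN
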