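import Pool.Agent.Lib.MP_3dbf58_gt.N.FamF
import Pool.Agent.Lib.MP_3dbf58_gt.N.NewC1

/-! The complex invariants after one step in dimension `ii + 5`. -/

open Set Filter Topology MeasureTheory Metric

noncomputable section

namespace BonN

open Bon3

variable [Cs]

/-- the complex invariants after one step -/
theorem FamOK.invC {P : Par} {θ d B a : ℝ} {S : St} {w : ℂ → ℂ} {F : Fam} (N : Num P θ d B a)
    (h : InvC P θ d B S) (H : FamOK P θ d B a S w F) :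
    ∃ U, ∀ g s, InvC P (θ - 8 * d) (d / 2) (B + a / d ^ 12) (newSt S F U g s) := by
  obtain ⟨-, n2, n3, -, n5, n6, n7, -⟩ := N.small
  obtain ⟨f1, f2, f3, f4, f5, f6, -⟩ := H.f N h
  have d0 := N.d0
  have a0 := N.a0
  have t1 := N.th1
  have t2 := N.th2
  have e1 := N.par.et1
  have tt := th0_pos
  have ts := th0_small
  have tl := th0_le
  have ds := del1_small
  have t2' : θ ≤ Bon3.th0 := t2.trans tl
  have q1 : P.q ≤ Bon3.del1 := N.par.q1.trans del1_le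
  have E : 0 < a / d ^ 12 := by positivity
  have e2 : P.η ≤ th0 := by linarith [del1_eq]
  have e3 : P.η ≤ 1 / 10 := by linarith
  have B0 : B ≤ 1 / 10 ^ 16 := by
    have : th0 ^ 2 ≤ 1 := by nlinarith
    nlinarith
  have hB : B ≤ Bon3.del1 := B0.trans (by unfold Bon3.del1; norm_num)
  have B1 : B ≤ 1 / 10 := by linarith
  have n : NcN (θ - 3 * d) d a := ⟨d0, by linarith, a0, n7, by linarith [N.d1], by linarith⟩
  have o1 : ((1 : ℝ) : ℂ) ∈ Sec (θ - 3 * d) := Sec_real n.pos one_pos le_rfl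
  rw [Complex.ofReal_one] at o1
  have kp : NcF P.q θ d B a _ S.up S.Tp S.Hp S.h P.u0 P.Tp0 P.Hp0 F.Tp F.Hp F.Wp F.fp F.h :=
    ⟨n, t2', hB, n5, q1, h.cp.old, H.pcp, f1, f3, fun p hp => (f5 p hp).2.2.2.2.1,
      fun ξ m => (f6 ξ m).1, H.csp.φ1 _ (f5 _ (n.mem1 o1)).1 rfl,
      fun p hp => sub_eq_zero.1 (H.csp.root _ (f5 p hp).1), H.hl.hh, H.hl.rh, H.hl.hz, H.hl.h0⟩
  have km : NcF P.q θ d B a _ S.um S.Tm S.Hm (fun ξ => -S.h ξ) P.u0 P.Tm0 P.Hm0 F.Tm F.Hm F.Wm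
      F.fm fun p => -F.h p :=
    ⟨n, t2', hB, n5, q1, h.cm.old, H.pcm, f2, f4, fun p hp => (f5 p hp).2.2.2.2.2,
      fun ξ m => (f6 ξ m).2, H.csm.φ1 _ (f5 _ (n.mem1 o1)).2.1 rfl,
      fun p hp => sub_eq_zero.1 (H.csm.root _ (f5 p hp).2.1), H.hl.hh.neg,
      fun t x m => by simp [H.hl.rh t x m], fun ξ m => by rw [H.hl.hz ξ m],
      fun p hp => by rw [neg_sub_neg, norm_sub_rev]; exact H.hl.h0 p hp⟩
  obtain ⟨V, dV, rV, eV⟩ := ncn_U n t1 t2 e1 e2 N.par.mu n3 h.dU h.rU h.U0 f1 f2 f3 f4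
    (fun p hp => (f5 p hp).2.2.1) (fun p hp => ⟨(f5 p hp).2.2.2.1, (km.m2 hp).2.1⟩) f6
  have s3 : Sec (θ - 8 * d) ⊆ Sec (θ - 3 * d) := kp.sub (by norm_num) le_rfl
  have s0 : Sec (θ - 8 * d) ⊆ Sec θ := kp.sub0 (by norm_num) le_rfl
  have s30 : Sec (θ - 3 * d) ⊆ Sec θ := kp.sub0 (by norm_num) (by norm_num)
  have s5 : ∀ ξ ∈ Sec (θ - 8 * d), ξ ∈ Sec (θ - 3 * d - 5 * d) := fun ξ h => by
    rwa [show θ - 3 * d - 5 * d = θ - 8 * d by ring]
  have T0 : ∀ p ∈ G1 (θ - 3 * d) (d ^ 6 / a), 9 / 10 ≤ ‖F.Tm (p.1, F.fm p)‖ := fun p hp => by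
    have := norm_le_norm_sub_add 1 (F.Tm (p.1, F.fm p))
    rw [norm_sub_rev, norm_one] at this
    linarith [(km.bd hp).2.1]
  have T1 : ∀ p ∈ G1 (θ - 3 * d) (d ^ 6 / a), F.Tm (p.1, F.fm p) ≠ 0 := fun p hp =>
    norm_pos_iff.1 (by linarith [T0 p hp])
  have um : ∀ {ζ : ℂ}, ζ ∈ Sec (θ - d) → S.U ζ ∈ Sec (θ - d) ∧ ‖S.U ζ‖ ≤ (1 + P.η) * ‖ζ‖ :=
    U_maps (by linarith) (by linarith) t2 e1 e2 N.par.mu n3 h.U0
  have sd : Sec (θ - d) ⊆ Sec θ := Sec_mono (by linarith) (by linarith)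
  have bρ : ∀ p ∈ G1 (θ - 3 * d) (d ^ 6 / a),
      ‖F.Tp (p.1, S.U (F.fm p)) / F.Tm (p.1, F.fm p)‖ ≤ 2 := fun p hp => by
    obtain ⟨m1, -, m3⟩ := km.m2 hp
    have b1 := nc_tri (h.cp.T0 _ (sd (um m1.1).1)) (H.Tp3 _ m1)
    have b2 := norm_le_norm_sub_add (F.Tp (p.1, S.U (F.fm p))) 1
    have dd : d ^ 2 ≤ 1 / 100 := by nlinarith [n.d1]
    simp only at b1
    rw [norm_div, div_le_iff₀ (by linarith [T0 p hp])]
    rw [norm_one] at b2
    nlinarith [T0 p hp, norm_nonneg (F.fm p)]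
  have zρ : ∀ ξ ∈ Sec (θ - 3 * d),
      F.Tp (0, S.U (F.fm (0, ξ))) / F.Tm (0, F.fm (0, ξ)) = S.ρ ξ := fun ξ m => by
    have := T1 _ (n.mem0 m)
    simp only [(f6 ξ m).2, H.pcm.Tz ξ (km.z2 m)] at this ⊢
    rw [H.pcp.Tz _ (um (km.z2 m)).1, ← h.ρT ξ (s30 m), mul_div_cancel_right₀ _ this]
  have pρ : NcP (θ - 3 * d) d (a / d ^ 12)
      (fun ξ => F.Tp (1, S.U (F.fm (1, ξ))) / F.Tm (1, F.fm (1, ξ))) S.ρ :=
    n.pack (f := fun p => F.Tp (p.1, S.U (F.fm p)) / F.Tm (p.1, F.fm p))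
      ((km.hc H.Tp2).div (km.hc H.pcm.hT) T1) (fun p hp => by linarith [bρ p hp]) zρ
  have kh := ((n.key (k := 1) (g := fun _ => 0) (f := fun p => F.h p - S.h p.2)
    (H.hl.hh.sub ((HC.of_diff h.cp.de).comp (HC.snd HC.id) fun p hp => s30 hp.1))
    (fun p hp => by rw [pow_one]; exact (H.hl.h0 p hp).trans (by gcongr; linarith [n.d1]))
    fun ξ m => by simp only [H.hl.hz ξ m, sub_self]))
  have kh' : NcC (θ - 3 * d) (20 * a / d ^ 6) (1 + 1) (sl F.h 1) S.h :=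
    ⟨kp.pe.df, h.cp.de.mono s30, fun ξ m => by simpa [sl] using kh.b ξ m⟩
  have k2 := (kh'.der d0 (by linarith) n.t1 (by norm_num)).der (k := 0) d0 (by linarith)
    (by linarith) (by norm_num)
  have zm : S.zm = fun ξ => S.Hm ξ + -S.h ξ := funext fun _ => sub_eq_add_neg _ _
  refine ⟨V, fun g s => ?_⟩
  have zp' : (newSt S F V g s).zp = sl (fun p => F.Hp (p.1, F.fp p) + F.h p) 1 := rfl
  have zm' : (newSt S F V g s).zm = sl (fun p => F.Hm (p.1, F.fm p) + -F.h p) 1 :=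
    funext fun _ => sub_eq_add_neg _ _
  have sD : Dom (θ - 8 * d) (d / 2 / 1000) (sl F.h 1) ⊆ Dom (θ - 3 * d) (d / 2 / 1000) (sl F.h 1) :=
    fun p hp => ⟨s3 hp.1, hp.2⟩
  refine ⟨ncn_cap kp h.cp, ncn_cap km h.cm, fun ξ m => ?_, fun ξ m => ?_, dV, rV, fun ξ m => (eV ξ m).2,
    fun ξ m => ?_, pρ.df.mono s3, fun x m => ?_, fun ξ m => ?_, fun ξ m => ?_, fun ξ m => ?_,
    fun ξ m => ?_, H.hl.hC.mono sD, fun ξ m => H.hl.cr _ (n.mem1 (s3 m)),
    fun ξ y y' m m' => H.hl.C1 ξ y y' (sD m) (sD m'), fun t x m => H.hl.rC t x (sD m)⟩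
  · have := nc_tri (z := -(nu * P.η)) (by simpa using h.h1 ξ (s0 m)) (kp.pe.o ξ (s5 ξ m))
    rw [sub_neg_eq_add] at this
    exact this.trans (by linarith)
  · have b := k2.b ξ (Sec_mono (by linarith) (by linarith) m)
    have := nc_tri (z := 0) (by simpa using h.h2 ξ (s0 m)) b
    rw [sub_zero, pow_zero, mul_one] at this
    exact this.trans (by linarith [n.num.2.2])
  · show S.up (F.fp (1, V ξ)) = S.um (F.fm (1, ξ))
    rw [(eV ξ m).1, h.Uu _ (km.m2 (n.mem1 (s3 m))).2.1]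
  · have r1 := n.real (km.rl H.pcm.rT) x (s3 m)
    have e := nc_re (n.real f4 x (s3 m))
    have r3 : (F.Tp (1, S.U (F.fm (1, x)))).im = 0 := by
      obtain ⟨m1, m2, -⟩ := km.m2 (n.mem1 (s3 m))
      simp only [sl] at e
      have m3 := um m1.1
      simp only at m3
      have e' : (S.U (F.fm (1, x))).im = 0 := by rw [e] at m2 ⊢; exact h.rU _ m2
      have m4 := (nc_two (by linarith) t2' (sd m3.1)).1
      have L : d ^ 6 / a ≤ d ^ 4 / a := N.small.2.2.2.2.2.2.2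
      rw [nc_re e'] at m3 m4 ⊢
      have := H.pcp.rT 1 (S.U (F.fm (1, x))).re ⟨m3.1, by
        simp only [Complex.ofReal_one, norm_one, one_mul]
        nlinarith [norm_nonneg (((S.U (F.fm (1, x))).re : ℝ) : ℂ)]⟩
      simpa using this
    simp only [sl] at r1
    show (F.Tp (1, S.U (F.fm (1, x))) / F.Tm (1, F.fm (1, x))).im = 0
    rw [Complex.div_im, r1, r3]
    simp
  · show F.Tp (1, S.U (F.fm (1, ξ))) / F.Tm (1, F.fm (1, ξ)) * F.Tm (1, F.fm (1, ξ)) =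
      F.Tp (1, F.fp (1, V ξ))
    rw [(eV ξ m).1, div_mul_cancel₀ _ (T1 _ (n.mem1 (s3 m)))]
  · have := nc_tri (z := -((2 * nu + kap) * P.η)) (by simpa using h.ρ1 ξ (s0 m)) (pρ.o ξ (s5 ξ m))
    rw [sub_neg_eq_add] at this
    exact this.trans (by linarith)
  · have b0 := h.f1 ξ (s0 m)
    have b1 := pρ.z ξ (s3 m)
    have b2 := km.pz.z ξ (s3 m)
    have b3 := kp.pz.z ξ (s3 m)
    have b4 : ‖sl (fun p => F.Hm (p.1, F.fm p) + -F.h p) 1 ξ‖ ≤ 2 := km.bz (n.mem1 (s3 m))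
    have b5 : ‖S.ρ ξ‖ ≤ 2 := zρ ξ (s3 m) ▸ bρ _ (n.mem0 (s3 m))
    have b6 : ‖1 - (kap : ℂ) * P.η * ξ‖ ≤ 2 := by
      refine (norm_sub_le _ _).trans ?_
      rw [norm_one, norm_mul, norm_mul, Complex.norm_real, Complex.norm_real,
        Real.norm_of_nonneg e1.le, Real.norm_of_nonneg (by unfold kap; norm_num)]
      unfold kap
      nlinarith [(nc_two n.pos.le n.t1 (s3 m)).1, norm_nonneg ξ]
    rw [zm] at b0
    rw [zp', zm']
    show ‖F.Tp (1, S.U (F.fm (1, ξ))) / F.Tm (1, F.fm (1, ξ)) * _ - _‖ ≤ _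
    simp only [St.zp] at b0
    generalize F.Tp (1, S.U (F.fm (1, ξ))) / F.Tm (1, F.fm (1, ξ)) = r at *
    generalize sl (fun p => F.Hm (p.1, F.fm p) + -F.h p) 1 ξ = x at *
    generalize sl (fun p => F.Hp (p.1, F.fp p) + F.h p) 1 ξ = y at *
    generalize S.Hm ξ + -S.h ξ = x0 at *
    generalize S.Hp ξ + S.h ξ = y0 at *
    generalize 1 - (kap : ℂ) * P.η * ξ = t at *
    rw [show r * x - y * t = S.ρ ξ * x0 - y0 * t + (r - S.ρ ξ) * x + S.ρ ξ * (x - x0) -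
      (y - y0) * t by ring]
    refine (norm_sub_le _ _).trans ((add_le_add_left (norm_add₃_le) _).trans ?_)
    simp only [norm_mul]
    have c1 := mul_le_mul b1 b4 (norm_nonneg _) (by positivity)
    have c2 := mul_le_mul b5 b2 (norm_nonneg _) (by positivity)
    have c3 := mul_le_mul b3 b6 (norm_nonneg _) (by positivity)
    linarith
  · have b0 := h.f2 ξ (s0 m)
    have b1 := km.pz.z ξ (s3 m)
    have b2 := kp.pz.z ξ (s3 m)
    have b3 := km.pz.o ξ (s5 ξ m)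
    have b4 := kp.pz.o ξ (s5 ξ m)
    have b5 : ‖sl (fun p => F.Hm (p.1, F.fm p) + -F.h p) 1 ξ‖ ≤ 2 := km.bz (n.mem1 (s3 m))
    have b6 : ‖sl (fun p => F.Hp (p.1, F.fp p) + F.h p) 1 ξ‖ ≤ 2 := kp.bz (n.mem1 (s3 m))
    have dh : ‖deriv S.h ξ‖ ≤ 1 := by
      have := norm_le_norm_sub_add (deriv S.h ξ) (-(nu * P.η))
      rw [sub_neg_eq_add, norm_neg, norm_mul, Complex.norm_real, Complex.norm_real,
        Real.norm_of_nonneg e1.le, Real.norm_of_nonneg nu_pos.le] at this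
      nlinarith [h.h1 ξ (s0 m), nu_le, nu_pos]
    have b7 := km.dz (s0 m) (by rwa [deriv.fun_neg, norm_neg])
    have b8 := kp.dz (s0 m) dh
    rw [zm] at b0
    rw [zp', zm']
    unfold St.zp at b0
    simp only at b0
    generalize deriv (sl (fun p => F.Hm (p.1, F.fm p) + -F.h p) 1) ξ = x' at *
    generalize deriv (sl (fun p => F.Hp (p.1, F.fp p) + F.h p) 1) ξ = y' at *
    generalize sl (fun p => F.Hm (p.1, F.fm p) + -F.h p) 1 ξ = x at *
    generalize sl (fun p => F.Hp (p.1, F.fp p) + F.h p) 1 ξ = y at *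
    generalize deriv (fun ξ => S.Hm ξ + -S.h ξ) ξ = x1 at *
    generalize deriv (fun ξ => S.Hp ξ + S.h ξ) ξ = y1 at *
    generalize S.Hm ξ + -S.h ξ = x0 at *
    generalize S.Hp ξ + S.h ξ = y0 at *
    rw [show x' * y - y' * x - 2 * nu * P.η = x1 * y0 - y1 * x0 - 2 * nu * P.η + (x' - x1) * y +
      x1 * (y - y0) - ((y' - y1) * x + y1 * (x - x0)) by ring]
    refine (norm_sub_le _ _).trans ((add_le_add norm_add₃_le (norm_add_le _ _)).trans ?_)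
    simp only [norm_mul]
    have c1 := mul_le_mul b3 b6 (norm_nonneg _) (by positivity)
    have c2 := mul_le_mul b7 b2 (norm_nonneg _) (by positivity)
    have c3 := mul_le_mul b4 b5 (norm_nonneg _) (by positivity)
    have c4 := mul_le_mul b8 b1 (norm_nonneg _) (by positivity)
    linarith

end BonN
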