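import Pool.Agent.Lib.MP_3dbf58_gt.PCsB
import Pool.Agent.Lib.MP_3dbf58_gt.N.Cst

/-! The left cap for an abstract perturbation, matching of the powers `N + 1`. -/

open Set Filter Topology MeasureTheory Metric

noncomputable section

namespace BonN

open Bon3

/-- root of order `n` of `1 + z` -/
def pcnRt (n : ℕ) (z : ℂ) : ℂ := Complex.exp (Complex.log (1 + z) / n)

theorem pcn_slit {z : ℂ} (h : ‖z‖ ≤ 1 / 2) : 1 + z ∈ Complex.slitPlane :=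
  Complex.mem_slitPlane_of_norm_lt_one (by linarith)

theorem pcnRt_pow {n : ℕ} (n0 : 0 < n) {z : ℂ} (h : ‖z‖ ≤ 1 / 2) : pcnRt n z ^ n = 1 + z := by
  have hn : (n : ℂ) ≠ 0 := Nat.cast_ne_zero.2 n0.ne'
  rw [pcnRt, ← Complex.exp_nat_mul, mul_div_cancel₀ _ hn,
    Complex.exp_log (Complex.slitPlane_ne_zero (pcn_slit h))]

theorem pcnRt_zero (n : ℕ) : pcnRt n 0 = 1 := by simp [pcnRt]

theorem pcnRt_near {n : ℕ} (n0 : 0 < n) {z : ℂ} (h : ‖z‖ ≤ 1 / 2) : ‖pcnRt n z - 1‖ ≤ 3 * ‖z‖ := by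
  have a1 := Complex.norm_log_one_add_half_le_self h
  have a2 : ‖Complex.log (1 + z) / n‖ ≤ 3 / 2 * ‖z‖ := by
    rw [norm_div, Complex.norm_natCast]
    exact (div_le_self (norm_nonneg _) (by exact_mod_cast n0)).trans a1
  have a3 := Complex.norm_exp_sub_one_le (x := Complex.log (1 + z) / n) (by linarith)
  unfold pcnRt
  linarith

theorem pcnRt_deriv (n : ℕ) {z : ℂ} (h : ‖z‖ ≤ 1 / 2) :
    HasDerivAt (pcnRt n) (pcnRt n z * ((1 + z)⁻¹ / n)) z := by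
  have a1 := (((hasDerivAt_id' z).const_add 1).clog (pcn_slit h)).div_const (n : ℂ)
  rw [one_div] at a1
  exact a1.cexp

theorem pcnRt_real (n : ℕ) {z : ℂ} (h : ‖z‖ ≤ 1 / 2) (hz : z.im = 0) : (pcnRt n z).im = 0 := by
  have a1 := (abs_le.1 ((Complex.abs_re_le_norm z).trans h)).1
  have e : 1 + z = ((1 + z.re : ℝ) : ℂ) := Complex.ext (by simp) (by simp [hz])
  rw [pcnRt, e, ← Complex.ofReal_log (by linarith), ← Complex.ofReal_natCast,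
    ← Complex.ofReal_div, Complex.exp_ofReal_im]

theorem pcn_im_pow {z : ℂ} (hz : z.im = 0) (k : ℕ) : (z ^ k).im = 0 := by
  have e : z = (z.re : ℂ) := Complex.ext (by simp) (by simp [hz])
  rw [e, ← Complex.ofReal_pow, Complex.ofReal_im]

theorem pcn_two {z : ℂ} {ε : ℝ} (h : ‖z - 1‖ ≤ ε) : 1 - ε ≤ ‖z‖ ∧ ‖z‖ ≤ 1 + ε := by
  have b4 := norm_add_le (z - 1) 1
  have b5 := norm_sub_le z (z - 1)
  rw [sub_add_cancel, norm_one] at b4
  rw [sub_sub_cancel, norm_one] at b5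
  constructor <;> linarith

theorem pcn_pow {z : ℂ} {ε : ℝ} {N k : ℕ} (h : ‖z - 1‖ ≤ ε) (hk : k ≤ N + 1)
    (en : (N + 1 : ℝ) * ε ≤ 1 / 50) : 9 / 10 ≤ ‖z ^ k‖ ∧ ‖z ^ k‖ ≤ 11 / 10 := by
  have e0 : 0 ≤ ε := (norm_nonneg _).trans h
  have k1 : (k : ℝ) ≤ N + 1 := by exact_mod_cast hk
  have k2 := mul_le_mul_of_nonneg_right k1 e0
  have := pcn_two (pow_near (k := k) h (by linarith)).1
  constructor <;> linarith [this.1, this.2]

theorem pcn_div {f g : ℂ × ℂ → ℂ} {s : Set (ℂ × ℂ)} (hf : DifferentiableOn ℂ f s)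
    (hg : DifferentiableOn ℂ g s) (h : ∀ p ∈ s, g p ≠ 0) :
    DifferentiableOn ℂ (fun p => f p / g p) s := by
  simpa only [div_eq_mul_inv] using hf.fun_mul (hg.fun_inv h)

/-- relative radicand of the left cap -/
def pcnZ (n : ℕ) (T R δ : ℂ → ℂ) (p : ℂ × ℂ) : ℂ :=
  (R p.2 ^ n - (R p.2 + p.1 * δ p.2) ^ n) / T p.2 ^ n

theorem pcn_Z {N : ℕ} {T R D : ℂ} {ε r : ℝ} (hT : ‖T - 1‖ ≤ ε) (hR : ‖R - 1‖ ≤ ε)
    (en : (N + 1 : ℝ) * ε ≤ 1 / 50) (hD : ‖D‖ ≤ r) (rn : (N + 1 : ℝ) * r ≤ 1 / 10) :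
    ‖(R ^ (N + 1) - (R + D) ^ (N + 1)) / T ^ (N + 1)‖ ≤ 3 * ((N + 1) * r) := by
  have r0 : 0 ≤ r := (norm_nonneg _).trans hD
  have a1 := (pcn_pow hT le_rfl en).1
  have a2 := (pcn_pow hR le_rfl en).2
  have a3 := (pcn_pow (k := 1) hR (by omega) en).1
  rw [pow_one] at a3
  have R0 : R ≠ 0 := by
    rintro rfl
    norm_num at a3
  have a4 : ‖1 + D / R - 1‖ ≤ 10 / 9 * r := by
    rw [add_sub_cancel_left, norm_div, div_le_iff₀ (by linarith)]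
    nlinarith
  have a5 := (pow_near (k := N + 1) a4 (by push_cast; nlinarith)).1
  push_cast at a5
  have e : R ^ (N + 1) - (R + D) ^ (N + 1) = -(R ^ (N + 1) * ((1 + D / R) ^ (N + 1) - 1)) := by
    rw [mul_sub, ← mul_pow, mul_add, mul_div_cancel₀ _ R0]
    ring
  have a6 := mul_le_mul a2 a5 (norm_nonneg _) (by norm_num)
  have a7 : 0 ≤ (N + 1 : ℝ) * r := by positivity
  rw [e, norm_div, norm_neg, norm_mul, div_le_iff₀ (by linarith)]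
  nlinarith

theorem pcn_minus {N : ℕ} {q θ d a ε : ℝ} {u T H R δ : ℂ → ℂ} (q0 : 0 ≤ q) (h0 : 0 ≤ θ)
    (h1 : θ ≤ Bon3.th0) (d0 : 0 < d) (dn : (N + 1 : ℝ) * d ≤ 1 / 1000)
    (en : (N + 1 : ℝ) * ε ≤ 1 / 100) (a0 : 0 < a)
    (du : DifferentiableOn ℂ u (Sec θ)) (dT : DifferentiableOn ℂ T (Sec θ))
    (dH : DifferentiableOn ℂ H (Sec θ)) (dR : DifferentiableOn ℂ R (Sec θ))
    (dδ : DifferentiableOn ℂ δ (Sec θ)) (ru : Rl u θ) (rT : Rl T θ) (rH : Rl H θ) (rR : Rl R θ)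
    (rδ : Rl δ θ) (u0 : ∀ ξ ∈ Sec θ, ‖u ξ‖ ≤ 2) (u1 : ∀ ξ ∈ Sec θ, ‖deriv u ξ‖ ≤ 2)
    (T0 : ∀ ξ ∈ Sec θ, ‖T ξ - 1‖ ≤ ε) (R0 : ∀ ξ ∈ Sec θ, ‖R ξ - 1‖ ≤ ε)
    (H1 : ∀ ξ ∈ Sec θ, deriv H ξ = -q * (T ξ * deriv u ξ / 2 + u ξ * deriv T ξ))
    (δ0 : ∀ ξ ∈ Sec θ, ‖δ ξ‖ ≤ 16 * (a / d) * ‖ξ‖ ^ 3) :
    ∃ Tl Hl Wl, PC q θ (d ^ 4 / a) (d ^ 2) (a / d ^ 2) u T H Tl Hl Wl ∧
      (∀ ξ ∈ Sec θ, Wl (0, ξ) =
        prim (fun ζ => -((R ζ / T ζ) ^ N * δ ζ) * deriv u ζ / 2) ξ) ∧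
      ∀ p ∈ G2 θ (d ^ 4 / a), Tl p ^ (N + 1) - T p.2 ^ (N + 1) =
        R p.2 ^ (N + 1) - (R p.2 + p.1 * δ p.2) ^ (N + 1) := by
  have hΛ : 0 < d ^ 4 / a := by positivity
  have N0 : (0 : ℝ) ≤ N := Nat.cast_nonneg N
  have d1' : d ≤ 1 / 1000 := by nlinarith
  have en' : (N + 1 : ℝ) * ε ≤ 1 / 50 := by linarith
  have m2 : MapsTo (fun p : ℂ × ℂ => p.2) (G2 θ (d ^ 4 / a)) (Sec θ) := fun p hp => hp.1
  have c2 : ∀ {f : ℂ → ℂ}, DifferentiableOn ℂ f (Sec θ) →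
      DifferentiableOn ℂ (fun p : ℂ × ℂ => f p.2) (G2 θ (d ^ 4 / a)) :=
    fun hf => hf.comp (f := fun p : ℂ × ℂ => p.2) differentiableOn_snd m2
  have hd2 : d ^ 2 ≤ 1 / 1000 := by nlinarith
  have D0 : ∀ p ∈ G2 θ (d ^ 4 / a), ‖p.1 * δ p.2‖ ≤ 16 * d ^ 3 * ‖p.2‖ := fun p hp =>
    pcs_lam d0 a0 (by norm_num) hp.2 (δ0 _ hp.1)
  have D1 : ∀ p ∈ G2 θ (d ^ 4 / a), 16 * d ^ 3 * ‖p.2‖ ≤ d := by
    intro p hp
    have n2 := pcs_norm2 h0 h1 hp.1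
    have : 16 * d ^ 3 * ‖p.2‖ ≤ 16 * d ^ 3 * 2 := mul_le_mul_of_nonneg_left n2 (by positivity)
    have := mul_le_mul_of_nonneg_right hd2 d0.le
    nlinarith
  have Z0 : ∀ p ∈ G2 θ (d ^ 4 / a), ‖pcnZ (N + 1) T R δ p‖ ≤ d ^ 2 / 20 * ‖p.2‖ := by
    intro p hp
    have b0 := mul_le_mul_of_nonneg_left (D1 p hp) (show (0 : ℝ) ≤ N + 1 by positivity)
    have b1 := pcn_Z (T0 _ hp.1) (R0 _ hp.1) en' (D0 p hp) (by linarith)
    have b2 := mul_le_mul_of_nonneg_right dn (show 0 ≤ d ^ 2 * ‖p.2‖ by positivity)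
    have b3 : 0 ≤ d ^ 2 * ‖p.2‖ := by positivity
    refine b1.trans ?_
    nlinarith
  have Z1 : ∀ p ∈ G2 θ (d ^ 4 / a), ‖pcnZ (N + 1) T R δ p‖ ≤ 1 / 100 := by
    intro p hp
    have n2 := pcs_norm2 h0 h1 hp.1
    have : d ^ 2 / 20 * ‖p.2‖ ≤ d ^ 2 / 20 * 2 := mul_le_mul_of_nonneg_left n2 (by positivity)
    have := Z0 p hp
    linarith
  have Z2 : ∀ p ∈ G2 θ (d ^ 4 / a), ‖pcnZ (N + 1) T R δ p‖ ≤ 1 / 2 := fun p hp =>
    (Z1 p hp).trans (by norm_num)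
  have Tk : ∀ ξ ∈ Sec θ, ∀ k ≤ N + 1, T ξ ^ k ≠ 0 := by
    intro ξ hξ k hk h0
    have := (pcn_pow (T0 ξ hξ) hk en').1
    rw [h0, norm_zero] at this
    linarith
  have Zn : ∀ p ∈ G2 θ (d ^ 4 / a), 1 + pcnZ (N + 1) T R δ p ≠ 0 := fun p hp =>
    Complex.slitPlane_ne_zero (pcn_slit (Z2 p hp))
  have dD := (c2 dR).fun_add (differentiableOn_fst.fun_mul (c2 dδ))
  have dZ : DifferentiableOn ℂ (pcnZ (N + 1) T R δ) (G2 θ (d ^ 4 / a)) := by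
    unfold pcnZ
    exact pcn_div (((c2 dR).fun_pow _).fun_sub (dD.fun_pow _)) ((c2 dT).fun_pow _)
      fun p hp => Tk _ hp.1 _ le_rfl
  have dRt : DifferentiableOn ℂ (fun p => pcnRt (N + 1) (pcnZ (N + 1) T R δ p))
      (G2 θ (d ^ 4 / a)) := fun p hp =>
    (pcnRt_deriv _ (Z2 p hp)).differentiableAt.comp_differentiableWithinAt p (dZ p hp)
  have rD : ∀ t x : ℝ, ((t : ℂ), (x : ℂ)) ∈ G2 θ (d ^ 4 / a) → (R x + t * δ x).im = 0 := by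
    intro t x hp
    simp [rR x hp.1, rδ x hp.1]
  have rZ : ∀ t x : ℝ, ((t : ℂ), (x : ℂ)) ∈ G2 θ (d ^ 4 / a) →
      (pcnZ (N + 1) T R δ (t, x)).im = 0 := by
    intro t x hp
    simp only [pcnZ, Complex.div_im, Complex.sub_im, pcn_im_pow (rT x hp.1),
      pcn_im_pow (rR x hp.1), pcn_im_pow (rD t x hp)]
    simp
  have Zz : ∀ ξ, pcnZ (N + 1) T R δ (0, ξ) = 0 := fun ξ => by simp [pcnZ]
  obtain ⟨Hl, hPC⟩ := pcs_gen (q := q) (ε := d ^ 2) (A := a / d ^ 2) (u := u) (T := T) (H := H)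
    (Tl := fun p => T p.2 * pcnRt (N + 1) (pcnZ (N + 1) T R δ p))
    (T1 := fun p => -((R p.2 + p.1 * δ p.2) ^ N * δ p.2 * pcnRt (N + 1) (pcnZ (N + 1) T R δ p)) /
      ((1 + pcnZ (N + 1) T R δ p) * T p.2 ^ N)) q0 h0 h1
    (by positivity) (by positivity) hΛ du dT dH ru rT rH u0 u1 H1 ((c2 dT).fun_mul dRt)
    (pcn_div (((dD.fun_pow N).fun_mul (c2 dδ)).fun_mul dRt).fun_neg
      ((dZ.const_add 1).fun_mul ((c2 dT).fun_pow N))
      fun p hp => mul_ne_zero (Zn p hp) (Tk _ hp.1 N (by omega)))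
    (by
      intro t x hp
      simp only [Complex.mul_im, rT x hp.1, pcnRt_real _ (Z2 _ hp) (rZ t x hp)]
      simp)
    (by
      intro t x hp
      simp only [Complex.div_im, Complex.neg_im, Complex.mul_im, Complex.add_im, rZ t x hp,
        pcn_im_pow (rD t x hp), pcn_im_pow (rT x hp.1), rδ x hp.1,
        pcnRt_real _ (Z2 _ hp) (rZ t x hp)]
      simp)
    (by
      rintro ⟨l, ξ⟩ hp
      have b0 := ((hasDerivAt_id' l).mul_const (δ ξ)).const_add (R ξ)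
      have b1 : HasDerivAt (fun s => pcnZ (N + 1) T R δ (s, ξ)) _ l :=
        ((b0.fun_pow (N + 1)).const_sub (R ξ ^ (N + 1))).div_const (T ξ ^ (N + 1))
      have b2 := ((pcnRt_deriv (N + 1) (Z2 _ hp)).comp l b1).const_mul (T ξ)
      refine HasDerivAt.congr_deriv b2 ?_
      have n1 := Zn _ hp
      have n2 := Tk ξ hp.1 1 (by omega)
      have n3 : ((N + 1 : ℕ) : ℂ) ≠ 0 := Nat.cast_ne_zero.2 (Nat.succ_ne_zero N)
      rw [pow_one] at n2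
      simp only [Nat.add_one_sub_one] at n1 ⊢
      field_simp
      ring)
    (by
      intro p hp
      have b1 := pcnRt_near (Nat.succ_pos N) (Z2 p hp)
      have b2 := (pcn_pow (k := 1) (T0 _ hp.1) (by omega) en').2
      rw [pow_one] at b2
      have b3 := mul_le_mul b2 b1 (norm_nonneg _) (by norm_num)
      have b4 : 0 ≤ d ^ 2 * ‖p.2‖ := by positivity
      rw [← mul_sub_one, norm_mul]
      nlinarith [Z0 p hp])
    (by
      intro p hp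
      have b0 : ‖R p.2 + p.1 * δ p.2 - 1‖ ≤ ε + d := by
        rw [add_sub_right_comm]
        exact norm_add_le_of_le (R0 _ hp.1) ((D0 p hp).trans (D1 p hp))
      have b1 := (pcn_pow (k := N) (N := N) b0 (by omega) (by linarith)).2
      have b2 := (pcn_pow (k := N) (T0 _ hp.1) (by omega) en').1
      have b3 := (pcn_two (pcnRt_near (Nat.succ_pos N) (Z2 p hp))).2
      have b4 := (pcn_two (z := 1 + pcnZ (N + 1) T R δ p) (ε := 1 / 100)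
        (by rw [add_sub_cancel_left]; exact Z1 p hp)).1
      have b5 := mul_le_mul (mul_le_mul b1 (δ0 _ hp.1) (norm_nonneg _) (by norm_num))
        (b3.trans (show _ ≤ (11 / 10 : ℝ) by linarith [Z1 p hp])) (norm_nonneg _) (by positivity)
      have b6 := mul_le_mul b4 b2 (by norm_num) (norm_nonneg _)
      have b7 : 32 * (a / d) ≤ a / d ^ 2 := by
        rw [le_div_iff₀ (by positivity)]
        have e : 32 * (a / d) * d ^ 2 = (32 * d) * a := by field_simp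
        rw [e]
        nlinarith
      have b8 := mul_le_mul_of_nonneg_right b7 (pow_nonneg (norm_nonneg p.2) 3)
      have b9 := mul_le_mul_of_nonneg_left b6 (show 0 ≤ a / d ^ 2 * ‖p.2‖ ^ 3 by positivity)
      have b10 : 0 ≤ a / d * ‖p.2‖ ^ 3 := by positivity
      rw [norm_div, norm_neg, norm_mul, norm_mul, norm_mul, div_le_iff₀ (by linarith)]
      nlinarith)
    (fun ξ _ => by simp only [Zz, pcnRt_zero, mul_one])
  refine ⟨_, Hl, _, hPC, fun ξ hξ => ?_, fun p hp => ?_⟩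
  · unfold prim sl
    congr 1
    refine setIntegral_congr_fun measurableSet_Ioo fun v hv => ?_
    simp only [Zz, pcnRt_zero, zero_mul, add_zero, mul_one, one_mul, div_pow]
    ring
  · have n1 := Tk _ hp.1 _ le_rfl
    rw [mul_pow, pcnRt_pow (Nat.succ_pos N) (Z2 p hp), pcnZ, mul_add, mul_div_cancel₀ _ n1]
    ring

end BonN
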