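import Pool.Agent.Lib.MP_3dbf58_gt.PCs
import Pool.Agent.Lib.MP_3dbf58_gt.N.PCsM

/-! The two perturbed caps in dimension `ii + 5`. -/

open Set Filter Topology MeasureTheory Metric

noncomputable section

namespace BonN

open Bon3

variable [Cs]

theorem pc_exists {P : Par} {θ d B a : ℝ} {S : St} {w : ℂ → ℂ} (N : Num P θ d B a)
    (h : InvC P θ d B S) (dw : DifferentiableOn ℂ w (Sec θ)) (rw : Rl w θ)
    (w0 : ∀ ξ ∈ Sec θ, ‖w ξ‖ ≤ a * ‖ξ‖ ^ 4) :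
    ∃ Tp Hp Tm Hm Wm : ℂ × ℂ → ℂ,
      PC P.q (θ - d) (d ^ 4 / a) (d ^ 2) (a / d ^ 2) S.up S.Tp S.Hp Tp Hp (fun p => w p.2) ∧
      PC P.q (θ - d) (d ^ 4 / a) (d ^ 2) (a / d ^ 2) S.um S.Tm S.Hm Tm Hm Wm ∧
      (∀ ξ ∈ Sec (θ - d), Wm (0, ξ) = wm (rN S.ρ) S.U w ξ) ∧
      HC (fun p => Tp (p.1, S.U p.2)) (G2 (θ - d) (d ^ 4 / a)) ∧
      (∀ p ∈ G2 (θ - d) (d ^ 4 / a), ‖Tp (p.1, S.U p.2) - S.Tp (S.U p.2)‖ ≤ d ^ 2 * ‖p.2‖) ∧
      ∀ p ∈ G2 (θ - d) (d ^ 4 / a), Tm p ^ (ii + 4) - S.Tm p.2 ^ (ii + 4) =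
        S.Tp (S.U p.2) ^ (ii + 4) - Tp (p.1, S.U p.2) ^ (ii + 4) := by
  obtain ⟨s1, s2, s3, s4, s5, s6, -, -⟩ := N.small
  have d0 := N.d0
  have a0 := N.a0
  have t1 := N.th1
  have t2 := N.th2
  have et1 := N.par.et1
  have tp := th0_pos
  have ts := th0_small
  have tl := th0_le
  have ds := del1_small
  have g0 : 0 < θ - d := by linarith
  have g1 : θ - d ≤ Bon3.th0 := by linarith
  have g2 : 0 ≤ θ := by linarith
  have g3 : d ≤ θ := by linarith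
  have dd1 : d ≤ 1 / 1000 := by linarith
  have e1 : P.η ≤ 1 / 10 ^ 7 := by linarith
  have hB0 : B ≤ th0 / 10 := by
    have : th0 * P.η ≤ 1 / 10 := by nlinarith
    nlinarith
  have hB1 : B ≤ 1 / 100 := by linarith
  have hB : Bon3.del1 + B ≤ 1 / 10 := by
    unfold Bon3.del1
    linarith
  have tn : (((ii + 3 : ℕ) : ℝ) + 1) * th0 ≤ 1 / 1000 := by
    rw [Nr_cast]
    nlinarith [th0_Nr]
  have n0 : (0 : ℝ) ≤ ((ii + 3 : ℕ) : ℝ) + 1 := by positivity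
  have dn := mul_le_mul_of_nonneg_left (show d ≤ th0 by linarith [N.d1]) n0
  have en := mul_le_mul_of_nonneg_left (show del1 + B ≤ th0 by linarith [del1_eq]) n0
  have sub : Sec (θ - d) ⊆ Sec θ := Sec_mono g0.le (by linarith)
  have hS := isOpen_Sec θ
  have hS' := isOpen_Sec (θ - d)
  have rl : ∀ {f : ℂ → ℂ}, Rl f θ → Rl f (θ - d) := fun hf x hx => hf x (sub hx)
  have cp := fun ξ (hξ : ξ ∈ Sec θ) => pcs_cap g2 (t2.trans tl) hB h.cp.old hξ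
  have cm := fun ξ (hξ : ξ ∈ Sec θ) => pcs_cap g2 (t2.trans tl) hB h.cm.old hξ
  have hU : ∀ ξ ∈ Sec (θ - d), S.U ξ ∈ Sec (θ - d) ∧ ‖S.U ξ‖ ≤ 11 / 10 * ‖ξ‖ := by
    intro ξ hξ
    have := U_maps (θ' := θ - d) (by linarith) (by linarith) t2 et1
      (by linarith [del1_eq]) N.par.mu s3 h.U0 hξ
    exact ⟨this.1, this.2.trans (mul_le_mul_of_nonneg_right (by linarith) (norm_nonneg _))⟩
  have mU : MapsTo S.U (Sec (θ - d)) (Sec (θ - d)) := fun ξ hξ => (hU ξ hξ).1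
  have dU : DifferentiableOn ℂ S.U (Sec (θ - d)) := h.dU.mono sub
  have cU : ∀ {f : ℂ → ℂ}, DifferentiableOn ℂ f (Sec (θ - d)) →
      DifferentiableOn ℂ (fun ξ => f (S.U ξ)) (Sec (θ - d)) := fun hf => hf.comp dU mU
  have rU : ∀ {f : ℂ → ℂ}, Rl f (θ - d) → Rl (fun ξ => f (S.U ξ)) (θ - d) := by
    intro f hf x hx
    have e : S.U x = ((S.U x).re : ℂ) := Complex.ext (by simp) (by simp [h.rU x (sub hx)])
    have b1 := mU hx
    rw [e] at b1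
    show (f (S.U x)).im = 0
    rw [e]
    exact hf _ b1
  have une : ∀ ξ ∈ Sec θ, deriv S.up ξ ≠ 0 := by
    intro ξ hξ h0
    have := (cp ξ hξ).2.2.1
    rw [h0, norm_zero] at this
    linarith
  have Tne : ∀ ξ ∈ Sec θ, S.Tm ξ ≠ 0 := by
    intro ξ hξ h0
    have := (cm ξ hξ).2.2.2.2.2
    rw [h0, norm_zero] at this
    linarith
  set γ : ℂ → ℂ := fun ξ => 2 * deriv w ξ / deriv S.up ξ with hγdef
  have dγ : DifferentiableOn ℂ γ (Sec (θ - d)) :=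
    (((dw.deriv hS).const_mul 2).fun_div (h.cp.du.deriv hS) une).mono sub
  have rγ : Rl γ (θ - d) := by
    intro x hx
    have b1 := rw.deriv dw x (sub hx)
    have b2 := h.cp.ru.deriv h.cp.du x (sub hx)
    simp [hγdef, Complex.div_im, b1, b2]
  have γ0 : ∀ ξ ∈ Sec (θ - d), ‖γ ξ‖ ≤ 12 * (a / d) * ‖ξ‖ ^ 3 := by
    intro ξ hξ
    have b1 := cauchy_Sec d0 g3 t2 (by norm_num) dw w0 hξ
    have b2 : 0 < ‖ξ‖ := norm_pos_iff.2 (Sec_ne hξ)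
    have b3 : ‖deriv w ξ‖ ≤ 5 * (a / d) * ‖ξ‖ ^ 3 := by
      refine le_of_mul_le_mul_right (b1.trans_eq ?_) b2
      ring
    have b4 := (cp ξ (sub hξ)).2.2.1
    have b5 : 0 ≤ a / d * ‖ξ‖ ^ 3 := by positivity
    simp only [hγdef, norm_div, norm_mul, Complex.norm_ofNat]
    rw [div_le_iff₀ (by linarith)]
    nlinarith
  have hγ : ∀ ξ ∈ Sec (θ - d), deriv S.up ξ * γ ξ = 2 * deriv w ξ := by
    intro ξ hξ
    have := une ξ (sub hξ)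
    simp only [hγdef]
    field_simp
  have δ0 : ∀ ξ ∈ Sec (θ - d), ‖γ (S.U ξ)‖ ≤ 16 * (a / d) * ‖ξ‖ ^ 3 := by
    intro ξ hξ
    have b1 := γ0 _ (mU hξ)
    have b2 := pow_le_pow_left₀ (norm_nonneg _) (hU ξ hξ).2 3
    have b3 := mul_le_mul_of_nonneg_left b2 (show 0 ≤ 12 * (a / d) by positivity)
    have b5 : 0 ≤ a / d * ‖ξ‖ ^ 3 := by positivity
    nlinarith
  have pcp := pcs_plus (q := P.q) s5.le g0.le g1 d0 (by linarith) a0 (h.cp.du.mono sub)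
    (h.cp.dT.mono sub) (h.cp.dH.mono sub) (dw.mono sub) dγ (rl h.cp.ru) (rl h.cp.rT) (rl h.cp.rH)
    (rl rw) rγ (fun ξ hξ => (cp ξ (sub hξ)).1) (fun ξ hξ => h.cp.H1 ξ (sub hξ))
    (fun ξ hξ => w0 ξ (sub hξ)) γ0 hγ
  obtain ⟨Tm, Hm, Wm, pcm, hW, hbr⟩ := pcn_minus (N := ii + 3) (q := P.q) (ε := del1 + B)
    (R := fun ξ => S.Tp (S.U ξ)) (δ := fun ξ => γ (S.U ξ)) s5.le g0.le g1 d0 (dn.trans tn)
    (by linarith) a0 (h.cm.du.mono sub)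
    (h.cm.dT.mono sub) (h.cm.dH.mono sub) (cU (h.cp.dT.mono sub)) (cU dγ) (rl h.cm.ru)
    (rl h.cm.rT) (rl h.cm.rH) (rU (rl h.cp.rT)) (rU rγ) (fun ξ hξ => (cm ξ (sub hξ)).1)
    (fun ξ hξ => (cm ξ (sub hξ)).2.1) (fun ξ hξ => h.cm.T0 ξ (sub hξ))
    (fun ξ hξ => h.cp.T0 _ (sub (mU hξ))) (fun ξ hξ => h.cm.H1 ξ (sub hξ)) δ0
  have ρ0 : ∀ ξ ∈ Sec (θ - d), S.ρ ξ = S.Tp (S.U ξ) / S.Tm ξ := by
    intro ξ hξ
    rw [eq_div_iff (Tne ξ (sub hξ))]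
    exact h.ρT ξ (sub hξ)
  have ρ1 : ∀ ξ ∈ Sec (θ - d), ‖S.ρ ξ‖ ≤ 3 := by
    intro ξ hξ
    have b1 := (cm ξ (sub hξ)).2.2.2.2.2
    have b2 := (cp _ (sub (mU hξ))).2.2.2.2.1
    rw [ρ0 ξ hξ, norm_div, div_le_iff₀ (by linarith)]
    linarith
  have ρ2 : ∀ k : ℕ, ∀ ξ ∈ Sec (θ - d), ‖S.ρ ξ ^ k‖ ≤ 3 ^ k := fun k ξ hξ => by
    rw [norm_pow]
    exact pow_le_pow_left₀ (norm_nonneg _) (ρ1 ξ hξ) k
  have dρ : DifferentiableOn ℂ (rN S.ρ) (Sec (θ - d)) := (h.dρ.mono sub).fun_pow _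
  have ek : ∀ ζ ∈ Sec (θ - d), -((S.Tp (S.U ζ) / S.Tm ζ) ^ (ii + 3) * γ (S.U ζ)) *
      deriv S.um ζ / 2 = -(rN S.ρ ζ * γ (S.U ζ) * deriv S.um ζ / 2) := by
    intro ζ hζ
    rw [rN, ρ0 ζ hζ]
    ring
  refine ⟨_, _, Tm, Hm, Wm, pcp, pcm, ?_, ?_, ?_, hbr⟩
  · intro ξ hξ
    rw [hW ξ hξ]
    have ad : 0 ≤ a / d := by positivity
    have c0 : (0 : ℝ) < 3 ^ (ii + 3) := by positivity
    have c1 : (0 : ℝ) ≤ ((ii + 3 : ℕ) : ℝ) * 3 ^ (ii + 2) * 2 := by positivity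
    have c2 : (0 : ℝ) ≤ 3 ^ (ii + 3) * (16 * (a / d) * 2 ^ 3) := by positivity
    refine pcs_parts (M := 3 ^ (ii + 3) + ((ii + 3 : ℕ) : ℝ) * 3 ^ (ii + 2) * 2 + 16 * a +
      3 ^ (ii + 3) * (16 * (a / d) * 2 ^ 3)) (ρ := rN S.ρ)
      (W := fun ζ => w (S.U ζ)) g0 g1 (by positivity) dρ (cU (dw.mono sub)) ?_ ?_ ?_
      ?_ ?_ ?_ hξ
    · exact (((dρ.fun_mul (cU dγ)).fun_mul ((h.cm.du.deriv hS).mono sub)).div_const
        2).fun_neg.congr ek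
    · intro ζ hζ
      have n1 : Sec (θ - d) ∈ 𝓝 ζ := hS'.mem_nhds hζ
      have n2 : Sec θ ∈ 𝓝 (S.U ζ) := hS.mem_nhds (sub (mU hζ))
      have b0 := (dU.differentiableAt n1).hasDerivAt
      have b1 : deriv (fun ζ => w (S.U ζ)) ζ = _ :=
        ((dw.differentiableAt n2).hasDerivAt.comp ζ b0).deriv
      have b2 : HasDerivAt (fun ζ => S.up (S.U ζ)) _ ζ :=
        (h.cp.du.differentiableAt n2).hasDerivAt.comp ζ b0
      have b3 : S.um =ᶠ[𝓝 ζ] fun ζ => S.up (S.U ζ) := by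
        filter_upwards [n1] with s hs using (h.Uu s (sub hs)).symm
      have b4 : deriv S.um ζ = _ := (b2.congr_of_eventuallyEq b3).deriv
      rw [ek ζ hζ, b1, b4]
      linear_combination (-(rN S.ρ ζ) * deriv S.U ζ / 2) * hγ _ (mU hζ)
    · intro ζ hζ
      have b1 : ‖γ (S.U ζ)‖ ≤ 16 * (a / d) * 2 ^ 3 := (δ0 ζ hζ).trans (mul_le_mul_of_nonneg_left
        (pow_le_pow_left₀ (norm_nonneg _) (pcs_norm2 g0.le g1 hζ) 3) (by positivity))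
      have b2 := mul_le_mul (mul_le_mul (ρ2 (ii + 3) ζ hζ) b1 (norm_nonneg _) c0.le)
        (cm ζ (sub hζ)).2.1 (norm_nonneg _) (by positivity)
      rw [ek ζ hζ, norm_neg, norm_div, norm_mul, norm_mul, Complex.norm_ofNat, rN]
      linarith
    · intro ζ hζ
      have := ρ2 (ii + 3) ζ hζ
      rw [rN]
      linarith
    · intro ζ hζ
      have b1 := h.ρ1 ζ (sub hζ)
      have b2 := norm_sub_le (deriv S.ρ ζ + (2 * nu + kap) * P.η) ((2 * nu + kap) * P.η)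
      have b3 : ‖((2 : ℂ) * nu + kap) * P.η‖ ≤ 1 := by
        have e : ((2 : ℂ) * nu + kap) * P.η = (((2 * nu + kap) * P.η : ℝ) : ℂ) := by
          push_cast; ring
        have := nu_pos
        have := nu_le
        rw [e, Complex.norm_real, Real.norm_eq_abs, kap_eq, abs_of_nonneg (by positivity)]
        nlinarith
      rw [add_sub_cancel_right] at b2
      have b4 : deriv (rN S.ρ) ζ = _ :=
        ((h.dρ.differentiableAt (hS.mem_nhds (sub hζ))).hasDerivAt.fun_pow (ii + 3)).deriv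
      have b5 := mul_le_mul (mul_le_mul_of_nonneg_left (ρ2 (ii + 2) ζ hζ) (Nat.cast_nonneg (ii + 3)))
        (show ‖deriv S.ρ ζ‖ ≤ 2 by linarith) (norm_nonneg _) (by positivity)
      rw [b4, norm_mul, norm_mul, Complex.norm_natCast, show ii + 3 - 1 = ii + 2 from rfl]
      linarith
    · intro ζ hζ
      have b1 := w0 _ (sub (mU hζ))
      have b2 := pow_le_pow_left₀ (norm_nonneg _) (pcs_norm2 g0.le g1 (mU hζ)) 3
      have b3 := mul_le_mul b2 (hU ζ hζ).2 (norm_nonneg _) (by norm_num)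
      have b4 : ‖S.U ζ‖ ^ 4 ≤ 16 * ‖ζ‖ := by
        have := norm_nonneg ζ
        rw [pow_succ]
        linarith
      have b5 := mul_le_mul_of_nonneg_left b4 a0.le
      have b6 := mul_nonneg (add_nonneg (add_nonneg c0.le c1) c2) (norm_nonneg ζ)
      show ‖w (S.U ζ)‖ ≤ _
      linarith
  · have m2 : MapsTo (fun p : ℂ × ℂ => p.2) (G2 (θ - d) (d ^ 4 / a)) (Sec (θ - d)) :=
      fun p hp => hp.1
    have c2 : ∀ {f : ℂ → ℂ}, DifferentiableOn ℂ f (Sec (θ - d)) →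
        HC (fun p : ℂ × ℂ => f p.2) (G2 (θ - d) (d ^ 4 / a)) :=
      fun hf => HC.of_diff (hf.comp (f := fun p : ℂ × ℂ => p.2) differentiableOn_snd m2)
    exact (c2 (cU (h.cp.dT.mono sub))).add ((HC.fst HC.id).mul (c2 (cU dγ)))
  · intro p hp
    show ‖S.Tp (S.U p.2) + p.1 * γ (S.U p.2) - S.Tp (S.U p.2)‖ ≤ _
    rw [add_sub_cancel_left]
    refine (pcs_lam d0 a0 (by norm_num) hp.2 (δ0 _ hp.1)).trans
      (mul_le_mul_of_nonneg_right ?_ (norm_nonneg _))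
    have : 16 * d ^ 3 = (16 * d) * d ^ 2 := by ring
    rw [this]
    exact mul_le_of_le_one_left (by positivity) (by linarith)

end BonN
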