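import Pool.Agent.Lib.MP_3dbf58_gt.N.RealA1
import Pool.Agent.Lib.MP_3dbf58_gt.N.Bri

/-! Criticality integral and brightness along the family. -/

open Set Filter Topology MeasureTheory Metric

noncomputable section

namespace BonN

open Bon3

variable [Cs]

omit [Cs] in
theorem ra_pw {z : ℂ} (h : z.im = 0) (k : ℕ) : (z ^ k).re = z.re ^ k := by
  rw [← ra_re h, ← Complex.ofReal_pow, Complex.ofReal_re, Complex.ofReal_re]

theorem ra_Cr {g : ℝ → ℝ} {b p m : Pc} (h : Rep g b p m) {σ y : ℝ} (s0 : 0 ≤ σ) :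
    Cr g σ y =
      -(Real.pi / bet * ∫ s in (0 : ℝ)..1, (m.H s + -y) *
        Real.sqrt (g (-m.H s) - σ * (m.H s + -y) ^ 2) ^ (ii + 1) * m.H' s) +
      (Real.pi / bet * ∫ s in (0 : ℝ)..1, (b.H s + y) *
        Real.sqrt (b.X s - σ * (b.H s + y) ^ 2) ^ (ii + 1) * b.H' s) +
      Real.pi / bet * ∫ s in (0 : ℝ)..1, (p.H s + y) *
        Real.sqrt (g (p.H s) - σ * (p.H s + y) ^ 2) ^ (ii + 1) * p.H' s := by
  have z : ∀ x, g x < 0 → (x + y) * Real.sqrt (g x - σ * (x + y) ^ 2) ^ (ii + 1) = 0 :=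
    fun x hx => by
      have : 0 ≤ σ * (x + y) ^ 2 := by positivity
      rw [Real.sqrt_eq_zero_of_nonpos (by linarith), zero_pow (Nat.succ_ne_zero _), mul_zero]
  have cg : Continuous g := continuousOn_univ.1 (h.gok.cc.continuousOn isOpen_univ)
  have ci : IntervalIntegrable (fun x => (x + y) * Real.sqrt (g x - σ * (x + y) ^ 2) ^ (ii + 1))
      volume (-2) 2 := Continuous.intervalIntegrable (by fun_prop) _ _
  have := h.fit.split ci (fun x hx => z x (h.neg_out.1 x hx)) (fun x hx => z x (h.neg_out.2 x hx))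
  unfold Cr
  rw [this, ← mul_neg, ← mul_add, ← mul_add, ← intervalIntegral.integral_neg]
  congr 3
  · refine intervalIntegral.integral_congr fun s _ => ?_
    have e : (-m.H s + y) ^ 2 = (m.H s + -y) ^ 2 := by ring
    simp only [e]
    ring
  · refine intervalIntegral.integral_congr fun s hs => ?_
    rw [uIcc_of_le zero_le_one] at hs
    simp only [(h.tb s hs).1]

theorem ra_capI {d θ' θ'' Λ q a0 b0 c0 : ℝ} {u e : ℂ → ℂ} {Tl Hl : ℂ × ℂ → ℂ}
    {φ I : ℂ × ℂ × ℂ → ℂ} {g : ℝ → ℝ} {t x y : ℝ} (t0 : 0 < θ'')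
    (c : CapR q θ'' u (sl Tl t) (sl Hl t) a0 b0 c0) (cs : CS q θ' d Λ u e Tl Hl φ I)
    (ht : |t| ≤ 2) (hx : x ≤ 1) (hm : ((t : ℂ), (x : ℂ), (y : ℂ)) ∈ G3 θ' Λ (d / 1000) e)
    {p : Pc} (hp : p = capOf q u (sl Tl t) (sl Hl t) a0 b0 c0) (tg : Tg g p) :
    Real.pi / bet * ∫ s in (0 : ℝ)..1, (p.H s + y) *
      Real.sqrt (g (p.H s) - q * (1 - x) * (p.H s + y) ^ 2) ^ (ii + 1) * p.H' s =
      (I (t, x, y)).re := by
  rw [(cs.lnk t x y hm ht hx).2.2.2]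
  congr 1
  refine intervalIntegral.integral_congr_ae (ae_of_all _ fun s hs => ?_)
  rw [uIoc_of_le zero_le_one] at hs
  rw [(tg s ⟨hs.1.le, hs.2⟩).1]
  subst hp
  have ms : (s : ℂ) ∈ Sec θ'' := Sec_real t0 hs.1 hs.2
  have r1 := c.ru s ms
  have r2 : (Tl (t, s)).im = 0 := c.rT s ms
  have r3 : (Hl (t, s)).im = 0 := c.rH s ms
  have e : q * (Nl u Tl Hl (t, x, y) s).re =
      q * (u s).re * (Tl (t, s)).re ^ 2 - q * (1 - x) * ((Hl (t, s)).re + y) ^ 2 := by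
    simp only [Nl, pow_two, Complex.sub_re, Complex.mul_re, Complex.mul_im, Complex.add_re,
      Complex.add_im, Complex.ofReal_re, Complex.ofReal_im, Complex.one_re, Complex.one_im,
      Complex.sub_im, r1, r2, r3]
    ring
  rw [e]
  simp only [capOf, rc, if_neg (not_le.2 hs.1)]
  rfl

/-- the brightness is kept -/
theorem ra_br {P : Par} {θ d B a : ℝ} {S : St} {w : ℂ → ℂ} {F : Fam} (N : Num P θ d B a)
    (h : InvC P θ d B S) (H : FamOK P θ d B a S w F) {g g' : ℝ → ℝ}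
    (r : Rep g P.band (S.cp P) (S.cm P)) (r' : Rep g' P.band (F.cp P S 1) (F.cm P S 1)) :
    BrEq g' g := by
  obtain ⟨n1, n2, n3, n4, n5, n6, n7, n8⟩ := ra_num N
  obtain ⟨-, -, m3, -, -, m6, -⟩ := N.small
  have d0 := N.d0
  have B0 := N.B0
  have t2 := N.th2
  have t1 := N.th1
  have t0 : 0 < θ := by linarith
  have e2 : P.η ≤ th0 := by have := del1_eq; have := th0_pos; linarith
  have um : ∀ θ', th0 / 2 ≤ θ' → θ' ≤ θ → ∀ ξ ∈ Sec θ', S.U ξ ∈ Sec θ' ∧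
      ‖S.U ξ‖ ≤ (1 + P.η) * ‖ξ‖ := fun θ' a1 a2 ξ hξ =>
    U_maps a1 a2 t2 N.par.et1 e2 N.par.mu m3 h.U0 hξ
  have o := isOpen_Sec θ
  have bu : ∀ ξ ∈ Sec θ, ‖deriv S.up ξ + 1‖ ≤ 1 / 10 := fun ξ hξ => by
    have := h.cp.u1 ξ hξ
    linarith [del1_small]
  have bm : ∀ ξ ∈ Sec θ, ‖deriv S.um ξ + 1‖ ≤ 1 / 10 := fun ξ hξ => by
    have := h.cm.u1 ξ hξ
    linarith [del1_small]
  have dU : ∀ ξ ∈ Sec θ, ‖deriv S.U ξ - 1‖ ≤ 1 / 2 := by
    intro ξ hξ
    have mU := (um θ (by linarith) le_rfl ξ hξ).1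
    have c1 : HasDerivAt (fun ζ => S.up (S.U ζ)) (deriv S.up (S.U ξ) * deriv S.U ξ) ξ :=
      (h.cp.du.differentiableAt (o.mem_nhds mU)).hasDerivAt.comp ξ
        (h.dU.differentiableAt (o.mem_nhds hξ)).hasDerivAt
    have c2 : (fun ζ => S.up (S.U ζ)) =ᶠ[𝓝 ξ] S.um :=
      Filter.eventually_of_mem (o.mem_nhds hξ) h.Uu
    have c3 : deriv S.up (S.U ξ) * deriv S.U ξ = deriv S.um ξ := by rw [← c1.deriv, c2.deriv_eq]
    have c4 : deriv S.U ξ - 1 = (deriv S.up (S.U ξ) + 1) * (deriv S.U ξ - 1) +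
        (deriv S.up (S.U ξ) + 1) - (deriv S.um ξ + 1) := by rw [← c3]; ring
    have c5 := bu _ mU
    have c6 := bm _ hξ
    have c7 : ‖(deriv S.up (S.U ξ) + 1) * (deriv S.U ξ - 1)‖ ≤ 1 / 10 * ‖deriv S.U ξ - 1‖ := by
      rw [norm_mul]; exact mul_le_mul_of_nonneg_right c5 (norm_nonneg _)
    have c8 := (congrArg norm c4).le.trans ((norm_sub_le _ _).trans
      (add_le_add (norm_add_le _ _) le_rfl))
    linarith
  have m1 : (1 : ℂ) ∈ Sec θ := by simpa using Sec_real t0 one_pos le_rfl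
  have U1 : S.U 1 = 1 := by
    have mU := (um θ (by linarith) le_rfl 1 m1).1
    have c1 : ∀ ξ ∈ Sec θ, HasDerivWithinAt (fun ζ => S.up ζ + ζ) (deriv S.up ξ + 1) (Sec θ) ξ :=
      fun ξ hξ => ((h.cp.du.differentiableAt (o.mem_nhds hξ)).hasDerivAt.fun_add
        (hasDerivAt_id' ξ)).hasDerivWithinAt
    have c2 := (convex_Sec θ).norm_image_sub_le_of_norm_hasDerivWithin_le c1 bu m1 mU
    rw [h.Uu 1 m1, h.cm.up, h.cp.up, zero_add, zero_add] at c2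
    have c3 := norm_nonneg (S.U 1 - 1)
    exact sub_eq_zero.1 (norm_eq_zero.1 (by linarith))
  have pos : ∀ s ∈ Ioo (0 : ℝ) 1, ¬ s ≤ 0 ∧ ¬ (S.U s).re ≤ 0 ∧ (((S.U s).re : ℝ) : ℂ) = S.U s :=
    fun s hs => by
      have ms := Sec_real t0 hs.1 hs.2.le
      exact ⟨not_le.2 hs.1, not_le.2 (Sec_re_pos t0.le (um θ (by linarith) le_rfl _ ms).1),
        ra_re (h.rU s ms)⟩
  refine BonG.brEq_of_caps (by omega) r r' (up := fun s => P.q * rc S.up P.u0 s)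
    (um := fun s => P.q * rc S.um P.u0 s) (up' := fun s => P.q * (deriv S.up s).re)
    (U := rc S.U 0) (U' := fun s => (deriv S.U s).re) (fun _ _ => rfl) (fun _ _ => rfl)
    (fun _ _ => rfl) (fun _ _ => rfl) ?_ ?_ ?_ ?_ ?_ ?_ ?_
  · intro s hs
    refine ⟨(rc_deriv _ t0 h.cp.du ⟨hs.1, hs.2.le⟩).const_mul _, ?_⟩
    have c1 := (Complex.abs_re_le_norm _).trans (bu _ (Sec_real t0 hs.1 hs.2.le))
    rw [Complex.add_re, Complex.one_re, abs_le] at c1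
    rw [abs_le]
    constructor <;> nlinarith [c1.1, c1.2]
  · exact rc_cont (M := 1 + P.η) t0 h.dU fun ξ hξ => by
      simpa using (um θ (by linarith) le_rfl ξ hξ).2
  · simp [rc]
  · simp [rc, U1]
  · intro s hs
    refine ⟨rc_deriv _ t0 h.dU ⟨hs.1, hs.2.le⟩, ?_⟩
    have c1 := (Complex.abs_re_le_norm _).trans (dU _ (Sec_real t0 hs.1 hs.2.le))
    rw [Complex.sub_re, Complex.one_re, abs_le] at c1
    constructor <;> linarith [c1.1, c1.2]
  · intro s hs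
    obtain ⟨p1, p2, p3⟩ := pos s hs
    simp only [rc, if_neg p1, if_neg p2, p3, h.Uu _ (Sec_real t0 hs.1 hs.2.le)]
  · intro s hs
    obtain ⟨p1, p2, p3⟩ := pos s hs
    have ms : (s : ℂ) ∈ Sec (θ - d) := Sec_real (by linarith) hs.1 hs.2.le
    have mU := (um (θ - d) (by linarith) (by linarith) _ ms).1
    have sub : Sec (θ - d) ⊆ Sec θ := Sec_mono (by linarith) (by linarith)
    have mem : ∀ ξ ∈ Sec (θ - d), (((1 : ℝ) : ℂ), ξ) ∈ G2 (θ - d) (d ^ 4 / a) := fun ξ hξ =>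
      ra_mem (by linarith) (by linarith) (by linarith) (ra_nt (by norm_num)) hξ
    have k := congrArg Complex.re (H.br _ (mem _ ms))
    have r1 := H.pcm.rT 1 s (mem _ ms)
    have r2 := h.cm.rT s (sub ms)
    have r3 := h.cp.rT (S.U s).re (by rw [p3]; exact sub mU)
    have r4 := H.pcp.rT 1 (S.U s).re (by rw [p3]; exact mem _ mU)
    rw [p3] at r3 r4
    simp only [Complex.sub_re, ra_pw r1, ra_pw r2, ra_pw r3, ra_pw r4] at k
    simp only [St.cp, St.cm, Fam.cp, Fam.cm, capOf, rc, if_neg p1, if_neg p2, p3, sl]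
    exact k

end BonN
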