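import Pool.Agent.Lib.MP_3dbf58_gt.N.FamF
import Pool.Agent.Lib.MP_3dbf58_gt.N.Bri
import Pool.Agent.Lib.MP_3dbf58_gt.N.ArA
import Pool.Agent.Lib.MP_3dbf58_gt.RealA
import Pool.Agent.Lib.MP_3dbf58_gt.N.RealA2

open Set Filter Topology MeasureTheory Metric

noncomputable section

namespace BonN

open Bon3

variable [Cs]

theorem FamOK.capR {P : Par} {θ d B a : ℝ} {S : St} {w : ℂ → ℂ} {F : Fam} (N : Num P θ d B a)
    (h : InvC P θ d B S) (H : FamOK P θ d B a S w F) {t : ℝ} (ht : |t| ≤ 2) :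
    CapR P.q (θ - 2 * d) S.up (sl F.Tp t) (sl F.Hp t) P.u0 P.Tp0 P.Hp0 ∧
    CapR P.q (θ - 2 * d) S.um (sl F.Tm t) (sl F.Hm t) P.u0 P.Tm0 P.Hm0 :=
  ⟨ra_capR N h.cp H.pcp ht, ra_capR N h.cm H.pcm ht⟩

/-- the real bodies of the family -/
theorem FamOK.bodies {P : Par} {θ d B a e : ℝ} {S : St} {w : ℂ → ℂ} {F : Fam}
    (N : Num P θ d B a) (h : InvC P θ d B S) (r : InvR P θ d e S) (H : FamOK P θ d B a S w F) :
    ∃ g : ℝ → ℝ → ℝ, g 0 = S.g ∧ (∀ t, |t| ≤ 2 → Rep (g t) P.band (F.cp P S t) (F.cm P S t)) ∧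
      (∀ t t', |t| ≤ 2 → |t'| ≤ 2 → ∀ x, |g t x - g t' x| ≤ a / d ^ 12 * |t - t'| * (1 + |x|)) ∧
      BrEq (g 1) P.gb ∧
      (∀ t x y : ℝ, |t| ≤ 2 → x ≤ 1 →
        ((t : ℂ), (x : ℂ), (y : ℂ)) ∈ G3 (θ - 3 * d) (d ^ 4 / a / 8) (d / 1000) S.h →
        Cr (g t) (P.q * (1 - x)) y = Real.pi * (Cfl S.Cf F.Ip F.Im (t, x, y)).re) ∧
      ∀ x ∈ Ioo (0 : ℝ) 1, g 1 (S.Hp x).re ≤
        S.g (S.Hp x).re + 2 * P.q * (S.Tp x).re * (w x).re + a ^ 2 / d ^ 12 := by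
  obtain ⟨n1, n2, n3, n4, n5, n6, n7, n8⟩ := ra_num N
  have d0 := N.d0
  have a0 := N.a0
  have B0 := N.B0
  have t2 := N.th2
  have hex : ∀ t : ℝ, ∃ g : ℝ → ℝ, |t| ≤ 2 → Rep g P.band (F.cp P S t) (F.cm P S t) := by
    intro t
    by_cases ht : |t| ≤ 2
    · obtain ⟨c1, c2⟩ := H.capR N h ht
      obtain ⟨g, hg⟩ := (ra_fit (by linarith) (by linarith) n8 N.par.q1 r.rep.fit c1
        c2).exists_rep
      exact ⟨g, fun _ => hg⟩
    · exact ⟨fun _ => 0, fun h => absurd h ht⟩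
  choose g hg using hex
  have z2 : |(0 : ℝ)| ≤ 2 := by norm_num
  have o2 : |(1 : ℝ)| ≤ 2 := by norm_num
  have g0 : g 0 = S.g := by
    funext x
    have := (hg 0 z2).close r.rep (δ := 0) (fun s hs => ra_zero (by linarith) H.pcp hs)
      (fun s hs => ra_zero (by linarith) H.pcm hs) x
    simpa [sub_eq_zero] using this
  refine ⟨g, g0, hg, ?_, ?_, ?_, ?_⟩
  · intro t t' ht ht' x
    refine ((hg t ht).close (hg t' ht') (fun s hs => ra_lip N h.cp H.pcp ht ht' hs)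
      (fun s hs => ra_lip N h.cm H.pcm ht ht' hs) x).trans ?_
    have e1 := ra_pow N (k := 2) (by norm_num)
    have e2 : 0 ≤ a / d ^ 2 := by positivity
    have e3 : 0 ≤ |t - t'| := abs_nonneg _
    refine mul_le_mul_of_nonneg_right ?_ (by positivity)
    nlinarith
  · intro s c h1 h2 h3
    exact (ra_br N h H r.rep (hg 1 o2) s c h1 h2 h3).trans (r.br s c h1 h2 h3)
  · intro t x y ht hx hm
    have sub : Sec (θ - 3 * d) ⊆ Sec θ := Sec_mono (by linarith) (by linarith)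
    have mx : (x : ℂ) ∈ Sec θ := sub hm.1
    have x0 : 0 < x := by simpa using Sec_re_pos (by linarith) mx
    have hy : ‖(y : ℂ) - S.h x‖ < d / 1000 * ‖(x : ℂ)‖ := hm.2.2
    have s0 : 0 ≤ P.q * (1 - x) := mul_nonneg n8.le (by linarith)
    have key : ∀ τ : ℝ, |τ| ≤ 2 →
        ((τ : ℂ), (x : ℂ), (y : ℂ)) ∈ G3 (θ - 3 * d) (d ^ 4 / a / 8) (d / 1000) S.h →
        Cr (g τ) (P.q * (1 - x)) y = -(F.Im (τ, x, -y)).re +
          (Real.pi / bet * ∫ s in (0 : ℝ)..1, (P.band.H s + y) *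
            Real.sqrt (P.band.X s - P.q * (1 - x) * (P.band.H s + y) ^ 2) ^ (ii + 1) *
              P.band.H' s) +
          (F.Ip (τ, x, y)).re := by
      intro τ hτ hm
      obtain ⟨c1, c2⟩ := H.capR N h hτ
      have hm' : ((τ : ℂ), (x : ℂ), ((-y : ℝ) : ℂ)) ∈
          G3 (θ - 3 * d) (d ^ 4 / a / 8) (d / 1000) (fun ξ => -S.h ξ) := by
        refine ⟨hm.1, hm.2.1, ?_⟩
        show ‖((-y : ℝ) : ℂ) - -S.h x‖ < d / 1000 * ‖(x : ℂ)‖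
        rw [Complex.ofReal_neg, neg_sub_neg, norm_sub_rev]
        exact hy
      have i1 := ra_capI (by linarith) c1 H.csp hτ hx hm rfl (hg τ hτ).tp
      have i2 := ra_capI (by linarith) c2 H.csm hτ hx hm' rfl (hg τ hτ).tm
      rw [Complex.ofReal_neg] at i2
      rw [ra_Cr (hg τ hτ) s0, ← i1, ← i2]
      rfl
    have k1 := key t ht hm
    have k0 := key 0 z2 ⟨hm.1, by simp; positivity, hm.2.2⟩
    rw [g0, r.lC x y ⟨mx, hy⟩ hx, Complex.ofReal_zero] at k0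
    simp only [Cfl, Complex.add_re, Complex.div_ofReal_re, Complex.sub_re]
    have := Real.pi_pos
    field_simp
    linarith
  · intro x hx
    have hx' : x ∈ Icc (0 : ℝ) 1 := ⟨hx.1.le, hx.2.le⟩
    have e1 := ((hg 1 o2).tp x hx').2 (S.Hp x).re
    have e2 := (r.rep.tp x hx').1
    have e3 := ra_second N h.cp H.pcp ⟨hx.1, hx.2.le⟩
    rw [H.Wp] at e3
    simp only [St.cp, Fam.cp, capOf, rc, if_neg (not_le.2 hx.1), sl, Complex.ofReal_one] at e1 e2 e3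
    rw [e2]
    linarith

/-- the new parametrisation represents the same body -/
theorem FamOK.rep_new {P : Par} {θ d B a : ℝ} {S : St} {w : ℂ → ℂ} {F : Fam} (N : Num P θ d B a)
    (h : InvC P θ d B S) (H : FamOK P θ d B a S w F) {U : ℂ → ℂ} {g : ℝ → ℝ} {s : ℝ}
    (h' : InvC P (θ - 8 * d) (d / 2) (B + a / d ^ 12) (newSt S F U g s))
    (r : Rep g P.band (F.cp P S 1) (F.cm P S 1)) :
    Rep g P.band ((newSt S F U g s).cp P) ((newSt S F U g s).cm P) := by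
  obtain ⟨n1, n2, n3, n4, n5, n6, n7, n8⟩ := ra_num N
  obtain ⟨-, -, -, -, -, -, m7, -⟩ := N.small
  have d0 := N.d0
  have t2 := N.th2
  have hB : B + a / d ^ 12 ≤ th0 ^ 2 * P.q :=
    N.hB.trans (mul_le_mul_of_nonneg_left N.par.et2 (by positivity))
  have c1 := h'.cp.capR n8 hB N.par.q1
  have c2 := h'.cm.capR n8 hB N.par.q1
  obtain ⟨-, -, -, -, f5, -⟩ := H.f N h
  have o2 : |(1 : ℝ)| ≤ 2 := by norm_num
  have key : ∀ x ∈ Ioc (0 : ℝ) 1,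
      ((F.fp (1, x)).im = 0 ∧ (F.fp (1, x)).re ∈ Ioc (0 : ℝ) 1) ∧
      ((F.fm (1, x)).im = 0 ∧ (F.fm (1, x)).re ∈ Ioc (0 : ℝ) 1) ∧
      (x = 1 → F.fp (1, x) = 1 ∧ F.fm (1, x) = 1) := by
    intro x hx
    have m : (((1 : ℝ) : ℂ), (x : ℂ)) ∈ G1 (θ - 3 * d) (d ^ 6 / a) := by
      refine ⟨Sec_real (by linarith) hx.1 hx.2, ?_⟩
      show ‖((1 : ℝ) : ℂ)‖ * ‖(x : ℂ)‖ < d ^ 6 / a
      rw [Complex.norm_real, Complex.norm_real, Real.norm_eq_abs, Real.norm_eq_abs,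
        abs_of_pos hx.1, abs_one]
      linarith [hx.2]
    obtain ⟨k1, k2, -⟩ := f5 _ m
    have e1 := ra_re (H.hl.rh 1 x m)
    have e2 : ((-(F.h (((1 : ℝ) : ℂ), x)).re : ℝ) : ℂ) = -F.h (((1 : ℝ) : ℂ), x) := by
      rw [Complex.ofReal_neg, e1]
    have a1 := H.csp.rl 1 x _ (by rw [e1]; exact k1)
    have a2 := H.csp.lnk 1 x _ (by rw [e1]; exact k1) o2 hx.2
    have a3 := H.csm.rl 1 x _ (by rw [e2]; exact k2)
    have a4 := H.csm.lnk 1 x _ (by rw [e2]; exact k2) o2 hx.2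
    rw [e1] at a1 a2
    rw [e2] at a3 a4
    refine ⟨⟨a1.1, a2.1⟩, ⟨a3.1, a4.1⟩, fun hx1 => ⟨H.csp.φ1 _ k1 ?_, H.csm.φ1 _ k2 ?_⟩⟩ <;>
      simp [hx1]
  obtain ⟨-, -, k1⟩ := key 1 ⟨one_pos, le_rfl⟩
  obtain ⟨k1, k2⟩ := k1 rfl
  rw [Complex.ofReal_one] at k1 k2
  refine ⟨ra_fit (by linarith) (by linarith) n8 N.par.q1 r.fit c1 c2, r.tb,
    ra_tg (f := fun ξ => F.fp (1, ξ)) (fun x hx => (key x hx).1) r.tp,
    ra_tg (f := fun ξ => F.fm (1, ξ)) (fun x hx => (key x hx).2.1) r.tm, ?_, ?_⟩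
  · simpa [St.cp, Fam.cp, newSt, capOf, rc, sl, k1] using r.rp
  · simpa [St.cm, Fam.cm, newSt, capOf, rc, sl, k2] using r.rm

end BonN
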