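import Pool.Agent.Lib.MP_3dbf58_gt.N.Cst
import Pool.Agent.Lib.MP_3dbf58_gt.RealA

/-! One cap of the family at a real parameter. -/

open Set Filter Topology MeasureTheory Metric

noncomputable section

namespace BonN

open Bon3

variable [Cs]

theorem ra_num {P : Par} {θ d B a : ℝ} (N : Num P θ d B a) :
    0 < θ - 8 * d ∧ d ≤ 1 / 10 ^ 7 ∧ B ≤ P.q / 10 ^ 12 ∧ P.q ≤ 1 / 10 ^ 7 ∧
      100 ≤ d ^ 4 / a ∧ a / d ^ 12 ≤ P.q / 10 ^ 12 ∧ θ ≤ 1 / 10 ^ 6 ∧ 0 < P.q := by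
  obtain ⟨h1, h2, h3, h4, h5, h6, h7, h8⟩ := N.small
  have e1 := N.th1
  have e2 := N.th2
  have e3 := N.par.q1
  have e4 := N.par.et2
  have e5 := N.hB
  have e6 := N.B0
  have s0 := th0_pos
  have s1 := th0_small
  have s2 := del1_small
  have s3 : th0 ^ 2 ≤ 1 / 10 ^ 12 := by nlinarith
  have s4 : th0 ^ 2 * P.q ≤ 1 / 10 ^ 12 * P.q := mul_le_mul_of_nonneg_right s3 h5.le
  have s5 : th0 ^ 2 * P.η ≤ th0 ^ 2 * P.q := mul_le_mul_of_nonneg_left e4 (sq_nonneg _)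
  exact ⟨by linarith, by linarith, by linarith, by linarith, h7.trans h8, by linarith,
    by linarith, h5⟩

theorem ra_pow {P : Par} {θ d B a : ℝ} (N : Num P θ d B a) {k : ℕ} (hk : k ≤ 11) :
    1000 * (a / d ^ k) ≤ a / d ^ 12 := by
  obtain ⟨-, h2, -⟩ := ra_num N
  have d0 := N.d0
  have a0 := N.a0
  have e1 : d ^ 11 ≤ d ^ k := pow_le_pow_of_le_one d0.le (by linarith) hk
  have e2 : a / d ^ k ≤ a / d ^ 11 := div_le_div_of_nonneg_left a0.le (by positivity) e1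
  have e3 : a / d ^ 11 = a / d ^ 12 * d := by field_simp
  have e4 : 0 < a / d ^ 12 := by positivity
  nlinarith

theorem ra_norm {θ : ℝ} {ξ : ℂ} (h0 : 0 ≤ θ) (h1 : θ ≤ th0) (h : ξ ∈ Sec θ) : ‖ξ‖ ≤ 2 :=
  Bon3.ra_norm h0 (h1.trans th0_le) h

theorem ra_mem {θ Λ : ℝ} {l ξ : ℂ} (h0 : 0 ≤ θ) (h1 : θ ≤ th0) (hΛ : 10 ≤ Λ) (hl : ‖l‖ ≤ 2)
    (h : ξ ∈ Sec θ) : (l, ξ) ∈ G2 θ Λ := Bon3.ra_mem h0 (h1.trans th0_le) hΛ hl h

theorem ra_fit {q θ : ℝ} {b : Pc} {u T H v K L u' T' H' v' K' L' : ℂ → ℂ}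
    {a0 b0 c0 b1 c1 : ℝ} (t0 : 0 < θ) (t1 : θ ≤ th0) (q0 : 0 < q) (q1 : q ≤ del1)
    (f : Fit b (capOf q u T H a0 b0 c0) (capOf q v K L a0 b1 c1))
    (c : CapR q θ u' T' H' a0 b0 c0) (c' : CapR q θ v' K' L' a0 b1 c1) :
    Fit b (capOf q u' T' H' a0 b0 c0) (capOf q v' K' L' a0 b1 c1) :=
  Bon3.ra_fit t0 (t1.trans th0_le) q0 (q1.trans del1_le) f c c'

section cap
variable {P : Par} {θ d B a A : ℝ} {u T H e : ℂ → ℂ} {a0 b0 c0 : ℝ} {Tl Hl Wl : ℂ × ℂ → ℂ}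

theorem ra_capR (N : Num P θ d B a) (ci : CapInv P.q θ B u T H e a0 b0 c0)
    (pc : PC P.q (θ - d) (d ^ 4 / a) (d ^ 2) A u T H Tl Hl Wl) {t : ℝ} (ht : |t| ≤ 2) :
    CapR P.q (θ - 2 * d) u (sl Tl t) (sl Hl t) a0 b0 c0 := by
  obtain ⟨n1, n2, n3, n4, n5, n6, n7, n8⟩ := ra_num N
  have d0 := N.d0
  have a0' := N.a0
  have B0 := N.B0
  have t2 := N.th2
  have s1 : Sec (θ - 2 * d) ⊆ Sec (θ - d) := Sec_mono (by linarith) (by linarith)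
  have s2 : Sec (θ - d) ⊆ Sec θ := Sec_mono (by linarith) (by linarith)
  have mem : ∀ ξ ∈ Sec (θ - d), ((t : ℂ), ξ) ∈ G2 (θ - d) (d ^ 4 / a) := fun ξ hξ =>
    ra_mem (by linarith) (by linarith) (by linarith) (ra_nt ht) hξ
  have nm : ∀ ξ ∈ Sec (θ - d), ‖ξ‖ ≤ 2 := fun ξ hξ => ra_norm (by linarith) (by linarith) hξ
  have dT : DifferentiableOn ℂ (sl Tl t) (Sec (θ - d)) := fun ξ hξ =>
    (HC.hasDerivAt2 (isOpen_G2 _ _) pc.hT (mem ξ hξ)).differentiableAt.differentiableWithinAt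
  have dH : DifferentiableOn ℂ (sl Hl t) (Sec (θ - d)) := fun ξ hξ =>
    (HC.hasDerivAt2 (isOpen_G2 _ _) pc.hH (mem ξ hξ)).differentiableAt.differentiableWithinAt
  have dd : d ^ 2 ≤ 1 / 10 ^ 14 := by nlinarith
  have dd0 : 0 ≤ d ^ 2 := by positivity
  have bT : ∀ ξ ∈ Sec (θ - d), ‖sl Tl t ξ - T ξ‖ ≤ 1 / 10 ^ 14 * ‖ξ‖ := fun ξ hξ =>
    (pc.T0 _ (mem ξ hξ)).trans (mul_le_mul_of_nonneg_right dd (norm_nonneg _))
  have bH : ∀ ξ ∈ Sec (θ - d), ‖sl Hl t ξ - H ξ‖ ≤ 1 / 10 ^ 14 * ‖ξ‖ := fun ξ hξ =>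
    (pc.H0 _ (mem ξ hξ)).trans (mul_le_mul_of_nonneg_right (by nlinarith) (norm_nonneg _))
  have tri : ∀ x y z : ℂ, ‖x - z‖ ≤ ‖x - y‖ + ‖y - z‖ := fun x y z => norm_sub_le_norm_sub_add_norm_sub x y z
  have fine : ∀ ξ ∈ Sec (θ - d), ‖sl Tl t ξ - T ξ‖ ≤ 4 * (a / d ^ 2) * ‖ξ‖ ^ 3 := by
    intro ξ hξ
    have hf : HC (fun p : ℂ × ℂ => Tl p - T p.2) (G2 (θ - d) (d ^ 4 / a)) :=
      pc.hT.sub (ra_hc2 (by linarith) (by linarith) ci.dT)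
    have := schwarz_G2 (k := 1) (M := d ^ 2) hf (fun p hp => by simpa using pc.T0 p hp) (mem ξ hξ)
    simp only [pc.Tz ξ hξ, sub_self, sub_zero] at this
    refine this.trans ?_
    have e1 : 2 * d ^ 2 / (d ^ 4 / a) = 2 * (a / d ^ 2) := by field_simp
    rw [e1]
    have e2 : 0 ≤ a / d ^ 2 := by positivity
    have e3 := ra_nt ht
    have e4 : 2 * (a / d ^ 2) * ‖(t : ℂ)‖ ≤ 4 * (a / d ^ 2) := by nlinarith
    exact mul_le_mul_of_nonneg_right e4 (by positivity)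
  refine ⟨ci.du.mono (s1.trans s2), dT.mono s1, dH.mono s1, fun x hx => ci.ru x (s2 (s1 hx)),
    fun x hx => pc.rT t x (mem _ (s1 hx)), fun x hx => pc.rH t x (mem _ (s1 hx)), ?_, ?_, ci.up,
    ?_, ?_, ?_, fun ξ hξ => pc.H1 _ (mem ξ (s1 hξ)), ?_, ?_, ?_⟩
  · intro ξ hξ
    have := ci.u0 ξ (s2 (s1 hξ))
    have s2 := del1_small
    unfold Bon3.th0; linarith
  · intro ξ hξ
    have := ci.u1 ξ (s2 (s1 hξ))
    have s2 := del1_small
    unfold Bon3.th0; linarith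
  · intro ξ hξ
    have e1 := ci.T0 ξ (s2 (s1 hξ))
    have e2 := bT ξ (s1 hξ)
    have e3 := nm ξ (s1 hξ)
    have e4 := tri (sl Tl t ξ) (T ξ) 1
    have s2 := del1_small
    unfold Bon3.th0; linarith
  · intro ξ hξ
    have e1 := ci.T1 ξ (s2 (s1 hξ))
    have df : DifferentiableOn ℂ (fun ζ => sl Tl t ζ - T ζ) (Sec (θ - d)) := dT.sub (ci.dT.mono s2)
    have hξ' : ξ ∈ Sec (θ - d - d) := by rwa [show θ - d - d = θ - 2 * d by ring]
    have e2 := cauchy_Sec (k := 3) d0 (by linarith) (by linarith) (by norm_num) df fine hξ'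
    have o := isOpen_Sec (θ - d)
    have e3 : deriv (fun ζ => sl Tl t ζ - T ζ) ξ = deriv (sl Tl t) ξ - deriv T ξ :=
      deriv_fun_sub (dT.differentiableAt (o.mem_nhds (s1 hξ)))
        ((ci.dT.mono s2).differentiableAt (o.mem_nhds (s1 hξ)))
    rw [e3] at e2
    have p0 : 0 < ‖ξ‖ := norm_pos_iff.2 (Sec_ne hξ)
    have e4 : 5 * (4 * (a / d ^ 2)) / d * ‖ξ‖ ^ 3 = 20 * (a / d ^ 3) * ‖ξ‖ ^ 2 * ‖ξ‖ := by
      field_simp; ring
    rw [e4] at e2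
    have e5 := le_of_mul_le_mul_right e2 p0
    have e6 := nm ξ (s1 hξ)
    have e7 : ‖ξ‖ ^ 2 ≤ 4 := by nlinarith
    have e8 := ra_pow N (k := 3) (by norm_num)
    have e9 : 0 ≤ a / d ^ 3 := by positivity
    have e10 : 20 * (a / d ^ 3) * ‖ξ‖ ^ 2 ≤ 20 * (a / d ^ 3) * 4 :=
      mul_le_mul_of_nonneg_left e7 (by positivity)
    have e11 := tri (deriv (sl Tl t) ξ) (deriv T ξ) (P.q / 2)
    linarith
  · intro ξ hξ
    have e1 := ci.H0 ξ (s2 (s1 hξ))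
    have e2 := bH ξ (s1 hξ)
    have e3 := nm ξ (s1 hξ)
    have e4 := tri (sl Hl t ξ) (H ξ) 1
    have s2 := del1_small
    unfold Bon3.th0; linarith
  · intro ξ hξ
    have e1 := ci.vu ξ (s2 (s1 hξ))
    have e2 := norm_nonneg ξ
    nlinarith
  · intro ξ hξ
    have e1 := ci.vT ξ (s2 (s1 hξ))
    have e2 := norm_nonneg ξ
    have e3 := bT ξ (s1 hξ)
    have e4 := tri (sl Tl t ξ) (T ξ) b0
    nlinarith
  · intro ξ hξ
    have e1 := ci.vH ξ (s2 (s1 hξ))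
    have e2 := norm_nonneg ξ
    have e3 := bH ξ (s1 hξ)
    have e4 := tri (sl Hl t ξ) (H ξ) c0
    nlinarith

theorem ra_lip (N : Num P θ d B a) (ci : CapInv P.q θ B u T H e a0 b0 c0)
    (pc : PC P.q (θ - d) (d ^ 4 / a) (d ^ 2) A u T H Tl Hl Wl) {t t' : ℝ} (ht : |t| ≤ 2)
    (ht' : |t'| ≤ 2) {s : ℝ} (hs : s ∈ Icc (0 : ℝ) 1) :
    |(capOf P.q u (sl Tl t) (sl Hl t) a0 b0 c0).H s -
        (capOf P.q u (sl Tl t') (sl Hl t') a0 b0 c0).H s| ≤ 5 * (a / d ^ 2) * |t - t'| ∧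
    |(capOf P.q u (sl Tl t) (sl Hl t) a0 b0 c0).X s -
        (capOf P.q u (sl Tl t') (sl Hl t') a0 b0 c0).X s| ≤ 5 * (a / d ^ 2) * |t - t'| ∧
    |(capOf P.q u (sl Tl t) (sl Hl t) a0 b0 c0).T s -
        (capOf P.q u (sl Tl t') (sl Hl t') a0 b0 c0).T s| ≤ 5 * (a / d ^ 2) * |t - t'| := by
  obtain ⟨n1, n2, n3, n4, n5, n6, n7, n8⟩ := ra_num N
  have d0 := N.d0
  have a0' := N.a0
  have B0 := N.B0
  have t2 := N.th2
  have K0 : 0 ≤ 5 * (a / d ^ 2) * |t - t'| := by positivity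
  rcases hs.1.eq_or_lt with h0 | h0
  · subst h0
    simp only [capOf, rc, le_refl, if_true, sub_self, abs_zero]
    exact ⟨K0, K0, K0⟩
  have hs' : s ∈ Ioc (0 : ℝ) 1 := ⟨h0, hs.2⟩
  have eT := ra_lip1 (by linarith) n5 (by positivity) pc.hT pc.T0 hs' ht ht'
  have eH := ra_lip1 (by linarith) n5 (by positivity) pc.hH pc.H0 hs' ht ht'
  have e1 : 5 * d ^ 2 / (d ^ 4 / a) = 5 * (a / d ^ 2) := by field_simp
  have e2 : 5 * (P.q * d ^ 2) / (d ^ 4 / a) * |t - t'| = P.q * (5 * (a / d ^ 2) * |t - t'|) := by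
    field_simp
  rw [e1] at eT
  rw [e2] at eH
  have c1 := ra_capR N ci pc ht
  have c2 := ra_capR N ci pc ht'
  have ms : (s : ℂ) ∈ Sec (θ - 2 * d) := Sec_real (by linarith) h0 hs.2
  simp only [capOf, rc, if_neg (not_le.2 h0), sl]
  refine ⟨eH.trans (by nlinarith), ?_, eT⟩
  have b1 : |(Tl (t, s)).re - 1| ≤ Bon3.th0 := by
    have := (Complex.abs_re_le_norm _).trans (c1.T0 _ ms)
    simpa [sl] using this
  have b2 : |(Tl (t', s)).re - 1| ≤ Bon3.th0 := by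
    have := (Complex.abs_re_le_norm _).trans (c2.T0 _ ms)
    simpa [sl] using this
  have b3 : |(u s).re - (1 - s)| ≤ Bon3.th0 := by
    have := (Complex.abs_re_le_norm _).trans (c1.u0 _ ms)
    simpa using this
  unfold Bon3.th0 at b1 b2 b3
  rw [abs_le] at b1 b2 b3
  have b4 : |(u s).re| ≤ 2 := abs_le.2 ⟨by linarith [hs.2], by linarith⟩
  have b5 : |(Tl (t, s)).re + (Tl (t', s)).re| ≤ 3 := abs_le.2 ⟨by linarith, by linarith⟩
  have e3 : P.q * (u s).re * (Tl (t, s)).re ^ 2 - P.q * (u s).re * (Tl (t', s)).re ^ 2 =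
      P.q * ((u s).re * ((Tl (t, s)).re + (Tl (t', s)).re)) *
        ((Tl (t, s)).re - (Tl (t', s)).re) := by ring
  rw [e3, abs_mul, abs_mul, abs_mul, abs_of_pos n8]
  have b6 : |(u s).re| * |(Tl (t, s)).re + (Tl (t', s)).re| ≤ 2 * 3 :=
    mul_le_mul b4 b5 (abs_nonneg _) (by norm_num)
  have b7 : P.q * (|(u s).re| * |(Tl (t, s)).re + (Tl (t', s)).re|) ≤ 1 := by nlinarith
  exact (mul_le_mul b7 eT (abs_nonneg _) zero_le_one).trans (by rw [one_mul])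

theorem ra_second (N : Num P θ d B a) (ci : CapInv P.q θ B u T H e a0 b0 c0)
    (pc : PC P.q (θ - d) (d ^ 4 / a) (d ^ 2) A u T H Tl Hl Wl) {x : ℝ} (hx : x ∈ Ioc (0 : ℝ) 1) :
    P.q * (u x).re * ((Tl (1, x)).re ^ 2 - (T x).re ^ 2) +
      2 * (Tl (1, x)).re * ((Hl (1, x)).re - (H x).re) ≤
      2 * P.q * (T x).re * (Wl (0, x)).re + a ^ 2 / d ^ 12 := by
  obtain ⟨n1, n2, n3, n4, n5, n6, n7, n8⟩ := ra_num N
  have d0 := N.d0
  have a0' := N.a0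
  have B0 := N.B0
  have t0 : 0 < θ - d := by linarith
  have mem : ∀ l ∈ ball (0 : ℂ) (d ^ 4 / a), (l, (x : ℂ)) ∈ G2 (θ - d) (d ^ 4 / a) := fun l hl =>
    ra_memR t0 hl hx
  have ms : (x : ℂ) ∈ Sec (θ - d) := Sec_real t0 hx.1 hx.2
  have ms' : (x : ℂ) ∈ Sec θ := Sec_real (by linarith) hx.1 hx.2
  let φ : ℂ → ℂ := fun l => P.q * u x * (Tl (l, x) ^ 2 - T x ^ 2) + 2 * Tl (l, x) * (Hl (l, x) - H x)
  have hd : ∀ l ∈ ball (0 : ℂ) (d ^ 4 / a), HasDerivAt φ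
      (P.q * u x * (2 * Tl (l, x) * d1 Tl (l, x)) +
        (2 * d1 Tl (l, x) * (Hl (l, x) - H x) + 2 * Tl (l, x) * d1 Hl (l, x))) l := by
    intro l hl
    have hT : HasDerivAt (fun l => Tl (l, (x : ℂ))) (d1 Tl (l, x)) l :=
      HC.hasDerivAt1 (isOpen_G2 _ _) pc.hT (mem l hl)
    have hH : HasDerivAt (fun l => Hl (l, (x : ℂ))) (d1 Hl (l, x)) l :=
      HC.hasDerivAt1 (isOpen_G2 _ _) pc.hH (mem l hl)
    have := (((hT.fun_pow 2).sub_const (T x ^ 2)).const_mul (P.q * u x)).fun_add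
      ((hT.const_mul 2).fun_mul (hH.sub_const (H x)))
    refine this.congr_deriv ?_
    simp
  have nx : ‖(x : ℂ)‖ ≤ 1 := by
    rw [Complex.norm_real, Real.norm_eq_abs, abs_of_pos hx.1]; exact hx.2
  have dd : d ^ 2 ≤ 1 := by nlinarith
  have bT : ‖T x‖ ≤ 2 := by
    have e1 := ci.T0 _ ms'
    have e2 := norm_le_norm_add_norm_sub' (T x) 1
    rw [norm_one] at e2
    have s2 := del1_small
    linarith
  have bu : ‖u x‖ ≤ 2 := by
    have e1 := ci.u0 _ ms'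
    have e2 := norm_le_norm_add_norm_sub' (u x) (1 - x)
    have e3 : ‖(1 : ℂ) - x‖ ≤ 1 := by
      rw [← Complex.ofReal_one, ← Complex.ofReal_sub, Complex.norm_real, Real.norm_eq_abs,
        abs_of_nonneg (by linarith [hx.2])]
      linarith [hx.1]
    have s2 := del1_small
    linarith
  have hb : ∀ l ∈ ball (0 : ℂ) (d ^ 4 / a), ‖φ l‖ ≤ 1 := by
    intro l hl
    have e1 : ‖Tl (l, x) - T x‖ ≤ 1 :=
      (pc.T0 _ (mem l hl)).trans (mul_le_one₀ dd (norm_nonneg _) nx)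
    have e2 : ‖Hl (l, x) - H x‖ ≤ P.q := by
      refine (pc.H0 _ (mem l hl)).trans ?_
      rw [mul_assoc]
      exact mul_le_of_le_one_right n8.le (mul_le_one₀ dd (norm_nonneg _) nx)
    have e3 : ‖Tl (l, x)‖ ≤ 3 := by
      have := norm_le_norm_add_norm_sub' (Tl (l, x)) (T x)
      linarith
    have e4 : ‖Tl (l, x) ^ 2 - T x ^ 2‖ ≤ 5 * 1 := by
      rw [sq_sub_sq, norm_mul]
      exact mul_le_mul ((norm_add_le _ _).trans (by linarith)) e1 (norm_nonneg _) (by norm_num)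
    have e5 : ‖(P.q : ℂ) * u x * (Tl (l, x) ^ 2 - T x ^ 2)‖ ≤ P.q * 2 * (5 * 1) := by
      rw [norm_mul, norm_mul, Complex.norm_real, Real.norm_eq_abs, abs_of_pos n8]
      gcongr
    have e6 : ‖2 * Tl (l, x) * (Hl (l, x) - H x)‖ ≤ 2 * 3 * P.q := by
      rw [norm_mul, norm_mul, Complex.norm_two]
      gcongr
    exact (norm_add_le _ _).trans (by linarith)
  have m0 : (0 : ℂ) ∈ ball (0 : ℂ) (d ^ 4 / a) := mem_ball_self (by linarith)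
  have m1 : (1 : ℂ) ∈ ball (0 : ℂ) (d ^ 4 / a) := by
    rw [mem_ball_zero_iff, norm_one]; linarith
  have key := schwarz2 (fun l hl => (hd l hl).differentiableAt.differentiableWithinAt) hb
    (by linarith)
  rw [(hd 0 m0).deriv, pc.Hl1 _ (mem 0 m0)] at key
  simp only [φ, pc.Tz _ ms, pc.Hz _ ms] at key
  have r1 := ci.ru x ms'
  have r2 := ci.rT x ms'
  have r3 := ci.rH x ms'
  have r4 : (Tl (1, x)).im = 0 := pc.rT 1 x (mem _ m1)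
  have r5 : (Hl (1, x)).im = 0 := pc.rH 1 x (mem _ m1)
  have k2 := (Complex.re_le_norm _).trans key
  have e1 : 16 * 1 / (d ^ 4 / a) ^ 2 = a ^ 2 / d ^ 12 * (16 * d ^ 4) := by field_simp
  have e2 : 16 * d ^ 4 ≤ 1 := by nlinarith
  have e3 : a ^ 2 / d ^ 12 * (16 * d ^ 4) ≤ a ^ 2 / d ^ 12 :=
    mul_le_of_le_one_right (by positivity) e2
  have e4 : (P.q : ℂ) * u x * (Tl (1, x) ^ 2 - T x ^ 2) + 2 * Tl (1, x) * (Hl (1, x) - H x) -
      (P.q * u x * (T x ^ 2 - T x ^ 2) + 2 * T x * (H x - H x)) -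
      (P.q * u x * (2 * T x * d1 Tl (0, x)) + (2 * d1 Tl (0, x) * (H x - H x) +
        2 * T x * (P.q * (Wl (0, x) - u x * d1 Tl (0, x))))) =
      P.q * u x * (Tl (1, x) ^ 2 - T x ^ 2) + 2 * Tl (1, x) * (Hl (1, x) - H x) -
        2 * P.q * T x * Wl (0, x) := by ring
  rw [e4] at k2
  replace k2 := k2.trans (e1.le.trans e3)
  generalize a ^ 2 / d ^ 12 = K at k2 ⊢
  simp only [pow_two, Complex.sub_re, Complex.mul_re, Complex.mul_im, Complex.add_re,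
    Complex.ofReal_re, Complex.ofReal_im, Complex.re_ofNat, Complex.im_ofNat,
    Complex.sub_im, r1, r2, r3, r4, r5] at k2
  linarith

end cap

end BonN
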