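import Pool.Agent.Lib.MP_3dbf58_gt.N.RealB
import Pool.Agent.Lib.MP_3dbf58_gt.N.NewC
import Pool.Agent.Lib.MP_3dbf58_gt.N.HLs
import Pool.Agent.Lib.MP_3dbf58_gt.N.PCs
import Pool.Agent.Lib.MP_3dbf58_gt.N.CapS
import Pool.Agent.Lib.MP_3dbf58_gt.N.FamE
import Pool.Agent.Lib.MP_3dbf58_gt.N.Abel
import Pool.Agent.Lib.MP_3dbf58_gt.N.Lin
import Pool.Agent.Lib.MP_3dbf58_gt.Step

open Set Filter Topology MeasureTheory Metric

noncomputable section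

namespace BonN

open Bon3

variable [Cs]

theorem stp_fam {P : Par} {θ d B a : ℝ} {S : St} {w : ℂ → ℂ} (N : Num P θ d B a)
    (h : InvC P θ d B S) (dw : DifferentiableOn ℂ w (Sec θ)) (rw : Rl w θ)
    (w0 : ∀ ξ ∈ Sec θ, ‖w ξ‖ ≤ a * ‖ξ‖ ^ 4) : ∃ F, FamOK P θ d B a S w F := by
  obtain ⟨-, -, -, hBq, q0, -, h100, h64⟩ := N.small
  obtain ⟨Tp, Hp, Tm, Hm, Wm, pp, pm, e1, e2, e3, e4⟩ := pc_exists N h dw rw w0
  obtain ⟨φp, Ip, cp⟩ := capstep q0 N.par.q1 hBq N.d0 N.d1 N.th1 N.th2 (h100.trans h64) h.cp pp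
  obtain ⟨φm, Im, cm⟩ := capstep q0 N.par.q1 hBq N.d0 N.d1 N.th1 N.th2 (h100.trans h64) h.cm pm
  obtain ⟨hl, H⟩ := hl_exists N h cp cm
  exact ⟨⟨Tp, Hp, fun p => w p.2, Tm, Hm, Wm, φp, Ip, φm, Im, hl⟩,
    ⟨pp, pm, fun _ => rfl, e1, e2, e3, e4, cp, cm, H⟩⟩

theorem stp_G1 {θ Λ t : ℝ} {ξ : ℂ} (t0 : 0 ≤ θ) (t1 : θ ≤ th0) (hΛ : 10 ≤ Λ) (ht : |t| ≤ 2)
    (h : ξ ∈ Sec θ) : ((t : ℂ), ξ) ∈ G1 θ Λ := st_G1 t0 (t1.trans th0_le) hΛ ht h

theorem stp_rl {θ Λ t : ℝ} {f : ℂ × ℂ → ℂ} (t0 : 0 ≤ θ) (t1 : θ ≤ th0) (hΛ : 10 ≤ Λ)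
    (ht : |t| ≤ 2) (h : Rl2 f (G1 θ Λ)) : Rl (sl f t) θ := fun x hx =>
  h t x (stp_G1 t0 t1 hΛ ht hx)

theorem stp_two {θ : ℝ} {ξ : ℂ} (t0 : 0 ≤ θ) (t1 : θ ≤ th0) (h : ξ ∈ Sec θ) : ‖ξ‖ ≤ 2 := by
  have h2 := (Bon3.Sec_norm t0 (t1.trans th0_le) h).2.1
  have := th0_small
  linarith

theorem stp_ex {c d : ℝ} (c0 : 0 ≤ c) (d0 : 0 < d) (d1 : d ≤ 1) : c / d ^ 12 ≤ c / d ^ ex :=
  div_le_div_of_nonneg_left c0 (pow_pos d0 _)
    (pow_le_pow_of_le_one d0.le d1 (by show 12 ≤ 2 * ii + 18; omega))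

/-- the derivative of the maximal section as an Abel integral -/
theorem stp_abel {P : Par} {θ d B a : ℝ} {S : St} {w : ℂ → ℂ} {F : Fam} (N : Num P θ d B a)
    (h : InvC P θ d B S) (H : FamOK P θ d B a S w F) {x t : ℝ} (hx : x ∈ Ioc (0 : ℝ) 1)
    (ht : |t| ≤ 2) :
    (gcap (sl F.zp t) (sl F.h t) (sl F.wp t) x).re +
        (gcap (sl F.zm t) (sl (fun r => -F.h r) t) (sl F.wm t) x).re =
      Jr (fun v => (FL F (t, v)).re) x := by
  obtain ⟨h100, h7⟩ := N.seven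
  have d0 := N.d0
  have d1 := N.d1
  have th1 := N.th1
  have th2 := N.th2
  have tp : (0 : ℝ) < th0 := th0_pos
  have t0 : 0 < θ - 5 * d := by linarith
  have t1 : θ - 5 * d ≤ th0 := by linarith
  have t6 : 0 < θ - 5 * d - d := by linarith
  have t7 : θ - 5 * d - d ≤ θ - 5 * d := by linarith
  have hd : d ≤ θ - 5 * d := by linarith
  have hΛ : 10 ≤ d ^ 7 / a := by linarith
  obtain ⟨lp, lm, r1, r2, r3, r4⟩ := H.ld N h
  have nt : ‖(t : ℂ)‖ ≤ 2 := by rwa [Complex.norm_real, Real.norm_eq_abs]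
  have sp := lp.slice t0 t1 hΛ nt
  have sm := lm.slice t0 t1 hΛ nt
  have kp := sp.ze.kb d0 hd t1
  have km := sm.ze.kb d0 hd t1
  have rh : Rl2 F.h (G1 (θ - 5 * d) (d ^ 7 / a)) := fun t x hp =>
    H.hl.rh t x (st_G1_mono t0.le (by linarith) (by linarith) hp)
  have rh' : Rl2 (fun r => -F.h r) (G1 (θ - 5 * d) (d ^ 7 / a)) := fun t x hp => by
    simp only [Complex.neg_im, rh t x hp, neg_zero]
  have ap := abel t6 t7 t1 sp kp (stp_rl t0.le t1 hΛ ht r1) (stp_rl t0.le t1 hΛ ht rh)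
    (stp_rl t0.le t1 hΛ ht r3) hx
  have am := abel t6 t7 t1 sm km (stp_rl t0.le t1 hΛ ht r2) (stp_rl t0.le t1 hΛ ht rh')
    (stp_rl t0.le t1 hΛ ht r4) hx
  obtain ⟨dp, bp⟩ := Lcap_diff t6 t7 t1 sp kp
  obtain ⟨dm, bm⟩ := Lcap_diff t6 t7 t1 sm km
  obtain ⟨cp, bp'⟩ := st_trace t6 hx.2 dp bp
  obtain ⟨cm, bm'⟩ := st_trace t6 hx.2 dm bm
  rw [ap, am, ← Jr_add hx.1 hx.2 cp bp' cm bm']
  rfl

/-- the link of the new error with the maximal sections -/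
theorem stp_lA {P : Par} {θ d B a e μ : ℝ} {S : St} {w : ℂ → ℂ} {F : Fam} (N : Num P θ d B a)
    (h : InvC P θ d B S) (r : InvR P θ d e S) (W : WOK θ P.η a μ S.zp S.zm S.h S.ρ S.U S.E w)
    (H : FamOK P θ d B a S w F) {g : ℝ → ℝ → ℝ} {L : ℝ} (g0 : g 0 = S.g)
    (rep : ∀ t, |t| ≤ 2 → Rep (g t) P.band (F.cp P S t) (F.cm P S t))
    (lip : ∀ t t', |t| ≤ 2 → |t'| ≤ 2 → ∀ x, |g t x - g t' x| ≤ L * |t - t'| * (1 + |x|))
    (lc : ∀ t x y : ℝ, |t| ≤ 2 → x ≤ 1 →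
        ((t : ℂ), (x : ℂ), (y : ℂ)) ∈ G3 (θ - 3 * d) (d ^ 4 / a / 8) (d / 1000) S.h →
        Cr (g t) (P.q * (1 - x)) y = Real.pi * (Cfl S.Cf F.Ip F.Im (t, x, y)).re)
    {x : ℝ} (hx : x ∈ Ioc (0 : ℝ) 1) :
    Ar (g 1) (P.q * (1 - x)) (F.h (1, x)).re - P.Gb x =
      cq P.q * Jr (fun v => (FE F v).re +
        (S.s - P.η * ((ell S.U w).re - μ)) * v ^ 5) x := by
  obtain ⟨h100, h7⟩ := N.seven
  have d0 := N.d0
  have th1 := N.th1
  have th2 := N.th2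
  have a0 := N.a0
  have tp : (0 : ℝ) < th0 := th0_pos
  have t0 : 0 < θ - 6 * d := by linarith
  have t1 : θ - 6 * d ≤ th0 := by linarith
  have t3 : 0 < θ - 3 * d := by linarith
  have t4 : θ - 3 * d ≤ th0 := by linarith
  have tt0 : 0 < θ := by linarith
  have hΛ : 10 ≤ d ^ 7 / a / 2 := by linarith
  have hΛ' : 10 ≤ d ^ 6 / a := by linarith
  obtain ⟨hL, -, bL, L0, dE, -, bE⟩ := H.err N h W
  obtain ⟨-, -, -, -, mem, -, -⟩ := H.f N h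
  have xs : (x : ℂ) ∈ Sec (θ - 3 * d) := Sec_real t3 hx.1 hx.2
  -- the derivative
  have hd : ∀ t : ℝ, |t| < 2 → HasDerivAt
      (fun τ : ℝ => Ar (g τ) (P.q * (1 - x)) (F.h (τ, x)).re)
      (cq P.q * Jr (fun v => (FL F (t, v)).re) x) t := by
    intro t ht
    have hp := stp_G1 t3.le t4 hΛ' ht.le xs
    have hr : (((F.h (t, x)).re : ℝ) : ℂ) = F.h (t, x) :=
      Complex.ext (by simp) (by simp [H.hl.rh t x hp])
    have cr : Cr (g t) (P.q * (1 - x)) (F.h (t, x)).re = 0 := by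
      rw [lc t x _ ht.le hx.2 (by rw [hr]; exact (mem _ hp).1), hr, H.hl.cr _ hp]
      simp
    have h1 := H.deriv_Ar N h rep lip hx ht cr
    rwa [stp_abel N h H hx ht.le] at h1
  -- continuity of the operator along the family
  have cL : ContinuousOn (FL F) (G1 (θ - 6 * d) (d ^ 7 / a / 2)) := by
    refine hL.continuousOn (isOpen_G1 _ _) fun p hp => ⟨a / d ^ (n2 + 3) * 2 ^ 4, ?_⟩
    filter_upwards [(isOpen_G1 _ _).mem_nhds hp] with z hz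
    refine (bL z hz).trans (mul_le_mul_of_nonneg_left ?_ (by positivity))
    exact pow_le_pow_left₀ (norm_nonneg _) (stp_two t0.le t1 hz.1) 4
  have hm : ∀ p ∈ Icc (0 : ℝ) 1 ×ˢ Ioo (0 : ℝ) x,
      (((p.1 : ℝ) : ℂ), ((p.2 : ℝ) : ℂ)) ∈ G1 (θ - 6 * d) (d ^ 7 / a / 2) := fun p hp =>
    stp_G1 t0.le t1 hΛ (by rw [abs_of_nonneg hp.1.1]; linarith [hp.1.2])
      (Sec_real t0 hp.2.1 (hp.2.2.le.trans hx.2))
  have cL2 : ContinuousOn (fun p : ℝ × ℝ => FL F (p.1, p.2)) (Icc (0 : ℝ) 1 ×ˢ Ioo (0 : ℝ) x) :=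
    cL.comp (by fun_prop) hm
  have bL2 : ∀ p ∈ Icc (0 : ℝ) 1 ×ˢ Ioo (0 : ℝ) x, |(FL F (p.1, p.2)).re| ≤ a / d ^ (n2 + 3) := by
    intro p hp
    refine (Complex.abs_re_le_norm _).trans ((bL _ (hm p hp)).trans ?_)
    have h1 : ‖((p.2 : ℝ) : ℂ)‖ ≤ 1 := by
      rw [Complex.norm_real, Real.norm_eq_abs, abs_of_pos hp.2.1]
      exact hp.2.2.le.trans hx.2
    have h2 : ‖((p.2 : ℝ) : ℂ)‖ ^ 4 ≤ 1 := pow_le_one₀ (norm_nonneg _) h1
    exact mul_le_of_le_one_right (by positivity) h2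
  obtain ⟨cJ, sw⟩ := Jr_swap (f := fun p : ℝ × ℝ => (FL F (p.1, p.2)).re) hx.1 hx.2
    (Complex.continuous_re.comp_continuousOn cL2) bL2
  have ftc := intervalIntegral.integral_eq_sub_of_hasDerivAt (a := 0) (b := 1)
    (f := fun τ : ℝ => Ar (g τ) (P.q * (1 - x)) (F.h (τ, x)).re)
    (f' := fun t : ℝ => cq P.q * Jr (fun v => (FL F (t, v)).re) x)
    (fun t ht => hd t (by
      rw [uIcc_of_le zero_le_one] at ht
      rw [abs_of_nonneg ht.1]; linarith [ht.2]))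
    (ContinuousOn.intervalIntegrable (by
      rw [uIcc_of_le zero_le_one]
      exact continuousOn_const.mul cJ))
  rw [intervalIntegral.integral_const_mul, sw] at ftc
  have old := r.lA x hx
  have hz : F.h (((0 : ℝ) : ℂ), x) = S.h x := by
    rw [Complex.ofReal_zero]; exact H.hl.hz x xs
  simp only [hz, g0, Complex.ofReal_one] at ftc
  -- the integral in the parameter
  have key : ∀ v ∈ Ioo (0 : ℝ) x, ∫ t in (0 : ℝ)..1, (FL F (t, v)).re =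
      (FE F v).re + (-(S.E v).re - P.η * ((ell S.U w).re - μ) * v ^ 5) := by
    intro v hv
    have vs : (v : ℂ) ∈ Sec (θ - 6 * d) := Sec_real t0 hv.1 (hv.2.le.trans hx.2)
    have c1 : ContinuousOn (fun t : ℝ => FL F (t, v)) (Icc 0 1) :=
      cL2.comp (f := fun t : ℝ => (t, v)) (by fun_prop) fun t ht => ⟨ht, hv⟩
    have i1 : IntegrableOn (fun t : ℝ => FL F (t, v)) (Ioo 0 1) :=
      (c1.integrableOn_Icc).mono_set Ioo_subset_Icc_self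
    have i2 : IntegrableOn (fun _ : ℝ => FL F (0, v)) (Ioo (0 : ℝ) 1) :=
      (continuousOn_const.integrableOn_Icc).mono_set Ioo_subset_Icc_self
    have h1 : FE F v = (∫ t in Ioo (0 : ℝ) 1, FL F (t, v)) - FL F (0, v) := by
      unfold FE
      rw [integral_sub i1 i2]
      simp
    have h2 : (∫ t in Ioo (0 : ℝ) 1, FL F (t, v)).re =
        ∫ t in Ioo (0 : ℝ) 1, (FL F (t, v)).re := (integral_re i1).symm
    have h3 : (FL F (0, v)).re = -(S.E v).re - P.η * ((ell S.U w).re - μ) * v ^ 5 := by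
      rw [L0 v vs]
      have : (P.η : ℂ) * (v : ℂ) ^ 5 * (ell S.U w - μ) =
          ((P.η * v ^ 5 : ℝ) : ℂ) * (ell S.U w - μ) := by push_cast; ring
      rw [this, Complex.sub_re, Complex.neg_re, Complex.re_ofReal_mul, Complex.sub_re,
        Complex.ofReal_re]
      ring
    rw [intervalIntegral.integral_of_le zero_le_one, integral_Ioc_eq_integral_Ioo, h1,
      Complex.sub_re, h2, h3]
    ring
  rw [Jr_congr hx.1 key] at ftc
  obtain ⟨cE, bE'⟩ := st_trace t0 hx.2 dE bE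
  obtain ⟨cO, bO⟩ := st_trace tt0 hx.2 r.dE r.E0
  have p5 : ∀ v ∈ Ioo (0 : ℝ) x, |v ^ 5| ≤ 1 := fun v hv => by
    rw [abs_of_pos (pow_pos hv.1 5)]
    exact pow_le_one₀ hv.1.le (hv.2.le.trans hx.2)
  have bd : ∀ c : ℝ, ∀ v ∈ Ioo (0 : ℝ) x, |c * v ^ 5| ≤ |c| := fun c v hv => by
    rw [abs_mul]; exact mul_le_of_le_one_right (abs_nonneg _) (p5 v hv)
  set c := P.η * ((ell S.U w).re - μ) with hc
  have sum := Jr_add (f := fun v => (FE F v).re + (-(S.E v).re - c * v ^ 5))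
    (g := fun v => (S.E v).re + S.s * v ^ 5) (M := a ^ 2 / d ^ ex + (e + |c|)) (M' := e + |S.s|)
    hx.1 hx.2
    (cE.add (cO.neg.sub (by fun_prop)))
    (fun v hv => by
      have h1 := bE' v hv
      have h2 := bO v hv
      have h3 := bd c v hv
      rw [abs_le] at h1 h2 h3 ⊢
      constructor <;> linarith [h1.1, h1.2, h2.1, h2.2, h3.1, h3.2])
    (cO.add (by fun_prop))
    (fun v hv => by
      have h2 := bO v hv
      have h3 := bd S.s v hv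
      rw [abs_le] at h2 h3 ⊢
      constructor <;> linarith [h2.1, h2.2, h3.1, h3.2])
  have fin : Jr (fun v => (FE F v).re + (S.s - c) * v ^ 5) x =
      Jr (fun v => (FE F v).re + (-(S.E v).re - c * v ^ 5) + ((S.E v).re + S.s * v ^ 5)) x :=
    Jr_congr hx.1 fun v _ => by ring
  rw [fin, sum, mul_add, ftc, ← old]
  ring

/-- one Newton step -/
theorem step {P : Par} {θ d B a e μ : ℝ} {S : St} {w : ℂ → ℂ} (N : Num P θ d B a)
    (h : InvC P θ d B S) (k : InvK P θ B S) (r : InvR P θ d e S)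
    (W : WOK θ P.η a μ S.zp S.zm S.h S.ρ S.U S.E w) :
    ∃ S', InvC P (θ - 8 * d) (d / 2) (B + a / d ^ ex) S' ∧ InvK P (θ - 8 * d) (B + a / d ^ ex) S' ∧
      InvR P (θ - 8 * d) (d / 2) (a ^ 2 / d ^ ex) S' ∧
      (∀ x, |S'.g x - S.g x| ≤ a / d ^ ex * (1 + |x|)) ∧
      ∀ x ∈ Ioo (0 : ℝ) 1, S'.g (S.Hp x).re ≤
        S.g (S.Hp x).re + 2 * P.q * (S.Tp x).re * (w x).re + a ^ 2 / d ^ ex := by
  obtain ⟨F, H⟩ := stp_fam N h W.dw W.rw W.w0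
  obtain ⟨U, hU⟩ := H.invC N h
  obtain ⟨g, g0, rep, lip, br, lc, last⟩ := H.bodies N h r
  obtain ⟨-, -, -, -, dE, rE, bE⟩ := H.err N h W
  obtain ⟨-, dl1, -, -, -, e1, h100, h64⟩ := N.small
  have d0 := N.d0
  have th1 := N.th1
  have th2 := N.th2
  have tp : (0 : ℝ) < th0 := th0_pos
  have d1 : d ≤ 1 := by linarith [del1_small]
  have t8 : 0 ≤ θ - 8 * d := by linarith
  have sub : Sec (θ - 8 * d) ⊆ Sec (θ - 6 * d) := Sec_mono t8 (by linarith)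
  have one : |(1 : ℝ)| ≤ 2 := by norm_num
  have x1 := stp_ex N.a0.le d0 d1
  have x2 := stp_ex (sq_nonneg a) d0 d1
  refine ⟨newSt S F U (g 1) (S.s - P.η * ((ell S.U w).re - μ)),
    (hU _ _).mono t8 le_rfl le_rfl (by linarith), H.invK N h k _ _ _,
    ⟨dE.mono sub, fun x hx => rE x (sub hx), fun ξ hξ => bE ξ (sub hξ),
      H.rep_new N h (hU _ _) (rep 1 one), br, fun x y hp hx => ?_,
      fun x hx => stp_lA N h r W H g0 rep lip lc hx⟩, fun x => ?_, fun x hx => ?_⟩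
  · have xs : (x : ℂ) ∈ Sec (θ - 3 * d) := Sec_mono t8 (by linarith) hp.1
    have g1 : (((1 : ℝ) : ℂ), (x : ℂ)) ∈ G1 (θ - 3 * d) (d ^ 6 / a) :=
      stp_G1 (by linarith) (by linarith) (by linarith) one xs
    have h0 := H.hl.h0 _ g1
    have h1 : ‖(y : ℂ) - F.h (1, x)‖ < d / 2 / 1000 * ‖(x : ℂ)‖ := hp.2
    simp only [Complex.ofReal_one] at h0
    have h3 : ‖(x : ℂ)‖ ≤ 2 := stp_two (by linarith) (by linarith : θ - 3 * d ≤ th0) xs
    have := lc 1 x y one hx ⟨xs, by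
      show ‖((1 : ℝ) : ℂ)‖ * ‖(x : ℂ)‖ ^ 2 < d ^ 4 / a / 8
      rw [Complex.ofReal_one, norm_one]
      nlinarith [norm_nonneg (x : ℂ)], by
      show ‖(y : ℂ) - S.h x‖ < d / 1000 * ‖(x : ℂ)‖
      have h4 : ‖(y : ℂ) - S.h x‖ ≤ ‖(y : ℂ) - F.h (1, x)‖ + ‖F.h (1, x) - S.h x‖ :=
        norm_sub_le_norm_sub_add_norm_sub _ _ _
      have h5 : 0 ≤ d * ‖(x : ℂ)‖ := by positivity
      linarith⟩
    rw [Complex.ofReal_one] at this
    exact this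
  · have h1 := lip 1 0 one (by norm_num) x
    rw [g0] at h1
    show |g 1 x - S.g x| ≤ _
    have h2 : |g 1 x - S.g x| ≤ a / d ^ 12 * (1 + |x|) := by simpa using h1
    exact h2.trans (mul_le_mul_of_nonneg_right x1 (by positivity))
  · have h1 := last x hx
    show g 1 (S.Hp x).re ≤ _
    linarith

end BonN
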